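import Pool.Agent.H33.Prom.Defs

/-!
# JOB PRO-ALG: infinitely many non-proportional polynomials cannot divide a quasipolynomial

Proof.  Let `q` be given by `m` and `p_0, …, p_{m-1}`.  Suppose that for all `i, k` with
`N0 ≤ a i + d i * k` the integer `L (a i + d i k)` divides the integer `q (a i + d i k)`.
Fix `i`, let `r = a i mod m`.  For `k ∈ m ℕ`, `x = a i + d i k ≡ r mod m`, so `p_r (x) = q (x)` is a
nonzero integer divisible by `f_i (x)` for all large such `x`.  A real polynomial with rational values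
at infinitely many rational points has rational coefficients (Lagrange interpolation), so
`p_r = P` with `P ∈ ℚ[X]`, `P ≠ 0`.  Division with remainder `P = f_i * s + t` over `ℚ`, `deg t < 3`;
with a common denominator `D` of `s`, `D t(x) / f_i(x) = D P(x)/f_i(x) - D s(x)` is an integer, and
tends to `0`, so `t(x) = 0` for all large `x` in the progression, `t = 0` and `f_i ∣ P`.
Hence all `f_i` divide the nonzero polynomial `Π` = product over the residues `r` of the nonzero `p_r`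
(those with rational coefficients).  A nonzero polynomial over a field has finitely many
divisors up to constants, and `coeff 2 / coeff 3` does not change under multiplication by constants,
so `{coeff 2 / coeff 3 of f_i}` is finite, contradiction to `hub`.
(Alternative for the last step: all roots of `f_i` are roots of `Π`, so they are bounded, and
`-coeff 2 / coeff 3` is the sum of the three roots.)
-/

namespace H33.Prom

open Polynomial

/-- Finitely many coefficient ratios of divisors. -/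
theorem Alg.finite_ratio (Q : ℝ[X]) (hQ : Q ≠ 0) :
    {c : ℝ | ∃ g : ℝ[X], g ∣ Q ∧ c = g.coeff 2 / g.coeff 3}.Finite := by
  classical
  have hfin : (Set.Iic (UniqueFactorizationMonoid.normalizedFactors Q)).Finite :=
    Set.finite_Iic _
  refine (hfin.image (fun s : Multiset ℝ[X] => s.prod.coeff 2 / s.prod.coeff 3)).subset ?_
  rintro c ⟨g, hg, rfl⟩
  have hg0 : g ≠ 0 := ne_zero_of_dvd_ne_zero hQ hg
  refine ⟨UniqueFactorizationMonoid.normalizedFactors g,
    (UniqueFactorizationMonoid.dvd_iff_normalizedFactors_le_normalizedFactors hg0 hQ).1 hg, ?_⟩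
  obtain ⟨u, hu⟩ := (UniqueFactorizationMonoid.prod_normalizedFactors hg0).symm
  obtain ⟨b, hb, hb2⟩ := Polynomial.isUnit_iff.1 u.isUnit
  have hb0 : b ≠ 0 := hb.ne_zero
  simp only
  rw [← hu, ← hb2, Polynomial.coeff_mul_C, Polynomial.coeff_mul_C, mul_div_mul_right _ _ hb0]

/-- A real polynomial with rational values at infinitely many rationals is rational. -/
theorem Alg.rational_of_values (p : ℝ[X]) (x : ℕ → ℚ) (hx : Function.Injective x) (v : ℕ → ℚ)
    (h : ∀ k, p.eval (x k : ℝ) = v k) :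
    ∃ P : ℚ[X], P.map (algebraMap ℚ ℝ) = p ∧ ∀ k, P.eval (x k) = v k := by
  classical
  have hinj : Set.InjOn x (Finset.range (p.natDegree + 1) : Finset ℕ) := hx.injOn
  set P : ℚ[X] := Lagrange.interpolate (Finset.range (p.natDegree + 1)) x v with hPdef
  have hdeg : P.degree < (Finset.range (p.natDegree + 1)).card := Lagrange.degree_interpolate_lt v hinj
  have hmap : P.map (algebraMap ℚ ℝ) = p := by
    refine Polynomial.eq_of_degrees_lt_of_eval_index_eq (v := fun k => (x k : ℝ))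
      (Finset.range (p.natDegree + 1)) ?_ ?_ ?_ ?_
    · intro a _ b _ hab
      have hab' : ((x a : ℚ) : ℝ) = ((x b : ℚ) : ℝ) := hab
      exact hx (by exact_mod_cast hab')
    · exact lt_of_le_of_lt (Polynomial.degree_map_le) hdeg
    · rw [Finset.card_range]
      exact lt_of_le_of_lt Polynomial.degree_le_natDegree (by exact_mod_cast Nat.lt_succ_self _)
    · intro k hk
      have h1 : P.eval (x k) = v k := Lagrange.eval_interpolate_at_node v hinj hk
      rw [h k, ← h1]
      have := Polynomial.eval_map_apply (p := P) (f := algebraMap ℚ ℝ) (x := x k)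
      simpa using this
  refine ⟨P, hmap, fun k => ?_⟩
  have h2 := Polynomial.eval_map_apply (p := P) (f := algebraMap ℚ ℝ) (x := x k)
  rw [hmap] at h2
  have h3 : (algebraMap ℚ ℝ) (x k) = ((x k : ℚ) : ℝ) := rfl
  have h4 : (algebraMap ℚ ℝ) (P.eval (x k)) = ((P.eval (x k) : ℚ) : ℝ) := rfl
  rw [h3, h4, h k] at h2
  exact_mod_cast h2.symm

/-- Divisibility from divisibility of values. -/
theorem Alg.dvd_of_values (f P : ℚ[X]) (hf : f.natDegree = 3) (x : ℕ → ℕ) (hx : StrictMono x)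
    (h : ∀ k, ∃ w : ℤ, P.eval (x k : ℚ) = f.eval (x k : ℚ) * w) : f ∣ P := by
  classical
  have hf0 : f ≠ 0 := by
    rintro rfl
    simp at hf
  set s := P / f with hs
  set t := P % f with ht
  have hPst : f * s + t = P := EuclideanDomain.div_add_mod P f
  have htdeg : t.degree < f.degree := Polynomial.degree_mod_lt P hf0
  by_cases ht0 : t = 0
  · exact ⟨s, by rw [← hPst, ht0, add_zero]⟩
  exfalso
  obtain ⟨D, hDM, hD⟩ := IsLocalization.integerNormalization_spec (nonZeroDivisors ℤ) s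
  set s' := IsLocalization.integerNormalization (nonZeroDivisors ℤ) s with hs'
  have hD0 : (D : ℤ) ≠ 0 := nonZeroDivisors.ne_zero hDM
  have hs'eval : ∀ n : ℕ, ((s'.eval (n : ℤ) : ℤ) : ℚ) = (D : ℤ) * s.eval (n : ℚ) := by
    intro n
    have h1 := congrArg (Polynomial.eval (n : ℚ)) hD
    rw [show ((D : ℤ) • s) = Polynomial.C (((D : ℤ) : ℚ)) * s from by
      rw [← Polynomial.smul_eq_C_mul]
      ext k
      simp [Polynomial.coeff_smul]] at h1
    rw [Polynomial.eval_mul, Polynomial.eval_C] at h1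
    rw [← h1]
    simp
  -- the little o estimate
  set T : ℝ[X] := (Polynomial.C (((D : ℤ) : ℚ)) * t).map (algebraMap ℚ ℝ) with hT
  set F : ℝ[X] := f.map (algebraMap ℚ ℝ) with hF
  have hdeg : T.degree < F.degree := by
    rw [hT, hF, Polynomial.degree_map, Polynomial.degree_map,
      Polynomial.degree_C_mul (by exact_mod_cast hD0)]
    exact htdeg
  have hF0 : F ≠ 0 := by
    rw [hF]
    exact (Polynomial.map_ne_zero_iff (algebraMap ℚ ℝ).injective).2 hf0
  have hT0 : T ≠ 0 := by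
    rw [hT]
    refine (Polynomial.map_ne_zero_iff (algebraMap ℚ ℝ).injective).2 ?_
    exact mul_ne_zero (Polynomial.C_ne_zero.2 (by exact_mod_cast hD0)) ht0
  have hev := (Polynomial.isLittleO_atTop_of_degree_lt T F hdeg).def (c := 1 / 2) (by norm_num)
  have hev2 := Polynomial.eventually_atTop_not_isRoot F hF0
  have hev3 := Polynomial.eventually_atTop_not_isRoot T hT0
  have htend : Filter.Tendsto (fun k => ((x k : ℕ) : ℝ)) Filter.atTop Filter.atTop :=
    tendsto_natCast_atTop_atTop.comp hx.tendsto_atTop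
  obtain ⟨k, hk1, hk2, hk3⟩ := (htend.eventually (hev.and (hev2.and hev3))).exists
  obtain ⟨w, hw⟩ := h k
  have hTe : T.eval ((x k : ℕ) : ℝ) = (((D : ℤ) : ℚ) * t.eval (x k : ℚ) : ℚ) := by
    have h2 := Polynomial.eval_map_apply (p := Polynomial.C (((D : ℤ) : ℚ)) * t)
      (f := algebraMap ℚ ℝ) (x := (x k : ℚ))
    rw [Polynomial.eval_mul, Polynomial.eval_C] at h2
    rw [hT]
    simpa using h2
  have hFe : F.eval ((x k : ℕ) : ℝ) = ((f.eval (x k : ℚ) : ℚ) : ℝ) := by
    have h2 := Polynomial.eval_map_apply (p := f) (f := algebraMap ℚ ℝ) (x := (x k : ℚ))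
    rw [hF]
    simpa using h2
  have hkey : ((D : ℤ) : ℚ) * t.eval (x k : ℚ) =
      f.eval (x k : ℚ) * (((D : ℤ) * w - s'.eval (x k : ℤ) : ℤ) : ℚ) := by
    have h1 := congrArg (Polynomial.eval (x k : ℚ)) hPst
    rw [Polynomial.eval_add, Polynomial.eval_mul, hw] at h1
    push_cast
    rw [hs'eval]
    linear_combination ((D : ℤ) : ℚ) * h1
  rw [Polynomial.IsRoot.def] at hk2 hk3
  have hn0 : (D : ℤ) * w - s'.eval (x k : ℤ) ≠ 0 := by
    intro h0
    rw [h0] at hkey
    apply hk3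
    rw [hTe, hkey]
    simp
  have hn1 : (1 : ℝ) ≤ |(((D : ℤ) * w - s'.eval (x k : ℤ) : ℤ) : ℝ)| := by
    have := Int.one_le_abs hn0
    exact_mod_cast this
  rw [hTe, hkey, hFe, Real.norm_eq_abs, Real.norm_eq_abs] at hk1
  rw [hFe] at hk2
  have hpos : 0 < |((f.eval (x k : ℚ) : ℚ) : ℝ)| := abs_pos.2 hk2
  rw [Rat.cast_mul, abs_mul] at hk1
  have h5 : |(((((D : ℤ) * w - s'.eval (x k : ℤ) : ℤ) : ℚ)) : ℝ)| =
      |(((D : ℤ) * w - s'.eval (x k : ℤ) : ℤ) : ℝ)| := by
    rw [Rat.cast_intCast]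
  rw [h5] at hk1
  nlinarith

theorem alg_main (a d : ℕ → ℕ) (hd : ∀ i, 0 < d i) (f : ℕ → ℚ[X])
    (hdeg : ∀ i, (f i).natDegree = 3)
    (hub : ∀ B : ℚ, ∃ i, B < |(f i).coeff 2 / (f i).coeff 3|)
    (L : ℕ → ℕ)
    (hL : ∀ i k, ((L (a i + d i * k) : ℕ) : ℚ) = (f i).eval (((a i + d i * k : ℕ) : ℚ)))
    (q : ℤ → ℝ) (hq : IsQuasiPolynomial q)
    (hq' : ∃ N1 : ℤ, ∀ n ≥ N1, ∃ z : ℤ, z ≠ 0 ∧ q n = z) (N0 : ℕ) :
    ∃ i k, N0 ≤ a i + d i * k ∧
      ∀ z : ℤ, q ((a i + d i * k : ℕ) : ℤ) = z → ¬ ((L (a i + d i * k) : ℤ) ∣ z) := by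
  classical
  by_contra hcon
  push Not at hcon
  obtain ⟨m, hm, p, hp⟩ := hq
  obtain ⟨N1, hN1⟩ := hq'
  have key : ∀ i, p ((a i : ℤ) % m) ≠ 0 ∧
      (f i).map (algebraMap ℚ ℝ) ∣ p ((a i : ℤ) % m) := by
    intro i
    set M := N0 + N1.toNat with hM
    set x : ℕ → ℕ := fun k => a i + d i * (m * (k + M)) with hx
    have hxm : StrictMono x := by
      intro k l hkl
      have h1 : m * (k + M) < m * (l + M) := Nat.mul_lt_mul_of_pos_left (by omega) (by omega)
      have h2 := Nat.mul_lt_mul_of_pos_left h1 (hd i)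
      simp only [hx]
      omega
    have hxge : ∀ k, M ≤ x k := by
      intro k
      have h1 : 1 * (k + M) ≤ m * (k + M) := Nat.mul_le_mul_right _ hm
      have h2 : 1 * (m * (k + M)) ≤ d i * (m * (k + M)) := Nat.mul_le_mul_right _ (hd i)
      simp only [hx]
      omega
    have hxmod : ∀ k, ((x k : ℕ) : ℤ) % m = (a i : ℤ) % m := by
      intro k
      simp only [hx]
      push_cast
      rw [show (a i : ℤ) + (d i : ℤ) * ((m : ℤ) * ((k : ℤ) + (M : ℤ))) =
        (a i : ℤ) + (m : ℤ) * ((d i : ℤ) * ((k : ℤ) + (M : ℤ))) by ring]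
      exact Int.add_mul_emod_self_left _ _ _
    have hz : ∀ k, ∃ z : ℤ, z ≠ 0 ∧ (p ((a i : ℤ) % m)).eval ((x k : ℕ) : ℝ) = z ∧
        ∃ w : ℤ, (z : ℚ) = (f i).eval ((x k : ℕ) : ℚ) * w := by
      intro k
      obtain ⟨z, hz1, w, hz2⟩ := hcon i (m * (k + M)) (le_trans (by omega) (hxge k))
      obtain ⟨z', hz'0, hz'1⟩ := hN1 ((x k : ℕ) : ℤ) (by
        have := hxge k
        omega)
      have hzz : z = z' := by
        have h1 : (z : ℝ) = z' := by rw [← hz1, ← hz'1]
        exact_mod_cast h1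
      refine ⟨z, hzz ▸ hz'0, ?_, w, ?_⟩
      · rw [← hz1, hp, hxmod k]
        norm_cast
      · rw [hz2]
        push_cast
        rw [hL i (m * (k + M))]
    choose z hz0 hz1 w hz2 using hz
    have hne : p ((a i : ℤ) % m) ≠ 0 := by
      intro h0
      have := hz1 0
      rw [h0, Polynomial.eval_zero] at this
      exact hz0 0 (by exact_mod_cast this.symm)
    refine ⟨hne, ?_⟩
    obtain ⟨P, hP1, hP2⟩ := Alg.rational_of_values (p ((a i : ℤ) % m)) (fun k => ((x k : ℕ) : ℚ))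
      (fun k l hkl => by
        have hkl' : ((x k : ℕ) : ℚ) = ((x l : ℕ) : ℚ) := hkl
        exact hxm.injective (by exact_mod_cast hkl')) (fun k => ((z k : ℤ) : ℚ))
      (fun k => by
        have := hz1 k
        push_cast
        exact_mod_cast this)
    have hdvd : f i ∣ P := Alg.dvd_of_values (f i) P (hdeg i) x hxm
      (fun k => ⟨w k, by rw [← hz2 k]; exact hP2 k⟩)
    rw [← hP1]
    exact Polynomial.map_dvd _ hdvd
  set T : Set ℤ := {r | r ∈ Set.Ico (0 : ℤ) m ∧ p r ≠ 0} with hT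
  have hTfin : T.Finite := (Set.finite_Ico (0 : ℤ) m).subset (fun r hr => hr.1)
  have hS : (⋃ r ∈ T, {c : ℝ | ∃ g : ℝ[X], g ∣ p r ∧ c = g.coeff 2 / g.coeff 3}).Finite :=
    Set.Finite.biUnion hTfin (fun r hr => Alg.finite_ratio (p r) hr.2)
  obtain ⟨B, hB⟩ := (hS.image (fun c => |c|)).bddAbove
  obtain ⟨i, hi⟩ := hub ((⌈B⌉ : ℤ) : ℚ)
  have hmem : ((((f i).coeff 2 / (f i).coeff 3 : ℚ)) : ℝ) ∈
      (⋃ r ∈ T, {c : ℝ | ∃ g : ℝ[X], g ∣ p r ∧ c = g.coeff 2 / g.coeff 3}) := by
    rw [Set.mem_iUnion₂]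
    refine ⟨(a i : ℤ) % m, ⟨⟨Int.emod_nonneg _ (by omega), Int.emod_lt_of_pos _ (by omega)⟩,
      (key i).1⟩, (f i).map (algebraMap ℚ ℝ), (key i).2, ?_⟩
    rw [Polynomial.coeff_map, Polynomial.coeff_map]
    simp
  have h1 := hB ⟨_, hmem, rfl⟩
  have h2 : ((((⌈B⌉ : ℤ) : ℚ)) : ℝ) < |((((f i).coeff 2 / (f i).coeff 3 : ℚ)) : ℝ)| := by
    have : (((((⌈B⌉ : ℤ) : ℚ)) : ℝ)) < ((|(f i).coeff 2 / (f i).coeff 3| : ℚ) : ℝ) := by
      exact_mod_cast hi
    rwa [Rat.cast_abs] at this
  have h3 : B ≤ ((((⌈B⌉ : ℤ) : ℚ)) : ℝ) := by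
    rw [Rat.cast_intCast]
    exact Int.le_ceil B
  simp only at h1
  linarith

end H33.Prom
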