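import Pool.Agent.H33.Prom.Model

/-!
# JOB PRO-BRIDGE: promotion of tableaux of shape `(n-6,5,1)` is the particle dynamics

Proof of `promote_fil`.  Let `a_0 = 1 < a_1 < …` be the first row (the complement of the six
entries `p1..p6`), `b_0 < … < b_4` the second row, `r` the entry of the third row.  For a column
`c ≤ 4` the number of first row entries smaller than `b_c` is `b_c - 1 - c - [r < b_c]`, so that
validity (`lowB`) says `a_c < b_c`, and `b_c < a_(c+1)` iff `b_c` is equal to its lower bound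
(`2(c+1)` if `b_c < r`, `2(c+1)+1` if `r < b_c`; the index of `b_c` among `p1..p6` is `c+1` resp. `c+2`).
So the hole moves right along the first row up to the first column `c` where `b_c` equals its lower
bound (or to the end `n-7` of the row if there is none), then down to `(1,c)`; if `c = 0` and
`r < b_1` (this is `m = 2`, `i = 1`) it moves down again to `(2,0)` and stops, otherwise it moves
right to `(1,4)` and stops.  After the slides the first row is `a_1 … a_c b_c a_(c+1) …` (increasing),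
and a strictly increasing enumeration of a set is unique, so after subtracting `1` it is the
enumeration of the complement of the new six entries.
-/

namespace H33.Prom

/-! ### slides on fillings with three rows -/

/-- filling with rows `a`, `b`, `r` -/
def mkF (a b : ℕ → ℕ) (r : ℕ) : ℕ × ℕ → ℕ
  | (0, j) => a j
  | (1, j) => b j
  | (2, 0) => r
  | (_, _) => 0

lemma mkF_two_succ (a b : ℕ → ℕ) (r j : ℕ) : mkF a b r (2, j + 1) = 0 := rfl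

lemma mkF_three (a b : ℕ → ℕ) (r i j : ℕ) : mkF a b r (i + 3, j) = 0 := rfl

lemma mkF_two_pos (a b : ℕ → ℕ) (r j : ℕ) (hj : 1 ≤ j) : mkF a b r (2, j) = 0 := by
  obtain ⟨k, rfl⟩ : ∃ k, j = k + 1 := ⟨j - 1, by omega⟩
  rfl

lemma mkF_ext {f : ℕ × ℕ → ℕ} {a b : ℕ → ℕ} {r : ℕ} (h0 : ∀ j, f (0, j) = a j)
    (h1 : ∀ j, f (1, j) = b j) (h2 : f (2, 0) = r) (h3 : ∀ j, f (2, j + 1) = 0)
    (h4 : ∀ i j, f (i + 3, j) = 0) : f = mkF a b r := by
  funext x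
  obtain ⟨i, j⟩ := x
  match i with
  | 0 => exact h0 j
  | 1 => exact h1 j
  | 2 =>
    match j with
    | 0 => exact h2
    | j + 1 => exact h3 j
  | i + 3 => exact h4 i j

lemma mkF_update0 (a b : ℕ → ℕ) (r j v : ℕ) :
    Function.update (mkF a b r) (0, j) v = mkF (Function.update a j v) b r := by
  refine mkF_ext ?_ ?_ ?_ ?_ ?_
  · intro i
    by_cases h : i = j
    · rw [h, Function.update_self, Function.update_self]
    · rw [Function.update_of_ne h, Function.update_of_ne (fun h' => h (Prod.mk.inj h').2)]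
      rfl
  · intro i
    rw [Function.update_of_ne (by simp)]
    rfl
  · rw [Function.update_of_ne (by simp)]
    rfl
  · intro i
    rw [Function.update_of_ne (by simp)]
    rfl
  · intro i k
    rw [Function.update_of_ne (by simp)]
    rfl

lemma mkF_update1 (a b : ℕ → ℕ) (r j v : ℕ) :
    Function.update (mkF a b r) (1, j) v = mkF a (Function.update b j v) r := by
  refine mkF_ext ?_ ?_ ?_ ?_ ?_
  · intro i
    rw [Function.update_of_ne (by simp)]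
    rfl
  · intro i
    by_cases h : i = j
    · rw [h, Function.update_self, Function.update_self]
    · rw [Function.update_of_ne h, Function.update_of_ne (fun h' => h (Prod.mk.inj h').2)]
      rfl
  · rw [Function.update_of_ne (by simp)]
    rfl
  · intro i
    rw [Function.update_of_ne (by simp)]
    rfl
  · intro i k
    rw [Function.update_of_ne (by simp)]
    rfl

lemma slide_right0 {a b : ℕ → ℕ} {r j : ℕ} (h1 : a (j + 1) ≠ 0)
    (h2 : b j = 0 ∨ a (j + 1) < b j) :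
    slide (mkF a b r, (0, j)) = (mkF (Function.update a j (a (j + 1))) b r, (0, j + 1)) := by
  show (if a (j + 1) = 0 ∧ b j = 0 then (mkF a b r, (0, j)) else
    if b j = 0 ∨ (a (j + 1) ≠ 0 ∧ a (j + 1) < b j) then
      (Function.update (mkF a b r) (0, j) (a (j + 1)), (0, j + 1)) else
      (Function.update (mkF a b r) (0, j) (b j), (0 + 1, j))) = _
  rw [if_neg (fun h => h1 h.1), if_pos (h2.imp_right fun h => ⟨h1, h⟩), mkF_update0]

lemma slide_down0 {a b : ℕ → ℕ} {r j : ℕ} (h1 : b j ≠ 0)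
    (h2 : b j < a (j + 1)) :
    slide (mkF a b r, (0, j)) = (mkF (Function.update a j (b j)) b r, (1, j)) := by
  show (if a (j + 1) = 0 ∧ b j = 0 then (mkF a b r, (0, j)) else
    if b j = 0 ∨ (a (j + 1) ≠ 0 ∧ a (j + 1) < b j) then
      (Function.update (mkF a b r) (0, j) (a (j + 1)), (0, j + 1)) else
      (Function.update (mkF a b r) (0, j) (b j), (0 + 1, j))) = _
  rw [if_neg (fun h => h1 h.2), if_neg, mkF_update0]
  rintro (h | h)
  · exact h1 h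
  · omega

lemma slide_right1 {a b : ℕ → ℕ} {r j : ℕ} (h1 : b (j + 1) ≠ 0)
    (h2 : mkF a b r (2, j) = 0 ∨ b (j + 1) < mkF a b r (2, j)) :
    slide (mkF a b r, (1, j)) = (mkF a (Function.update b j (b (j + 1))) r, (1, j + 1)) := by
  show (if b (j + 1) = 0 ∧ mkF a b r (2, j) = 0 then (mkF a b r, (1, j)) else
    if mkF a b r (2, j) = 0 ∨ (b (j + 1) ≠ 0 ∧ b (j + 1) < mkF a b r (2, j)) then
      (Function.update (mkF a b r) (1, j) (b (j + 1)), (1, j + 1)) else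
      (Function.update (mkF a b r) (1, j) (mkF a b r (2, j)), (1 + 1, j))) = _
  rw [if_neg (fun h => h1 h.1), if_pos (h2.imp_right fun h => ⟨h1, h⟩), mkF_update1]

lemma slide_down1 {a b : ℕ → ℕ} {r : ℕ} (h1 : r ≠ 0) (h2 : r < b 1) :
    slide (mkF a b r, (1, 0)) = (mkF a (Function.update b 0 r) r, (2, 0)) := by
  show (if b 1 = 0 ∧ r = 0 then (mkF a b r, (1, 0)) else
    if r = 0 ∨ (b 1 ≠ 0 ∧ b 1 < r) then
      (Function.update (mkF a b r) (1, 0) (b 1), (1, 1)) else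
      (Function.update (mkF a b r) (1, 0) r, (1 + 1, 0))) = _
  rw [if_neg (fun h => h1 h.2), if_neg, mkF_update1]
  rintro (h | h)
  · exact h1 h
  · omega

lemma slide_fix0 {a b : ℕ → ℕ} {r j : ℕ} (h1 : a (j + 1) = 0) (h2 : b j = 0) :
    slide (mkF a b r, (0, j)) = (mkF a b r, (0, j)) := by
  show (if a (j + 1) = 0 ∧ b j = 0 then (mkF a b r, (0, j)) else
    if b j = 0 ∨ (a (j + 1) ≠ 0 ∧ a (j + 1) < b j) then
      (Function.update (mkF a b r) (0, j) (a (j + 1)), (0, j + 1)) else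
      (Function.update (mkF a b r) (0, j) (b j), (0 + 1, j))) = _
  rw [if_pos ⟨h1, h2⟩]

lemma slide_fix1 {a b : ℕ → ℕ} {r j : ℕ} (h1 : b (j + 1) = 0) (h2 : mkF a b r (2, j) = 0) :
    slide (mkF a b r, (1, j)) = (mkF a b r, (1, j)) := by
  show (if b (j + 1) = 0 ∧ mkF a b r (2, j) = 0 then (mkF a b r, (1, j)) else
    if mkF a b r (2, j) = 0 ∨ (b (j + 1) ≠ 0 ∧ b (j + 1) < mkF a b r (2, j)) then
      (Function.update (mkF a b r) (1, j) (b (j + 1)), (1, j + 1)) else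
      (Function.update (mkF a b r) (1, j) (mkF a b r (2, j)), (1 + 1, j))) = _
  rw [if_pos ⟨h1, h2⟩]

lemma slide_fix2 {a b : ℕ → ℕ} {r : ℕ} :
    slide (mkF a b r, (2, 0)) = (mkF a b r, (2, 0)) := rfl

lemma iter0 {a b : ℕ → ℕ} {r : ℕ} (c : ℕ)
    (h : ∀ i, i < c → a (i + 1) ≠ 0 ∧ (b i = 0 ∨ a (i + 1) < b i)) :
    slide^[c] (mkF a b r, (0, 0)) =
      (mkF (fun i => if i < c then a (i + 1) else a i) b r, (0, c)) := by
  induction c with
  | zero => simp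
  | succ c ih =>
    rw [Function.iterate_succ_apply', ih fun i hi => h i (by omega), slide_right0]
    · congr 2
      funext i
      by_cases hi : i = c
      · rw [hi, Function.update_self, if_pos (Nat.lt_succ_self c), if_neg (by omega)]
      · rw [Function.update_of_ne hi]
        by_cases hi' : i < c
        · rw [if_pos hi', if_pos (by omega)]
        · rw [if_neg hi', if_neg (by omega)]
    · show (if c + 1 < c then a (c + 1 + 1) else a (c + 1)) ≠ 0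
      rw [if_neg (by omega)]
      exact (h c (by omega)).1
    · show b c = 0 ∨ (if c + 1 < c then a (c + 1 + 1) else a (c + 1)) < b c
      rw [if_neg (by omega)]
      exact (h c (by omega)).2

lemma iter1 {a b : ℕ → ℕ} {r : ℕ} (c d : ℕ)
    (h : ∀ i, c ≤ i → i < c + d → b (i + 1) ≠ 0) (h0 : c = 0 → b 1 < r) :
    slide^[d] (mkF a b r, (1, c)) =
      (mkF a (fun i => if c ≤ i ∧ i < c + d then b (i + 1) else b i) r, (1, c + d)) := by
  induction d with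
  | zero =>
    rw [Function.iterate_zero, id]
    congr 2
    funext i
    rw [if_neg (by omega)]
  | succ d ih =>
    rw [Function.iterate_succ_apply', ih fun i hi hi' => h i hi (by omega), slide_right1]
    · congr 2
      funext i
      by_cases hi : i = c + d
      · rw [hi, Function.update_self, if_neg (by omega), if_pos (by omega)]
      · rw [Function.update_of_ne hi]
        by_cases hi' : c ≤ i ∧ i < c + d
        · rw [if_pos hi', if_pos (by omega)]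
        · rw [if_neg hi', if_neg (by omega)]
    · show (if c ≤ c + d + 1 ∧ c + d + 1 < c + d then b (c + d + 1 + 1) else b (c + d + 1)) ≠ 0
      rw [if_neg (by omega)]
      exact h (c + d) (by omega) (by omega)
    · rcases Nat.eq_zero_or_pos (c + d) with hcd | hcd
      · right
        have hc : c = 0 := by omega
        have hd : d = 0 := by omega
        subst hc
        subst hd
        show (if 0 ≤ 0 + 0 + 1 ∧ 0 + 0 + 1 < 0 + 0 then b (0 + 0 + 1 + 1) else b (0 + 0 + 1)) < r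
        rw [if_neg (by omega)]
        exact h0 rfl
      · left
        exact mkF_two_pos _ _ _ _ hcd

lemma iterate_fix {α : Type*} {f : α → α} {x : α} (h : f x = x) (k : ℕ) : f^[k] x = x :=
  Function.iterate_fixed h k

lemma promote_stop {n : ℕ} {a b : ℕ → ℕ} {r : ℕ} (hn : 5 ≤ n) (c : ℕ) (hc : c ≤ 4)
    (h : ∀ i, i < c → a (i + 1) ≠ 0 ∧ a (i + 1) < b i) (hbc : b c ≠ 0) (hbc' : b c < a (c + 1))
    (hb : ∀ i, i < 4 → b (i + 1) ≠ 0) (hb5 : b 5 = 0) (hr : c = 0 → b 1 < r) :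
    promote n (mkF a b r) =
      mkF (fun i => (if i < c then a (i + 1) else if i = c then b c else a i) - 1)
        (fun i => if i = 4 then n else (if c ≤ i ∧ i < 4 then b (i + 1) else b i) - 1)
        (r - 1) := by
  have e1 := iter0 (b := b) (r := r) c fun i hi => ⟨(h i hi).1, Or.inr (h i hi).2⟩
  have e2 : slide^[1 + c] (mkF a b r, (0, 0)) =
      (mkF (fun i => if i < c then a (i + 1) else if i = c then b c else a i) b r, (1, c)) := by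
    rw [Function.iterate_add_apply, e1, Function.iterate_one, slide_down0 hbc]
    · congr 2
      funext i
      by_cases hi : i = c
      · rw [hi, Function.update_self, if_neg (by omega), if_pos rfl]
      · rw [Function.update_of_ne hi]
        by_cases hi' : i < c
        · rw [if_pos hi', if_pos hi']
        · rw [if_neg hi', if_neg hi', if_neg hi]
    · show b c < (if c + 1 < c then a (c + 1 + 1) else a (c + 1))
      rw [if_neg (by omega)]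
      exact hbc'
  have e3 := iter1 (a := fun i => if i < c then a (i + 1) else if i = c then b c else a i)
    (r := r) c (4 - c) (fun i _ hi => hb i (by omega)) hr
  have h4 : c + (4 - c) = 4 := by omega
  rw [h4] at e3
  have e4 : slide^[n] (mkF a b r, (0, 0)) =
      (mkF (fun i => if i < c then a (i + 1) else if i = c then b c else a i)
        (fun i => if c ≤ i ∧ i < 4 then b (i + 1) else b i) r, (1, 4)) := by
    have h5 : n = (n - 5) + ((4 - c) + (1 + c)) := by omega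
    rw [h5, Function.iterate_add_apply, Function.iterate_add_apply, e2, e3]
    refine iterate_fix (slide_fix1 ?_ ?_) _
    · show (if c ≤ 4 + 1 ∧ 4 + 1 < 4 then b (4 + 1 + 1) else b (4 + 1)) = 0
      rw [if_neg (by omega)]
      exact hb5
    · rfl
  show (fun x => if x = (slide^[n] (mkF a b r, (0, 0))).2 then n else
    (slide^[n] (mkF a b r, (0, 0))).1 x - 1) = _
  rw [e4]
  refine mkF_ext ?_ ?_ ?_ ?_ ?_
  · intro i
    show (if ((0 : ℕ), i) = (1, 4) then n else _) = _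
    rw [if_neg (by simp)]
    rfl
  · intro i
    show (if ((1 : ℕ), i) = (1, 4) then n else _) = _
    by_cases hi : i = 4
    · rw [hi, if_pos rfl, if_pos rfl]
    · rw [if_neg (fun h' => hi (Prod.mk.inj h').2), if_neg hi]
      rfl
  · rfl
  · intro i
    rfl
  · intro i j
    show (if ((i + 3 : ℕ), j) = (1, 4) then n else _) = _
    rw [if_neg (by simp)]
    rfl

lemma promote_down {n : ℕ} {a b : ℕ → ℕ} {r : ℕ} (hn : 5 ≤ n) (hb0 : b 0 ≠ 0) (hb0' : b 0 < a 1)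
    (hr : r ≠ 0) (hr' : r < b 1) :
    promote n (mkF a b r) =
      mkF (fun i => (if i = 0 then b 0 else a i) - 1)
        (fun i => (if i = 0 then r else b i) - 1) n := by
  have e2 : slide (mkF a b r, (0, 0)) = (mkF (fun i => if i = 0 then b 0 else a i) b r, (1, 0)) := by
    rw [slide_down0 hb0 hb0']
    congr 2
    funext i
    by_cases hi : i = 0
    · rw [hi, Function.update_self, if_pos rfl]
    · rw [Function.update_of_ne hi, if_neg hi]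
  have e3 : slide (mkF (fun i => if i = 0 then b 0 else a i) b r, (1, 0)) =
      (mkF (fun i => if i = 0 then b 0 else a i) (fun i => if i = 0 then r else b i) r, (2, 0)) := by
    rw [slide_down1 hr hr']
    congr 2
    funext i
    by_cases hi : i = 0
    · rw [hi, Function.update_self, if_pos rfl]
    · rw [Function.update_of_ne hi, if_neg hi]
  have e4 : slide^[n] (mkF a b r, (0, 0)) =
      (mkF (fun i => if i = 0 then b 0 else a i) (fun i => if i = 0 then r else b i) r, (2, 0)) := by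
    have h5 : n = (n - 2) + (1 + 1) := by omega
    rw [h5, Function.iterate_add_apply, Function.iterate_add_apply, Function.iterate_one, e2, e3]
    exact iterate_fix slide_fix2 _
  show (fun x => if x = (slide^[n] (mkF a b r, (0, 0))).2 then n else
    (slide^[n] (mkF a b r, (0, 0))).1 x - 1) = _
  rw [e4]
  refine mkF_ext ?_ ?_ ?_ ?_ ?_
  · intro i
    show (if ((0 : ℕ), i) = (2, 0) then n else _) = _
    rw [if_neg (by simp)]
    rfl
  · intro i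
    show (if ((1 : ℕ), i) = (2, 0) then n else _) = _
    rw [if_neg (by simp)]
    rfl
  · show (if ((2 : ℕ), 0) = (2, 0) then n else _) = _
    rw [if_pos rfl]
  · intro i
    show (if ((2 : ℕ), i + 1) = (2, 0) then n else _) = _
    rw [if_neg (by simp)]
    rfl
  · intro i j
    show (if ((i + 3 : ℕ), j) = (2, 0) then n else _) = _
    rw [if_neg (by simp)]
    rfl

lemma promote_end {n : ℕ} {a b : ℕ → ℕ} {r : ℕ} (L : ℕ) (hL : 1 ≤ L) (hLn : L ≤ n)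
    (h : ∀ i, i + 1 < L → a (i + 1) ≠ 0 ∧ (b i = 0 ∨ a (i + 1) < b i)) (ha : a L = 0)
    (hb : b (L - 1) = 0) :
    promote n (mkF a b r) =
      mkF (fun i => if i = L - 1 then n else (if i < L - 1 then a (i + 1) else a i) - 1)
        (fun i => b i - 1) (r - 1) := by
  have e1 := iter0 (b := b) (r := r) (L - 1) fun i hi => h i (by omega)
  have e4 : slide^[n] (mkF a b r, (0, 0)) =
      (mkF (fun i => if i < L - 1 then a (i + 1) else a i) b r, (0, L - 1)) := by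
    have h5 : n = (n - (L - 1)) + (L - 1) := by omega
    conv_lhs => rw [h5]
    rw [Function.iterate_add_apply, e1]
    refine iterate_fix (slide_fix0 ?_ hb) _
    show (if L - 1 + 1 < L - 1 then a (L - 1 + 1 + 1) else a (L - 1 + 1)) = 0
    rw [if_neg (by omega)]
    have h6 : L - 1 + 1 = L := by omega
    rw [h6, ha]
  show (fun x => if x = (slide^[n] (mkF a b r, (0, 0))).2 then n else
    (slide^[n] (mkF a b r, (0, 0))).1 x - 1) = _
  rw [e4]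
  refine mkF_ext ?_ ?_ ?_ ?_ ?_
  · intro i
    show (if ((0 : ℕ), i) = (0, L - 1) then n else _) = _
    by_cases hi : i = L - 1
    · rw [hi, if_pos rfl, if_pos rfl]
    · rw [if_neg (fun h' => hi (Prod.mk.inj h').2), if_neg hi]
      rfl
  · intro i
    show (if ((1 : ℕ), i) = (0, L - 1) then n else _) = _
    rw [if_neg (by simp)]
    rfl
  · show (if ((2 : ℕ), 0) = (0, L - 1) then n else _) = _
    rw [if_neg (by simp)]
    rfl
  · intro i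
    show (if ((2 : ℕ), i + 1) = (0, L - 1) then n else _) = _
    rw [if_neg (by simp)]
    rfl
  · intro i j
    show (if ((i + 3 : ℕ), j) = (0, L - 1) then n else _) = _
    rw [if_neg (by simp)]
    rfl

/-! ### the first row -/

/-- the predicate enumerated by the first row -/
def RQ (n : ℕ) (s : PS) (k : ℕ) : Prop :=
  (1 ≤ k ∧ k ≤ n) ∧ k ≠ s.p1 ∧ k ≠ s.p2 ∧ k ≠ s.p3 ∧ k ≠ s.p4 ∧ k ≠ s.p5 ∧ k ≠ s.p6

instance (n : ℕ) (s : PS) : DecidablePred (RQ n s) := fun k => by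
  unfold RQ
  infer_instance

/-- the number of entries smaller than `w` outside the first row -/
def cnt (s : PS) (w : ℕ) : ℕ :=
  (if s.p1 < w then 1 else 0) + (if s.p2 < w then 1 else 0) + (if s.p3 < w then 1 else 0) +
    (if s.p4 < w then 1 else 0) + (if s.p5 < w then 1 else 0) + (if s.p6 < w then 1 else 0)

/-- increasing entries in `[1, n]` -/
def Srt (n : ℕ) (s : PS) : Prop :=
  1 ≤ s.p1 ∧ s.p1 < s.p2 ∧ s.p2 < s.p3 ∧ s.p3 < s.p4 ∧ s.p4 < s.p5 ∧ s.p5 < s.p6 ∧ s.p6 ≤ n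

lemma ite_lt_succ (p w : ℕ) : (if p < w + 1 then 1 else 0) =
    (if p < w then 1 else 0) + (if w = p then 1 else 0) := by
  split_ifs <;> omega

lemma one_of {n : ℕ} {s : PS} (h : Srt n s) {w : ℕ} (hw : 1 ≤ w) (hw' : w ≤ n) :
    (if RQ n s w then 1 else 0) + (if w = s.p1 then 1 else 0) + (if w = s.p2 then 1 else 0) +
    (if w = s.p3 then 1 else 0) + (if w = s.p4 then 1 else 0) + (if w = s.p5 then 1 else 0) +
    (if w = s.p6 then 1 else 0) = 1 := by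
  obtain ⟨h1, h2, h3, h4, h5, h6, h7⟩ := h
  by_cases e1 : w = s.p1
  · rw [if_neg (fun h => h.2.1 e1), if_pos e1, if_neg (by omega), if_neg (by omega),
      if_neg (by omega), if_neg (by omega), if_neg (by omega)]
  by_cases e2 : w = s.p2
  · rw [if_neg (fun h => h.2.2.1 e2), if_neg e1, if_pos e2, if_neg (by omega),
      if_neg (by omega), if_neg (by omega), if_neg (by omega)]
  by_cases e3 : w = s.p3
  · rw [if_neg (fun h => h.2.2.2.1 e3), if_neg e1, if_neg e2, if_pos e3,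
      if_neg (by omega), if_neg (by omega), if_neg (by omega)]
  by_cases e4 : w = s.p4
  · rw [if_neg (fun h => h.2.2.2.2.1 e4), if_neg e1, if_neg e2, if_neg e3, if_pos e4,
      if_neg (by omega), if_neg (by omega)]
  by_cases e5 : w = s.p5
  · rw [if_neg (fun h => h.2.2.2.2.2.1 e5), if_neg e1, if_neg e2, if_neg e3, if_neg e4, if_pos e5,
      if_neg (by omega)]
  by_cases e6 : w = s.p6
  · rw [if_neg (fun h => h.2.2.2.2.2.2 e6), if_neg e1, if_neg e2, if_neg e3, if_neg e4, if_neg e5,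
      if_pos e6]
  rw [if_pos ⟨⟨hw, hw'⟩, e1, e2, e3, e4, e5, e6⟩, if_neg e1, if_neg e2, if_neg e3, if_neg e4,
    if_neg e5, if_neg e6]

lemma count_RQ {n : ℕ} {s : PS} (h : Srt n s) {w : ℕ} (hw : 1 ≤ w) (hw' : w ≤ n + 1) :
    Nat.count (RQ n s) w + cnt s w + 1 = w := by
  induction w, hw using Nat.le_induction with
  | base =>
    obtain ⟨h1, h2, h3, h4, h5, h6, h7⟩ := h
    rw [show (1 : ℕ) = 0 + 1 from rfl, Nat.count_succ, Nat.count_zero,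
      if_neg (fun h => absurd h.1.1 (by omega))]
    unfold cnt
    rw [if_neg (by omega), if_neg (by omega), if_neg (by omega), if_neg (by omega),
      if_neg (by omega), if_neg (by omega)]
  | succ w hw ih =>
    have h1 := ih (by omega)
    have h2 := one_of h hw (by omega)
    rw [Nat.count_succ]
    unfold cnt at h1 ⊢
    rw [ite_lt_succ s.p1 w, ite_lt_succ s.p2 w, ite_lt_succ s.p3 w, ite_lt_succ s.p4 w,
      ite_lt_succ s.p5 w, ite_lt_succ s.p6 w]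
    linarith

lemma cnt_top {n : ℕ} {s : PS} (h : Srt n s) {w : ℕ} (hw : n < w) : cnt s w = 6 := by
  obtain ⟨h1, h2, h3, h4, h5, h6, h7⟩ := h
  unfold cnt
  rw [if_pos (by omega), if_pos (by omega), if_pos (by omega), if_pos (by omega),
    if_pos (by omega), if_pos (by omega)]

lemma nth_spec {n : ℕ} {s : PS} (h : Srt n s) {j : ℕ} (hj : j < n - 6) :
    RQ n s (Nat.nth (RQ n s) j) ∧ Nat.count (RQ n s) (Nat.nth (RQ n s) j) = j := by
  have hc : ∀ hf : (Set.ofPred (RQ n s)).Finite, j < hf.toFinset.card := by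
    intro hf
    have h1 : (Finset.range (n + 1)).filter (RQ n s) ⊆ hf.toFinset := by
      intro k hk
      rw [Set.Finite.mem_toFinset]
      exact (Finset.mem_filter.1 hk).2
    have h2 := Finset.card_le_card h1
    rw [← Nat.count_eq_card_filter_range] at h2
    have h3 := count_RQ h (w := n + 1) (by omega) le_rfl
    have h4 : cnt s (n + 1) = 6 := cnt_top h (Nat.lt_succ_self n)
    omega
  exact ⟨Nat.nth_mem j hc, Nat.count_nth hc⟩

lemma nth_eq {n : ℕ} {s : PS} (h : Srt n s) {v j : ℕ} (hv : RQ n s v) (hc : cnt s v + j + 1 = v) :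
    Nat.nth (RQ n s) j = v := by
  have h1 := count_RQ h hv.1.1 (by have := hv.1.2; omega)
  have h2 : Nat.count (RQ n s) v = j := by omega
  rw [← h2]
  exact Nat.nth_count hv

/-- the first row -/
noncomputable def rowA (n : ℕ) (s : PS) (j : ℕ) : ℕ :=
  if j < n - 6 then Nat.nth (RQ n s) j else 0

lemma fil_eq (n : ℕ) (s : PS) : s.fil n = mkF (rowA n s) s.rowB s.mk3 := by
  refine mkF_ext ?_ ?_ ?_ ?_ ?_
  · intro j; rfl
  · intro j; rfl
  · rfl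
  · intro j; rfl
  · intro i j; rfl

lemma rowA_spec {n : ℕ} {s : PS} (h : Srt n s) {j : ℕ} (hj : j < n - 6) :
    RQ n s (rowA n s j) ∧ cnt s (rowA n s j) + j + 1 = rowA n s j := by
  unfold rowA
  rw [if_pos hj]
  obtain ⟨h1, h2⟩ := nth_spec h hj
  have h3 := count_RQ h h1.1.1 (by have := h1.1.2; omega)
  exact ⟨h1, by omega⟩

lemma rowA_ne_zero {n : ℕ} {s : PS} (h : Srt n s) {j : ℕ} (hj : j < n - 6) : rowA n s j ≠ 0 := by
  have h1 := (rowA_spec h hj).2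
  omega

lemma rowA_lt {n : ℕ} {s : PS} (h : Srt n s) {j p : ℕ} (hj : j < n - 6) (hp : 1 ≤ p) (hpn : p ≤ n)
    (hlt : j + cnt s p + 1 < p) : rowA n s j < p := by
  unfold rowA
  rw [if_pos hj]
  have h1 := count_RQ h hp (by omega)
  exact Nat.nth_lt_of_lt_count (by omega)

lemma rowA_gt {n : ℕ} {s : PS} (h : Srt n s) {j p : ℕ} (hj : j < n - 6) (hp : 1 ≤ p) (hpn : p ≤ n)
    (hnp : ¬ RQ n s p) (hle : p ≤ j + cnt s p + 1) : p < rowA n s j := by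
  obtain ⟨h1, h2⟩ := rowA_spec h hj
  have h3 := count_RQ h hp (by omega)
  by_contra hcon
  have h4 : rowA n s j ≠ p := fun h' => hnp (h' ▸ h1)
  have h5 := Nat.count_strict_mono h1 (show rowA n s j < p by omega)
  have h6 := count_RQ h h1.1.1 (by have := h1.1.2; omega)
  omega

/-- the first row after a stop at column `c` -/
lemma row0_stop {n : ℕ} {s s' : PS} (h : Srt n s) (h' : Srt n s') {b c : ℕ} (hb : b ≤ n)
    (hbc : cnt s b + c + 2 = b) (hnb : ¬ RQ n s b)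
    (hcnt : ∀ w, 1 ≤ w → w ≤ n → cnt s' (w - 1) + (if b < w then 1 else 0) = cnt s w)
    (hRQ : ∀ v, 1 ≤ v → v < n → RQ n s (v + 1) ∨ v + 1 = b → RQ n s' v) (i : ℕ) :
    (if i < c then rowA n s (i + 1) else if i = c then b else rowA n s i) - 1 = rowA n s' i := by
  by_cases hin : i < n - 6
  · have key : ∀ w, 2 ≤ w → w ≤ n → RQ n s w ∨ w = b →
        cnt s w + i + 2 = w + (if b < w then 1 else 0) → w - 1 = rowA n s' i := by
      intro w hw hwn hq he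
      have h1 := hcnt w (by omega) hwn
      have h2 : RQ n s' (w - 1) := by
        refine hRQ (w - 1) (by omega) (by omega) ?_
        have h3 : w - 1 + 1 = w := by omega
        rw [h3]
        exact hq
      unfold rowA
      rw [if_pos hin]
      exact (nth_eq h' h2 (by omega)).symm
    by_cases hic : i < c
    · rw [if_pos hic]
      by_cases hi1 : i + 1 < n - 6
      · obtain ⟨h1, h2⟩ := rowA_spec h hi1
        have h3 := rowA_lt h hi1 (p := b) (by omega) hb (by omega)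
        refine key _ (by omega) h1.1.2 (Or.inl h1) ?_
        rw [if_neg (by omega)]
        omega
      · have h3 := count_RQ h (w := b) (by omega) (by omega)
        have h4 : Nat.count (RQ n s) b ≤ Nat.count (RQ n s) (n + 1) :=
          Nat.count_monotone _ (by omega)
        have h5 := count_RQ h (w := n + 1) (by omega) le_rfl
        have h6 : cnt s (n + 1) = 6 := cnt_top h (Nat.lt_succ_self n)
        omega
    · rw [if_neg hic]
      by_cases hie : i = c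
      · rw [if_pos hie]
        refine key b (by omega) hb (Or.inr rfl) ?_
        rw [if_neg (by omega)]
        omega
      · rw [if_neg hie]
        obtain ⟨h1, h2⟩ := rowA_spec h hin
        have h3 := rowA_gt h hin (p := b) (by omega) hb hnb (by omega)
        refine key _ (by omega) h1.1.2 (Or.inl h1) ?_
        rw [if_pos h3]
        omega
  · have h3 := count_RQ h (w := b) (by omega) (by omega)
    have h4 : Nat.count (RQ n s) b ≤ Nat.count (RQ n s) (n + 1) :=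
      Nat.count_monotone _ (by omega)
    have h5 := count_RQ h (w := n + 1) (by omega) le_rfl
    have h6 : cnt s (n + 1) = 6 := cnt_top h (Nat.lt_succ_self n)
    rw [if_neg (by omega), if_neg (by omega)]
    unfold rowA
    rw [if_neg hin, if_neg hin]

/-- the first row if there is no stop -/
lemma row0_end {n : ℕ} {s s' : PS} (hn : 7 ≤ n) (h : Srt n s) (h' : Srt n s')
    (hcnt : ∀ w, 1 ≤ w → cnt s' (w - 1) = cnt s w)
    (hRQ : ∀ v, 1 ≤ v → v < n → RQ n s (v + 1) → RQ n s' v) (hRQn : RQ n s' n) (i : ℕ) :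
    (if i = n - 6 - 1 then n else (if i < n - 6 - 1 then rowA n s (i + 1) else rowA n s i) - 1) =
      rowA n s' i := by
  by_cases hi : i = n - 6 - 1
  · rw [if_pos hi]
    unfold rowA
    rw [if_pos (by omega)]
    refine (nth_eq h' hRQn ?_).symm
    have h1 := hcnt (n + 1) (by omega)
    rw [cnt_top h (Nat.lt_succ_self n)] at h1
    have h2 : n + 1 - 1 = n := by omega
    rw [h2] at h1
    omega
  · rw [if_neg hi]
    by_cases hi' : i < n - 6 - 1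
    · rw [if_pos hi']
      obtain ⟨h1, h2⟩ := rowA_spec h (show i + 1 < n - 6 by omega)
      have h3 := hcnt (rowA n s (i + 1)) h1.1.1
      have h4 : RQ n s' (rowA n s (i + 1) - 1) := by
        refine hRQ _ (by omega) (by have := h1.1.2; omega) ?_
        have h5 : rowA n s (i + 1) - 1 + 1 = rowA n s (i + 1) := by omega
        rw [h5]
        exact h1
      have h5 := nth_eq h' h4 (j := i) (by omega)
      rw [← h5]
      show _ = if i < n - 6 then Nat.nth (RQ n s') i else 0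
      rw [if_pos (by omega)]
    · rw [if_neg hi']
      unfold rowA
      rw [if_neg (by omega), if_neg (by omega)]

lemma cnt_p1 {n : ℕ} {s : PS} (h : Srt n s) : cnt s s.p1 = 0 := by
  obtain ⟨h1, h2, h3, h4, h5, h6, h7⟩ := h
  unfold cnt
  rw [if_neg (by omega), if_neg (by omega), if_neg (by omega), if_neg (by omega),
    if_neg (by omega), if_neg (by omega)]

lemma cnt_p2 {n : ℕ} {s : PS} (h : Srt n s) : cnt s s.p2 = 1 := by
  obtain ⟨h1, h2, h3, h4, h5, h6, h7⟩ := h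
  unfold cnt
  rw [if_pos (by omega), if_neg (by omega), if_neg (by omega), if_neg (by omega),
    if_neg (by omega), if_neg (by omega)]

lemma cnt_p3 {n : ℕ} {s : PS} (h : Srt n s) : cnt s s.p3 = 2 := by
  obtain ⟨h1, h2, h3, h4, h5, h6, h7⟩ := h
  unfold cnt
  rw [if_pos (by omega), if_pos (by omega), if_neg (by omega), if_neg (by omega),
    if_neg (by omega), if_neg (by omega)]

lemma cnt_p4 {n : ℕ} {s : PS} (h : Srt n s) : cnt s s.p4 = 3 := by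
  obtain ⟨h1, h2, h3, h4, h5, h6, h7⟩ := h
  unfold cnt
  rw [if_pos (by omega), if_pos (by omega), if_pos (by omega), if_neg (by omega),
    if_neg (by omega), if_neg (by omega)]

lemma cnt_p5 {n : ℕ} {s : PS} (h : Srt n s) : cnt s s.p5 = 4 := by
  obtain ⟨h1, h2, h3, h4, h5, h6, h7⟩ := h
  unfold cnt
  rw [if_pos (by omega), if_pos (by omega), if_pos (by omega), if_pos (by omega),
    if_neg (by omega), if_neg (by omega)]

lemma cnt_p6 {n : ℕ} {s : PS} (h : Srt n s) : cnt s s.p6 = 5 := by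
  obtain ⟨h1, h2, h3, h4, h5, h6, h7⟩ := h
  unfold cnt
  rw [if_pos (by omega), if_pos (by omega), if_pos (by omega), if_pos (by omega),
    if_pos (by omega), if_neg (by omega)]

lemma ite_pred {p w : ℕ} (hp : 1 ≤ p) (hw : 1 ≤ w) :
    (if p - 1 < w - 1 then 1 else 0) = (if p < w then 1 else 0) := by
  split_ifs <;> omega

lemma rowB_ge (s : PS) {i : ℕ} (hi : 5 ≤ i) : s.rowB i = 0 := by
  obtain ⟨k, rfl⟩ : ∃ k, i = k + 5 := ⟨i - 5, by omega⟩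
  rfl

/-! ### the cases -/

lemma st_2_1 {n p1 p2 p3 p4 p5 p6 : ℕ} (hn : 15 ≤ n)
    (h : PS.Valid n (⟨p1, p2, p3, p4, p5, p6, 2⟩ : PS))
    (e1 : p1 = 2) :
    promote n (PS.fil n (⟨p1, p2, p3, p4, p5, p6, 2⟩ : PS)) = PS.fil n (⟨p2 - 1, p3 - 1, p4 - 1, p5 - 1, p6 - 1, n, 6⟩ : PS) ∧
      PS.Valid n (⟨p2 - 1, p3 - 1, p4 - 1, p5 - 1, p6 - 1, n, 6⟩ : PS) := by
  obtain ⟨h1, h2, h3, h4, h5, h6, h7, h8, h9, g1, g2, g3, g4, g5, g6⟩ := h
  replace h1 : 1 ≤ p1 := h1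
  replace h2 : p1 < p2 := h2
  replace h3 : p2 < p3 := h3
  replace h4 : p3 < p4 := h4
  replace h5 : p4 < p5 := h5
  replace h6 : p5 < p6 := h6
  replace h7 : p6 ≤ n := h7
  replace g1 : 2 ≤ p1 := g1
  replace g2 : 0 ≤ p2 := g2
  replace g3 : 5 ≤ p3 := g3
  replace g4 : 7 ≤ p4 := g4
  replace g5 : 9 ≤ p5 := g5
  replace g6 : 11 ≤ p6 := g6
  have hS : Srt n (⟨p1, p2, p3, p4, p5, p6, 2⟩ : PS) := ⟨h1, h2, h3, h4, h5, h6, h7⟩
  have c1 : cnt (⟨p1, p2, p3, p4, p5, p6, 2⟩ : PS) p1 = 0 := cnt_p1 hS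
  have c2 : cnt (⟨p1, p2, p3, p4, p5, p6, 2⟩ : PS) p2 = 1 := cnt_p2 hS
  have c3 : cnt (⟨p1, p2, p3, p4, p5, p6, 2⟩ : PS) p3 = 2 := cnt_p3 hS
  have c4 : cnt (⟨p1, p2, p3, p4, p5, p6, 2⟩ : PS) p4 = 3 := cnt_p4 hS
  have c5 : cnt (⟨p1, p2, p3, p4, p5, p6, 2⟩ : PS) p5 = 4 := cnt_p5 hS
  have c6 : cnt (⟨p1, p2, p3, p4, p5, p6, 2⟩ : PS) p6 = 5 := cnt_p6 hS
  have hS' : Srt n (⟨p2 - 1, p3 - 1, p4 - 1, p5 - 1, p6 - 1, n, 6⟩ : PS) :=
    ⟨by show 1 ≤ p2 - 1; omega,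
      by show p2 - 1 < p3 - 1; omega,
      by show p3 - 1 < p4 - 1; omega,
      by show p4 - 1 < p5 - 1; omega,
      by show p5 - 1 < p6 - 1; omega,
      by show p6 - 1 < n; omega,
      by show n ≤ n; omega⟩
  refine ⟨?_, ⟨by show 1 ≤ p2 - 1; omega,
      by show p2 - 1 < p3 - 1; omega,
      by show p3 - 1 < p4 - 1; omega,
      by show p4 - 1 < p5 - 1; omega,
      by show p5 - 1 < p6 - 1; omega,
      by show p6 - 1 < n; omega,
      by show n ≤ n; omega,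
      by show 2 ≤ 6; omega,
      by show 6 ≤ 6; omega,
      by show 2 ≤ p2 - 1; omega,
      by show 4 ≤ p3 - 1; omega,
      by show 6 ≤ p4 - 1; omega,
      by show 8 ≤ p5 - 1; omega,
      by show 10 ≤ p6 - 1; omega,
      by show 0 ≤ n; omega⟩⟩
  rw [fil_eq, fil_eq]
  have hnb : ¬ RQ n (⟨p1, p2, p3, p4, p5, p6, 2⟩ : PS) p1 := by
    rintro ⟨_, a1, a2, a3, a4, a5, a6⟩
    exact a1 rfl
  have hcnt : ∀ w, 1 ≤ w → w ≤ n →
      cnt (⟨p2 - 1, p3 - 1, p4 - 1, p5 - 1, p6 - 1, n, 6⟩ : PS) (w - 1) + (if p1 < w then 1 else 0) = cnt (⟨p1, p2, p3, p4, p5, p6, 2⟩ : PS) w := by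
    intro w hw hwn
    unfold cnt
    dsimp only
    rw [ite_pred (p := p2) (by omega) hw, ite_pred (p := p3) (by omega) hw, ite_pred (p := p4) (by omega) hw, ite_pred (p := p5) (by omega) hw, ite_pred (p := p6) (by omega) hw,
      if_neg (show ¬ n < w - 1 by omega)]
    ring
  have hRQ : ∀ v, 1 ≤ v → v < n → RQ n (⟨p1, p2, p3, p4, p5, p6, 2⟩ : PS) (v + 1) ∨ v + 1 = p1 →
      RQ n (⟨p2 - 1, p3 - 1, p4 - 1, p5 - 1, p6 - 1, n, 6⟩ : PS) v := by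
    rintro v hv hvn (⟨_, a1, a2, a3, a4, a5, a6⟩ | hq)
    · replace a1 : v + 1 ≠ p1 := a1
      replace a2 : v + 1 ≠ p2 := a2
      replace a3 : v + 1 ≠ p3 := a3
      replace a4 : v + 1 ≠ p4 := a4
      replace a5 : v + 1 ≠ p5 := a5
      replace a6 : v + 1 ≠ p6 := a6
      exact ⟨⟨hv, by omega⟩, by show v ≠ p2 - 1; omega,
        by show v ≠ p3 - 1; omega,
        by show v ≠ p4 - 1; omega,
        by show v ≠ p5 - 1; omega,
        by show v ≠ p6 - 1; omega,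
        by show v ≠ n; omega⟩
    · exact ⟨⟨hv, by omega⟩, by show v ≠ p2 - 1; omega,
        by show v ≠ p3 - 1; omega,
        by show v ≠ p4 - 1; omega,
        by show v ≠ p5 - 1; omega,
        by show v ≠ p6 - 1; omega,
        by show v ≠ n; omega⟩
  have f1 : (fun i => (if i = 0 then PS.rowB (⟨p1, p2, p3, p4, p5, p6, 2⟩ : PS) 0 else rowA n (⟨p1, p2, p3, p4, p5, p6, 2⟩ : PS) i) - 1) = rowA n (⟨p2 - 1, p3 - 1, p4 - 1, p5 - 1, p6 - 1, n, 6⟩ : PS) := by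
    funext i
    have h0 := row0_stop hS hS' (b := p1) (c := 0) (by omega) (by rw [c1]; omega) hnb hcnt hRQ i
    rw [if_neg (Nat.not_lt_zero i)] at h0
    exact h0
  have f2 : (fun i => (if i = 0 then PS.mk3 (⟨p1, p2, p3, p4, p5, p6, 2⟩ : PS) else PS.rowB (⟨p1, p2, p3, p4, p5, p6, 2⟩ : PS) i) - 1) = PS.rowB (⟨p2 - 1, p3 - 1, p4 - 1, p5 - 1, p6 - 1, n, 6⟩ : PS) := by
    funext i
    match i with
    | 0 => rfl
    | 1 => rfl
    | 2 => rfl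
    | 3 => rfl
    | 4 => rfl
    | i + 5 =>
      rw [if_neg (by omega)]
      rfl
  refine (promote_down (by omega) ?_ ?_ ?_ ?_).trans ?_
  · show p1 ≠ 0
    omega
  · exact rowA_gt hS (p := p1) (by omega) (by omega) (by omega) hnb (by rw [c1]; omega)
  · show p2 ≠ 0
    omega
  · show p2 < p3
    omega
  · rw [f1, f2]
    rfl

lemma st_2_3 {n p1 p2 p3 p4 p5 p6 : ℕ} (hn : 15 ≤ n)
    (h : PS.Valid n (⟨p1, p2, p3, p4, p5, p6, 2⟩ : PS))
    (e1 : ¬ p1 = 2) (e3 : p3 = 5) :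
    promote n (PS.fil n (⟨p1, p2, p3, p4, p5, p6, 2⟩ : PS)) = PS.fil n (⟨p1 - 1, p2 - 1, p4 - 1, p5 - 1, p6 - 1, n, 2⟩ : PS) ∧
      PS.Valid n (⟨p1 - 1, p2 - 1, p4 - 1, p5 - 1, p6 - 1, n, 2⟩ : PS) := by
  obtain ⟨h1, h2, h3, h4, h5, h6, h7, h8, h9, g1, g2, g3, g4, g5, g6⟩ := h
  replace h1 : 1 ≤ p1 := h1
  replace h2 : p1 < p2 := h2
  replace h3 : p2 < p3 := h3
  replace h4 : p3 < p4 := h4
  replace h5 : p4 < p5 := h5
  replace h6 : p5 < p6 := h6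
  replace h7 : p6 ≤ n := h7
  replace g1 : 2 ≤ p1 := g1
  replace g2 : 0 ≤ p2 := g2
  replace g3 : 5 ≤ p3 := g3
  replace g4 : 7 ≤ p4 := g4
  replace g5 : 9 ≤ p5 := g5
  replace g6 : 11 ≤ p6 := g6
  have hS : Srt n (⟨p1, p2, p3, p4, p5, p6, 2⟩ : PS) := ⟨h1, h2, h3, h4, h5, h6, h7⟩
  have c1 : cnt (⟨p1, p2, p3, p4, p5, p6, 2⟩ : PS) p1 = 0 := cnt_p1 hS
  have c2 : cnt (⟨p1, p2, p3, p4, p5, p6, 2⟩ : PS) p2 = 1 := cnt_p2 hS
  have c3 : cnt (⟨p1, p2, p3, p4, p5, p6, 2⟩ : PS) p3 = 2 := cnt_p3 hS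
  have c4 : cnt (⟨p1, p2, p3, p4, p5, p6, 2⟩ : PS) p4 = 3 := cnt_p4 hS
  have c5 : cnt (⟨p1, p2, p3, p4, p5, p6, 2⟩ : PS) p5 = 4 := cnt_p5 hS
  have c6 : cnt (⟨p1, p2, p3, p4, p5, p6, 2⟩ : PS) p6 = 5 := cnt_p6 hS
  have hS' : Srt n (⟨p1 - 1, p2 - 1, p4 - 1, p5 - 1, p6 - 1, n, 2⟩ : PS) :=
    ⟨by show 1 ≤ p1 - 1; omega,
      by show p1 - 1 < p2 - 1; omega,
      by show p2 - 1 < p4 - 1; omega,
      by show p4 - 1 < p5 - 1; omega,
      by show p5 - 1 < p6 - 1; omega,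
      by show p6 - 1 < n; omega,
      by show n ≤ n; omega⟩
  refine ⟨?_, ⟨by show 1 ≤ p1 - 1; omega,
      by show p1 - 1 < p2 - 1; omega,
      by show p2 - 1 < p4 - 1; omega,
      by show p4 - 1 < p5 - 1; omega,
      by show p5 - 1 < p6 - 1; omega,
      by show p6 - 1 < n; omega,
      by show n ≤ n; omega,
      by show 2 ≤ 2; omega,
      by show 2 ≤ 6; omega,
      by show 2 ≤ p1 - 1; omega,
      by show 0 ≤ p2 - 1; omega,
      by show 5 ≤ p4 - 1; omega,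
      by show 7 ≤ p5 - 1; omega,
      by show 9 ≤ p6 - 1; omega,
      by show 11 ≤ n; omega⟩⟩
  rw [fil_eq, fil_eq]
  have hnb : ¬ RQ n (⟨p1, p2, p3, p4, p5, p6, 2⟩ : PS) p3 := by
    rintro ⟨_, a1, a2, a3, a4, a5, a6⟩
    exact a3 rfl
  have hcnt : ∀ w, 1 ≤ w → w ≤ n →
      cnt (⟨p1 - 1, p2 - 1, p4 - 1, p5 - 1, p6 - 1, n, 2⟩ : PS) (w - 1) + (if p3 < w then 1 else 0) = cnt (⟨p1, p2, p3, p4, p5, p6, 2⟩ : PS) w := by
    intro w hw hwn
    unfold cnt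
    dsimp only
    rw [ite_pred (p := p1) (by omega) hw, ite_pred (p := p2) (by omega) hw, ite_pred (p := p4) (by omega) hw, ite_pred (p := p5) (by omega) hw, ite_pred (p := p6) (by omega) hw,
      if_neg (show ¬ n < w - 1 by omega)]
    ring
  have hRQ : ∀ v, 1 ≤ v → v < n → RQ n (⟨p1, p2, p3, p4, p5, p6, 2⟩ : PS) (v + 1) ∨ v + 1 = p3 →
      RQ n (⟨p1 - 1, p2 - 1, p4 - 1, p5 - 1, p6 - 1, n, 2⟩ : PS) v := by
    rintro v hv hvn (⟨_, a1, a2, a3, a4, a5, a6⟩ | hq)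
    · replace a1 : v + 1 ≠ p1 := a1
      replace a2 : v + 1 ≠ p2 := a2
      replace a3 : v + 1 ≠ p3 := a3
      replace a4 : v + 1 ≠ p4 := a4
      replace a5 : v + 1 ≠ p5 := a5
      replace a6 : v + 1 ≠ p6 := a6
      exact ⟨⟨hv, by omega⟩, by show v ≠ p1 - 1; omega,
        by show v ≠ p2 - 1; omega,
        by show v ≠ p4 - 1; omega,
        by show v ≠ p5 - 1; omega,
        by show v ≠ p6 - 1; omega,
        by show v ≠ n; omega⟩
    · exact ⟨⟨hv, by omega⟩, by show v ≠ p1 - 1; omega,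
        by show v ≠ p2 - 1; omega,
        by show v ≠ p4 - 1; omega,
        by show v ≠ p5 - 1; omega,
        by show v ≠ p6 - 1; omega,
        by show v ≠ n; omega⟩
  have f1 : (fun i => (if i < 1 then rowA n (⟨p1, p2, p3, p4, p5, p6, 2⟩ : PS) (i + 1) else
      if i = 1 then PS.rowB (⟨p1, p2, p3, p4, p5, p6, 2⟩ : PS) 1 else rowA n (⟨p1, p2, p3, p4, p5, p6, 2⟩ : PS) i) - 1) = rowA n (⟨p1 - 1, p2 - 1, p4 - 1, p5 - 1, p6 - 1, n, 2⟩ : PS) := by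
    funext i
    exact row0_stop hS hS' (b := p3) (c := 1) (by omega) (by rw [c3]; omega) hnb hcnt hRQ i
  have f2 : (fun i => if i = 4 then n else (if 1 ≤ i ∧ i < 4 then PS.rowB (⟨p1, p2, p3, p4, p5, p6, 2⟩ : PS) (i + 1) else
      PS.rowB (⟨p1, p2, p3, p4, p5, p6, 2⟩ : PS) i) - 1) = PS.rowB (⟨p1 - 1, p2 - 1, p4 - 1, p5 - 1, p6 - 1, n, 2⟩ : PS) := by
    funext i
    match i with
    | 0 => rfl
    | 1 => rfl
    | 2 => rfl
    | 3 => rfl
    | 4 => rfl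
    | i + 5 =>
      rw [if_neg (by omega), if_neg (by omega)]
      rfl
  refine (promote_stop (by omega) 1 (by omega) ?_ ?_ ?_ ?_ rfl ?_).trans ?_
  · intro i hi
    obtain rfl : i = 0 := by omega
    exact ⟨rowA_ne_zero hS (by omega), rowA_lt hS (p := p1) (by omega) (by omega) (by omega)
        (by rw [c1]; omega)⟩
  · show p3 ≠ 0
    omega
  · exact rowA_gt hS (p := p3) (by omega) (by omega) (by omega) hnb (by rw [c3]; omega)
  · intro i hi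
    have hc : i = 0 ∨ i = 1 ∨ i = 2 ∨ i = 3 := by omega
    rcases hc with rfl | rfl | rfl | rfl
    · show p3 ≠ 0
      omega
    · show p4 ≠ 0
      omega
    · show p5 ≠ 0
      omega
    · show p6 ≠ 0
      omega
  · intro hc
    exact absurd hc (by omega)
  · rw [f1, f2]
    rfl

lemma st_2_4 {n p1 p2 p3 p4 p5 p6 : ℕ} (hn : 15 ≤ n)
    (h : PS.Valid n (⟨p1, p2, p3, p4, p5, p6, 2⟩ : PS))
    (e1 : ¬ p1 = 2) (e3 : ¬ p3 = 5) (e4 : p4 = 7) :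
    promote n (PS.fil n (⟨p1, p2, p3, p4, p5, p6, 2⟩ : PS)) = PS.fil n (⟨p1 - 1, p2 - 1, p3 - 1, p5 - 1, p6 - 1, n, 2⟩ : PS) ∧
      PS.Valid n (⟨p1 - 1, p2 - 1, p3 - 1, p5 - 1, p6 - 1, n, 2⟩ : PS) := by
  obtain ⟨h1, h2, h3, h4, h5, h6, h7, h8, h9, g1, g2, g3, g4, g5, g6⟩ := h
  replace h1 : 1 ≤ p1 := h1
  replace h2 : p1 < p2 := h2
  replace h3 : p2 < p3 := h3
  replace h4 : p3 < p4 := h4
  replace h5 : p4 < p5 := h5
  replace h6 : p5 < p6 := h6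
  replace h7 : p6 ≤ n := h7
  replace g1 : 2 ≤ p1 := g1
  replace g2 : 0 ≤ p2 := g2
  replace g3 : 5 ≤ p3 := g3
  replace g4 : 7 ≤ p4 := g4
  replace g5 : 9 ≤ p5 := g5
  replace g6 : 11 ≤ p6 := g6
  have hS : Srt n (⟨p1, p2, p3, p4, p5, p6, 2⟩ : PS) := ⟨h1, h2, h3, h4, h5, h6, h7⟩
  have c1 : cnt (⟨p1, p2, p3, p4, p5, p6, 2⟩ : PS) p1 = 0 := cnt_p1 hS
  have c2 : cnt (⟨p1, p2, p3, p4, p5, p6, 2⟩ : PS) p2 = 1 := cnt_p2 hS
  have c3 : cnt (⟨p1, p2, p3, p4, p5, p6, 2⟩ : PS) p3 = 2 := cnt_p3 hS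
  have c4 : cnt (⟨p1, p2, p3, p4, p5, p6, 2⟩ : PS) p4 = 3 := cnt_p4 hS
  have c5 : cnt (⟨p1, p2, p3, p4, p5, p6, 2⟩ : PS) p5 = 4 := cnt_p5 hS
  have c6 : cnt (⟨p1, p2, p3, p4, p5, p6, 2⟩ : PS) p6 = 5 := cnt_p6 hS
  have hS' : Srt n (⟨p1 - 1, p2 - 1, p3 - 1, p5 - 1, p6 - 1, n, 2⟩ : PS) :=
    ⟨by show 1 ≤ p1 - 1; omega,
      by show p1 - 1 < p2 - 1; omega,
      by show p2 - 1 < p3 - 1; omega,
      by show p3 - 1 < p5 - 1; omega,
      by show p5 - 1 < p6 - 1; omega,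
      by show p6 - 1 < n; omega,
      by show n ≤ n; omega⟩
  refine ⟨?_, ⟨by show 1 ≤ p1 - 1; omega,
      by show p1 - 1 < p2 - 1; omega,
      by show p2 - 1 < p3 - 1; omega,
      by show p3 - 1 < p5 - 1; omega,
      by show p5 - 1 < p6 - 1; omega,
      by show p6 - 1 < n; omega,
      by show n ≤ n; omega,
      by show 2 ≤ 2; omega,
      by show 2 ≤ 6; omega,
      by show 2 ≤ p1 - 1; omega,
      by show 0 ≤ p2 - 1; omega,
      by show 5 ≤ p3 - 1; omega,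
      by show 7 ≤ p5 - 1; omega,
      by show 9 ≤ p6 - 1; omega,
      by show 11 ≤ n; omega⟩⟩
  rw [fil_eq, fil_eq]
  have hnb : ¬ RQ n (⟨p1, p2, p3, p4, p5, p6, 2⟩ : PS) p4 := by
    rintro ⟨_, a1, a2, a3, a4, a5, a6⟩
    exact a4 rfl
  have hcnt : ∀ w, 1 ≤ w → w ≤ n →
      cnt (⟨p1 - 1, p2 - 1, p3 - 1, p5 - 1, p6 - 1, n, 2⟩ : PS) (w - 1) + (if p4 < w then 1 else 0) = cnt (⟨p1, p2, p3, p4, p5, p6, 2⟩ : PS) w := by
    intro w hw hwn
    unfold cnt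
    dsimp only
    rw [ite_pred (p := p1) (by omega) hw, ite_pred (p := p2) (by omega) hw, ite_pred (p := p3) (by omega) hw, ite_pred (p := p5) (by omega) hw, ite_pred (p := p6) (by omega) hw,
      if_neg (show ¬ n < w - 1 by omega)]
    ring
  have hRQ : ∀ v, 1 ≤ v → v < n → RQ n (⟨p1, p2, p3, p4, p5, p6, 2⟩ : PS) (v + 1) ∨ v + 1 = p4 →
      RQ n (⟨p1 - 1, p2 - 1, p3 - 1, p5 - 1, p6 - 1, n, 2⟩ : PS) v := by
    rintro v hv hvn (⟨_, a1, a2, a3, a4, a5, a6⟩ | hq)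
    · replace a1 : v + 1 ≠ p1 := a1
      replace a2 : v + 1 ≠ p2 := a2
      replace a3 : v + 1 ≠ p3 := a3
      replace a4 : v + 1 ≠ p4 := a4
      replace a5 : v + 1 ≠ p5 := a5
      replace a6 : v + 1 ≠ p6 := a6
      exact ⟨⟨hv, by omega⟩, by show v ≠ p1 - 1; omega,
        by show v ≠ p2 - 1; omega,
        by show v ≠ p3 - 1; omega,
        by show v ≠ p5 - 1; omega,
        by show v ≠ p6 - 1; omega,
        by show v ≠ n; omega⟩
    · exact ⟨⟨hv, by omega⟩, by show v ≠ p1 - 1; omega,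
        by show v ≠ p2 - 1; omega,
        by show v ≠ p3 - 1; omega,
        by show v ≠ p5 - 1; omega,
        by show v ≠ p6 - 1; omega,
        by show v ≠ n; omega⟩
  have f1 : (fun i => (if i < 2 then rowA n (⟨p1, p2, p3, p4, p5, p6, 2⟩ : PS) (i + 1) else
      if i = 2 then PS.rowB (⟨p1, p2, p3, p4, p5, p6, 2⟩ : PS) 2 else rowA n (⟨p1, p2, p3, p4, p5, p6, 2⟩ : PS) i) - 1) = rowA n (⟨p1 - 1, p2 - 1, p3 - 1, p5 - 1, p6 - 1, n, 2⟩ : PS) := by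
    funext i
    exact row0_stop hS hS' (b := p4) (c := 2) (by omega) (by rw [c4]; omega) hnb hcnt hRQ i
  have f2 : (fun i => if i = 4 then n else (if 2 ≤ i ∧ i < 4 then PS.rowB (⟨p1, p2, p3, p4, p5, p6, 2⟩ : PS) (i + 1) else
      PS.rowB (⟨p1, p2, p3, p4, p5, p6, 2⟩ : PS) i) - 1) = PS.rowB (⟨p1 - 1, p2 - 1, p3 - 1, p5 - 1, p6 - 1, n, 2⟩ : PS) := by
    funext i
    match i with
    | 0 => rfl
    | 1 => rfl
    | 2 => rfl
    | 3 => rfl
    | 4 => rfl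
    | i + 5 =>
      rw [if_neg (by omega), if_neg (by omega)]
      rfl
  refine (promote_stop (by omega) 2 (by omega) ?_ ?_ ?_ ?_ rfl ?_).trans ?_
  · intro i hi
    have hc : i = 0 ∨ i = 1 := by omega
    rcases hc with rfl | rfl
    · exact ⟨rowA_ne_zero hS (by omega), rowA_lt hS (p := p1) (by omega) (by omega) (by omega)
        (by rw [c1]; omega)⟩
    · exact ⟨rowA_ne_zero hS (by omega), rowA_lt hS (p := p3) (by omega) (by omega) (by omega)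
        (by rw [c3]; omega)⟩
  · show p4 ≠ 0
    omega
  · exact rowA_gt hS (p := p4) (by omega) (by omega) (by omega) hnb (by rw [c4]; omega)
  · intro i hi
    have hc : i = 0 ∨ i = 1 ∨ i = 2 ∨ i = 3 := by omega
    rcases hc with rfl | rfl | rfl | rfl
    · show p3 ≠ 0
      omega
    · show p4 ≠ 0
      omega
    · show p5 ≠ 0
      omega
    · show p6 ≠ 0
      omega
  · intro hc
    exact absurd hc (by omega)
  · rw [f1, f2]
    rfl

lemma st_2_5 {n p1 p2 p3 p4 p5 p6 : ℕ} (hn : 15 ≤ n)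
    (h : PS.Valid n (⟨p1, p2, p3, p4, p5, p6, 2⟩ : PS))
    (e1 : ¬ p1 = 2) (e3 : ¬ p3 = 5) (e4 : ¬ p4 = 7)
    (e5 : p5 = 9) :
    promote n (PS.fil n (⟨p1, p2, p3, p4, p5, p6, 2⟩ : PS)) = PS.fil n (⟨p1 - 1, p2 - 1, p3 - 1, p4 - 1, p6 - 1, n, 2⟩ : PS) ∧
      PS.Valid n (⟨p1 - 1, p2 - 1, p3 - 1, p4 - 1, p6 - 1, n, 2⟩ : PS) := by
  obtain ⟨h1, h2, h3, h4, h5, h6, h7, h8, h9, g1, g2, g3, g4, g5, g6⟩ := h
  replace h1 : 1 ≤ p1 := h1
  replace h2 : p1 < p2 := h2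
  replace h3 : p2 < p3 := h3
  replace h4 : p3 < p4 := h4
  replace h5 : p4 < p5 := h5
  replace h6 : p5 < p6 := h6
  replace h7 : p6 ≤ n := h7
  replace g1 : 2 ≤ p1 := g1
  replace g2 : 0 ≤ p2 := g2
  replace g3 : 5 ≤ p3 := g3
  replace g4 : 7 ≤ p4 := g4
  replace g5 : 9 ≤ p5 := g5
  replace g6 : 11 ≤ p6 := g6
  have hS : Srt n (⟨p1, p2, p3, p4, p5, p6, 2⟩ : PS) := ⟨h1, h2, h3, h4, h5, h6, h7⟩
  have c1 : cnt (⟨p1, p2, p3, p4, p5, p6, 2⟩ : PS) p1 = 0 := cnt_p1 hS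
  have c2 : cnt (⟨p1, p2, p3, p4, p5, p6, 2⟩ : PS) p2 = 1 := cnt_p2 hS
  have c3 : cnt (⟨p1, p2, p3, p4, p5, p6, 2⟩ : PS) p3 = 2 := cnt_p3 hS
  have c4 : cnt (⟨p1, p2, p3, p4, p5, p6, 2⟩ : PS) p4 = 3 := cnt_p4 hS
  have c5 : cnt (⟨p1, p2, p3, p4, p5, p6, 2⟩ : PS) p5 = 4 := cnt_p5 hS
  have c6 : cnt (⟨p1, p2, p3, p4, p5, p6, 2⟩ : PS) p6 = 5 := cnt_p6 hS
  have hS' : Srt n (⟨p1 - 1, p2 - 1, p3 - 1, p4 - 1, p6 - 1, n, 2⟩ : PS) :=
    ⟨by show 1 ≤ p1 - 1; omega,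
      by show p1 - 1 < p2 - 1; omega,
      by show p2 - 1 < p3 - 1; omega,
      by show p3 - 1 < p4 - 1; omega,
      by show p4 - 1 < p6 - 1; omega,
      by show p6 - 1 < n; omega,
      by show n ≤ n; omega⟩
  refine ⟨?_, ⟨by show 1 ≤ p1 - 1; omega,
      by show p1 - 1 < p2 - 1; omega,
      by show p2 - 1 < p3 - 1; omega,
      by show p3 - 1 < p4 - 1; omega,
      by show p4 - 1 < p6 - 1; omega,
      by show p6 - 1 < n; omega,
      by show n ≤ n; omega,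
      by show 2 ≤ 2; omega,
      by show 2 ≤ 6; omega,
      by show 2 ≤ p1 - 1; omega,
      by show 0 ≤ p2 - 1; omega,
      by show 5 ≤ p3 - 1; omega,
      by show 7 ≤ p4 - 1; omega,
      by show 9 ≤ p6 - 1; omega,
      by show 11 ≤ n; omega⟩⟩
  rw [fil_eq, fil_eq]
  have hnb : ¬ RQ n (⟨p1, p2, p3, p4, p5, p6, 2⟩ : PS) p5 := by
    rintro ⟨_, a1, a2, a3, a4, a5, a6⟩
    exact a5 rfl
  have hcnt : ∀ w, 1 ≤ w → w ≤ n →
      cnt (⟨p1 - 1, p2 - 1, p3 - 1, p4 - 1, p6 - 1, n, 2⟩ : PS) (w - 1) + (if p5 < w then 1 else 0) = cnt (⟨p1, p2, p3, p4, p5, p6, 2⟩ : PS) w := by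
    intro w hw hwn
    unfold cnt
    dsimp only
    rw [ite_pred (p := p1) (by omega) hw, ite_pred (p := p2) (by omega) hw, ite_pred (p := p3) (by omega) hw, ite_pred (p := p4) (by omega) hw, ite_pred (p := p6) (by omega) hw,
      if_neg (show ¬ n < w - 1 by omega)]
    ring
  have hRQ : ∀ v, 1 ≤ v → v < n → RQ n (⟨p1, p2, p3, p4, p5, p6, 2⟩ : PS) (v + 1) ∨ v + 1 = p5 →
      RQ n (⟨p1 - 1, p2 - 1, p3 - 1, p4 - 1, p6 - 1, n, 2⟩ : PS) v := by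
    rintro v hv hvn (⟨_, a1, a2, a3, a4, a5, a6⟩ | hq)
    · replace a1 : v + 1 ≠ p1 := a1
      replace a2 : v + 1 ≠ p2 := a2
      replace a3 : v + 1 ≠ p3 := a3
      replace a4 : v + 1 ≠ p4 := a4
      replace a5 : v + 1 ≠ p5 := a5
      replace a6 : v + 1 ≠ p6 := a6
      exact ⟨⟨hv, by omega⟩, by show v ≠ p1 - 1; omega,
        by show v ≠ p2 - 1; omega,
        by show v ≠ p3 - 1; omega,
        by show v ≠ p4 - 1; omega,
        by show v ≠ p6 - 1; omega,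
        by show v ≠ n; omega⟩
    · exact ⟨⟨hv, by omega⟩, by show v ≠ p1 - 1; omega,
        by show v ≠ p2 - 1; omega,
        by show v ≠ p3 - 1; omega,
        by show v ≠ p4 - 1; omega,
        by show v ≠ p6 - 1; omega,
        by show v ≠ n; omega⟩
  have f1 : (fun i => (if i < 3 then rowA n (⟨p1, p2, p3, p4, p5, p6, 2⟩ : PS) (i + 1) else
      if i = 3 then PS.rowB (⟨p1, p2, p3, p4, p5, p6, 2⟩ : PS) 3 else rowA n (⟨p1, p2, p3, p4, p5, p6, 2⟩ : PS) i) - 1) = rowA n (⟨p1 - 1, p2 - 1, p3 - 1, p4 - 1, p6 - 1, n, 2⟩ : PS) := by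
    funext i
    exact row0_stop hS hS' (b := p5) (c := 3) (by omega) (by rw [c5]; omega) hnb hcnt hRQ i
  have f2 : (fun i => if i = 4 then n else (if 3 ≤ i ∧ i < 4 then PS.rowB (⟨p1, p2, p3, p4, p5, p6, 2⟩ : PS) (i + 1) else
      PS.rowB (⟨p1, p2, p3, p4, p5, p6, 2⟩ : PS) i) - 1) = PS.rowB (⟨p1 - 1, p2 - 1, p3 - 1, p4 - 1, p6 - 1, n, 2⟩ : PS) := by
    funext i
    match i with
    | 0 => rfl
    | 1 => rfl
    | 2 => rfl
    | 3 => rfl
    | 4 => rfl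
    | i + 5 =>
      rw [if_neg (by omega), if_neg (by omega)]
      rfl
  refine (promote_stop (by omega) 3 (by omega) ?_ ?_ ?_ ?_ rfl ?_).trans ?_
  · intro i hi
    have hc : i = 0 ∨ i = 1 ∨ i = 2 := by omega
    rcases hc with rfl | rfl | rfl
    · exact ⟨rowA_ne_zero hS (by omega), rowA_lt hS (p := p1) (by omega) (by omega) (by omega)
        (by rw [c1]; omega)⟩
    · exact ⟨rowA_ne_zero hS (by omega), rowA_lt hS (p := p3) (by omega) (by omega) (by omega)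
        (by rw [c3]; omega)⟩
    · exact ⟨rowA_ne_zero hS (by omega), rowA_lt hS (p := p4) (by omega) (by omega) (by omega)
        (by rw [c4]; omega)⟩
  · show p5 ≠ 0
    omega
  · exact rowA_gt hS (p := p5) (by omega) (by omega) (by omega) hnb (by rw [c5]; omega)
  · intro i hi
    have hc : i = 0 ∨ i = 1 ∨ i = 2 ∨ i = 3 := by omega
    rcases hc with rfl | rfl | rfl | rfl
    · show p3 ≠ 0
      omega
    · show p4 ≠ 0
      omega
    · show p5 ≠ 0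
      omega
    · show p6 ≠ 0
      omega
  · intro hc
    exact absurd hc (by omega)
  · rw [f1, f2]
    rfl

lemma st_2_6 {n p1 p2 p3 p4 p5 p6 : ℕ} (hn : 15 ≤ n)
    (h : PS.Valid n (⟨p1, p2, p3, p4, p5, p6, 2⟩ : PS))
    (e1 : ¬ p1 = 2) (e3 : ¬ p3 = 5) (e4 : ¬ p4 = 7)
    (e5 : ¬ p5 = 9) (e6 : p6 = 11) :
    promote n (PS.fil n (⟨p1, p2, p3, p4, p5, p6, 2⟩ : PS)) = PS.fil n (⟨p1 - 1, p2 - 1, p3 - 1, p4 - 1, p5 - 1, n, 2⟩ : PS) ∧
      PS.Valid n (⟨p1 - 1, p2 - 1, p3 - 1, p4 - 1, p5 - 1, n, 2⟩ : PS) := by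
  obtain ⟨h1, h2, h3, h4, h5, h6, h7, h8, h9, g1, g2, g3, g4, g5, g6⟩ := h
  replace h1 : 1 ≤ p1 := h1
  replace h2 : p1 < p2 := h2
  replace h3 : p2 < p3 := h3
  replace h4 : p3 < p4 := h4
  replace h5 : p4 < p5 := h5
  replace h6 : p5 < p6 := h6
  replace h7 : p6 ≤ n := h7
  replace g1 : 2 ≤ p1 := g1
  replace g2 : 0 ≤ p2 := g2
  replace g3 : 5 ≤ p3 := g3
  replace g4 : 7 ≤ p4 := g4
  replace g5 : 9 ≤ p5 := g5
  replace g6 : 11 ≤ p6 := g6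
  have hS : Srt n (⟨p1, p2, p3, p4, p5, p6, 2⟩ : PS) := ⟨h1, h2, h3, h4, h5, h6, h7⟩
  have c1 : cnt (⟨p1, p2, p3, p4, p5, p6, 2⟩ : PS) p1 = 0 := cnt_p1 hS
  have c2 : cnt (⟨p1, p2, p3, p4, p5, p6, 2⟩ : PS) p2 = 1 := cnt_p2 hS
  have c3 : cnt (⟨p1, p2, p3, p4, p5, p6, 2⟩ : PS) p3 = 2 := cnt_p3 hS
  have c4 : cnt (⟨p1, p2, p3, p4, p5, p6, 2⟩ : PS) p4 = 3 := cnt_p4 hS
  have c5 : cnt (⟨p1, p2, p3, p4, p5, p6, 2⟩ : PS) p5 = 4 := cnt_p5 hS
  have c6 : cnt (⟨p1, p2, p3, p4, p5, p6, 2⟩ : PS) p6 = 5 := cnt_p6 hS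
  have hS' : Srt n (⟨p1 - 1, p2 - 1, p3 - 1, p4 - 1, p5 - 1, n, 2⟩ : PS) :=
    ⟨by show 1 ≤ p1 - 1; omega,
      by show p1 - 1 < p2 - 1; omega,
      by show p2 - 1 < p3 - 1; omega,
      by show p3 - 1 < p4 - 1; omega,
      by show p4 - 1 < p5 - 1; omega,
      by show p5 - 1 < n; omega,
      by show n ≤ n; omega⟩
  refine ⟨?_, ⟨by show 1 ≤ p1 - 1; omega,
      by show p1 - 1 < p2 - 1; omega,
      by show p2 - 1 < p3 - 1; omega,
      by show p3 - 1 < p4 - 1; omega,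
      by show p4 - 1 < p5 - 1; omega,
      by show p5 - 1 < n; omega,
      by show n ≤ n; omega,
      by show 2 ≤ 2; omega,
      by show 2 ≤ 6; omega,
      by show 2 ≤ p1 - 1; omega,
      by show 0 ≤ p2 - 1; omega,
      by show 5 ≤ p3 - 1; omega,
      by show 7 ≤ p4 - 1; omega,
      by show 9 ≤ p5 - 1; omega,
      by show 11 ≤ n; omega⟩⟩
  rw [fil_eq, fil_eq]
  have hnb : ¬ RQ n (⟨p1, p2, p3, p4, p5, p6, 2⟩ : PS) p6 := by
    rintro ⟨_, a1, a2, a3, a4, a5, a6⟩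
    exact a6 rfl
  have hcnt : ∀ w, 1 ≤ w → w ≤ n →
      cnt (⟨p1 - 1, p2 - 1, p3 - 1, p4 - 1, p5 - 1, n, 2⟩ : PS) (w - 1) + (if p6 < w then 1 else 0) = cnt (⟨p1, p2, p3, p4, p5, p6, 2⟩ : PS) w := by
    intro w hw hwn
    unfold cnt
    dsimp only
    rw [ite_pred (p := p1) (by omega) hw, ite_pred (p := p2) (by omega) hw, ite_pred (p := p3) (by omega) hw, ite_pred (p := p4) (by omega) hw, ite_pred (p := p5) (by omega) hw,
      if_neg (show ¬ n < w - 1 by omega)]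
    ring
  have hRQ : ∀ v, 1 ≤ v → v < n → RQ n (⟨p1, p2, p3, p4, p5, p6, 2⟩ : PS) (v + 1) ∨ v + 1 = p6 →
      RQ n (⟨p1 - 1, p2 - 1, p3 - 1, p4 - 1, p5 - 1, n, 2⟩ : PS) v := by
    rintro v hv hvn (⟨_, a1, a2, a3, a4, a5, a6⟩ | hq)
    · replace a1 : v + 1 ≠ p1 := a1
      replace a2 : v + 1 ≠ p2 := a2
      replace a3 : v + 1 ≠ p3 := a3
      replace a4 : v + 1 ≠ p4 := a4
      replace a5 : v + 1 ≠ p5 := a5
      replace a6 : v + 1 ≠ p6 := a6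
      exact ⟨⟨hv, by omega⟩, by show v ≠ p1 - 1; omega,
        by show v ≠ p2 - 1; omega,
        by show v ≠ p3 - 1; omega,
        by show v ≠ p4 - 1; omega,
        by show v ≠ p5 - 1; omega,
        by show v ≠ n; omega⟩
    · exact ⟨⟨hv, by omega⟩, by show v ≠ p1 - 1; omega,
        by show v ≠ p2 - 1; omega,
        by show v ≠ p3 - 1; omega,
        by show v ≠ p4 - 1; omega,
        by show v ≠ p5 - 1; omega,
        by show v ≠ n; omega⟩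
  have f1 : (fun i => (if i < 4 then rowA n (⟨p1, p2, p3, p4, p5, p6, 2⟩ : PS) (i + 1) else
      if i = 4 then PS.rowB (⟨p1, p2, p3, p4, p5, p6, 2⟩ : PS) 4 else rowA n (⟨p1, p2, p3, p4, p5, p6, 2⟩ : PS) i) - 1) = rowA n (⟨p1 - 1, p2 - 1, p3 - 1, p4 - 1, p5 - 1, n, 2⟩ : PS) := by
    funext i
    exact row0_stop hS hS' (b := p6) (c := 4) (by omega) (by rw [c6]; omega) hnb hcnt hRQ i
  have f2 : (fun i => if i = 4 then n else (if 4 ≤ i ∧ i < 4 then PS.rowB (⟨p1, p2, p3, p4, p5, p6, 2⟩ : PS) (i + 1) else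
      PS.rowB (⟨p1, p2, p3, p4, p5, p6, 2⟩ : PS) i) - 1) = PS.rowB (⟨p1 - 1, p2 - 1, p3 - 1, p4 - 1, p5 - 1, n, 2⟩ : PS) := by
    funext i
    match i with
    | 0 => rfl
    | 1 => rfl
    | 2 => rfl
    | 3 => rfl
    | 4 => rfl
    | i + 5 =>
      rw [if_neg (by omega), if_neg (by omega)]
      rfl
  refine (promote_stop (by omega) 4 (by omega) ?_ ?_ ?_ ?_ rfl ?_).trans ?_
  · intro i hi
    have hc : i = 0 ∨ i = 1 ∨ i = 2 ∨ i = 3 := by omega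
    rcases hc with rfl | rfl | rfl | rfl
    · exact ⟨rowA_ne_zero hS (by omega), rowA_lt hS (p := p1) (by omega) (by omega) (by omega)
        (by rw [c1]; omega)⟩
    · exact ⟨rowA_ne_zero hS (by omega), rowA_lt hS (p := p3) (by omega) (by omega) (by omega)
        (by rw [c3]; omega)⟩
    · exact ⟨rowA_ne_zero hS (by omega), rowA_lt hS (p := p4) (by omega) (by omega) (by omega)
        (by rw [c4]; omega)⟩
    · exact ⟨rowA_ne_zero hS (by omega), rowA_lt hS (p := p5) (by omega) (by omega) (by omega)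
        (by rw [c5]; omega)⟩
  · show p6 ≠ 0
    omega
  · exact rowA_gt hS (p := p6) (by omega) (by omega) (by omega) hnb (by rw [c6]; omega)
  · intro i hi
    have hc : i = 0 ∨ i = 1 ∨ i = 2 ∨ i = 3 := by omega
    rcases hc with rfl | rfl | rfl | rfl
    · show p3 ≠ 0
      omega
    · show p4 ≠ 0
      omega
    · show p5 ≠ 0
      omega
    · show p6 ≠ 0
      omega
  · intro hc
    exact absurd hc (by omega)
  · rw [f1, f2]
    rfl

lemma st_2_7 {n p1 p2 p3 p4 p5 p6 : ℕ} (hn : 15 ≤ n)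
    (h : PS.Valid n (⟨p1, p2, p3, p4, p5, p6, 2⟩ : PS))
    (e1 : ¬ p1 = 2) (e3 : ¬ p3 = 5) (e4 : ¬ p4 = 7)
    (e5 : ¬ p5 = 9) (e6 : ¬ p6 = 11) :
    promote n (PS.fil n (⟨p1, p2, p3, p4, p5, p6, 2⟩ : PS)) = PS.fil n (⟨p1 - 1, p2 - 1, p3 - 1, p4 - 1, p5 - 1, p6 - 1, 2⟩ : PS) ∧
      PS.Valid n (⟨p1 - 1, p2 - 1, p3 - 1, p4 - 1, p5 - 1, p6 - 1, 2⟩ : PS) := by
  obtain ⟨h1, h2, h3, h4, h5, h6, h7, h8, h9, g1, g2, g3, g4, g5, g6⟩ := h
  replace h1 : 1 ≤ p1 := h1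
  replace h2 : p1 < p2 := h2
  replace h3 : p2 < p3 := h3
  replace h4 : p3 < p4 := h4
  replace h5 : p4 < p5 := h5
  replace h6 : p5 < p6 := h6
  replace h7 : p6 ≤ n := h7
  replace g1 : 2 ≤ p1 := g1
  replace g2 : 0 ≤ p2 := g2
  replace g3 : 5 ≤ p3 := g3
  replace g4 : 7 ≤ p4 := g4
  replace g5 : 9 ≤ p5 := g5
  replace g6 : 11 ≤ p6 := g6
  have hS : Srt n (⟨p1, p2, p3, p4, p5, p6, 2⟩ : PS) := ⟨h1, h2, h3, h4, h5, h6, h7⟩
  have c1 : cnt (⟨p1, p2, p3, p4, p5, p6, 2⟩ : PS) p1 = 0 := cnt_p1 hS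
  have c2 : cnt (⟨p1, p2, p3, p4, p5, p6, 2⟩ : PS) p2 = 1 := cnt_p2 hS
  have c3 : cnt (⟨p1, p2, p3, p4, p5, p6, 2⟩ : PS) p3 = 2 := cnt_p3 hS
  have c4 : cnt (⟨p1, p2, p3, p4, p5, p6, 2⟩ : PS) p4 = 3 := cnt_p4 hS
  have c5 : cnt (⟨p1, p2, p3, p4, p5, p6, 2⟩ : PS) p5 = 4 := cnt_p5 hS
  have c6 : cnt (⟨p1, p2, p3, p4, p5, p6, 2⟩ : PS) p6 = 5 := cnt_p6 hS
  have hS' : Srt n (⟨p1 - 1, p2 - 1, p3 - 1, p4 - 1, p5 - 1, p6 - 1, 2⟩ : PS) :=
    ⟨by show 1 ≤ p1 - 1; omega,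
      by show p1 - 1 < p2 - 1; omega,
      by show p2 - 1 < p3 - 1; omega,
      by show p3 - 1 < p4 - 1; omega,
      by show p4 - 1 < p5 - 1; omega,
      by show p5 - 1 < p6 - 1; omega,
      by show p6 - 1 ≤ n; omega⟩
  refine ⟨?_, ⟨by show 1 ≤ p1 - 1; omega,
      by show p1 - 1 < p2 - 1; omega,
      by show p2 - 1 < p3 - 1; omega,
      by show p3 - 1 < p4 - 1; omega,
      by show p4 - 1 < p5 - 1; omega,
      by show p5 - 1 < p6 - 1; omega,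
      by show p6 - 1 ≤ n; omega,
      by show 2 ≤ 2; omega,
      by show 2 ≤ 6; omega,
      by show 2 ≤ p1 - 1; omega,
      by show 0 ≤ p2 - 1; omega,
      by show 5 ≤ p3 - 1; omega,
      by show 7 ≤ p4 - 1; omega,
      by show 9 ≤ p5 - 1; omega,
      by show 11 ≤ p6 - 1; omega⟩⟩
  rw [fil_eq, fil_eq]
  have hcnt : ∀ w, 1 ≤ w → cnt (⟨p1 - 1, p2 - 1, p3 - 1, p4 - 1, p5 - 1, p6 - 1, 2⟩ : PS) (w - 1) = cnt (⟨p1, p2, p3, p4, p5, p6, 2⟩ : PS) w := by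
    intro w hw
    unfold cnt
    dsimp only
    rw [ite_pred (p := p1) (by omega) hw, ite_pred (p := p2) (by omega) hw, ite_pred (p := p3) (by omega) hw, ite_pred (p := p4) (by omega) hw, ite_pred (p := p5) (by omega) hw, ite_pred (p := p6) (by omega) hw]
  have hRQ : ∀ v, 1 ≤ v → v < n → RQ n (⟨p1, p2, p3, p4, p5, p6, 2⟩ : PS) (v + 1) → RQ n (⟨p1 - 1, p2 - 1, p3 - 1, p4 - 1, p5 - 1, p6 - 1, 2⟩ : PS) v := by
    rintro v hv hvn ⟨_, a1, a2, a3, a4, a5, a6⟩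
    replace a1 : v + 1 ≠ p1 := a1
    replace a2 : v + 1 ≠ p2 := a2
    replace a3 : v + 1 ≠ p3 := a3
    replace a4 : v + 1 ≠ p4 := a4
    replace a5 : v + 1 ≠ p5 := a5
    replace a6 : v + 1 ≠ p6 := a6
    exact ⟨⟨hv, by omega⟩, by show v ≠ p1 - 1; omega,
      by show v ≠ p2 - 1; omega,
      by show v ≠ p3 - 1; omega,
      by show v ≠ p4 - 1; omega,
      by show v ≠ p5 - 1; omega,
      by show v ≠ p6 - 1; omega⟩
  have hRQn : RQ n (⟨p1 - 1, p2 - 1, p3 - 1, p4 - 1, p5 - 1, p6 - 1, 2⟩ : PS) n :=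
    ⟨⟨by omega, le_rfl⟩, by show n ≠ p1 - 1; omega,
      by show n ≠ p2 - 1; omega,
      by show n ≠ p3 - 1; omega,
      by show n ≠ p4 - 1; omega,
      by show n ≠ p5 - 1; omega,
      by show n ≠ p6 - 1; omega⟩
  have f1 : (fun i => if i = n - 6 - 1 then n else (if i < n - 6 - 1 then
      rowA n (⟨p1, p2, p3, p4, p5, p6, 2⟩ : PS) (i + 1) else rowA n (⟨p1, p2, p3, p4, p5, p6, 2⟩ : PS) i) - 1) = rowA n (⟨p1 - 1, p2 - 1, p3 - 1, p4 - 1, p5 - 1, p6 - 1, 2⟩ : PS) := by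
    funext i
    exact row0_end (by omega) hS hS' hcnt hRQ hRQn i
  have f2 : (fun i => PS.rowB (⟨p1, p2, p3, p4, p5, p6, 2⟩ : PS) i - 1) = PS.rowB (⟨p1 - 1, p2 - 1, p3 - 1, p4 - 1, p5 - 1, p6 - 1, 2⟩ : PS) := by
    funext i
    match i with
    | 0 => rfl
    | 1 => rfl
    | 2 => rfl
    | 3 => rfl
    | 4 => rfl
    | i + 5 => rfl
  refine (promote_end (n - 6) (by omega) (by omega) ?_ ?_ ?_).trans ?_
  · intro i hi
    match i with
    | 0 => exact ⟨rowA_ne_zero hS (by omega), Or.inr (rowA_lt hS (p := p1) (by omega)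
        (by omega) (by omega) (by rw [c1]; omega))⟩
    | 1 => exact ⟨rowA_ne_zero hS (by omega), Or.inr (rowA_lt hS (p := p3) (by omega)
        (by omega) (by omega) (by rw [c3]; omega))⟩
    | 2 => exact ⟨rowA_ne_zero hS (by omega), Or.inr (rowA_lt hS (p := p4) (by omega)
        (by omega) (by omega) (by rw [c4]; omega))⟩
    | 3 => exact ⟨rowA_ne_zero hS (by omega), Or.inr (rowA_lt hS (p := p5) (by omega)
        (by omega) (by omega) (by rw [c5]; omega))⟩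
    | 4 => exact ⟨rowA_ne_zero hS (by omega), Or.inr (rowA_lt hS (p := p6) (by omega)
        (by omega) (by omega) (by rw [c6]; omega))⟩
    | i + 5 => exact ⟨rowA_ne_zero hS (by omega), Or.inl rfl⟩
  · unfold rowA
    rw [if_neg (by omega)]
  · exact rowB_ge _ (by omega)
  · rw [f1, f2]
    rfl

lemma st_3_1 {n p1 p2 p3 p4 p5 p6 : ℕ} (hn : 15 ≤ n)
    (h : PS.Valid n (⟨p1, p2, p3, p4, p5, p6, 3⟩ : PS))
    (e1 : p1 = 2) :
    promote n (PS.fil n (⟨p1, p2, p3, p4, p5, p6, 3⟩ : PS)) = PS.fil n (⟨p2 - 1, p3 - 1, p4 - 1, p5 - 1, p6 - 1, n, 2⟩ : PS) ∧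
      PS.Valid n (⟨p2 - 1, p3 - 1, p4 - 1, p5 - 1, p6 - 1, n, 2⟩ : PS) := by
  obtain ⟨h1, h2, h3, h4, h5, h6, h7, h8, h9, g1, g2, g3, g4, g5, g6⟩ := h
  replace h1 : 1 ≤ p1 := h1
  replace h2 : p1 < p2 := h2
  replace h3 : p2 < p3 := h3
  replace h4 : p3 < p4 := h4
  replace h5 : p4 < p5 := h5
  replace h6 : p5 < p6 := h6
  replace h7 : p6 ≤ n := h7
  replace g1 : 2 ≤ p1 := g1
  replace g2 : 4 ≤ p2 := g2
  replace g3 : 0 ≤ p3 := g3
  replace g4 : 7 ≤ p4 := g4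
  replace g5 : 9 ≤ p5 := g5
  replace g6 : 11 ≤ p6 := g6
  have hS : Srt n (⟨p1, p2, p3, p4, p5, p6, 3⟩ : PS) := ⟨h1, h2, h3, h4, h5, h6, h7⟩
  have c1 : cnt (⟨p1, p2, p3, p4, p5, p6, 3⟩ : PS) p1 = 0 := cnt_p1 hS
  have c2 : cnt (⟨p1, p2, p3, p4, p5, p6, 3⟩ : PS) p2 = 1 := cnt_p2 hS
  have c3 : cnt (⟨p1, p2, p3, p4, p5, p6, 3⟩ : PS) p3 = 2 := cnt_p3 hS
  have c4 : cnt (⟨p1, p2, p3, p4, p5, p6, 3⟩ : PS) p4 = 3 := cnt_p4 hS
  have c5 : cnt (⟨p1, p2, p3, p4, p5, p6, 3⟩ : PS) p5 = 4 := cnt_p5 hS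
  have c6 : cnt (⟨p1, p2, p3, p4, p5, p6, 3⟩ : PS) p6 = 5 := cnt_p6 hS
  have hS' : Srt n (⟨p2 - 1, p3 - 1, p4 - 1, p5 - 1, p6 - 1, n, 2⟩ : PS) :=
    ⟨by show 1 ≤ p2 - 1; omega,
      by show p2 - 1 < p3 - 1; omega,
      by show p3 - 1 < p4 - 1; omega,
      by show p4 - 1 < p5 - 1; omega,
      by show p5 - 1 < p6 - 1; omega,
      by show p6 - 1 < n; omega,
      by show n ≤ n; omega⟩
  refine ⟨?_, ⟨by show 1 ≤ p2 - 1; omega,
      by show p2 - 1 < p3 - 1; omega,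
      by show p3 - 1 < p4 - 1; omega,
      by show p4 - 1 < p5 - 1; omega,
      by show p5 - 1 < p6 - 1; omega,
      by show p6 - 1 < n; omega,
      by show n ≤ n; omega,
      by show 2 ≤ 2; omega,
      by show 2 ≤ 6; omega,
      by show 2 ≤ p2 - 1; omega,
      by show 0 ≤ p3 - 1; omega,
      by show 5 ≤ p4 - 1; omega,
      by show 7 ≤ p5 - 1; omega,
      by show 9 ≤ p6 - 1; omega,
      by show 11 ≤ n; omega⟩⟩
  rw [fil_eq, fil_eq]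
  have hnb : ¬ RQ n (⟨p1, p2, p3, p4, p5, p6, 3⟩ : PS) p1 := by
    rintro ⟨_, a1, a2, a3, a4, a5, a6⟩
    exact a1 rfl
  have hcnt : ∀ w, 1 ≤ w → w ≤ n →
      cnt (⟨p2 - 1, p3 - 1, p4 - 1, p5 - 1, p6 - 1, n, 2⟩ : PS) (w - 1) + (if p1 < w then 1 else 0) = cnt (⟨p1, p2, p3, p4, p5, p6, 3⟩ : PS) w := by
    intro w hw hwn
    unfold cnt
    dsimp only
    rw [ite_pred (p := p2) (by omega) hw, ite_pred (p := p3) (by omega) hw, ite_pred (p := p4) (by omega) hw, ite_pred (p := p5) (by omega) hw, ite_pred (p := p6) (by omega) hw,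
      if_neg (show ¬ n < w - 1 by omega)]
    ring
  have hRQ : ∀ v, 1 ≤ v → v < n → RQ n (⟨p1, p2, p3, p4, p5, p6, 3⟩ : PS) (v + 1) ∨ v + 1 = p1 →
      RQ n (⟨p2 - 1, p3 - 1, p4 - 1, p5 - 1, p6 - 1, n, 2⟩ : PS) v := by
    rintro v hv hvn (⟨_, a1, a2, a3, a4, a5, a6⟩ | hq)
    · replace a1 : v + 1 ≠ p1 := a1
      replace a2 : v + 1 ≠ p2 := a2
      replace a3 : v + 1 ≠ p3 := a3
      replace a4 : v + 1 ≠ p4 := a4
      replace a5 : v + 1 ≠ p5 := a5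
      replace a6 : v + 1 ≠ p6 := a6
      exact ⟨⟨hv, by omega⟩, by show v ≠ p2 - 1; omega,
        by show v ≠ p3 - 1; omega,
        by show v ≠ p4 - 1; omega,
        by show v ≠ p5 - 1; omega,
        by show v ≠ p6 - 1; omega,
        by show v ≠ n; omega⟩
    · exact ⟨⟨hv, by omega⟩, by show v ≠ p2 - 1; omega,
        by show v ≠ p3 - 1; omega,
        by show v ≠ p4 - 1; omega,
        by show v ≠ p5 - 1; omega,
        by show v ≠ p6 - 1; omega,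
        by show v ≠ n; omega⟩
  have f1 : (fun i => (if i < 0 then rowA n (⟨p1, p2, p3, p4, p5, p6, 3⟩ : PS) (i + 1) else
      if i = 0 then PS.rowB (⟨p1, p2, p3, p4, p5, p6, 3⟩ : PS) 0 else rowA n (⟨p1, p2, p3, p4, p5, p6, 3⟩ : PS) i) - 1) = rowA n (⟨p2 - 1, p3 - 1, p4 - 1, p5 - 1, p6 - 1, n, 2⟩ : PS) := by
    funext i
    exact row0_stop hS hS' (b := p1) (c := 0) (by omega) (by rw [c1]; omega) hnb hcnt hRQ i
  have f2 : (fun i => if i = 4 then n else (if 0 ≤ i ∧ i < 4 then PS.rowB (⟨p1, p2, p3, p4, p5, p6, 3⟩ : PS) (i + 1) else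
      PS.rowB (⟨p1, p2, p3, p4, p5, p6, 3⟩ : PS) i) - 1) = PS.rowB (⟨p2 - 1, p3 - 1, p4 - 1, p5 - 1, p6 - 1, n, 2⟩ : PS) := by
    funext i
    match i with
    | 0 => rfl
    | 1 => rfl
    | 2 => rfl
    | 3 => rfl
    | 4 => rfl
    | i + 5 =>
      rw [if_neg (by omega), if_neg (by omega)]
      rfl
  refine (promote_stop (by omega) 0 (by omega) ?_ ?_ ?_ ?_ rfl ?_).trans ?_
  · intro i hi
    exact absurd hi (by omega)
  · show p1 ≠ 0
    omega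
  · exact rowA_gt hS (p := p1) (by omega) (by omega) (by omega) hnb (by rw [c1]; omega)
  · intro i hi
    have hc : i = 0 ∨ i = 1 ∨ i = 2 ∨ i = 3 := by omega
    rcases hc with rfl | rfl | rfl | rfl
    · show p2 ≠ 0
      omega
    · show p4 ≠ 0
      omega
    · show p5 ≠ 0
      omega
    · show p6 ≠ 0
      omega
  · intro _
    show p2 < p3
    omega
  · rw [f1, f2]
    rfl

lemma st_3_2 {n p1 p2 p3 p4 p5 p6 : ℕ} (hn : 15 ≤ n)
    (h : PS.Valid n (⟨p1, p2, p3, p4, p5, p6, 3⟩ : PS))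
    (e1 : ¬ p1 = 2) (e2 : p2 = 4) :
    promote n (PS.fil n (⟨p1, p2, p3, p4, p5, p6, 3⟩ : PS)) = PS.fil n (⟨p1 - 1, p3 - 1, p4 - 1, p5 - 1, p6 - 1, n, 2⟩ : PS) ∧
      PS.Valid n (⟨p1 - 1, p3 - 1, p4 - 1, p5 - 1, p6 - 1, n, 2⟩ : PS) := by
  obtain ⟨h1, h2, h3, h4, h5, h6, h7, h8, h9, g1, g2, g3, g4, g5, g6⟩ := h
  replace h1 : 1 ≤ p1 := h1
  replace h2 : p1 < p2 := h2
  replace h3 : p2 < p3 := h3
  replace h4 : p3 < p4 := h4
  replace h5 : p4 < p5 := h5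
  replace h6 : p5 < p6 := h6
  replace h7 : p6 ≤ n := h7
  replace g1 : 2 ≤ p1 := g1
  replace g2 : 4 ≤ p2 := g2
  replace g3 : 0 ≤ p3 := g3
  replace g4 : 7 ≤ p4 := g4
  replace g5 : 9 ≤ p5 := g5
  replace g6 : 11 ≤ p6 := g6
  have hS : Srt n (⟨p1, p2, p3, p4, p5, p6, 3⟩ : PS) := ⟨h1, h2, h3, h4, h5, h6, h7⟩
  have c1 : cnt (⟨p1, p2, p3, p4, p5, p6, 3⟩ : PS) p1 = 0 := cnt_p1 hS
  have c2 : cnt (⟨p1, p2, p3, p4, p5, p6, 3⟩ : PS) p2 = 1 := cnt_p2 hS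
  have c3 : cnt (⟨p1, p2, p3, p4, p5, p6, 3⟩ : PS) p3 = 2 := cnt_p3 hS
  have c4 : cnt (⟨p1, p2, p3, p4, p5, p6, 3⟩ : PS) p4 = 3 := cnt_p4 hS
  have c5 : cnt (⟨p1, p2, p3, p4, p5, p6, 3⟩ : PS) p5 = 4 := cnt_p5 hS
  have c6 : cnt (⟨p1, p2, p3, p4, p5, p6, 3⟩ : PS) p6 = 5 := cnt_p6 hS
  have hS' : Srt n (⟨p1 - 1, p3 - 1, p4 - 1, p5 - 1, p6 - 1, n, 2⟩ : PS) :=
    ⟨by show 1 ≤ p1 - 1; omega,
      by show p1 - 1 < p3 - 1; omega,
      by show p3 - 1 < p4 - 1; omega,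
      by show p4 - 1 < p5 - 1; omega,
      by show p5 - 1 < p6 - 1; omega,
      by show p6 - 1 < n; omega,
      by show n ≤ n; omega⟩
  refine ⟨?_, ⟨by show 1 ≤ p1 - 1; omega,
      by show p1 - 1 < p3 - 1; omega,
      by show p3 - 1 < p4 - 1; omega,
      by show p4 - 1 < p5 - 1; omega,
      by show p5 - 1 < p6 - 1; omega,
      by show p6 - 1 < n; omega,
      by show n ≤ n; omega,
      by show 2 ≤ 2; omega,
      by show 2 ≤ 6; omega,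
      by show 2 ≤ p1 - 1; omega,
      by show 0 ≤ p3 - 1; omega,
      by show 5 ≤ p4 - 1; omega,
      by show 7 ≤ p5 - 1; omega,
      by show 9 ≤ p6 - 1; omega,
      by show 11 ≤ n; omega⟩⟩
  rw [fil_eq, fil_eq]
  have hnb : ¬ RQ n (⟨p1, p2, p3, p4, p5, p6, 3⟩ : PS) p2 := by
    rintro ⟨_, a1, a2, a3, a4, a5, a6⟩
    exact a2 rfl
  have hcnt : ∀ w, 1 ≤ w → w ≤ n →
      cnt (⟨p1 - 1, p3 - 1, p4 - 1, p5 - 1, p6 - 1, n, 2⟩ : PS) (w - 1) + (if p2 < w then 1 else 0) = cnt (⟨p1, p2, p3, p4, p5, p6, 3⟩ : PS) w := by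
    intro w hw hwn
    unfold cnt
    dsimp only
    rw [ite_pred (p := p1) (by omega) hw, ite_pred (p := p3) (by omega) hw, ite_pred (p := p4) (by omega) hw, ite_pred (p := p5) (by omega) hw, ite_pred (p := p6) (by omega) hw,
      if_neg (show ¬ n < w - 1 by omega)]
    ring
  have hRQ : ∀ v, 1 ≤ v → v < n → RQ n (⟨p1, p2, p3, p4, p5, p6, 3⟩ : PS) (v + 1) ∨ v + 1 = p2 →
      RQ n (⟨p1 - 1, p3 - 1, p4 - 1, p5 - 1, p6 - 1, n, 2⟩ : PS) v := by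
    rintro v hv hvn (⟨_, a1, a2, a3, a4, a5, a6⟩ | hq)
    · replace a1 : v + 1 ≠ p1 := a1
      replace a2 : v + 1 ≠ p2 := a2
      replace a3 : v + 1 ≠ p3 := a3
      replace a4 : v + 1 ≠ p4 := a4
      replace a5 : v + 1 ≠ p5 := a5
      replace a6 : v + 1 ≠ p6 := a6
      exact ⟨⟨hv, by omega⟩, by show v ≠ p1 - 1; omega,
        by show v ≠ p3 - 1; omega,
        by show v ≠ p4 - 1; omega,
        by show v ≠ p5 - 1; omega,
        by show v ≠ p6 - 1; omega,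
        by show v ≠ n; omega⟩
    · exact ⟨⟨hv, by omega⟩, by show v ≠ p1 - 1; omega,
        by show v ≠ p3 - 1; omega,
        by show v ≠ p4 - 1; omega,
        by show v ≠ p5 - 1; omega,
        by show v ≠ p6 - 1; omega,
        by show v ≠ n; omega⟩
  have f1 : (fun i => (if i < 1 then rowA n (⟨p1, p2, p3, p4, p5, p6, 3⟩ : PS) (i + 1) else
      if i = 1 then PS.rowB (⟨p1, p2, p3, p4, p5, p6, 3⟩ : PS) 1 else rowA n (⟨p1, p2, p3, p4, p5, p6, 3⟩ : PS) i) - 1) = rowA n (⟨p1 - 1, p3 - 1, p4 - 1, p5 - 1, p6 - 1, n, 2⟩ : PS) := by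
    funext i
    exact row0_stop hS hS' (b := p2) (c := 1) (by omega) (by rw [c2]; omega) hnb hcnt hRQ i
  have f2 : (fun i => if i = 4 then n else (if 1 ≤ i ∧ i < 4 then PS.rowB (⟨p1, p2, p3, p4, p5, p6, 3⟩ : PS) (i + 1) else
      PS.rowB (⟨p1, p2, p3, p4, p5, p6, 3⟩ : PS) i) - 1) = PS.rowB (⟨p1 - 1, p3 - 1, p4 - 1, p5 - 1, p6 - 1, n, 2⟩ : PS) := by
    funext i
    match i with
    | 0 => rfl
    | 1 => rfl
    | 2 => rfl
    | 3 => rfl
    | 4 => rfl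
    | i + 5 =>
      rw [if_neg (by omega), if_neg (by omega)]
      rfl
  refine (promote_stop (by omega) 1 (by omega) ?_ ?_ ?_ ?_ rfl ?_).trans ?_
  · intro i hi
    obtain rfl : i = 0 := by omega
    exact ⟨rowA_ne_zero hS (by omega), rowA_lt hS (p := p1) (by omega) (by omega) (by omega)
        (by rw [c1]; omega)⟩
  · show p2 ≠ 0
    omega
  · exact rowA_gt hS (p := p2) (by omega) (by omega) (by omega) hnb (by rw [c2]; omega)
  · intro i hi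
    have hc : i = 0 ∨ i = 1 ∨ i = 2 ∨ i = 3 := by omega
    rcases hc with rfl | rfl | rfl | rfl
    · show p2 ≠ 0
      omega
    · show p4 ≠ 0
      omega
    · show p5 ≠ 0
      omega
    · show p6 ≠ 0
      omega
  · intro hc
    exact absurd hc (by omega)
  · rw [f1, f2]
    rfl

lemma st_3_4 {n p1 p2 p3 p4 p5 p6 : ℕ} (hn : 15 ≤ n)
    (h : PS.Valid n (⟨p1, p2, p3, p4, p5, p6, 3⟩ : PS))
    (e1 : ¬ p1 = 2) (e2 : ¬ p2 = 4) (e4 : p4 = 7) :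
    promote n (PS.fil n (⟨p1, p2, p3, p4, p5, p6, 3⟩ : PS)) = PS.fil n (⟨p1 - 1, p2 - 1, p3 - 1, p5 - 1, p6 - 1, n, 3⟩ : PS) ∧
      PS.Valid n (⟨p1 - 1, p2 - 1, p3 - 1, p5 - 1, p6 - 1, n, 3⟩ : PS) := by
  obtain ⟨h1, h2, h3, h4, h5, h6, h7, h8, h9, g1, g2, g3, g4, g5, g6⟩ := h
  replace h1 : 1 ≤ p1 := h1
  replace h2 : p1 < p2 := h2
  replace h3 : p2 < p3 := h3
  replace h4 : p3 < p4 := h4
  replace h5 : p4 < p5 := h5
  replace h6 : p5 < p6 := h6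
  replace h7 : p6 ≤ n := h7
  replace g1 : 2 ≤ p1 := g1
  replace g2 : 4 ≤ p2 := g2
  replace g3 : 0 ≤ p3 := g3
  replace g4 : 7 ≤ p4 := g4
  replace g5 : 9 ≤ p5 := g5
  replace g6 : 11 ≤ p6 := g6
  have hS : Srt n (⟨p1, p2, p3, p4, p5, p6, 3⟩ : PS) := ⟨h1, h2, h3, h4, h5, h6, h7⟩
  have c1 : cnt (⟨p1, p2, p3, p4, p5, p6, 3⟩ : PS) p1 = 0 := cnt_p1 hS
  have c2 : cnt (⟨p1, p2, p3, p4, p5, p6, 3⟩ : PS) p2 = 1 := cnt_p2 hS
  have c3 : cnt (⟨p1, p2, p3, p4, p5, p6, 3⟩ : PS) p3 = 2 := cnt_p3 hS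
  have c4 : cnt (⟨p1, p2, p3, p4, p5, p6, 3⟩ : PS) p4 = 3 := cnt_p4 hS
  have c5 : cnt (⟨p1, p2, p3, p4, p5, p6, 3⟩ : PS) p5 = 4 := cnt_p5 hS
  have c6 : cnt (⟨p1, p2, p3, p4, p5, p6, 3⟩ : PS) p6 = 5 := cnt_p6 hS
  have hS' : Srt n (⟨p1 - 1, p2 - 1, p3 - 1, p5 - 1, p6 - 1, n, 3⟩ : PS) :=
    ⟨by show 1 ≤ p1 - 1; omega,
      by show p1 - 1 < p2 - 1; omega,
      by show p2 - 1 < p3 - 1; omega,
      by show p3 - 1 < p5 - 1; omega,
      by show p5 - 1 < p6 - 1; omega,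
      by show p6 - 1 < n; omega,
      by show n ≤ n; omega⟩
  refine ⟨?_, ⟨by show 1 ≤ p1 - 1; omega,
      by show p1 - 1 < p2 - 1; omega,
      by show p2 - 1 < p3 - 1; omega,
      by show p3 - 1 < p5 - 1; omega,
      by show p5 - 1 < p6 - 1; omega,
      by show p6 - 1 < n; omega,
      by show n ≤ n; omega,
      by show 2 ≤ 3; omega,
      by show 3 ≤ 6; omega,
      by show 2 ≤ p1 - 1; omega,
      by show 4 ≤ p2 - 1; omega,
      by show 0 ≤ p3 - 1; omega,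
      by show 7 ≤ p5 - 1; omega,
      by show 9 ≤ p6 - 1; omega,
      by show 11 ≤ n; omega⟩⟩
  rw [fil_eq, fil_eq]
  have hnb : ¬ RQ n (⟨p1, p2, p3, p4, p5, p6, 3⟩ : PS) p4 := by
    rintro ⟨_, a1, a2, a3, a4, a5, a6⟩
    exact a4 rfl
  have hcnt : ∀ w, 1 ≤ w → w ≤ n →
      cnt (⟨p1 - 1, p2 - 1, p3 - 1, p5 - 1, p6 - 1, n, 3⟩ : PS) (w - 1) + (if p4 < w then 1 else 0) = cnt (⟨p1, p2, p3, p4, p5, p6, 3⟩ : PS) w := by
    intro w hw hwn
    unfold cnt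
    dsimp only
    rw [ite_pred (p := p1) (by omega) hw, ite_pred (p := p2) (by omega) hw, ite_pred (p := p3) (by omega) hw, ite_pred (p := p5) (by omega) hw, ite_pred (p := p6) (by omega) hw,
      if_neg (show ¬ n < w - 1 by omega)]
    ring
  have hRQ : ∀ v, 1 ≤ v → v < n → RQ n (⟨p1, p2, p3, p4, p5, p6, 3⟩ : PS) (v + 1) ∨ v + 1 = p4 →
      RQ n (⟨p1 - 1, p2 - 1, p3 - 1, p5 - 1, p6 - 1, n, 3⟩ : PS) v := by
    rintro v hv hvn (⟨_, a1, a2, a3, a4, a5, a6⟩ | hq)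
    · replace a1 : v + 1 ≠ p1 := a1
      replace a2 : v + 1 ≠ p2 := a2
      replace a3 : v + 1 ≠ p3 := a3
      replace a4 : v + 1 ≠ p4 := a4
      replace a5 : v + 1 ≠ p5 := a5
      replace a6 : v + 1 ≠ p6 := a6
      exact ⟨⟨hv, by omega⟩, by show v ≠ p1 - 1; omega,
        by show v ≠ p2 - 1; omega,
        by show v ≠ p3 - 1; omega,
        by show v ≠ p5 - 1; omega,
        by show v ≠ p6 - 1; omega,
        by show v ≠ n; omega⟩
    · exact ⟨⟨hv, by omega⟩, by show v ≠ p1 - 1; omega,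
        by show v ≠ p2 - 1; omega,
        by show v ≠ p3 - 1; omega,
        by show v ≠ p5 - 1; omega,
        by show v ≠ p6 - 1; omega,
        by show v ≠ n; omega⟩
  have f1 : (fun i => (if i < 2 then rowA n (⟨p1, p2, p3, p4, p5, p6, 3⟩ : PS) (i + 1) else
      if i = 2 then PS.rowB (⟨p1, p2, p3, p4, p5, p6, 3⟩ : PS) 2 else rowA n (⟨p1, p2, p3, p4, p5, p6, 3⟩ : PS) i) - 1) = rowA n (⟨p1 - 1, p2 - 1, p3 - 1, p5 - 1, p6 - 1, n, 3⟩ : PS) := by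
    funext i
    exact row0_stop hS hS' (b := p4) (c := 2) (by omega) (by rw [c4]; omega) hnb hcnt hRQ i
  have f2 : (fun i => if i = 4 then n else (if 2 ≤ i ∧ i < 4 then PS.rowB (⟨p1, p2, p3, p4, p5, p6, 3⟩ : PS) (i + 1) else
      PS.rowB (⟨p1, p2, p3, p4, p5, p6, 3⟩ : PS) i) - 1) = PS.rowB (⟨p1 - 1, p2 - 1, p3 - 1, p5 - 1, p6 - 1, n, 3⟩ : PS) := by
    funext i
    match i with
    | 0 => rfl
    | 1 => rfl
    | 2 => rfl
    | 3 => rfl
    | 4 => rfl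
    | i + 5 =>
      rw [if_neg (by omega), if_neg (by omega)]
      rfl
  refine (promote_stop (by omega) 2 (by omega) ?_ ?_ ?_ ?_ rfl ?_).trans ?_
  · intro i hi
    have hc : i = 0 ∨ i = 1 := by omega
    rcases hc with rfl | rfl
    · exact ⟨rowA_ne_zero hS (by omega), rowA_lt hS (p := p1) (by omega) (by omega) (by omega)
        (by rw [c1]; omega)⟩
    · exact ⟨rowA_ne_zero hS (by omega), rowA_lt hS (p := p2) (by omega) (by omega) (by omega)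
        (by rw [c2]; omega)⟩
  · show p4 ≠ 0
    omega
  · exact rowA_gt hS (p := p4) (by omega) (by omega) (by omega) hnb (by rw [c4]; omega)
  · intro i hi
    have hc : i = 0 ∨ i = 1 ∨ i = 2 ∨ i = 3 := by omega
    rcases hc with rfl | rfl | rfl | rfl
    · show p2 ≠ 0
      omega
    · show p4 ≠ 0
      omega
    · show p5 ≠ 0
      omega
    · show p6 ≠ 0
      omega
  · intro hc
    exact absurd hc (by omega)
  · rw [f1, f2]
    rfl

lemma st_3_5 {n p1 p2 p3 p4 p5 p6 : ℕ} (hn : 15 ≤ n)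
    (h : PS.Valid n (⟨p1, p2, p3, p4, p5, p6, 3⟩ : PS))
    (e1 : ¬ p1 = 2) (e2 : ¬ p2 = 4) (e4 : ¬ p4 = 7)
    (e5 : p5 = 9) :
    promote n (PS.fil n (⟨p1, p2, p3, p4, p5, p6, 3⟩ : PS)) = PS.fil n (⟨p1 - 1, p2 - 1, p3 - 1, p4 - 1, p6 - 1, n, 3⟩ : PS) ∧
      PS.Valid n (⟨p1 - 1, p2 - 1, p3 - 1, p4 - 1, p6 - 1, n, 3⟩ : PS) := by
  obtain ⟨h1, h2, h3, h4, h5, h6, h7, h8, h9, g1, g2, g3, g4, g5, g6⟩ := h
  replace h1 : 1 ≤ p1 := h1
  replace h2 : p1 < p2 := h2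
  replace h3 : p2 < p3 := h3
  replace h4 : p3 < p4 := h4
  replace h5 : p4 < p5 := h5
  replace h6 : p5 < p6 := h6
  replace h7 : p6 ≤ n := h7
  replace g1 : 2 ≤ p1 := g1
  replace g2 : 4 ≤ p2 := g2
  replace g3 : 0 ≤ p3 := g3
  replace g4 : 7 ≤ p4 := g4
  replace g5 : 9 ≤ p5 := g5
  replace g6 : 11 ≤ p6 := g6
  have hS : Srt n (⟨p1, p2, p3, p4, p5, p6, 3⟩ : PS) := ⟨h1, h2, h3, h4, h5, h6, h7⟩
  have c1 : cnt (⟨p1, p2, p3, p4, p5, p6, 3⟩ : PS) p1 = 0 := cnt_p1 hS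
  have c2 : cnt (⟨p1, p2, p3, p4, p5, p6, 3⟩ : PS) p2 = 1 := cnt_p2 hS
  have c3 : cnt (⟨p1, p2, p3, p4, p5, p6, 3⟩ : PS) p3 = 2 := cnt_p3 hS
  have c4 : cnt (⟨p1, p2, p3, p4, p5, p6, 3⟩ : PS) p4 = 3 := cnt_p4 hS
  have c5 : cnt (⟨p1, p2, p3, p4, p5, p6, 3⟩ : PS) p5 = 4 := cnt_p5 hS
  have c6 : cnt (⟨p1, p2, p3, p4, p5, p6, 3⟩ : PS) p6 = 5 := cnt_p6 hS
  have hS' : Srt n (⟨p1 - 1, p2 - 1, p3 - 1, p4 - 1, p6 - 1, n, 3⟩ : PS) :=
    ⟨by show 1 ≤ p1 - 1; omega,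
      by show p1 - 1 < p2 - 1; omega,
      by show p2 - 1 < p3 - 1; omega,
      by show p3 - 1 < p4 - 1; omega,
      by show p4 - 1 < p6 - 1; omega,
      by show p6 - 1 < n; omega,
      by show n ≤ n; omega⟩
  refine ⟨?_, ⟨by show 1 ≤ p1 - 1; omega,
      by show p1 - 1 < p2 - 1; omega,
      by show p2 - 1 < p3 - 1; omega,
      by show p3 - 1 < p4 - 1; omega,
      by show p4 - 1 < p6 - 1; omega,
      by show p6 - 1 < n; omega,
      by show n ≤ n; omega,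
      by show 2 ≤ 3; omega,
      by show 3 ≤ 6; omega,
      by show 2 ≤ p1 - 1; omega,
      by show 4 ≤ p2 - 1; omega,
      by show 0 ≤ p3 - 1; omega,
      by show 7 ≤ p4 - 1; omega,
      by show 9 ≤ p6 - 1; omega,
      by show 11 ≤ n; omega⟩⟩
  rw [fil_eq, fil_eq]
  have hnb : ¬ RQ n (⟨p1, p2, p3, p4, p5, p6, 3⟩ : PS) p5 := by
    rintro ⟨_, a1, a2, a3, a4, a5, a6⟩
    exact a5 rfl
  have hcnt : ∀ w, 1 ≤ w → w ≤ n →
      cnt (⟨p1 - 1, p2 - 1, p3 - 1, p4 - 1, p6 - 1, n, 3⟩ : PS) (w - 1) + (if p5 < w then 1 else 0) = cnt (⟨p1, p2, p3, p4, p5, p6, 3⟩ : PS) w := by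
    intro w hw hwn
    unfold cnt
    dsimp only
    rw [ite_pred (p := p1) (by omega) hw, ite_pred (p := p2) (by omega) hw, ite_pred (p := p3) (by omega) hw, ite_pred (p := p4) (by omega) hw, ite_pred (p := p6) (by omega) hw,
      if_neg (show ¬ n < w - 1 by omega)]
    ring
  have hRQ : ∀ v, 1 ≤ v → v < n → RQ n (⟨p1, p2, p3, p4, p5, p6, 3⟩ : PS) (v + 1) ∨ v + 1 = p5 →
      RQ n (⟨p1 - 1, p2 - 1, p3 - 1, p4 - 1, p6 - 1, n, 3⟩ : PS) v := by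
    rintro v hv hvn (⟨_, a1, a2, a3, a4, a5, a6⟩ | hq)
    · replace a1 : v + 1 ≠ p1 := a1
      replace a2 : v + 1 ≠ p2 := a2
      replace a3 : v + 1 ≠ p3 := a3
      replace a4 : v + 1 ≠ p4 := a4
      replace a5 : v + 1 ≠ p5 := a5
      replace a6 : v + 1 ≠ p6 := a6
      exact ⟨⟨hv, by omega⟩, by show v ≠ p1 - 1; omega,
        by show v ≠ p2 - 1; omega,
        by show v ≠ p3 - 1; omega,
        by show v ≠ p4 - 1; omega,
        by show v ≠ p6 - 1; omega,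
        by show v ≠ n; omega⟩
    · exact ⟨⟨hv, by omega⟩, by show v ≠ p1 - 1; omega,
        by show v ≠ p2 - 1; omega,
        by show v ≠ p3 - 1; omega,
        by show v ≠ p4 - 1; omega,
        by show v ≠ p6 - 1; omega,
        by show v ≠ n; omega⟩
  have f1 : (fun i => (if i < 3 then rowA n (⟨p1, p2, p3, p4, p5, p6, 3⟩ : PS) (i + 1) else
      if i = 3 then PS.rowB (⟨p1, p2, p3, p4, p5, p6, 3⟩ : PS) 3 else rowA n (⟨p1, p2, p3, p4, p5, p6, 3⟩ : PS) i) - 1) = rowA n (⟨p1 - 1, p2 - 1, p3 - 1, p4 - 1, p6 - 1, n, 3⟩ : PS) := by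
    funext i
    exact row0_stop hS hS' (b := p5) (c := 3) (by omega) (by rw [c5]; omega) hnb hcnt hRQ i
  have f2 : (fun i => if i = 4 then n else (if 3 ≤ i ∧ i < 4 then PS.rowB (⟨p1, p2, p3, p4, p5, p6, 3⟩ : PS) (i + 1) else
      PS.rowB (⟨p1, p2, p3, p4, p5, p6, 3⟩ : PS) i) - 1) = PS.rowB (⟨p1 - 1, p2 - 1, p3 - 1, p4 - 1, p6 - 1, n, 3⟩ : PS) := by
    funext i
    match i with
    | 0 => rfl
    | 1 => rfl
    | 2 => rfl
    | 3 => rfl
    | 4 => rfl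
    | i + 5 =>
      rw [if_neg (by omega), if_neg (by omega)]
      rfl
  refine (promote_stop (by omega) 3 (by omega) ?_ ?_ ?_ ?_ rfl ?_).trans ?_
  · intro i hi
    have hc : i = 0 ∨ i = 1 ∨ i = 2 := by omega
    rcases hc with rfl | rfl | rfl
    · exact ⟨rowA_ne_zero hS (by omega), rowA_lt hS (p := p1) (by omega) (by omega) (by omega)
        (by rw [c1]; omega)⟩
    · exact ⟨rowA_ne_zero hS (by omega), rowA_lt hS (p := p2) (by omega) (by omega) (by omega)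
        (by rw [c2]; omega)⟩
    · exact ⟨rowA_ne_zero hS (by omega), rowA_lt hS (p := p4) (by omega) (by omega) (by omega)
        (by rw [c4]; omega)⟩
  · show p5 ≠ 0
    omega
  · exact rowA_gt hS (p := p5) (by omega) (by omega) (by omega) hnb (by rw [c5]; omega)
  · intro i hi
    have hc : i = 0 ∨ i = 1 ∨ i = 2 ∨ i = 3 := by omega
    rcases hc with rfl | rfl | rfl | rfl
    · show p2 ≠ 0
      omega
    · show p4 ≠ 0
      omega
    · show p5 ≠ 0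
      omega
    · show p6 ≠ 0
      omega
  · intro hc
    exact absurd hc (by omega)
  · rw [f1, f2]
    rfl

lemma st_3_6 {n p1 p2 p3 p4 p5 p6 : ℕ} (hn : 15 ≤ n)
    (h : PS.Valid n (⟨p1, p2, p3, p4, p5, p6, 3⟩ : PS))
    (e1 : ¬ p1 = 2) (e2 : ¬ p2 = 4) (e4 : ¬ p4 = 7)
    (e5 : ¬ p5 = 9) (e6 : p6 = 11) :
    promote n (PS.fil n (⟨p1, p2, p3, p4, p5, p6, 3⟩ : PS)) = PS.fil n (⟨p1 - 1, p2 - 1, p3 - 1, p4 - 1, p5 - 1, n, 3⟩ : PS) ∧
      PS.Valid n (⟨p1 - 1, p2 - 1, p3 - 1, p4 - 1, p5 - 1, n, 3⟩ : PS) := by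
  obtain ⟨h1, h2, h3, h4, h5, h6, h7, h8, h9, g1, g2, g3, g4, g5, g6⟩ := h
  replace h1 : 1 ≤ p1 := h1
  replace h2 : p1 < p2 := h2
  replace h3 : p2 < p3 := h3
  replace h4 : p3 < p4 := h4
  replace h5 : p4 < p5 := h5
  replace h6 : p5 < p6 := h6
  replace h7 : p6 ≤ n := h7
  replace g1 : 2 ≤ p1 := g1
  replace g2 : 4 ≤ p2 := g2
  replace g3 : 0 ≤ p3 := g3
  replace g4 : 7 ≤ p4 := g4
  replace g5 : 9 ≤ p5 := g5
  replace g6 : 11 ≤ p6 := g6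
  have hS : Srt n (⟨p1, p2, p3, p4, p5, p6, 3⟩ : PS) := ⟨h1, h2, h3, h4, h5, h6, h7⟩
  have c1 : cnt (⟨p1, p2, p3, p4, p5, p6, 3⟩ : PS) p1 = 0 := cnt_p1 hS
  have c2 : cnt (⟨p1, p2, p3, p4, p5, p6, 3⟩ : PS) p2 = 1 := cnt_p2 hS
  have c3 : cnt (⟨p1, p2, p3, p4, p5, p6, 3⟩ : PS) p3 = 2 := cnt_p3 hS
  have c4 : cnt (⟨p1, p2, p3, p4, p5, p6, 3⟩ : PS) p4 = 3 := cnt_p4 hS
  have c5 : cnt (⟨p1, p2, p3, p4, p5, p6, 3⟩ : PS) p5 = 4 := cnt_p5 hS
  have c6 : cnt (⟨p1, p2, p3, p4, p5, p6, 3⟩ : PS) p6 = 5 := cnt_p6 hS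
  have hS' : Srt n (⟨p1 - 1, p2 - 1, p3 - 1, p4 - 1, p5 - 1, n, 3⟩ : PS) :=
    ⟨by show 1 ≤ p1 - 1; omega,
      by show p1 - 1 < p2 - 1; omega,
      by show p2 - 1 < p3 - 1; omega,
      by show p3 - 1 < p4 - 1; omega,
      by show p4 - 1 < p5 - 1; omega,
      by show p5 - 1 < n; omega,
      by show n ≤ n; omega⟩
  refine ⟨?_, ⟨by show 1 ≤ p1 - 1; omega,
      by show p1 - 1 < p2 - 1; omega,
      by show p2 - 1 < p3 - 1; omega,
      by show p3 - 1 < p4 - 1; omega,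
      by show p4 - 1 < p5 - 1; omega,
      by show p5 - 1 < n; omega,
      by show n ≤ n; omega,
      by show 2 ≤ 3; omega,
      by show 3 ≤ 6; omega,
      by show 2 ≤ p1 - 1; omega,
      by show 4 ≤ p2 - 1; omega,
      by show 0 ≤ p3 - 1; omega,
      by show 7 ≤ p4 - 1; omega,
      by show 9 ≤ p5 - 1; omega,
      by show 11 ≤ n; omega⟩⟩
  rw [fil_eq, fil_eq]
  have hnb : ¬ RQ n (⟨p1, p2, p3, p4, p5, p6, 3⟩ : PS) p6 := by
    rintro ⟨_, a1, a2, a3, a4, a5, a6⟩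
    exact a6 rfl
  have hcnt : ∀ w, 1 ≤ w → w ≤ n →
      cnt (⟨p1 - 1, p2 - 1, p3 - 1, p4 - 1, p5 - 1, n, 3⟩ : PS) (w - 1) + (if p6 < w then 1 else 0) = cnt (⟨p1, p2, p3, p4, p5, p6, 3⟩ : PS) w := by
    intro w hw hwn
    unfold cnt
    dsimp only
    rw [ite_pred (p := p1) (by omega) hw, ite_pred (p := p2) (by omega) hw, ite_pred (p := p3) (by omega) hw, ite_pred (p := p4) (by omega) hw, ite_pred (p := p5) (by omega) hw,
      if_neg (show ¬ n < w - 1 by omega)]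
    ring
  have hRQ : ∀ v, 1 ≤ v → v < n → RQ n (⟨p1, p2, p3, p4, p5, p6, 3⟩ : PS) (v + 1) ∨ v + 1 = p6 →
      RQ n (⟨p1 - 1, p2 - 1, p3 - 1, p4 - 1, p5 - 1, n, 3⟩ : PS) v := by
    rintro v hv hvn (⟨_, a1, a2, a3, a4, a5, a6⟩ | hq)
    · replace a1 : v + 1 ≠ p1 := a1
      replace a2 : v + 1 ≠ p2 := a2
      replace a3 : v + 1 ≠ p3 := a3
      replace a4 : v + 1 ≠ p4 := a4
      replace a5 : v + 1 ≠ p5 := a5
      replace a6 : v + 1 ≠ p6 := a6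
      exact ⟨⟨hv, by omega⟩, by show v ≠ p1 - 1; omega,
        by show v ≠ p2 - 1; omega,
        by show v ≠ p3 - 1; omega,
        by show v ≠ p4 - 1; omega,
        by show v ≠ p5 - 1; omega,
        by show v ≠ n; omega⟩
    · exact ⟨⟨hv, by omega⟩, by show v ≠ p1 - 1; omega,
        by show v ≠ p2 - 1; omega,
        by show v ≠ p3 - 1; omega,
        by show v ≠ p4 - 1; omega,
        by show v ≠ p5 - 1; omega,
        by show v ≠ n; omega⟩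
  have f1 : (fun i => (if i < 4 then rowA n (⟨p1, p2, p3, p4, p5, p6, 3⟩ : PS) (i + 1) else
      if i = 4 then PS.rowB (⟨p1, p2, p3, p4, p5, p6, 3⟩ : PS) 4 else rowA n (⟨p1, p2, p3, p4, p5, p6, 3⟩ : PS) i) - 1) = rowA n (⟨p1 - 1, p2 - 1, p3 - 1, p4 - 1, p5 - 1, n, 3⟩ : PS) := by
    funext i
    exact row0_stop hS hS' (b := p6) (c := 4) (by omega) (by rw [c6]; omega) hnb hcnt hRQ i
  have f2 : (fun i => if i = 4 then n else (if 4 ≤ i ∧ i < 4 then PS.rowB (⟨p1, p2, p3, p4, p5, p6, 3⟩ : PS) (i + 1) else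
      PS.rowB (⟨p1, p2, p3, p4, p5, p6, 3⟩ : PS) i) - 1) = PS.rowB (⟨p1 - 1, p2 - 1, p3 - 1, p4 - 1, p5 - 1, n, 3⟩ : PS) := by
    funext i
    match i with
    | 0 => rfl
    | 1 => rfl
    | 2 => rfl
    | 3 => rfl
    | 4 => rfl
    | i + 5 =>
      rw [if_neg (by omega), if_neg (by omega)]
      rfl
  refine (promote_stop (by omega) 4 (by omega) ?_ ?_ ?_ ?_ rfl ?_).trans ?_
  · intro i hi
    have hc : i = 0 ∨ i = 1 ∨ i = 2 ∨ i = 3 := by omega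
    rcases hc with rfl | rfl | rfl | rfl
    · exact ⟨rowA_ne_zero hS (by omega), rowA_lt hS (p := p1) (by omega) (by omega) (by omega)
        (by rw [c1]; omega)⟩
    · exact ⟨rowA_ne_zero hS (by omega), rowA_lt hS (p := p2) (by omega) (by omega) (by omega)
        (by rw [c2]; omega)⟩
    · exact ⟨rowA_ne_zero hS (by omega), rowA_lt hS (p := p4) (by omega) (by omega) (by omega)
        (by rw [c4]; omega)⟩
    · exact ⟨rowA_ne_zero hS (by omega), rowA_lt hS (p := p5) (by omega) (by omega) (by omega)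
        (by rw [c5]; omega)⟩
  · show p6 ≠ 0
    omega
  · exact rowA_gt hS (p := p6) (by omega) (by omega) (by omega) hnb (by rw [c6]; omega)
  · intro i hi
    have hc : i = 0 ∨ i = 1 ∨ i = 2 ∨ i = 3 := by omega
    rcases hc with rfl | rfl | rfl | rfl
    · show p2 ≠ 0
      omega
    · show p4 ≠ 0
      omega
    · show p5 ≠ 0
      omega
    · show p6 ≠ 0
      omega
  · intro hc
    exact absurd hc (by omega)
  · rw [f1, f2]
    rfl

lemma st_3_7 {n p1 p2 p3 p4 p5 p6 : ℕ} (hn : 15 ≤ n)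
    (h : PS.Valid n (⟨p1, p2, p3, p4, p5, p6, 3⟩ : PS))
    (e1 : ¬ p1 = 2) (e2 : ¬ p2 = 4) (e4 : ¬ p4 = 7)
    (e5 : ¬ p5 = 9) (e6 : ¬ p6 = 11) :
    promote n (PS.fil n (⟨p1, p2, p3, p4, p5, p6, 3⟩ : PS)) = PS.fil n (⟨p1 - 1, p2 - 1, p3 - 1, p4 - 1, p5 - 1, p6 - 1, 3⟩ : PS) ∧
      PS.Valid n (⟨p1 - 1, p2 - 1, p3 - 1, p4 - 1, p5 - 1, p6 - 1, 3⟩ : PS) := by
  obtain ⟨h1, h2, h3, h4, h5, h6, h7, h8, h9, g1, g2, g3, g4, g5, g6⟩ := h
  replace h1 : 1 ≤ p1 := h1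
  replace h2 : p1 < p2 := h2
  replace h3 : p2 < p3 := h3
  replace h4 : p3 < p4 := h4
  replace h5 : p4 < p5 := h5
  replace h6 : p5 < p6 := h6
  replace h7 : p6 ≤ n := h7
  replace g1 : 2 ≤ p1 := g1
  replace g2 : 4 ≤ p2 := g2
  replace g3 : 0 ≤ p3 := g3
  replace g4 : 7 ≤ p4 := g4
  replace g5 : 9 ≤ p5 := g5
  replace g6 : 11 ≤ p6 := g6
  have hS : Srt n (⟨p1, p2, p3, p4, p5, p6, 3⟩ : PS) := ⟨h1, h2, h3, h4, h5, h6, h7⟩
  have c1 : cnt (⟨p1, p2, p3, p4, p5, p6, 3⟩ : PS) p1 = 0 := cnt_p1 hS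
  have c2 : cnt (⟨p1, p2, p3, p4, p5, p6, 3⟩ : PS) p2 = 1 := cnt_p2 hS
  have c3 : cnt (⟨p1, p2, p3, p4, p5, p6, 3⟩ : PS) p3 = 2 := cnt_p3 hS
  have c4 : cnt (⟨p1, p2, p3, p4, p5, p6, 3⟩ : PS) p4 = 3 := cnt_p4 hS
  have c5 : cnt (⟨p1, p2, p3, p4, p5, p6, 3⟩ : PS) p5 = 4 := cnt_p5 hS
  have c6 : cnt (⟨p1, p2, p3, p4, p5, p6, 3⟩ : PS) p6 = 5 := cnt_p6 hS
  have hS' : Srt n (⟨p1 - 1, p2 - 1, p3 - 1, p4 - 1, p5 - 1, p6 - 1, 3⟩ : PS) :=
    ⟨by show 1 ≤ p1 - 1; omega,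
      by show p1 - 1 < p2 - 1; omega,
      by show p2 - 1 < p3 - 1; omega,
      by show p3 - 1 < p4 - 1; omega,
      by show p4 - 1 < p5 - 1; omega,
      by show p5 - 1 < p6 - 1; omega,
      by show p6 - 1 ≤ n; omega⟩
  refine ⟨?_, ⟨by show 1 ≤ p1 - 1; omega,
      by show p1 - 1 < p2 - 1; omega,
      by show p2 - 1 < p3 - 1; omega,
      by show p3 - 1 < p4 - 1; omega,
      by show p4 - 1 < p5 - 1; omega,
      by show p5 - 1 < p6 - 1; omega,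
      by show p6 - 1 ≤ n; omega,
      by show 2 ≤ 3; omega,
      by show 3 ≤ 6; omega,
      by show 2 ≤ p1 - 1; omega,
      by show 4 ≤ p2 - 1; omega,
      by show 0 ≤ p3 - 1; omega,
      by show 7 ≤ p4 - 1; omega,
      by show 9 ≤ p5 - 1; omega,
      by show 11 ≤ p6 - 1; omega⟩⟩
  rw [fil_eq, fil_eq]
  have hcnt : ∀ w, 1 ≤ w → cnt (⟨p1 - 1, p2 - 1, p3 - 1, p4 - 1, p5 - 1, p6 - 1, 3⟩ : PS) (w - 1) = cnt (⟨p1, p2, p3, p4, p5, p6, 3⟩ : PS) w := by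
    intro w hw
    unfold cnt
    dsimp only
    rw [ite_pred (p := p1) (by omega) hw, ite_pred (p := p2) (by omega) hw, ite_pred (p := p3) (by omega) hw, ite_pred (p := p4) (by omega) hw, ite_pred (p := p5) (by omega) hw, ite_pred (p := p6) (by omega) hw]
  have hRQ : ∀ v, 1 ≤ v → v < n → RQ n (⟨p1, p2, p3, p4, p5, p6, 3⟩ : PS) (v + 1) → RQ n (⟨p1 - 1, p2 - 1, p3 - 1, p4 - 1, p5 - 1, p6 - 1, 3⟩ : PS) v := by
    rintro v hv hvn ⟨_, a1, a2, a3, a4, a5, a6⟩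
    replace a1 : v + 1 ≠ p1 := a1
    replace a2 : v + 1 ≠ p2 := a2
    replace a3 : v + 1 ≠ p3 := a3
    replace a4 : v + 1 ≠ p4 := a4
    replace a5 : v + 1 ≠ p5 := a5
    replace a6 : v + 1 ≠ p6 := a6
    exact ⟨⟨hv, by omega⟩, by show v ≠ p1 - 1; omega,
      by show v ≠ p2 - 1; omega,
      by show v ≠ p3 - 1; omega,
      by show v ≠ p4 - 1; omega,
      by show v ≠ p5 - 1; omega,
      by show v ≠ p6 - 1; omega⟩
  have hRQn : RQ n (⟨p1 - 1, p2 - 1, p3 - 1, p4 - 1, p5 - 1, p6 - 1, 3⟩ : PS) n :=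
    ⟨⟨by omega, le_rfl⟩, by show n ≠ p1 - 1; omega,
      by show n ≠ p2 - 1; omega,
      by show n ≠ p3 - 1; omega,
      by show n ≠ p4 - 1; omega,
      by show n ≠ p5 - 1; omega,
      by show n ≠ p6 - 1; omega⟩
  have f1 : (fun i => if i = n - 6 - 1 then n else (if i < n - 6 - 1 then
      rowA n (⟨p1, p2, p3, p4, p5, p6, 3⟩ : PS) (i + 1) else rowA n (⟨p1, p2, p3, p4, p5, p6, 3⟩ : PS) i) - 1) = rowA n (⟨p1 - 1, p2 - 1, p3 - 1, p4 - 1, p5 - 1, p6 - 1, 3⟩ : PS) := by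
    funext i
    exact row0_end (by omega) hS hS' hcnt hRQ hRQn i
  have f2 : (fun i => PS.rowB (⟨p1, p2, p3, p4, p5, p6, 3⟩ : PS) i - 1) = PS.rowB (⟨p1 - 1, p2 - 1, p3 - 1, p4 - 1, p5 - 1, p6 - 1, 3⟩ : PS) := by
    funext i
    match i with
    | 0 => rfl
    | 1 => rfl
    | 2 => rfl
    | 3 => rfl
    | 4 => rfl
    | i + 5 => rfl
  refine (promote_end (n - 6) (by omega) (by omega) ?_ ?_ ?_).trans ?_
  · intro i hi
    match i with
    | 0 => exact ⟨rowA_ne_zero hS (by omega), Or.inr (rowA_lt hS (p := p1) (by omega)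
        (by omega) (by omega) (by rw [c1]; omega))⟩
    | 1 => exact ⟨rowA_ne_zero hS (by omega), Or.inr (rowA_lt hS (p := p2) (by omega)
        (by omega) (by omega) (by rw [c2]; omega))⟩
    | 2 => exact ⟨rowA_ne_zero hS (by omega), Or.inr (rowA_lt hS (p := p4) (by omega)
        (by omega) (by omega) (by rw [c4]; omega))⟩
    | 3 => exact ⟨rowA_ne_zero hS (by omega), Or.inr (rowA_lt hS (p := p5) (by omega)
        (by omega) (by omega) (by rw [c5]; omega))⟩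
    | 4 => exact ⟨rowA_ne_zero hS (by omega), Or.inr (rowA_lt hS (p := p6) (by omega)
        (by omega) (by omega) (by rw [c6]; omega))⟩
    | i + 5 => exact ⟨rowA_ne_zero hS (by omega), Or.inl rfl⟩
  · unfold rowA
    rw [if_neg (by omega)]
  · exact rowB_ge _ (by omega)
  · rw [f1, f2]
    rfl

lemma st_4_1 {n p1 p2 p3 p4 p5 p6 : ℕ} (hn : 15 ≤ n)
    (h : PS.Valid n (⟨p1, p2, p3, p4, p5, p6, 4⟩ : PS))
    (e1 : p1 = 2) :
    promote n (PS.fil n (⟨p1, p2, p3, p4, p5, p6, 4⟩ : PS)) = PS.fil n (⟨p2 - 1, p3 - 1, p4 - 1, p5 - 1, p6 - 1, n, 3⟩ : PS) ∧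
      PS.Valid n (⟨p2 - 1, p3 - 1, p4 - 1, p5 - 1, p6 - 1, n, 3⟩ : PS) := by
  obtain ⟨h1, h2, h3, h4, h5, h6, h7, h8, h9, g1, g2, g3, g4, g5, g6⟩ := h
  replace h1 : 1 ≤ p1 := h1
  replace h2 : p1 < p2 := h2
  replace h3 : p2 < p3 := h3
  replace h4 : p3 < p4 := h4
  replace h5 : p4 < p5 := h5
  replace h6 : p5 < p6 := h6
  replace h7 : p6 ≤ n := h7
  replace g1 : 2 ≤ p1 := g1
  replace g2 : 4 ≤ p2 := g2
  replace g3 : 6 ≤ p3 := g3
  replace g4 : 0 ≤ p4 := g4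
  replace g5 : 9 ≤ p5 := g5
  replace g6 : 11 ≤ p6 := g6
  have hS : Srt n (⟨p1, p2, p3, p4, p5, p6, 4⟩ : PS) := ⟨h1, h2, h3, h4, h5, h6, h7⟩
  have c1 : cnt (⟨p1, p2, p3, p4, p5, p6, 4⟩ : PS) p1 = 0 := cnt_p1 hS
  have c2 : cnt (⟨p1, p2, p3, p4, p5, p6, 4⟩ : PS) p2 = 1 := cnt_p2 hS
  have c3 : cnt (⟨p1, p2, p3, p4, p5, p6, 4⟩ : PS) p3 = 2 := cnt_p3 hS
  have c4 : cnt (⟨p1, p2, p3, p4, p5, p6, 4⟩ : PS) p4 = 3 := cnt_p4 hS
  have c5 : cnt (⟨p1, p2, p3, p4, p5, p6, 4⟩ : PS) p5 = 4 := cnt_p5 hS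
  have c6 : cnt (⟨p1, p2, p3, p4, p5, p6, 4⟩ : PS) p6 = 5 := cnt_p6 hS
  have hS' : Srt n (⟨p2 - 1, p3 - 1, p4 - 1, p5 - 1, p6 - 1, n, 3⟩ : PS) :=
    ⟨by show 1 ≤ p2 - 1; omega,
      by show p2 - 1 < p3 - 1; omega,
      by show p3 - 1 < p4 - 1; omega,
      by show p4 - 1 < p5 - 1; omega,
      by show p5 - 1 < p6 - 1; omega,
      by show p6 - 1 < n; omega,
      by show n ≤ n; omega⟩
  refine ⟨?_, ⟨by show 1 ≤ p2 - 1; omega,
      by show p2 - 1 < p3 - 1; omega,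
      by show p3 - 1 < p4 - 1; omega,
      by show p4 - 1 < p5 - 1; omega,
      by show p5 - 1 < p6 - 1; omega,
      by show p6 - 1 < n; omega,
      by show n ≤ n; omega,
      by show 2 ≤ 3; omega,
      by show 3 ≤ 6; omega,
      by show 2 ≤ p2 - 1; omega,
      by show 4 ≤ p3 - 1; omega,
      by show 0 ≤ p4 - 1; omega,
      by show 7 ≤ p5 - 1; omega,
      by show 9 ≤ p6 - 1; omega,
      by show 11 ≤ n; omega⟩⟩
  rw [fil_eq, fil_eq]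
  have hnb : ¬ RQ n (⟨p1, p2, p3, p4, p5, p6, 4⟩ : PS) p1 := by
    rintro ⟨_, a1, a2, a3, a4, a5, a6⟩
    exact a1 rfl
  have hcnt : ∀ w, 1 ≤ w → w ≤ n →
      cnt (⟨p2 - 1, p3 - 1, p4 - 1, p5 - 1, p6 - 1, n, 3⟩ : PS) (w - 1) + (if p1 < w then 1 else 0) = cnt (⟨p1, p2, p3, p4, p5, p6, 4⟩ : PS) w := by
    intro w hw hwn
    unfold cnt
    dsimp only
    rw [ite_pred (p := p2) (by omega) hw, ite_pred (p := p3) (by omega) hw, ite_pred (p := p4) (by omega) hw, ite_pred (p := p5) (by omega) hw, ite_pred (p := p6) (by omega) hw,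
      if_neg (show ¬ n < w - 1 by omega)]
    ring
  have hRQ : ∀ v, 1 ≤ v → v < n → RQ n (⟨p1, p2, p3, p4, p5, p6, 4⟩ : PS) (v + 1) ∨ v + 1 = p1 →
      RQ n (⟨p2 - 1, p3 - 1, p4 - 1, p5 - 1, p6 - 1, n, 3⟩ : PS) v := by
    rintro v hv hvn (⟨_, a1, a2, a3, a4, a5, a6⟩ | hq)
    · replace a1 : v + 1 ≠ p1 := a1
      replace a2 : v + 1 ≠ p2 := a2
      replace a3 : v + 1 ≠ p3 := a3
      replace a4 : v + 1 ≠ p4 := a4
      replace a5 : v + 1 ≠ p5 := a5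
      replace a6 : v + 1 ≠ p6 := a6
      exact ⟨⟨hv, by omega⟩, by show v ≠ p2 - 1; omega,
        by show v ≠ p3 - 1; omega,
        by show v ≠ p4 - 1; omega,
        by show v ≠ p5 - 1; omega,
        by show v ≠ p6 - 1; omega,
        by show v ≠ n; omega⟩
    · exact ⟨⟨hv, by omega⟩, by show v ≠ p2 - 1; omega,
        by show v ≠ p3 - 1; omega,
        by show v ≠ p4 - 1; omega,
        by show v ≠ p5 - 1; omega,
        by show v ≠ p6 - 1; omega,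
        by show v ≠ n; omega⟩
  have f1 : (fun i => (if i < 0 then rowA n (⟨p1, p2, p3, p4, p5, p6, 4⟩ : PS) (i + 1) else
      if i = 0 then PS.rowB (⟨p1, p2, p3, p4, p5, p6, 4⟩ : PS) 0 else rowA n (⟨p1, p2, p3, p4, p5, p6, 4⟩ : PS) i) - 1) = rowA n (⟨p2 - 1, p3 - 1, p4 - 1, p5 - 1, p6 - 1, n, 3⟩ : PS) := by
    funext i
    exact row0_stop hS hS' (b := p1) (c := 0) (by omega) (by rw [c1]; omega) hnb hcnt hRQ i
  have f2 : (fun i => if i = 4 then n else (if 0 ≤ i ∧ i < 4 then PS.rowB (⟨p1, p2, p3, p4, p5, p6, 4⟩ : PS) (i + 1) else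
      PS.rowB (⟨p1, p2, p3, p4, p5, p6, 4⟩ : PS) i) - 1) = PS.rowB (⟨p2 - 1, p3 - 1, p4 - 1, p5 - 1, p6 - 1, n, 3⟩ : PS) := by
    funext i
    match i with
    | 0 => rfl
    | 1 => rfl
    | 2 => rfl
    | 3 => rfl
    | 4 => rfl
    | i + 5 =>
      rw [if_neg (by omega), if_neg (by omega)]
      rfl
  refine (promote_stop (by omega) 0 (by omega) ?_ ?_ ?_ ?_ rfl ?_).trans ?_
  · intro i hi
    exact absurd hi (by omega)
  · show p1 ≠ 0
    omega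
  · exact rowA_gt hS (p := p1) (by omega) (by omega) (by omega) hnb (by rw [c1]; omega)
  · intro i hi
    have hc : i = 0 ∨ i = 1 ∨ i = 2 ∨ i = 3 := by omega
    rcases hc with rfl | rfl | rfl | rfl
    · show p2 ≠ 0
      omega
    · show p3 ≠ 0
      omega
    · show p5 ≠ 0
      omega
    · show p6 ≠ 0
      omega
  · intro _
    show p2 < p4
    omega
  · rw [f1, f2]
    rfl

lemma st_4_2 {n p1 p2 p3 p4 p5 p6 : ℕ} (hn : 15 ≤ n)
    (h : PS.Valid n (⟨p1, p2, p3, p4, p5, p6, 4⟩ : PS))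
    (e1 : ¬ p1 = 2) (e2 : p2 = 4) :
    promote n (PS.fil n (⟨p1, p2, p3, p4, p5, p6, 4⟩ : PS)) = PS.fil n (⟨p1 - 1, p3 - 1, p4 - 1, p5 - 1, p6 - 1, n, 3⟩ : PS) ∧
      PS.Valid n (⟨p1 - 1, p3 - 1, p4 - 1, p5 - 1, p6 - 1, n, 3⟩ : PS) := by
  obtain ⟨h1, h2, h3, h4, h5, h6, h7, h8, h9, g1, g2, g3, g4, g5, g6⟩ := h
  replace h1 : 1 ≤ p1 := h1
  replace h2 : p1 < p2 := h2
  replace h3 : p2 < p3 := h3
  replace h4 : p3 < p4 := h4
  replace h5 : p4 < p5 := h5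
  replace h6 : p5 < p6 := h6
  replace h7 : p6 ≤ n := h7
  replace g1 : 2 ≤ p1 := g1
  replace g2 : 4 ≤ p2 := g2
  replace g3 : 6 ≤ p3 := g3
  replace g4 : 0 ≤ p4 := g4
  replace g5 : 9 ≤ p5 := g5
  replace g6 : 11 ≤ p6 := g6
  have hS : Srt n (⟨p1, p2, p3, p4, p5, p6, 4⟩ : PS) := ⟨h1, h2, h3, h4, h5, h6, h7⟩
  have c1 : cnt (⟨p1, p2, p3, p4, p5, p6, 4⟩ : PS) p1 = 0 := cnt_p1 hS
  have c2 : cnt (⟨p1, p2, p3, p4, p5, p6, 4⟩ : PS) p2 = 1 := cnt_p2 hS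
  have c3 : cnt (⟨p1, p2, p3, p4, p5, p6, 4⟩ : PS) p3 = 2 := cnt_p3 hS
  have c4 : cnt (⟨p1, p2, p3, p4, p5, p6, 4⟩ : PS) p4 = 3 := cnt_p4 hS
  have c5 : cnt (⟨p1, p2, p3, p4, p5, p6, 4⟩ : PS) p5 = 4 := cnt_p5 hS
  have c6 : cnt (⟨p1, p2, p3, p4, p5, p6, 4⟩ : PS) p6 = 5 := cnt_p6 hS
  have hS' : Srt n (⟨p1 - 1, p3 - 1, p4 - 1, p5 - 1, p6 - 1, n, 3⟩ : PS) :=
    ⟨by show 1 ≤ p1 - 1; omega,
      by show p1 - 1 < p3 - 1; omega,
      by show p3 - 1 < p4 - 1; omega,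
      by show p4 - 1 < p5 - 1; omega,
      by show p5 - 1 < p6 - 1; omega,
      by show p6 - 1 < n; omega,
      by show n ≤ n; omega⟩
  refine ⟨?_, ⟨by show 1 ≤ p1 - 1; omega,
      by show p1 - 1 < p3 - 1; omega,
      by show p3 - 1 < p4 - 1; omega,
      by show p4 - 1 < p5 - 1; omega,
      by show p5 - 1 < p6 - 1; omega,
      by show p6 - 1 < n; omega,
      by show n ≤ n; omega,
      by show 2 ≤ 3; omega,
      by show 3 ≤ 6; omega,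
      by show 2 ≤ p1 - 1; omega,
      by show 4 ≤ p3 - 1; omega,
      by show 0 ≤ p4 - 1; omega,
      by show 7 ≤ p5 - 1; omega,
      by show 9 ≤ p6 - 1; omega,
      by show 11 ≤ n; omega⟩⟩
  rw [fil_eq, fil_eq]
  have hnb : ¬ RQ n (⟨p1, p2, p3, p4, p5, p6, 4⟩ : PS) p2 := by
    rintro ⟨_, a1, a2, a3, a4, a5, a6⟩
    exact a2 rfl
  have hcnt : ∀ w, 1 ≤ w → w ≤ n →
      cnt (⟨p1 - 1, p3 - 1, p4 - 1, p5 - 1, p6 - 1, n, 3⟩ : PS) (w - 1) + (if p2 < w then 1 else 0) = cnt (⟨p1, p2, p3, p4, p5, p6, 4⟩ : PS) w := by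
    intro w hw hwn
    unfold cnt
    dsimp only
    rw [ite_pred (p := p1) (by omega) hw, ite_pred (p := p3) (by omega) hw, ite_pred (p := p4) (by omega) hw, ite_pred (p := p5) (by omega) hw, ite_pred (p := p6) (by omega) hw,
      if_neg (show ¬ n < w - 1 by omega)]
    ring
  have hRQ : ∀ v, 1 ≤ v → v < n → RQ n (⟨p1, p2, p3, p4, p5, p6, 4⟩ : PS) (v + 1) ∨ v + 1 = p2 →
      RQ n (⟨p1 - 1, p3 - 1, p4 - 1, p5 - 1, p6 - 1, n, 3⟩ : PS) v := by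
    rintro v hv hvn (⟨_, a1, a2, a3, a4, a5, a6⟩ | hq)
    · replace a1 : v + 1 ≠ p1 := a1
      replace a2 : v + 1 ≠ p2 := a2
      replace a3 : v + 1 ≠ p3 := a3
      replace a4 : v + 1 ≠ p4 := a4
      replace a5 : v + 1 ≠ p5 := a5
      replace a6 : v + 1 ≠ p6 := a6
      exact ⟨⟨hv, by omega⟩, by show v ≠ p1 - 1; omega,
        by show v ≠ p3 - 1; omega,
        by show v ≠ p4 - 1; omega,
        by show v ≠ p5 - 1; omega,
        by show v ≠ p6 - 1; omega,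
        by show v ≠ n; omega⟩
    · exact ⟨⟨hv, by omega⟩, by show v ≠ p1 - 1; omega,
        by show v ≠ p3 - 1; omega,
        by show v ≠ p4 - 1; omega,
        by show v ≠ p5 - 1; omega,
        by show v ≠ p6 - 1; omega,
        by show v ≠ n; omega⟩
  have f1 : (fun i => (if i < 1 then rowA n (⟨p1, p2, p3, p4, p5, p6, 4⟩ : PS) (i + 1) else
      if i = 1 then PS.rowB (⟨p1, p2, p3, p4, p5, p6, 4⟩ : PS) 1 else rowA n (⟨p1, p2, p3, p4, p5, p6, 4⟩ : PS) i) - 1) = rowA n (⟨p1 - 1, p3 - 1, p4 - 1, p5 - 1, p6 - 1, n, 3⟩ : PS) := by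
    funext i
    exact row0_stop hS hS' (b := p2) (c := 1) (by omega) (by rw [c2]; omega) hnb hcnt hRQ i
  have f2 : (fun i => if i = 4 then n else (if 1 ≤ i ∧ i < 4 then PS.rowB (⟨p1, p2, p3, p4, p5, p6, 4⟩ : PS) (i + 1) else
      PS.rowB (⟨p1, p2, p3, p4, p5, p6, 4⟩ : PS) i) - 1) = PS.rowB (⟨p1 - 1, p3 - 1, p4 - 1, p5 - 1, p6 - 1, n, 3⟩ : PS) := by
    funext i
    match i with
    | 0 => rfl
    | 1 => rfl
    | 2 => rfl
    | 3 => rfl
    | 4 => rfl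
    | i + 5 =>
      rw [if_neg (by omega), if_neg (by omega)]
      rfl
  refine (promote_stop (by omega) 1 (by omega) ?_ ?_ ?_ ?_ rfl ?_).trans ?_
  · intro i hi
    obtain rfl : i = 0 := by omega
    exact ⟨rowA_ne_zero hS (by omega), rowA_lt hS (p := p1) (by omega) (by omega) (by omega)
        (by rw [c1]; omega)⟩
  · show p2 ≠ 0
    omega
  · exact rowA_gt hS (p := p2) (by omega) (by omega) (by omega) hnb (by rw [c2]; omega)
  · intro i hi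
    have hc : i = 0 ∨ i = 1 ∨ i = 2 ∨ i = 3 := by omega
    rcases hc with rfl | rfl | rfl | rfl
    · show p2 ≠ 0
      omega
    · show p3 ≠ 0
      omega
    · show p5 ≠ 0
      omega
    · show p6 ≠ 0
      omega
  · intro hc
    exact absurd hc (by omega)
  · rw [f1, f2]
    rfl

lemma st_4_3 {n p1 p2 p3 p4 p5 p6 : ℕ} (hn : 15 ≤ n)
    (h : PS.Valid n (⟨p1, p2, p3, p4, p5, p6, 4⟩ : PS))
    (e1 : ¬ p1 = 2) (e2 : ¬ p2 = 4) (e3 : p3 = 6) :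
    promote n (PS.fil n (⟨p1, p2, p3, p4, p5, p6, 4⟩ : PS)) = PS.fil n (⟨p1 - 1, p2 - 1, p4 - 1, p5 - 1, p6 - 1, n, 3⟩ : PS) ∧
      PS.Valid n (⟨p1 - 1, p2 - 1, p4 - 1, p5 - 1, p6 - 1, n, 3⟩ : PS) := by
  obtain ⟨h1, h2, h3, h4, h5, h6, h7, h8, h9, g1, g2, g3, g4, g5, g6⟩ := h
  replace h1 : 1 ≤ p1 := h1
  replace h2 : p1 < p2 := h2
  replace h3 : p2 < p3 := h3
  replace h4 : p3 < p4 := h4
  replace h5 : p4 < p5 := h5
  replace h6 : p5 < p6 := h6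
  replace h7 : p6 ≤ n := h7
  replace g1 : 2 ≤ p1 := g1
  replace g2 : 4 ≤ p2 := g2
  replace g3 : 6 ≤ p3 := g3
  replace g4 : 0 ≤ p4 := g4
  replace g5 : 9 ≤ p5 := g5
  replace g6 : 11 ≤ p6 := g6
  have hS : Srt n (⟨p1, p2, p3, p4, p5, p6, 4⟩ : PS) := ⟨h1, h2, h3, h4, h5, h6, h7⟩
  have c1 : cnt (⟨p1, p2, p3, p4, p5, p6, 4⟩ : PS) p1 = 0 := cnt_p1 hS
  have c2 : cnt (⟨p1, p2, p3, p4, p5, p6, 4⟩ : PS) p2 = 1 := cnt_p2 hS
  have c3 : cnt (⟨p1, p2, p3, p4, p5, p6, 4⟩ : PS) p3 = 2 := cnt_p3 hS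
  have c4 : cnt (⟨p1, p2, p3, p4, p5, p6, 4⟩ : PS) p4 = 3 := cnt_p4 hS
  have c5 : cnt (⟨p1, p2, p3, p4, p5, p6, 4⟩ : PS) p5 = 4 := cnt_p5 hS
  have c6 : cnt (⟨p1, p2, p3, p4, p5, p6, 4⟩ : PS) p6 = 5 := cnt_p6 hS
  have hS' : Srt n (⟨p1 - 1, p2 - 1, p4 - 1, p5 - 1, p6 - 1, n, 3⟩ : PS) :=
    ⟨by show 1 ≤ p1 - 1; omega,
      by show p1 - 1 < p2 - 1; omega,
      by show p2 - 1 < p4 - 1; omega,
      by show p4 - 1 < p5 - 1; omega,
      by show p5 - 1 < p6 - 1; omega,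
      by show p6 - 1 < n; omega,
      by show n ≤ n; omega⟩
  refine ⟨?_, ⟨by show 1 ≤ p1 - 1; omega,
      by show p1 - 1 < p2 - 1; omega,
      by show p2 - 1 < p4 - 1; omega,
      by show p4 - 1 < p5 - 1; omega,
      by show p5 - 1 < p6 - 1; omega,
      by show p6 - 1 < n; omega,
      by show n ≤ n; omega,
      by show 2 ≤ 3; omega,
      by show 3 ≤ 6; omega,
      by show 2 ≤ p1 - 1; omega,
      by show 4 ≤ p2 - 1; omega,
      by show 0 ≤ p4 - 1; omega,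
      by show 7 ≤ p5 - 1; omega,
      by show 9 ≤ p6 - 1; omega,
      by show 11 ≤ n; omega⟩⟩
  rw [fil_eq, fil_eq]
  have hnb : ¬ RQ n (⟨p1, p2, p3, p4, p5, p6, 4⟩ : PS) p3 := by
    rintro ⟨_, a1, a2, a3, a4, a5, a6⟩
    exact a3 rfl
  have hcnt : ∀ w, 1 ≤ w → w ≤ n →
      cnt (⟨p1 - 1, p2 - 1, p4 - 1, p5 - 1, p6 - 1, n, 3⟩ : PS) (w - 1) + (if p3 < w then 1 else 0) = cnt (⟨p1, p2, p3, p4, p5, p6, 4⟩ : PS) w := by
    intro w hw hwn
    unfold cnt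
    dsimp only
    rw [ite_pred (p := p1) (by omega) hw, ite_pred (p := p2) (by omega) hw, ite_pred (p := p4) (by omega) hw, ite_pred (p := p5) (by omega) hw, ite_pred (p := p6) (by omega) hw,
      if_neg (show ¬ n < w - 1 by omega)]
    ring
  have hRQ : ∀ v, 1 ≤ v → v < n → RQ n (⟨p1, p2, p3, p4, p5, p6, 4⟩ : PS) (v + 1) ∨ v + 1 = p3 →
      RQ n (⟨p1 - 1, p2 - 1, p4 - 1, p5 - 1, p6 - 1, n, 3⟩ : PS) v := by
    rintro v hv hvn (⟨_, a1, a2, a3, a4, a5, a6⟩ | hq)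
    · replace a1 : v + 1 ≠ p1 := a1
      replace a2 : v + 1 ≠ p2 := a2
      replace a3 : v + 1 ≠ p3 := a3
      replace a4 : v + 1 ≠ p4 := a4
      replace a5 : v + 1 ≠ p5 := a5
      replace a6 : v + 1 ≠ p6 := a6
      exact ⟨⟨hv, by omega⟩, by show v ≠ p1 - 1; omega,
        by show v ≠ p2 - 1; omega,
        by show v ≠ p4 - 1; omega,
        by show v ≠ p5 - 1; omega,
        by show v ≠ p6 - 1; omega,
        by show v ≠ n; omega⟩
    · exact ⟨⟨hv, by omega⟩, by show v ≠ p1 - 1; omega,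
        by show v ≠ p2 - 1; omega,
        by show v ≠ p4 - 1; omega,
        by show v ≠ p5 - 1; omega,
        by show v ≠ p6 - 1; omega,
        by show v ≠ n; omega⟩
  have f1 : (fun i => (if i < 2 then rowA n (⟨p1, p2, p3, p4, p5, p6, 4⟩ : PS) (i + 1) else
      if i = 2 then PS.rowB (⟨p1, p2, p3, p4, p5, p6, 4⟩ : PS) 2 else rowA n (⟨p1, p2, p3, p4, p5, p6, 4⟩ : PS) i) - 1) = rowA n (⟨p1 - 1, p2 - 1, p4 - 1, p5 - 1, p6 - 1, n, 3⟩ : PS) := by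
    funext i
    exact row0_stop hS hS' (b := p3) (c := 2) (by omega) (by rw [c3]; omega) hnb hcnt hRQ i
  have f2 : (fun i => if i = 4 then n else (if 2 ≤ i ∧ i < 4 then PS.rowB (⟨p1, p2, p3, p4, p5, p6, 4⟩ : PS) (i + 1) else
      PS.rowB (⟨p1, p2, p3, p4, p5, p6, 4⟩ : PS) i) - 1) = PS.rowB (⟨p1 - 1, p2 - 1, p4 - 1, p5 - 1, p6 - 1, n, 3⟩ : PS) := by
    funext i
    match i with
    | 0 => rfl
    | 1 => rfl
    | 2 => rfl
    | 3 => rfl
    | 4 => rfl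
    | i + 5 =>
      rw [if_neg (by omega), if_neg (by omega)]
      rfl
  refine (promote_stop (by omega) 2 (by omega) ?_ ?_ ?_ ?_ rfl ?_).trans ?_
  · intro i hi
    have hc : i = 0 ∨ i = 1 := by omega
    rcases hc with rfl | rfl
    · exact ⟨rowA_ne_zero hS (by omega), rowA_lt hS (p := p1) (by omega) (by omega) (by omega)
        (by rw [c1]; omega)⟩
    · exact ⟨rowA_ne_zero hS (by omega), rowA_lt hS (p := p2) (by omega) (by omega) (by omega)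
        (by rw [c2]; omega)⟩
  · show p3 ≠ 0
    omega
  · exact rowA_gt hS (p := p3) (by omega) (by omega) (by omega) hnb (by rw [c3]; omega)
  · intro i hi
    have hc : i = 0 ∨ i = 1 ∨ i = 2 ∨ i = 3 := by omega
    rcases hc with rfl | rfl | rfl | rfl
    · show p2 ≠ 0
      omega
    · show p3 ≠ 0
      omega
    · show p5 ≠ 0
      omega
    · show p6 ≠ 0
      omega
  · intro hc
    exact absurd hc (by omega)
  · rw [f1, f2]
    rfl

lemma st_4_5 {n p1 p2 p3 p4 p5 p6 : ℕ} (hn : 15 ≤ n)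
    (h : PS.Valid n (⟨p1, p2, p3, p4, p5, p6, 4⟩ : PS))
    (e1 : ¬ p1 = 2) (e2 : ¬ p2 = 4) (e3 : ¬ p3 = 6)
    (e5 : p5 = 9) :
    promote n (PS.fil n (⟨p1, p2, p3, p4, p5, p6, 4⟩ : PS)) = PS.fil n (⟨p1 - 1, p2 - 1, p3 - 1, p4 - 1, p6 - 1, n, 4⟩ : PS) ∧
      PS.Valid n (⟨p1 - 1, p2 - 1, p3 - 1, p4 - 1, p6 - 1, n, 4⟩ : PS) := by
  obtain ⟨h1, h2, h3, h4, h5, h6, h7, h8, h9, g1, g2, g3, g4, g5, g6⟩ := h
  replace h1 : 1 ≤ p1 := h1
  replace h2 : p1 < p2 := h2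
  replace h3 : p2 < p3 := h3
  replace h4 : p3 < p4 := h4
  replace h5 : p4 < p5 := h5
  replace h6 : p5 < p6 := h6
  replace h7 : p6 ≤ n := h7
  replace g1 : 2 ≤ p1 := g1
  replace g2 : 4 ≤ p2 := g2
  replace g3 : 6 ≤ p3 := g3
  replace g4 : 0 ≤ p4 := g4
  replace g5 : 9 ≤ p5 := g5
  replace g6 : 11 ≤ p6 := g6
  have hS : Srt n (⟨p1, p2, p3, p4, p5, p6, 4⟩ : PS) := ⟨h1, h2, h3, h4, h5, h6, h7⟩
  have c1 : cnt (⟨p1, p2, p3, p4, p5, p6, 4⟩ : PS) p1 = 0 := cnt_p1 hS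
  have c2 : cnt (⟨p1, p2, p3, p4, p5, p6, 4⟩ : PS) p2 = 1 := cnt_p2 hS
  have c3 : cnt (⟨p1, p2, p3, p4, p5, p6, 4⟩ : PS) p3 = 2 := cnt_p3 hS
  have c4 : cnt (⟨p1, p2, p3, p4, p5, p6, 4⟩ : PS) p4 = 3 := cnt_p4 hS
  have c5 : cnt (⟨p1, p2, p3, p4, p5, p6, 4⟩ : PS) p5 = 4 := cnt_p5 hS
  have c6 : cnt (⟨p1, p2, p3, p4, p5, p6, 4⟩ : PS) p6 = 5 := cnt_p6 hS
  have hS' : Srt n (⟨p1 - 1, p2 - 1, p3 - 1, p4 - 1, p6 - 1, n, 4⟩ : PS) :=
    ⟨by show 1 ≤ p1 - 1; omega,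
      by show p1 - 1 < p2 - 1; omega,
      by show p2 - 1 < p3 - 1; omega,
      by show p3 - 1 < p4 - 1; omega,
      by show p4 - 1 < p6 - 1; omega,
      by show p6 - 1 < n; omega,
      by show n ≤ n; omega⟩
  refine ⟨?_, ⟨by show 1 ≤ p1 - 1; omega,
      by show p1 - 1 < p2 - 1; omega,
      by show p2 - 1 < p3 - 1; omega,
      by show p3 - 1 < p4 - 1; omega,
      by show p4 - 1 < p6 - 1; omega,
      by show p6 - 1 < n; omega,
      by show n ≤ n; omega,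
      by show 2 ≤ 4; omega,
      by show 4 ≤ 6; omega,
      by show 2 ≤ p1 - 1; omega,
      by show 4 ≤ p2 - 1; omega,
      by show 6 ≤ p3 - 1; omega,
      by show 0 ≤ p4 - 1; omega,
      by show 9 ≤ p6 - 1; omega,
      by show 11 ≤ n; omega⟩⟩
  rw [fil_eq, fil_eq]
  have hnb : ¬ RQ n (⟨p1, p2, p3, p4, p5, p6, 4⟩ : PS) p5 := by
    rintro ⟨_, a1, a2, a3, a4, a5, a6⟩
    exact a5 rfl
  have hcnt : ∀ w, 1 ≤ w → w ≤ n →
      cnt (⟨p1 - 1, p2 - 1, p3 - 1, p4 - 1, p6 - 1, n, 4⟩ : PS) (w - 1) + (if p5 < w then 1 else 0) = cnt (⟨p1, p2, p3, p4, p5, p6, 4⟩ : PS) w := by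
    intro w hw hwn
    unfold cnt
    dsimp only
    rw [ite_pred (p := p1) (by omega) hw, ite_pred (p := p2) (by omega) hw, ite_pred (p := p3) (by omega) hw, ite_pred (p := p4) (by omega) hw, ite_pred (p := p6) (by omega) hw,
      if_neg (show ¬ n < w - 1 by omega)]
    ring
  have hRQ : ∀ v, 1 ≤ v → v < n → RQ n (⟨p1, p2, p3, p4, p5, p6, 4⟩ : PS) (v + 1) ∨ v + 1 = p5 →
      RQ n (⟨p1 - 1, p2 - 1, p3 - 1, p4 - 1, p6 - 1, n, 4⟩ : PS) v := by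
    rintro v hv hvn (⟨_, a1, a2, a3, a4, a5, a6⟩ | hq)
    · replace a1 : v + 1 ≠ p1 := a1
      replace a2 : v + 1 ≠ p2 := a2
      replace a3 : v + 1 ≠ p3 := a3
      replace a4 : v + 1 ≠ p4 := a4
      replace a5 : v + 1 ≠ p5 := a5
      replace a6 : v + 1 ≠ p6 := a6
      exact ⟨⟨hv, by omega⟩, by show v ≠ p1 - 1; omega,
        by show v ≠ p2 - 1; omega,
        by show v ≠ p3 - 1; omega,
        by show v ≠ p4 - 1; omega,
        by show v ≠ p6 - 1; omega,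
        by show v ≠ n; omega⟩
    · exact ⟨⟨hv, by omega⟩, by show v ≠ p1 - 1; omega,
        by show v ≠ p2 - 1; omega,
        by show v ≠ p3 - 1; omega,
        by show v ≠ p4 - 1; omega,
        by show v ≠ p6 - 1; omega,
        by show v ≠ n; omega⟩
  have f1 : (fun i => (if i < 3 then rowA n (⟨p1, p2, p3, p4, p5, p6, 4⟩ : PS) (i + 1) else
      if i = 3 then PS.rowB (⟨p1, p2, p3, p4, p5, p6, 4⟩ : PS) 3 else rowA n (⟨p1, p2, p3, p4, p5, p6, 4⟩ : PS) i) - 1) = rowA n (⟨p1 - 1, p2 - 1, p3 - 1, p4 - 1, p6 - 1, n, 4⟩ : PS) := by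
    funext i
    exact row0_stop hS hS' (b := p5) (c := 3) (by omega) (by rw [c5]; omega) hnb hcnt hRQ i
  have f2 : (fun i => if i = 4 then n else (if 3 ≤ i ∧ i < 4 then PS.rowB (⟨p1, p2, p3, p4, p5, p6, 4⟩ : PS) (i + 1) else
      PS.rowB (⟨p1, p2, p3, p4, p5, p6, 4⟩ : PS) i) - 1) = PS.rowB (⟨p1 - 1, p2 - 1, p3 - 1, p4 - 1, p6 - 1, n, 4⟩ : PS) := by
    funext i
    match i with
    | 0 => rfl
    | 1 => rfl
    | 2 => rfl
    | 3 => rfl
    | 4 => rfl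
    | i + 5 =>
      rw [if_neg (by omega), if_neg (by omega)]
      rfl
  refine (promote_stop (by omega) 3 (by omega) ?_ ?_ ?_ ?_ rfl ?_).trans ?_
  · intro i hi
    have hc : i = 0 ∨ i = 1 ∨ i = 2 := by omega
    rcases hc with rfl | rfl | rfl
    · exact ⟨rowA_ne_zero hS (by omega), rowA_lt hS (p := p1) (by omega) (by omega) (by omega)
        (by rw [c1]; omega)⟩
    · exact ⟨rowA_ne_zero hS (by omega), rowA_lt hS (p := p2) (by omega) (by omega) (by omega)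
        (by rw [c2]; omega)⟩
    · exact ⟨rowA_ne_zero hS (by omega), rowA_lt hS (p := p3) (by omega) (by omega) (by omega)
        (by rw [c3]; omega)⟩
  · show p5 ≠ 0
    omega
  · exact rowA_gt hS (p := p5) (by omega) (by omega) (by omega) hnb (by rw [c5]; omega)
  · intro i hi
    have hc : i = 0 ∨ i = 1 ∨ i = 2 ∨ i = 3 := by omega
    rcases hc with rfl | rfl | rfl | rfl
    · show p2 ≠ 0
      omega
    · show p3 ≠ 0
      omega
    · show p5 ≠ 0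
      omega
    · show p6 ≠ 0
      omega
  · intro hc
    exact absurd hc (by omega)
  · rw [f1, f2]
    rfl

lemma st_4_6 {n p1 p2 p3 p4 p5 p6 : ℕ} (hn : 15 ≤ n)
    (h : PS.Valid n (⟨p1, p2, p3, p4, p5, p6, 4⟩ : PS))
    (e1 : ¬ p1 = 2) (e2 : ¬ p2 = 4) (e3 : ¬ p3 = 6)
    (e5 : ¬ p5 = 9) (e6 : p6 = 11) :
    promote n (PS.fil n (⟨p1, p2, p3, p4, p5, p6, 4⟩ : PS)) = PS.fil n (⟨p1 - 1, p2 - 1, p3 - 1, p4 - 1, p5 - 1, n, 4⟩ : PS) ∧
      PS.Valid n (⟨p1 - 1, p2 - 1, p3 - 1, p4 - 1, p5 - 1, n, 4⟩ : PS) := by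
  obtain ⟨h1, h2, h3, h4, h5, h6, h7, h8, h9, g1, g2, g3, g4, g5, g6⟩ := h
  replace h1 : 1 ≤ p1 := h1
  replace h2 : p1 < p2 := h2
  replace h3 : p2 < p3 := h3
  replace h4 : p3 < p4 := h4
  replace h5 : p4 < p5 := h5
  replace h6 : p5 < p6 := h6
  replace h7 : p6 ≤ n := h7
  replace g1 : 2 ≤ p1 := g1
  replace g2 : 4 ≤ p2 := g2
  replace g3 : 6 ≤ p3 := g3
  replace g4 : 0 ≤ p4 := g4
  replace g5 : 9 ≤ p5 := g5
  replace g6 : 11 ≤ p6 := g6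
  have hS : Srt n (⟨p1, p2, p3, p4, p5, p6, 4⟩ : PS) := ⟨h1, h2, h3, h4, h5, h6, h7⟩
  have c1 : cnt (⟨p1, p2, p3, p4, p5, p6, 4⟩ : PS) p1 = 0 := cnt_p1 hS
  have c2 : cnt (⟨p1, p2, p3, p4, p5, p6, 4⟩ : PS) p2 = 1 := cnt_p2 hS
  have c3 : cnt (⟨p1, p2, p3, p4, p5, p6, 4⟩ : PS) p3 = 2 := cnt_p3 hS
  have c4 : cnt (⟨p1, p2, p3, p4, p5, p6, 4⟩ : PS) p4 = 3 := cnt_p4 hS
  have c5 : cnt (⟨p1, p2, p3, p4, p5, p6, 4⟩ : PS) p5 = 4 := cnt_p5 hS
  have c6 : cnt (⟨p1, p2, p3, p4, p5, p6, 4⟩ : PS) p6 = 5 := cnt_p6 hS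
  have hS' : Srt n (⟨p1 - 1, p2 - 1, p3 - 1, p4 - 1, p5 - 1, n, 4⟩ : PS) :=
    ⟨by show 1 ≤ p1 - 1; omega,
      by show p1 - 1 < p2 - 1; omega,
      by show p2 - 1 < p3 - 1; omega,
      by show p3 - 1 < p4 - 1; omega,
      by show p4 - 1 < p5 - 1; omega,
      by show p5 - 1 < n; omega,
      by show n ≤ n; omega⟩
  refine ⟨?_, ⟨by show 1 ≤ p1 - 1; omega,
      by show p1 - 1 < p2 - 1; omega,
      by show p2 - 1 < p3 - 1; omega,
      by show p3 - 1 < p4 - 1; omega,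
      by show p4 - 1 < p5 - 1; omega,
      by show p5 - 1 < n; omega,
      by show n ≤ n; omega,
      by show 2 ≤ 4; omega,
      by show 4 ≤ 6; omega,
      by show 2 ≤ p1 - 1; omega,
      by show 4 ≤ p2 - 1; omega,
      by show 6 ≤ p3 - 1; omega,
      by show 0 ≤ p4 - 1; omega,
      by show 9 ≤ p5 - 1; omega,
      by show 11 ≤ n; omega⟩⟩
  rw [fil_eq, fil_eq]
  have hnb : ¬ RQ n (⟨p1, p2, p3, p4, p5, p6, 4⟩ : PS) p6 := by
    rintro ⟨_, a1, a2, a3, a4, a5, a6⟩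
    exact a6 rfl
  have hcnt : ∀ w, 1 ≤ w → w ≤ n →
      cnt (⟨p1 - 1, p2 - 1, p3 - 1, p4 - 1, p5 - 1, n, 4⟩ : PS) (w - 1) + (if p6 < w then 1 else 0) = cnt (⟨p1, p2, p3, p4, p5, p6, 4⟩ : PS) w := by
    intro w hw hwn
    unfold cnt
    dsimp only
    rw [ite_pred (p := p1) (by omega) hw, ite_pred (p := p2) (by omega) hw, ite_pred (p := p3) (by omega) hw, ite_pred (p := p4) (by omega) hw, ite_pred (p := p5) (by omega) hw,
      if_neg (show ¬ n < w - 1 by omega)]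
    ring
  have hRQ : ∀ v, 1 ≤ v → v < n → RQ n (⟨p1, p2, p3, p4, p5, p6, 4⟩ : PS) (v + 1) ∨ v + 1 = p6 →
      RQ n (⟨p1 - 1, p2 - 1, p3 - 1, p4 - 1, p5 - 1, n, 4⟩ : PS) v := by
    rintro v hv hvn (⟨_, a1, a2, a3, a4, a5, a6⟩ | hq)
    · replace a1 : v + 1 ≠ p1 := a1
      replace a2 : v + 1 ≠ p2 := a2
      replace a3 : v + 1 ≠ p3 := a3
      replace a4 : v + 1 ≠ p4 := a4
      replace a5 : v + 1 ≠ p5 := a5
      replace a6 : v + 1 ≠ p6 := a6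
      exact ⟨⟨hv, by omega⟩, by show v ≠ p1 - 1; omega,
        by show v ≠ p2 - 1; omega,
        by show v ≠ p3 - 1; omega,
        by show v ≠ p4 - 1; omega,
        by show v ≠ p5 - 1; omega,
        by show v ≠ n; omega⟩
    · exact ⟨⟨hv, by omega⟩, by show v ≠ p1 - 1; omega,
        by show v ≠ p2 - 1; omega,
        by show v ≠ p3 - 1; omega,
        by show v ≠ p4 - 1; omega,
        by show v ≠ p5 - 1; omega,
        by show v ≠ n; omega⟩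
  have f1 : (fun i => (if i < 4 then rowA n (⟨p1, p2, p3, p4, p5, p6, 4⟩ : PS) (i + 1) else
      if i = 4 then PS.rowB (⟨p1, p2, p3, p4, p5, p6, 4⟩ : PS) 4 else rowA n (⟨p1, p2, p3, p4, p5, p6, 4⟩ : PS) i) - 1) = rowA n (⟨p1 - 1, p2 - 1, p3 - 1, p4 - 1, p5 - 1, n, 4⟩ : PS) := by
    funext i
    exact row0_stop hS hS' (b := p6) (c := 4) (by omega) (by rw [c6]; omega) hnb hcnt hRQ i
  have f2 : (fun i => if i = 4 then n else (if 4 ≤ i ∧ i < 4 then PS.rowB (⟨p1, p2, p3, p4, p5, p6, 4⟩ : PS) (i + 1) else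
      PS.rowB (⟨p1, p2, p3, p4, p5, p6, 4⟩ : PS) i) - 1) = PS.rowB (⟨p1 - 1, p2 - 1, p3 - 1, p4 - 1, p5 - 1, n, 4⟩ : PS) := by
    funext i
    match i with
    | 0 => rfl
    | 1 => rfl
    | 2 => rfl
    | 3 => rfl
    | 4 => rfl
    | i + 5 =>
      rw [if_neg (by omega), if_neg (by omega)]
      rfl
  refine (promote_stop (by omega) 4 (by omega) ?_ ?_ ?_ ?_ rfl ?_).trans ?_
  · intro i hi
    have hc : i = 0 ∨ i = 1 ∨ i = 2 ∨ i = 3 := by omega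
    rcases hc with rfl | rfl | rfl | rfl
    · exact ⟨rowA_ne_zero hS (by omega), rowA_lt hS (p := p1) (by omega) (by omega) (by omega)
        (by rw [c1]; omega)⟩
    · exact ⟨rowA_ne_zero hS (by omega), rowA_lt hS (p := p2) (by omega) (by omega) (by omega)
        (by rw [c2]; omega)⟩
    · exact ⟨rowA_ne_zero hS (by omega), rowA_lt hS (p := p3) (by omega) (by omega) (by omega)
        (by rw [c3]; omega)⟩
    · exact ⟨rowA_ne_zero hS (by omega), rowA_lt hS (p := p5) (by omega) (by omega) (by omega)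
        (by rw [c5]; omega)⟩
  · show p6 ≠ 0
    omega
  · exact rowA_gt hS (p := p6) (by omega) (by omega) (by omega) hnb (by rw [c6]; omega)
  · intro i hi
    have hc : i = 0 ∨ i = 1 ∨ i = 2 ∨ i = 3 := by omega
    rcases hc with rfl | rfl | rfl | rfl
    · show p2 ≠ 0
      omega
    · show p3 ≠ 0
      omega
    · show p5 ≠ 0
      omega
    · show p6 ≠ 0
      omega
  · intro hc
    exact absurd hc (by omega)
  · rw [f1, f2]
    rfl

lemma st_4_7 {n p1 p2 p3 p4 p5 p6 : ℕ} (hn : 15 ≤ n)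
    (h : PS.Valid n (⟨p1, p2, p3, p4, p5, p6, 4⟩ : PS))
    (e1 : ¬ p1 = 2) (e2 : ¬ p2 = 4) (e3 : ¬ p3 = 6)
    (e5 : ¬ p5 = 9) (e6 : ¬ p6 = 11) :
    promote n (PS.fil n (⟨p1, p2, p3, p4, p5, p6, 4⟩ : PS)) = PS.fil n (⟨p1 - 1, p2 - 1, p3 - 1, p4 - 1, p5 - 1, p6 - 1, 4⟩ : PS) ∧
      PS.Valid n (⟨p1 - 1, p2 - 1, p3 - 1, p4 - 1, p5 - 1, p6 - 1, 4⟩ : PS) := by
  obtain ⟨h1, h2, h3, h4, h5, h6, h7, h8, h9, g1, g2, g3, g4, g5, g6⟩ := h
  replace h1 : 1 ≤ p1 := h1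
  replace h2 : p1 < p2 := h2
  replace h3 : p2 < p3 := h3
  replace h4 : p3 < p4 := h4
  replace h5 : p4 < p5 := h5
  replace h6 : p5 < p6 := h6
  replace h7 : p6 ≤ n := h7
  replace g1 : 2 ≤ p1 := g1
  replace g2 : 4 ≤ p2 := g2
  replace g3 : 6 ≤ p3 := g3
  replace g4 : 0 ≤ p4 := g4
  replace g5 : 9 ≤ p5 := g5
  replace g6 : 11 ≤ p6 := g6
  have hS : Srt n (⟨p1, p2, p3, p4, p5, p6, 4⟩ : PS) := ⟨h1, h2, h3, h4, h5, h6, h7⟩
  have c1 : cnt (⟨p1, p2, p3, p4, p5, p6, 4⟩ : PS) p1 = 0 := cnt_p1 hS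
  have c2 : cnt (⟨p1, p2, p3, p4, p5, p6, 4⟩ : PS) p2 = 1 := cnt_p2 hS
  have c3 : cnt (⟨p1, p2, p3, p4, p5, p6, 4⟩ : PS) p3 = 2 := cnt_p3 hS
  have c4 : cnt (⟨p1, p2, p3, p4, p5, p6, 4⟩ : PS) p4 = 3 := cnt_p4 hS
  have c5 : cnt (⟨p1, p2, p3, p4, p5, p6, 4⟩ : PS) p5 = 4 := cnt_p5 hS
  have c6 : cnt (⟨p1, p2, p3, p4, p5, p6, 4⟩ : PS) p6 = 5 := cnt_p6 hS
  have hS' : Srt n (⟨p1 - 1, p2 - 1, p3 - 1, p4 - 1, p5 - 1, p6 - 1, 4⟩ : PS) :=
    ⟨by show 1 ≤ p1 - 1; omega,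
      by show p1 - 1 < p2 - 1; omega,
      by show p2 - 1 < p3 - 1; omega,
      by show p3 - 1 < p4 - 1; omega,
      by show p4 - 1 < p5 - 1; omega,
      by show p5 - 1 < p6 - 1; omega,
      by show p6 - 1 ≤ n; omega⟩
  refine ⟨?_, ⟨by show 1 ≤ p1 - 1; omega,
      by show p1 - 1 < p2 - 1; omega,
      by show p2 - 1 < p3 - 1; omega,
      by show p3 - 1 < p4 - 1; omega,
      by show p4 - 1 < p5 - 1; omega,
      by show p5 - 1 < p6 - 1; omega,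
      by show p6 - 1 ≤ n; omega,
      by show 2 ≤ 4; omega,
      by show 4 ≤ 6; omega,
      by show 2 ≤ p1 - 1; omega,
      by show 4 ≤ p2 - 1; omega,
      by show 6 ≤ p3 - 1; omega,
      by show 0 ≤ p4 - 1; omega,
      by show 9 ≤ p5 - 1; omega,
      by show 11 ≤ p6 - 1; omega⟩⟩
  rw [fil_eq, fil_eq]
  have hcnt : ∀ w, 1 ≤ w → cnt (⟨p1 - 1, p2 - 1, p3 - 1, p4 - 1, p5 - 1, p6 - 1, 4⟩ : PS) (w - 1) = cnt (⟨p1, p2, p3, p4, p5, p6, 4⟩ : PS) w := by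
    intro w hw
    unfold cnt
    dsimp only
    rw [ite_pred (p := p1) (by omega) hw, ite_pred (p := p2) (by omega) hw, ite_pred (p := p3) (by omega) hw, ite_pred (p := p4) (by omega) hw, ite_pred (p := p5) (by omega) hw, ite_pred (p := p6) (by omega) hw]
  have hRQ : ∀ v, 1 ≤ v → v < n → RQ n (⟨p1, p2, p3, p4, p5, p6, 4⟩ : PS) (v + 1) → RQ n (⟨p1 - 1, p2 - 1, p3 - 1, p4 - 1, p5 - 1, p6 - 1, 4⟩ : PS) v := by
    rintro v hv hvn ⟨_, a1, a2, a3, a4, a5, a6⟩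
    replace a1 : v + 1 ≠ p1 := a1
    replace a2 : v + 1 ≠ p2 := a2
    replace a3 : v + 1 ≠ p3 := a3
    replace a4 : v + 1 ≠ p4 := a4
    replace a5 : v + 1 ≠ p5 := a5
    replace a6 : v + 1 ≠ p6 := a6
    exact ⟨⟨hv, by omega⟩, by show v ≠ p1 - 1; omega,
      by show v ≠ p2 - 1; omega,
      by show v ≠ p3 - 1; omega,
      by show v ≠ p4 - 1; omega,
      by show v ≠ p5 - 1; omega,
      by show v ≠ p6 - 1; omega⟩
  have hRQn : RQ n (⟨p1 - 1, p2 - 1, p3 - 1, p4 - 1, p5 - 1, p6 - 1, 4⟩ : PS) n :=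
    ⟨⟨by omega, le_rfl⟩, by show n ≠ p1 - 1; omega,
      by show n ≠ p2 - 1; omega,
      by show n ≠ p3 - 1; omega,
      by show n ≠ p4 - 1; omega,
      by show n ≠ p5 - 1; omega,
      by show n ≠ p6 - 1; omega⟩
  have f1 : (fun i => if i = n - 6 - 1 then n else (if i < n - 6 - 1 then
      rowA n (⟨p1, p2, p3, p4, p5, p6, 4⟩ : PS) (i + 1) else rowA n (⟨p1, p2, p3, p4, p5, p6, 4⟩ : PS) i) - 1) = rowA n (⟨p1 - 1, p2 - 1, p3 - 1, p4 - 1, p5 - 1, p6 - 1, 4⟩ : PS) := by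
    funext i
    exact row0_end (by omega) hS hS' hcnt hRQ hRQn i
  have f2 : (fun i => PS.rowB (⟨p1, p2, p3, p4, p5, p6, 4⟩ : PS) i - 1) = PS.rowB (⟨p1 - 1, p2 - 1, p3 - 1, p4 - 1, p5 - 1, p6 - 1, 4⟩ : PS) := by
    funext i
    match i with
    | 0 => rfl
    | 1 => rfl
    | 2 => rfl
    | 3 => rfl
    | 4 => rfl
    | i + 5 => rfl
  refine (promote_end (n - 6) (by omega) (by omega) ?_ ?_ ?_).trans ?_
  · intro i hi
    match i with
    | 0 => exact ⟨rowA_ne_zero hS (by omega), Or.inr (rowA_lt hS (p := p1) (by omega)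
        (by omega) (by omega) (by rw [c1]; omega))⟩
    | 1 => exact ⟨rowA_ne_zero hS (by omega), Or.inr (rowA_lt hS (p := p2) (by omega)
        (by omega) (by omega) (by rw [c2]; omega))⟩
    | 2 => exact ⟨rowA_ne_zero hS (by omega), Or.inr (rowA_lt hS (p := p3) (by omega)
        (by omega) (by omega) (by rw [c3]; omega))⟩
    | 3 => exact ⟨rowA_ne_zero hS (by omega), Or.inr (rowA_lt hS (p := p5) (by omega)
        (by omega) (by omega) (by rw [c5]; omega))⟩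
    | 4 => exact ⟨rowA_ne_zero hS (by omega), Or.inr (rowA_lt hS (p := p6) (by omega)
        (by omega) (by omega) (by rw [c6]; omega))⟩
    | i + 5 => exact ⟨rowA_ne_zero hS (by omega), Or.inl rfl⟩
  · unfold rowA
    rw [if_neg (by omega)]
  · exact rowB_ge _ (by omega)
  · rw [f1, f2]
    rfl

lemma st_5_1 {n p1 p2 p3 p4 p5 p6 : ℕ} (hn : 15 ≤ n)
    (h : PS.Valid n (⟨p1, p2, p3, p4, p5, p6, 5⟩ : PS))
    (e1 : p1 = 2) :
    promote n (PS.fil n (⟨p1, p2, p3, p4, p5, p6, 5⟩ : PS)) = PS.fil n (⟨p2 - 1, p3 - 1, p4 - 1, p5 - 1, p6 - 1, n, 4⟩ : PS) ∧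
      PS.Valid n (⟨p2 - 1, p3 - 1, p4 - 1, p5 - 1, p6 - 1, n, 4⟩ : PS) := by
  obtain ⟨h1, h2, h3, h4, h5, h6, h7, h8, h9, g1, g2, g3, g4, g5, g6⟩ := h
  replace h1 : 1 ≤ p1 := h1
  replace h2 : p1 < p2 := h2
  replace h3 : p2 < p3 := h3
  replace h4 : p3 < p4 := h4
  replace h5 : p4 < p5 := h5
  replace h6 : p5 < p6 := h6
  replace h7 : p6 ≤ n := h7
  replace g1 : 2 ≤ p1 := g1
  replace g2 : 4 ≤ p2 := g2
  replace g3 : 6 ≤ p3 := g3
  replace g4 : 8 ≤ p4 := g4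
  replace g5 : 0 ≤ p5 := g5
  replace g6 : 11 ≤ p6 := g6
  have hS : Srt n (⟨p1, p2, p3, p4, p5, p6, 5⟩ : PS) := ⟨h1, h2, h3, h4, h5, h6, h7⟩
  have c1 : cnt (⟨p1, p2, p3, p4, p5, p6, 5⟩ : PS) p1 = 0 := cnt_p1 hS
  have c2 : cnt (⟨p1, p2, p3, p4, p5, p6, 5⟩ : PS) p2 = 1 := cnt_p2 hS
  have c3 : cnt (⟨p1, p2, p3, p4, p5, p6, 5⟩ : PS) p3 = 2 := cnt_p3 hS
  have c4 : cnt (⟨p1, p2, p3, p4, p5, p6, 5⟩ : PS) p4 = 3 := cnt_p4 hS
  have c5 : cnt (⟨p1, p2, p3, p4, p5, p6, 5⟩ : PS) p5 = 4 := cnt_p5 hS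
  have c6 : cnt (⟨p1, p2, p3, p4, p5, p6, 5⟩ : PS) p6 = 5 := cnt_p6 hS
  have hS' : Srt n (⟨p2 - 1, p3 - 1, p4 - 1, p5 - 1, p6 - 1, n, 4⟩ : PS) :=
    ⟨by show 1 ≤ p2 - 1; omega,
      by show p2 - 1 < p3 - 1; omega,
      by show p3 - 1 < p4 - 1; omega,
      by show p4 - 1 < p5 - 1; omega,
      by show p5 - 1 < p6 - 1; omega,
      by show p6 - 1 < n; omega,
      by show n ≤ n; omega⟩
  refine ⟨?_, ⟨by show 1 ≤ p2 - 1; omega,
      by show p2 - 1 < p3 - 1; omega,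
      by show p3 - 1 < p4 - 1; omega,
      by show p4 - 1 < p5 - 1; omega,
      by show p5 - 1 < p6 - 1; omega,
      by show p6 - 1 < n; omega,
      by show n ≤ n; omega,
      by show 2 ≤ 4; omega,
      by show 4 ≤ 6; omega,
      by show 2 ≤ p2 - 1; omega,
      by show 4 ≤ p3 - 1; omega,
      by show 6 ≤ p4 - 1; omega,
      by show 0 ≤ p5 - 1; omega,
      by show 9 ≤ p6 - 1; omega,
      by show 11 ≤ n; omega⟩⟩
  rw [fil_eq, fil_eq]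
  have hnb : ¬ RQ n (⟨p1, p2, p3, p4, p5, p6, 5⟩ : PS) p1 := by
    rintro ⟨_, a1, a2, a3, a4, a5, a6⟩
    exact a1 rfl
  have hcnt : ∀ w, 1 ≤ w → w ≤ n →
      cnt (⟨p2 - 1, p3 - 1, p4 - 1, p5 - 1, p6 - 1, n, 4⟩ : PS) (w - 1) + (if p1 < w then 1 else 0) = cnt (⟨p1, p2, p3, p4, p5, p6, 5⟩ : PS) w := by
    intro w hw hwn
    unfold cnt
    dsimp only
    rw [ite_pred (p := p2) (by omega) hw, ite_pred (p := p3) (by omega) hw, ite_pred (p := p4) (by omega) hw, ite_pred (p := p5) (by omega) hw, ite_pred (p := p6) (by omega) hw,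
      if_neg (show ¬ n < w - 1 by omega)]
    ring
  have hRQ : ∀ v, 1 ≤ v → v < n → RQ n (⟨p1, p2, p3, p4, p5, p6, 5⟩ : PS) (v + 1) ∨ v + 1 = p1 →
      RQ n (⟨p2 - 1, p3 - 1, p4 - 1, p5 - 1, p6 - 1, n, 4⟩ : PS) v := by
    rintro v hv hvn (⟨_, a1, a2, a3, a4, a5, a6⟩ | hq)
    · replace a1 : v + 1 ≠ p1 := a1
      replace a2 : v + 1 ≠ p2 := a2
      replace a3 : v + 1 ≠ p3 := a3
      replace a4 : v + 1 ≠ p4 := a4
      replace a5 : v + 1 ≠ p5 := a5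
      replace a6 : v + 1 ≠ p6 := a6
      exact ⟨⟨hv, by omega⟩, by show v ≠ p2 - 1; omega,
        by show v ≠ p3 - 1; omega,
        by show v ≠ p4 - 1; omega,
        by show v ≠ p5 - 1; omega,
        by show v ≠ p6 - 1; omega,
        by show v ≠ n; omega⟩
    · exact ⟨⟨hv, by omega⟩, by show v ≠ p2 - 1; omega,
        by show v ≠ p3 - 1; omega,
        by show v ≠ p4 - 1; omega,
        by show v ≠ p5 - 1; omega,
        by show v ≠ p6 - 1; omega,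
        by show v ≠ n; omega⟩
  have f1 : (fun i => (if i < 0 then rowA n (⟨p1, p2, p3, p4, p5, p6, 5⟩ : PS) (i + 1) else
      if i = 0 then PS.rowB (⟨p1, p2, p3, p4, p5, p6, 5⟩ : PS) 0 else rowA n (⟨p1, p2, p3, p4, p5, p6, 5⟩ : PS) i) - 1) = rowA n (⟨p2 - 1, p3 - 1, p4 - 1, p5 - 1, p6 - 1, n, 4⟩ : PS) := by
    funext i
    exact row0_stop hS hS' (b := p1) (c := 0) (by omega) (by rw [c1]; omega) hnb hcnt hRQ i
  have f2 : (fun i => if i = 4 then n else (if 0 ≤ i ∧ i < 4 then PS.rowB (⟨p1, p2, p3, p4, p5, p6, 5⟩ : PS) (i + 1) else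
      PS.rowB (⟨p1, p2, p3, p4, p5, p6, 5⟩ : PS) i) - 1) = PS.rowB (⟨p2 - 1, p3 - 1, p4 - 1, p5 - 1, p6 - 1, n, 4⟩ : PS) := by
    funext i
    match i with
    | 0 => rfl
    | 1 => rfl
    | 2 => rfl
    | 3 => rfl
    | 4 => rfl
    | i + 5 =>
      rw [if_neg (by omega), if_neg (by omega)]
      rfl
  refine (promote_stop (by omega) 0 (by omega) ?_ ?_ ?_ ?_ rfl ?_).trans ?_
  · intro i hi
    exact absurd hi (by omega)
  · show p1 ≠ 0
    omega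
  · exact rowA_gt hS (p := p1) (by omega) (by omega) (by omega) hnb (by rw [c1]; omega)
  · intro i hi
    have hc : i = 0 ∨ i = 1 ∨ i = 2 ∨ i = 3 := by omega
    rcases hc with rfl | rfl | rfl | rfl
    · show p2 ≠ 0
      omega
    · show p3 ≠ 0
      omega
    · show p4 ≠ 0
      omega
    · show p6 ≠ 0
      omega
  · intro _
    show p2 < p5
    omega
  · rw [f1, f2]
    rfl

lemma st_5_2 {n p1 p2 p3 p4 p5 p6 : ℕ} (hn : 15 ≤ n)
    (h : PS.Valid n (⟨p1, p2, p3, p4, p5, p6, 5⟩ : PS))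
    (e1 : ¬ p1 = 2) (e2 : p2 = 4) :
    promote n (PS.fil n (⟨p1, p2, p3, p4, p5, p6, 5⟩ : PS)) = PS.fil n (⟨p1 - 1, p3 - 1, p4 - 1, p5 - 1, p6 - 1, n, 4⟩ : PS) ∧
      PS.Valid n (⟨p1 - 1, p3 - 1, p4 - 1, p5 - 1, p6 - 1, n, 4⟩ : PS) := by
  obtain ⟨h1, h2, h3, h4, h5, h6, h7, h8, h9, g1, g2, g3, g4, g5, g6⟩ := h
  replace h1 : 1 ≤ p1 := h1
  replace h2 : p1 < p2 := h2
  replace h3 : p2 < p3 := h3
  replace h4 : p3 < p4 := h4
  replace h5 : p4 < p5 := h5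
  replace h6 : p5 < p6 := h6
  replace h7 : p6 ≤ n := h7
  replace g1 : 2 ≤ p1 := g1
  replace g2 : 4 ≤ p2 := g2
  replace g3 : 6 ≤ p3 := g3
  replace g4 : 8 ≤ p4 := g4
  replace g5 : 0 ≤ p5 := g5
  replace g6 : 11 ≤ p6 := g6
  have hS : Srt n (⟨p1, p2, p3, p4, p5, p6, 5⟩ : PS) := ⟨h1, h2, h3, h4, h5, h6, h7⟩
  have c1 : cnt (⟨p1, p2, p3, p4, p5, p6, 5⟩ : PS) p1 = 0 := cnt_p1 hS
  have c2 : cnt (⟨p1, p2, p3, p4, p5, p6, 5⟩ : PS) p2 = 1 := cnt_p2 hS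
  have c3 : cnt (⟨p1, p2, p3, p4, p5, p6, 5⟩ : PS) p3 = 2 := cnt_p3 hS
  have c4 : cnt (⟨p1, p2, p3, p4, p5, p6, 5⟩ : PS) p4 = 3 := cnt_p4 hS
  have c5 : cnt (⟨p1, p2, p3, p4, p5, p6, 5⟩ : PS) p5 = 4 := cnt_p5 hS
  have c6 : cnt (⟨p1, p2, p3, p4, p5, p6, 5⟩ : PS) p6 = 5 := cnt_p6 hS
  have hS' : Srt n (⟨p1 - 1, p3 - 1, p4 - 1, p5 - 1, p6 - 1, n, 4⟩ : PS) :=
    ⟨by show 1 ≤ p1 - 1; omega,
      by show p1 - 1 < p3 - 1; omega,
      by show p3 - 1 < p4 - 1; omega,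
      by show p4 - 1 < p5 - 1; omega,
      by show p5 - 1 < p6 - 1; omega,
      by show p6 - 1 < n; omega,
      by show n ≤ n; omega⟩
  refine ⟨?_, ⟨by show 1 ≤ p1 - 1; omega,
      by show p1 - 1 < p3 - 1; omega,
      by show p3 - 1 < p4 - 1; omega,
      by show p4 - 1 < p5 - 1; omega,
      by show p5 - 1 < p6 - 1; omega,
      by show p6 - 1 < n; omega,
      by show n ≤ n; omega,
      by show 2 ≤ 4; omega,
      by show 4 ≤ 6; omega,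
      by show 2 ≤ p1 - 1; omega,
      by show 4 ≤ p3 - 1; omega,
      by show 6 ≤ p4 - 1; omega,
      by show 0 ≤ p5 - 1; omega,
      by show 9 ≤ p6 - 1; omega,
      by show 11 ≤ n; omega⟩⟩
  rw [fil_eq, fil_eq]
  have hnb : ¬ RQ n (⟨p1, p2, p3, p4, p5, p6, 5⟩ : PS) p2 := by
    rintro ⟨_, a1, a2, a3, a4, a5, a6⟩
    exact a2 rfl
  have hcnt : ∀ w, 1 ≤ w → w ≤ n →
      cnt (⟨p1 - 1, p3 - 1, p4 - 1, p5 - 1, p6 - 1, n, 4⟩ : PS) (w - 1) + (if p2 < w then 1 else 0) = cnt (⟨p1, p2, p3, p4, p5, p6, 5⟩ : PS) w := by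
    intro w hw hwn
    unfold cnt
    dsimp only
    rw [ite_pred (p := p1) (by omega) hw, ite_pred (p := p3) (by omega) hw, ite_pred (p := p4) (by omega) hw, ite_pred (p := p5) (by omega) hw, ite_pred (p := p6) (by omega) hw,
      if_neg (show ¬ n < w - 1 by omega)]
    ring
  have hRQ : ∀ v, 1 ≤ v → v < n → RQ n (⟨p1, p2, p3, p4, p5, p6, 5⟩ : PS) (v + 1) ∨ v + 1 = p2 →
      RQ n (⟨p1 - 1, p3 - 1, p4 - 1, p5 - 1, p6 - 1, n, 4⟩ : PS) v := by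
    rintro v hv hvn (⟨_, a1, a2, a3, a4, a5, a6⟩ | hq)
    · replace a1 : v + 1 ≠ p1 := a1
      replace a2 : v + 1 ≠ p2 := a2
      replace a3 : v + 1 ≠ p3 := a3
      replace a4 : v + 1 ≠ p4 := a4
      replace a5 : v + 1 ≠ p5 := a5
      replace a6 : v + 1 ≠ p6 := a6
      exact ⟨⟨hv, by omega⟩, by show v ≠ p1 - 1; omega,
        by show v ≠ p3 - 1; omega,
        by show v ≠ p4 - 1; omega,
        by show v ≠ p5 - 1; omega,
        by show v ≠ p6 - 1; omega,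
        by show v ≠ n; omega⟩
    · exact ⟨⟨hv, by omega⟩, by show v ≠ p1 - 1; omega,
        by show v ≠ p3 - 1; omega,
        by show v ≠ p4 - 1; omega,
        by show v ≠ p5 - 1; omega,
        by show v ≠ p6 - 1; omega,
        by show v ≠ n; omega⟩
  have f1 : (fun i => (if i < 1 then rowA n (⟨p1, p2, p3, p4, p5, p6, 5⟩ : PS) (i + 1) else
      if i = 1 then PS.rowB (⟨p1, p2, p3, p4, p5, p6, 5⟩ : PS) 1 else rowA n (⟨p1, p2, p3, p4, p5, p6, 5⟩ : PS) i) - 1) = rowA n (⟨p1 - 1, p3 - 1, p4 - 1, p5 - 1, p6 - 1, n, 4⟩ : PS) := by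
    funext i
    exact row0_stop hS hS' (b := p2) (c := 1) (by omega) (by rw [c2]; omega) hnb hcnt hRQ i
  have f2 : (fun i => if i = 4 then n else (if 1 ≤ i ∧ i < 4 then PS.rowB (⟨p1, p2, p3, p4, p5, p6, 5⟩ : PS) (i + 1) else
      PS.rowB (⟨p1, p2, p3, p4, p5, p6, 5⟩ : PS) i) - 1) = PS.rowB (⟨p1 - 1, p3 - 1, p4 - 1, p5 - 1, p6 - 1, n, 4⟩ : PS) := by
    funext i
    match i with
    | 0 => rfl
    | 1 => rfl
    | 2 => rfl
    | 3 => rfl
    | 4 => rfl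
    | i + 5 =>
      rw [if_neg (by omega), if_neg (by omega)]
      rfl
  refine (promote_stop (by omega) 1 (by omega) ?_ ?_ ?_ ?_ rfl ?_).trans ?_
  · intro i hi
    obtain rfl : i = 0 := by omega
    exact ⟨rowA_ne_zero hS (by omega), rowA_lt hS (p := p1) (by omega) (by omega) (by omega)
        (by rw [c1]; omega)⟩
  · show p2 ≠ 0
    omega
  · exact rowA_gt hS (p := p2) (by omega) (by omega) (by omega) hnb (by rw [c2]; omega)
  · intro i hi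
    have hc : i = 0 ∨ i = 1 ∨ i = 2 ∨ i = 3 := by omega
    rcases hc with rfl | rfl | rfl | rfl
    · show p2 ≠ 0
      omega
    · show p3 ≠ 0
      omega
    · show p4 ≠ 0
      omega
    · show p6 ≠ 0
      omega
  · intro hc
    exact absurd hc (by omega)
  · rw [f1, f2]
    rfl

lemma st_5_3 {n p1 p2 p3 p4 p5 p6 : ℕ} (hn : 15 ≤ n)
    (h : PS.Valid n (⟨p1, p2, p3, p4, p5, p6, 5⟩ : PS))
    (e1 : ¬ p1 = 2) (e2 : ¬ p2 = 4) (e3 : p3 = 6) :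
    promote n (PS.fil n (⟨p1, p2, p3, p4, p5, p6, 5⟩ : PS)) = PS.fil n (⟨p1 - 1, p2 - 1, p4 - 1, p5 - 1, p6 - 1, n, 4⟩ : PS) ∧
      PS.Valid n (⟨p1 - 1, p2 - 1, p4 - 1, p5 - 1, p6 - 1, n, 4⟩ : PS) := by
  obtain ⟨h1, h2, h3, h4, h5, h6, h7, h8, h9, g1, g2, g3, g4, g5, g6⟩ := h
  replace h1 : 1 ≤ p1 := h1
  replace h2 : p1 < p2 := h2
  replace h3 : p2 < p3 := h3
  replace h4 : p3 < p4 := h4
  replace h5 : p4 < p5 := h5
  replace h6 : p5 < p6 := h6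
  replace h7 : p6 ≤ n := h7
  replace g1 : 2 ≤ p1 := g1
  replace g2 : 4 ≤ p2 := g2
  replace g3 : 6 ≤ p3 := g3
  replace g4 : 8 ≤ p4 := g4
  replace g5 : 0 ≤ p5 := g5
  replace g6 : 11 ≤ p6 := g6
  have hS : Srt n (⟨p1, p2, p3, p4, p5, p6, 5⟩ : PS) := ⟨h1, h2, h3, h4, h5, h6, h7⟩
  have c1 : cnt (⟨p1, p2, p3, p4, p5, p6, 5⟩ : PS) p1 = 0 := cnt_p1 hS
  have c2 : cnt (⟨p1, p2, p3, p4, p5, p6, 5⟩ : PS) p2 = 1 := cnt_p2 hS
  have c3 : cnt (⟨p1, p2, p3, p4, p5, p6, 5⟩ : PS) p3 = 2 := cnt_p3 hS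
  have c4 : cnt (⟨p1, p2, p3, p4, p5, p6, 5⟩ : PS) p4 = 3 := cnt_p4 hS
  have c5 : cnt (⟨p1, p2, p3, p4, p5, p6, 5⟩ : PS) p5 = 4 := cnt_p5 hS
  have c6 : cnt (⟨p1, p2, p3, p4, p5, p6, 5⟩ : PS) p6 = 5 := cnt_p6 hS
  have hS' : Srt n (⟨p1 - 1, p2 - 1, p4 - 1, p5 - 1, p6 - 1, n, 4⟩ : PS) :=
    ⟨by show 1 ≤ p1 - 1; omega,
      by show p1 - 1 < p2 - 1; omega,
      by show p2 - 1 < p4 - 1; omega,
      by show p4 - 1 < p5 - 1; omega,
      by show p5 - 1 < p6 - 1; omega,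
      by show p6 - 1 < n; omega,
      by show n ≤ n; omega⟩
  refine ⟨?_, ⟨by show 1 ≤ p1 - 1; omega,
      by show p1 - 1 < p2 - 1; omega,
      by show p2 - 1 < p4 - 1; omega,
      by show p4 - 1 < p5 - 1; omega,
      by show p5 - 1 < p6 - 1; omega,
      by show p6 - 1 < n; omega,
      by show n ≤ n; omega,
      by show 2 ≤ 4; omega,
      by show 4 ≤ 6; omega,
      by show 2 ≤ p1 - 1; omega,
      by show 4 ≤ p2 - 1; omega,
      by show 6 ≤ p4 - 1; omega,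
      by show 0 ≤ p5 - 1; omega,
      by show 9 ≤ p6 - 1; omega,
      by show 11 ≤ n; omega⟩⟩
  rw [fil_eq, fil_eq]
  have hnb : ¬ RQ n (⟨p1, p2, p3, p4, p5, p6, 5⟩ : PS) p3 := by
    rintro ⟨_, a1, a2, a3, a4, a5, a6⟩
    exact a3 rfl
  have hcnt : ∀ w, 1 ≤ w → w ≤ n →
      cnt (⟨p1 - 1, p2 - 1, p4 - 1, p5 - 1, p6 - 1, n, 4⟩ : PS) (w - 1) + (if p3 < w then 1 else 0) = cnt (⟨p1, p2, p3, p4, p5, p6, 5⟩ : PS) w := by
    intro w hw hwn
    unfold cnt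
    dsimp only
    rw [ite_pred (p := p1) (by omega) hw, ite_pred (p := p2) (by omega) hw, ite_pred (p := p4) (by omega) hw, ite_pred (p := p5) (by omega) hw, ite_pred (p := p6) (by omega) hw,
      if_neg (show ¬ n < w - 1 by omega)]
    ring
  have hRQ : ∀ v, 1 ≤ v → v < n → RQ n (⟨p1, p2, p3, p4, p5, p6, 5⟩ : PS) (v + 1) ∨ v + 1 = p3 →
      RQ n (⟨p1 - 1, p2 - 1, p4 - 1, p5 - 1, p6 - 1, n, 4⟩ : PS) v := by
    rintro v hv hvn (⟨_, a1, a2, a3, a4, a5, a6⟩ | hq)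
    · replace a1 : v + 1 ≠ p1 := a1
      replace a2 : v + 1 ≠ p2 := a2
      replace a3 : v + 1 ≠ p3 := a3
      replace a4 : v + 1 ≠ p4 := a4
      replace a5 : v + 1 ≠ p5 := a5
      replace a6 : v + 1 ≠ p6 := a6
      exact ⟨⟨hv, by omega⟩, by show v ≠ p1 - 1; omega,
        by show v ≠ p2 - 1; omega,
        by show v ≠ p4 - 1; omega,
        by show v ≠ p5 - 1; omega,
        by show v ≠ p6 - 1; omega,
        by show v ≠ n; omega⟩
    · exact ⟨⟨hv, by omega⟩, by show v ≠ p1 - 1; omega,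
        by show v ≠ p2 - 1; omega,
        by show v ≠ p4 - 1; omega,
        by show v ≠ p5 - 1; omega,
        by show v ≠ p6 - 1; omega,
        by show v ≠ n; omega⟩
  have f1 : (fun i => (if i < 2 then rowA n (⟨p1, p2, p3, p4, p5, p6, 5⟩ : PS) (i + 1) else
      if i = 2 then PS.rowB (⟨p1, p2, p3, p4, p5, p6, 5⟩ : PS) 2 else rowA n (⟨p1, p2, p3, p4, p5, p6, 5⟩ : PS) i) - 1) = rowA n (⟨p1 - 1, p2 - 1, p4 - 1, p5 - 1, p6 - 1, n, 4⟩ : PS) := by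
    funext i
    exact row0_stop hS hS' (b := p3) (c := 2) (by omega) (by rw [c3]; omega) hnb hcnt hRQ i
  have f2 : (fun i => if i = 4 then n else (if 2 ≤ i ∧ i < 4 then PS.rowB (⟨p1, p2, p3, p4, p5, p6, 5⟩ : PS) (i + 1) else
      PS.rowB (⟨p1, p2, p3, p4, p5, p6, 5⟩ : PS) i) - 1) = PS.rowB (⟨p1 - 1, p2 - 1, p4 - 1, p5 - 1, p6 - 1, n, 4⟩ : PS) := by
    funext i
    match i with
    | 0 => rfl
    | 1 => rfl
    | 2 => rfl
    | 3 => rfl
    | 4 => rfl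
    | i + 5 =>
      rw [if_neg (by omega), if_neg (by omega)]
      rfl
  refine (promote_stop (by omega) 2 (by omega) ?_ ?_ ?_ ?_ rfl ?_).trans ?_
  · intro i hi
    have hc : i = 0 ∨ i = 1 := by omega
    rcases hc with rfl | rfl
    · exact ⟨rowA_ne_zero hS (by omega), rowA_lt hS (p := p1) (by omega) (by omega) (by omega)
        (by rw [c1]; omega)⟩
    · exact ⟨rowA_ne_zero hS (by omega), rowA_lt hS (p := p2) (by omega) (by omega) (by omega)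
        (by rw [c2]; omega)⟩
  · show p3 ≠ 0
    omega
  · exact rowA_gt hS (p := p3) (by omega) (by omega) (by omega) hnb (by rw [c3]; omega)
  · intro i hi
    have hc : i = 0 ∨ i = 1 ∨ i = 2 ∨ i = 3 := by omega
    rcases hc with rfl | rfl | rfl | rfl
    · show p2 ≠ 0
      omega
    · show p3 ≠ 0
      omega
    · show p4 ≠ 0
      omega
    · show p6 ≠ 0
      omega
  · intro hc
    exact absurd hc (by omega)
  · rw [f1, f2]
    rfl

lemma st_5_4 {n p1 p2 p3 p4 p5 p6 : ℕ} (hn : 15 ≤ n)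
    (h : PS.Valid n (⟨p1, p2, p3, p4, p5, p6, 5⟩ : PS))
    (e1 : ¬ p1 = 2) (e2 : ¬ p2 = 4) (e3 : ¬ p3 = 6)
    (e4 : p4 = 8) :
    promote n (PS.fil n (⟨p1, p2, p3, p4, p5, p6, 5⟩ : PS)) = PS.fil n (⟨p1 - 1, p2 - 1, p3 - 1, p5 - 1, p6 - 1, n, 4⟩ : PS) ∧
      PS.Valid n (⟨p1 - 1, p2 - 1, p3 - 1, p5 - 1, p6 - 1, n, 4⟩ : PS) := by
  obtain ⟨h1, h2, h3, h4, h5, h6, h7, h8, h9, g1, g2, g3, g4, g5, g6⟩ := h
  replace h1 : 1 ≤ p1 := h1
  replace h2 : p1 < p2 := h2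
  replace h3 : p2 < p3 := h3
  replace h4 : p3 < p4 := h4
  replace h5 : p4 < p5 := h5
  replace h6 : p5 < p6 := h6
  replace h7 : p6 ≤ n := h7
  replace g1 : 2 ≤ p1 := g1
  replace g2 : 4 ≤ p2 := g2
  replace g3 : 6 ≤ p3 := g3
  replace g4 : 8 ≤ p4 := g4
  replace g5 : 0 ≤ p5 := g5
  replace g6 : 11 ≤ p6 := g6
  have hS : Srt n (⟨p1, p2, p3, p4, p5, p6, 5⟩ : PS) := ⟨h1, h2, h3, h4, h5, h6, h7⟩
  have c1 : cnt (⟨p1, p2, p3, p4, p5, p6, 5⟩ : PS) p1 = 0 := cnt_p1 hS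
  have c2 : cnt (⟨p1, p2, p3, p4, p5, p6, 5⟩ : PS) p2 = 1 := cnt_p2 hS
  have c3 : cnt (⟨p1, p2, p3, p4, p5, p6, 5⟩ : PS) p3 = 2 := cnt_p3 hS
  have c4 : cnt (⟨p1, p2, p3, p4, p5, p6, 5⟩ : PS) p4 = 3 := cnt_p4 hS
  have c5 : cnt (⟨p1, p2, p3, p4, p5, p6, 5⟩ : PS) p5 = 4 := cnt_p5 hS
  have c6 : cnt (⟨p1, p2, p3, p4, p5, p6, 5⟩ : PS) p6 = 5 := cnt_p6 hS
  have hS' : Srt n (⟨p1 - 1, p2 - 1, p3 - 1, p5 - 1, p6 - 1, n, 4⟩ : PS) :=
    ⟨by show 1 ≤ p1 - 1; omega,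
      by show p1 - 1 < p2 - 1; omega,
      by show p2 - 1 < p3 - 1; omega,
      by show p3 - 1 < p5 - 1; omega,
      by show p5 - 1 < p6 - 1; omega,
      by show p6 - 1 < n; omega,
      by show n ≤ n; omega⟩
  refine ⟨?_, ⟨by show 1 ≤ p1 - 1; omega,
      by show p1 - 1 < p2 - 1; omega,
      by show p2 - 1 < p3 - 1; omega,
      by show p3 - 1 < p5 - 1; omega,
      by show p5 - 1 < p6 - 1; omega,
      by show p6 - 1 < n; omega,
      by show n ≤ n; omega,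
      by show 2 ≤ 4; omega,
      by show 4 ≤ 6; omega,
      by show 2 ≤ p1 - 1; omega,
      by show 4 ≤ p2 - 1; omega,
      by show 6 ≤ p3 - 1; omega,
      by show 0 ≤ p5 - 1; omega,
      by show 9 ≤ p6 - 1; omega,
      by show 11 ≤ n; omega⟩⟩
  rw [fil_eq, fil_eq]
  have hnb : ¬ RQ n (⟨p1, p2, p3, p4, p5, p6, 5⟩ : PS) p4 := by
    rintro ⟨_, a1, a2, a3, a4, a5, a6⟩
    exact a4 rfl
  have hcnt : ∀ w, 1 ≤ w → w ≤ n →
      cnt (⟨p1 - 1, p2 - 1, p3 - 1, p5 - 1, p6 - 1, n, 4⟩ : PS) (w - 1) + (if p4 < w then 1 else 0) = cnt (⟨p1, p2, p3, p4, p5, p6, 5⟩ : PS) w := by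
    intro w hw hwn
    unfold cnt
    dsimp only
    rw [ite_pred (p := p1) (by omega) hw, ite_pred (p := p2) (by omega) hw, ite_pred (p := p3) (by omega) hw, ite_pred (p := p5) (by omega) hw, ite_pred (p := p6) (by omega) hw,
      if_neg (show ¬ n < w - 1 by omega)]
    ring
  have hRQ : ∀ v, 1 ≤ v → v < n → RQ n (⟨p1, p2, p3, p4, p5, p6, 5⟩ : PS) (v + 1) ∨ v + 1 = p4 →
      RQ n (⟨p1 - 1, p2 - 1, p3 - 1, p5 - 1, p6 - 1, n, 4⟩ : PS) v := by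
    rintro v hv hvn (⟨_, a1, a2, a3, a4, a5, a6⟩ | hq)
    · replace a1 : v + 1 ≠ p1 := a1
      replace a2 : v + 1 ≠ p2 := a2
      replace a3 : v + 1 ≠ p3 := a3
      replace a4 : v + 1 ≠ p4 := a4
      replace a5 : v + 1 ≠ p5 := a5
      replace a6 : v + 1 ≠ p6 := a6
      exact ⟨⟨hv, by omega⟩, by show v ≠ p1 - 1; omega,
        by show v ≠ p2 - 1; omega,
        by show v ≠ p3 - 1; omega,
        by show v ≠ p5 - 1; omega,
        by show v ≠ p6 - 1; omega,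
        by show v ≠ n; omega⟩
    · exact ⟨⟨hv, by omega⟩, by show v ≠ p1 - 1; omega,
        by show v ≠ p2 - 1; omega,
        by show v ≠ p3 - 1; omega,
        by show v ≠ p5 - 1; omega,
        by show v ≠ p6 - 1; omega,
        by show v ≠ n; omega⟩
  have f1 : (fun i => (if i < 3 then rowA n (⟨p1, p2, p3, p4, p5, p6, 5⟩ : PS) (i + 1) else
      if i = 3 then PS.rowB (⟨p1, p2, p3, p4, p5, p6, 5⟩ : PS) 3 else rowA n (⟨p1, p2, p3, p4, p5, p6, 5⟩ : PS) i) - 1) = rowA n (⟨p1 - 1, p2 - 1, p3 - 1, p5 - 1, p6 - 1, n, 4⟩ : PS) := by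
    funext i
    exact row0_stop hS hS' (b := p4) (c := 3) (by omega) (by rw [c4]; omega) hnb hcnt hRQ i
  have f2 : (fun i => if i = 4 then n else (if 3 ≤ i ∧ i < 4 then PS.rowB (⟨p1, p2, p3, p4, p5, p6, 5⟩ : PS) (i + 1) else
      PS.rowB (⟨p1, p2, p3, p4, p5, p6, 5⟩ : PS) i) - 1) = PS.rowB (⟨p1 - 1, p2 - 1, p3 - 1, p5 - 1, p6 - 1, n, 4⟩ : PS) := by
    funext i
    match i with
    | 0 => rfl
    | 1 => rfl
    | 2 => rfl
    | 3 => rfl
    | 4 => rfl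
    | i + 5 =>
      rw [if_neg (by omega), if_neg (by omega)]
      rfl
  refine (promote_stop (by omega) 3 (by omega) ?_ ?_ ?_ ?_ rfl ?_).trans ?_
  · intro i hi
    have hc : i = 0 ∨ i = 1 ∨ i = 2 := by omega
    rcases hc with rfl | rfl | rfl
    · exact ⟨rowA_ne_zero hS (by omega), rowA_lt hS (p := p1) (by omega) (by omega) (by omega)
        (by rw [c1]; omega)⟩
    · exact ⟨rowA_ne_zero hS (by omega), rowA_lt hS (p := p2) (by omega) (by omega) (by omega)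
        (by rw [c2]; omega)⟩
    · exact ⟨rowA_ne_zero hS (by omega), rowA_lt hS (p := p3) (by omega) (by omega) (by omega)
        (by rw [c3]; omega)⟩
  · show p4 ≠ 0
    omega
  · exact rowA_gt hS (p := p4) (by omega) (by omega) (by omega) hnb (by rw [c4]; omega)
  · intro i hi
    have hc : i = 0 ∨ i = 1 ∨ i = 2 ∨ i = 3 := by omega
    rcases hc with rfl | rfl | rfl | rfl
    · show p2 ≠ 0
      omega
    · show p3 ≠ 0
      omega
    · show p4 ≠ 0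
      omega
    · show p6 ≠ 0
      omega
  · intro hc
    exact absurd hc (by omega)
  · rw [f1, f2]
    rfl

lemma st_5_6 {n p1 p2 p3 p4 p5 p6 : ℕ} (hn : 15 ≤ n)
    (h : PS.Valid n (⟨p1, p2, p3, p4, p5, p6, 5⟩ : PS))
    (e1 : ¬ p1 = 2) (e2 : ¬ p2 = 4) (e3 : ¬ p3 = 6)
    (e4 : ¬ p4 = 8) (e6 : p6 = 11) :
    promote n (PS.fil n (⟨p1, p2, p3, p4, p5, p6, 5⟩ : PS)) = PS.fil n (⟨p1 - 1, p2 - 1, p3 - 1, p4 - 1, p5 - 1, n, 5⟩ : PS) ∧
      PS.Valid n (⟨p1 - 1, p2 - 1, p3 - 1, p4 - 1, p5 - 1, n, 5⟩ : PS) := by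
  obtain ⟨h1, h2, h3, h4, h5, h6, h7, h8, h9, g1, g2, g3, g4, g5, g6⟩ := h
  replace h1 : 1 ≤ p1 := h1
  replace h2 : p1 < p2 := h2
  replace h3 : p2 < p3 := h3
  replace h4 : p3 < p4 := h4
  replace h5 : p4 < p5 := h5
  replace h6 : p5 < p6 := h6
  replace h7 : p6 ≤ n := h7
  replace g1 : 2 ≤ p1 := g1
  replace g2 : 4 ≤ p2 := g2
  replace g3 : 6 ≤ p3 := g3
  replace g4 : 8 ≤ p4 := g4
  replace g5 : 0 ≤ p5 := g5
  replace g6 : 11 ≤ p6 := g6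
  have hS : Srt n (⟨p1, p2, p3, p4, p5, p6, 5⟩ : PS) := ⟨h1, h2, h3, h4, h5, h6, h7⟩
  have c1 : cnt (⟨p1, p2, p3, p4, p5, p6, 5⟩ : PS) p1 = 0 := cnt_p1 hS
  have c2 : cnt (⟨p1, p2, p3, p4, p5, p6, 5⟩ : PS) p2 = 1 := cnt_p2 hS
  have c3 : cnt (⟨p1, p2, p3, p4, p5, p6, 5⟩ : PS) p3 = 2 := cnt_p3 hS
  have c4 : cnt (⟨p1, p2, p3, p4, p5, p6, 5⟩ : PS) p4 = 3 := cnt_p4 hS
  have c5 : cnt (⟨p1, p2, p3, p4, p5, p6, 5⟩ : PS) p5 = 4 := cnt_p5 hS
  have c6 : cnt (⟨p1, p2, p3, p4, p5, p6, 5⟩ : PS) p6 = 5 := cnt_p6 hS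
  have hS' : Srt n (⟨p1 - 1, p2 - 1, p3 - 1, p4 - 1, p5 - 1, n, 5⟩ : PS) :=
    ⟨by show 1 ≤ p1 - 1; omega,
      by show p1 - 1 < p2 - 1; omega,
      by show p2 - 1 < p3 - 1; omega,
      by show p3 - 1 < p4 - 1; omega,
      by show p4 - 1 < p5 - 1; omega,
      by show p5 - 1 < n; omega,
      by show n ≤ n; omega⟩
  refine ⟨?_, ⟨by show 1 ≤ p1 - 1; omega,
      by show p1 - 1 < p2 - 1; omega,
      by show p2 - 1 < p3 - 1; omega,
      by show p3 - 1 < p4 - 1; omega,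
      by show p4 - 1 < p5 - 1; omega,
      by show p5 - 1 < n; omega,
      by show n ≤ n; omega,
      by show 2 ≤ 5; omega,
      by show 5 ≤ 6; omega,
      by show 2 ≤ p1 - 1; omega,
      by show 4 ≤ p2 - 1; omega,
      by show 6 ≤ p3 - 1; omega,
      by show 8 ≤ p4 - 1; omega,
      by show 0 ≤ p5 - 1; omega,
      by show 11 ≤ n; omega⟩⟩
  rw [fil_eq, fil_eq]
  have hnb : ¬ RQ n (⟨p1, p2, p3, p4, p5, p6, 5⟩ : PS) p6 := by
    rintro ⟨_, a1, a2, a3, a4, a5, a6⟩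
    exact a6 rfl
  have hcnt : ∀ w, 1 ≤ w → w ≤ n →
      cnt (⟨p1 - 1, p2 - 1, p3 - 1, p4 - 1, p5 - 1, n, 5⟩ : PS) (w - 1) + (if p6 < w then 1 else 0) = cnt (⟨p1, p2, p3, p4, p5, p6, 5⟩ : PS) w := by
    intro w hw hwn
    unfold cnt
    dsimp only
    rw [ite_pred (p := p1) (by omega) hw, ite_pred (p := p2) (by omega) hw, ite_pred (p := p3) (by omega) hw, ite_pred (p := p4) (by omega) hw, ite_pred (p := p5) (by omega) hw,
      if_neg (show ¬ n < w - 1 by omega)]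
    ring
  have hRQ : ∀ v, 1 ≤ v → v < n → RQ n (⟨p1, p2, p3, p4, p5, p6, 5⟩ : PS) (v + 1) ∨ v + 1 = p6 →
      RQ n (⟨p1 - 1, p2 - 1, p3 - 1, p4 - 1, p5 - 1, n, 5⟩ : PS) v := by
    rintro v hv hvn (⟨_, a1, a2, a3, a4, a5, a6⟩ | hq)
    · replace a1 : v + 1 ≠ p1 := a1
      replace a2 : v + 1 ≠ p2 := a2
      replace a3 : v + 1 ≠ p3 := a3
      replace a4 : v + 1 ≠ p4 := a4
      replace a5 : v + 1 ≠ p5 := a5
      replace a6 : v + 1 ≠ p6 := a6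
      exact ⟨⟨hv, by omega⟩, by show v ≠ p1 - 1; omega,
        by show v ≠ p2 - 1; omega,
        by show v ≠ p3 - 1; omega,
        by show v ≠ p4 - 1; omega,
        by show v ≠ p5 - 1; omega,
        by show v ≠ n; omega⟩
    · exact ⟨⟨hv, by omega⟩, by show v ≠ p1 - 1; omega,
        by show v ≠ p2 - 1; omega,
        by show v ≠ p3 - 1; omega,
        by show v ≠ p4 - 1; omega,
        by show v ≠ p5 - 1; omega,
        by show v ≠ n; omega⟩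
  have f1 : (fun i => (if i < 4 then rowA n (⟨p1, p2, p3, p4, p5, p6, 5⟩ : PS) (i + 1) else
      if i = 4 then PS.rowB (⟨p1, p2, p3, p4, p5, p6, 5⟩ : PS) 4 else rowA n (⟨p1, p2, p3, p4, p5, p6, 5⟩ : PS) i) - 1) = rowA n (⟨p1 - 1, p2 - 1, p3 - 1, p4 - 1, p5 - 1, n, 5⟩ : PS) := by
    funext i
    exact row0_stop hS hS' (b := p6) (c := 4) (by omega) (by rw [c6]; omega) hnb hcnt hRQ i
  have f2 : (fun i => if i = 4 then n else (if 4 ≤ i ∧ i < 4 then PS.rowB (⟨p1, p2, p3, p4, p5, p6, 5⟩ : PS) (i + 1) else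
      PS.rowB (⟨p1, p2, p3, p4, p5, p6, 5⟩ : PS) i) - 1) = PS.rowB (⟨p1 - 1, p2 - 1, p3 - 1, p4 - 1, p5 - 1, n, 5⟩ : PS) := by
    funext i
    match i with
    | 0 => rfl
    | 1 => rfl
    | 2 => rfl
    | 3 => rfl
    | 4 => rfl
    | i + 5 =>
      rw [if_neg (by omega), if_neg (by omega)]
      rfl
  refine (promote_stop (by omega) 4 (by omega) ?_ ?_ ?_ ?_ rfl ?_).trans ?_
  · intro i hi
    have hc : i = 0 ∨ i = 1 ∨ i = 2 ∨ i = 3 := by omega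
    rcases hc with rfl | rfl | rfl | rfl
    · exact ⟨rowA_ne_zero hS (by omega), rowA_lt hS (p := p1) (by omega) (by omega) (by omega)
        (by rw [c1]; omega)⟩
    · exact ⟨rowA_ne_zero hS (by omega), rowA_lt hS (p := p2) (by omega) (by omega) (by omega)
        (by rw [c2]; omega)⟩
    · exact ⟨rowA_ne_zero hS (by omega), rowA_lt hS (p := p3) (by omega) (by omega) (by omega)
        (by rw [c3]; omega)⟩
    · exact ⟨rowA_ne_zero hS (by omega), rowA_lt hS (p := p4) (by omega) (by omega) (by omega)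
        (by rw [c4]; omega)⟩
  · show p6 ≠ 0
    omega
  · exact rowA_gt hS (p := p6) (by omega) (by omega) (by omega) hnb (by rw [c6]; omega)
  · intro i hi
    have hc : i = 0 ∨ i = 1 ∨ i = 2 ∨ i = 3 := by omega
    rcases hc with rfl | rfl | rfl | rfl
    · show p2 ≠ 0
      omega
    · show p3 ≠ 0
      omega
    · show p4 ≠ 0
      omega
    · show p6 ≠ 0
      omega
  · intro hc
    exact absurd hc (by omega)
  · rw [f1, f2]
    rfl

lemma st_5_7 {n p1 p2 p3 p4 p5 p6 : ℕ} (hn : 15 ≤ n)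
    (h : PS.Valid n (⟨p1, p2, p3, p4, p5, p6, 5⟩ : PS))
    (e1 : ¬ p1 = 2) (e2 : ¬ p2 = 4) (e3 : ¬ p3 = 6)
    (e4 : ¬ p4 = 8) (e6 : ¬ p6 = 11) :
    promote n (PS.fil n (⟨p1, p2, p3, p4, p5, p6, 5⟩ : PS)) = PS.fil n (⟨p1 - 1, p2 - 1, p3 - 1, p4 - 1, p5 - 1, p6 - 1, 5⟩ : PS) ∧
      PS.Valid n (⟨p1 - 1, p2 - 1, p3 - 1, p4 - 1, p5 - 1, p6 - 1, 5⟩ : PS) := by
  obtain ⟨h1, h2, h3, h4, h5, h6, h7, h8, h9, g1, g2, g3, g4, g5, g6⟩ := h
  replace h1 : 1 ≤ p1 := h1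
  replace h2 : p1 < p2 := h2
  replace h3 : p2 < p3 := h3
  replace h4 : p3 < p4 := h4
  replace h5 : p4 < p5 := h5
  replace h6 : p5 < p6 := h6
  replace h7 : p6 ≤ n := h7
  replace g1 : 2 ≤ p1 := g1
  replace g2 : 4 ≤ p2 := g2
  replace g3 : 6 ≤ p3 := g3
  replace g4 : 8 ≤ p4 := g4
  replace g5 : 0 ≤ p5 := g5
  replace g6 : 11 ≤ p6 := g6
  have hS : Srt n (⟨p1, p2, p3, p4, p5, p6, 5⟩ : PS) := ⟨h1, h2, h3, h4, h5, h6, h7⟩
  have c1 : cnt (⟨p1, p2, p3, p4, p5, p6, 5⟩ : PS) p1 = 0 := cnt_p1 hS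
  have c2 : cnt (⟨p1, p2, p3, p4, p5, p6, 5⟩ : PS) p2 = 1 := cnt_p2 hS
  have c3 : cnt (⟨p1, p2, p3, p4, p5, p6, 5⟩ : PS) p3 = 2 := cnt_p3 hS
  have c4 : cnt (⟨p1, p2, p3, p4, p5, p6, 5⟩ : PS) p4 = 3 := cnt_p4 hS
  have c5 : cnt (⟨p1, p2, p3, p4, p5, p6, 5⟩ : PS) p5 = 4 := cnt_p5 hS
  have c6 : cnt (⟨p1, p2, p3, p4, p5, p6, 5⟩ : PS) p6 = 5 := cnt_p6 hS
  have hS' : Srt n (⟨p1 - 1, p2 - 1, p3 - 1, p4 - 1, p5 - 1, p6 - 1, 5⟩ : PS) :=
    ⟨by show 1 ≤ p1 - 1; omega,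
      by show p1 - 1 < p2 - 1; omega,
      by show p2 - 1 < p3 - 1; omega,
      by show p3 - 1 < p4 - 1; omega,
      by show p4 - 1 < p5 - 1; omega,
      by show p5 - 1 < p6 - 1; omega,
      by show p6 - 1 ≤ n; omega⟩
  refine ⟨?_, ⟨by show 1 ≤ p1 - 1; omega,
      by show p1 - 1 < p2 - 1; omega,
      by show p2 - 1 < p3 - 1; omega,
      by show p3 - 1 < p4 - 1; omega,
      by show p4 - 1 < p5 - 1; omega,
      by show p5 - 1 < p6 - 1; omega,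
      by show p6 - 1 ≤ n; omega,
      by show 2 ≤ 5; omega,
      by show 5 ≤ 6; omega,
      by show 2 ≤ p1 - 1; omega,
      by show 4 ≤ p2 - 1; omega,
      by show 6 ≤ p3 - 1; omega,
      by show 8 ≤ p4 - 1; omega,
      by show 0 ≤ p5 - 1; omega,
      by show 11 ≤ p6 - 1; omega⟩⟩
  rw [fil_eq, fil_eq]
  have hcnt : ∀ w, 1 ≤ w → cnt (⟨p1 - 1, p2 - 1, p3 - 1, p4 - 1, p5 - 1, p6 - 1, 5⟩ : PS) (w - 1) = cnt (⟨p1, p2, p3, p4, p5, p6, 5⟩ : PS) w := by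
    intro w hw
    unfold cnt
    dsimp only
    rw [ite_pred (p := p1) (by omega) hw, ite_pred (p := p2) (by omega) hw, ite_pred (p := p3) (by omega) hw, ite_pred (p := p4) (by omega) hw, ite_pred (p := p5) (by omega) hw, ite_pred (p := p6) (by omega) hw]
  have hRQ : ∀ v, 1 ≤ v → v < n → RQ n (⟨p1, p2, p3, p4, p5, p6, 5⟩ : PS) (v + 1) → RQ n (⟨p1 - 1, p2 - 1, p3 - 1, p4 - 1, p5 - 1, p6 - 1, 5⟩ : PS) v := by
    rintro v hv hvn ⟨_, a1, a2, a3, a4, a5, a6⟩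
    replace a1 : v + 1 ≠ p1 := a1
    replace a2 : v + 1 ≠ p2 := a2
    replace a3 : v + 1 ≠ p3 := a3
    replace a4 : v + 1 ≠ p4 := a4
    replace a5 : v + 1 ≠ p5 := a5
    replace a6 : v + 1 ≠ p6 := a6
    exact ⟨⟨hv, by omega⟩, by show v ≠ p1 - 1; omega,
      by show v ≠ p2 - 1; omega,
      by show v ≠ p3 - 1; omega,
      by show v ≠ p4 - 1; omega,
      by show v ≠ p5 - 1; omega,
      by show v ≠ p6 - 1; omega⟩
  have hRQn : RQ n (⟨p1 - 1, p2 - 1, p3 - 1, p4 - 1, p5 - 1, p6 - 1, 5⟩ : PS) n :=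
    ⟨⟨by omega, le_rfl⟩, by show n ≠ p1 - 1; omega,
      by show n ≠ p2 - 1; omega,
      by show n ≠ p3 - 1; omega,
      by show n ≠ p4 - 1; omega,
      by show n ≠ p5 - 1; omega,
      by show n ≠ p6 - 1; omega⟩
  have f1 : (fun i => if i = n - 6 - 1 then n else (if i < n - 6 - 1 then
      rowA n (⟨p1, p2, p3, p4, p5, p6, 5⟩ : PS) (i + 1) else rowA n (⟨p1, p2, p3, p4, p5, p6, 5⟩ : PS) i) - 1) = rowA n (⟨p1 - 1, p2 - 1, p3 - 1, p4 - 1, p5 - 1, p6 - 1, 5⟩ : PS) := by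
    funext i
    exact row0_end (by omega) hS hS' hcnt hRQ hRQn i
  have f2 : (fun i => PS.rowB (⟨p1, p2, p3, p4, p5, p6, 5⟩ : PS) i - 1) = PS.rowB (⟨p1 - 1, p2 - 1, p3 - 1, p4 - 1, p5 - 1, p6 - 1, 5⟩ : PS) := by
    funext i
    match i with
    | 0 => rfl
    | 1 => rfl
    | 2 => rfl
    | 3 => rfl
    | 4 => rfl
    | i + 5 => rfl
  refine (promote_end (n - 6) (by omega) (by omega) ?_ ?_ ?_).trans ?_
  · intro i hi
    match i with
    | 0 => exact ⟨rowA_ne_zero hS (by omega), Or.inr (rowA_lt hS (p := p1) (by omega)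
        (by omega) (by omega) (by rw [c1]; omega))⟩
    | 1 => exact ⟨rowA_ne_zero hS (by omega), Or.inr (rowA_lt hS (p := p2) (by omega)
        (by omega) (by omega) (by rw [c2]; omega))⟩
    | 2 => exact ⟨rowA_ne_zero hS (by omega), Or.inr (rowA_lt hS (p := p3) (by omega)
        (by omega) (by omega) (by rw [c3]; omega))⟩
    | 3 => exact ⟨rowA_ne_zero hS (by omega), Or.inr (rowA_lt hS (p := p4) (by omega)
        (by omega) (by omega) (by rw [c4]; omega))⟩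
    | 4 => exact ⟨rowA_ne_zero hS (by omega), Or.inr (rowA_lt hS (p := p6) (by omega)
        (by omega) (by omega) (by rw [c6]; omega))⟩
    | i + 5 => exact ⟨rowA_ne_zero hS (by omega), Or.inl rfl⟩
  · unfold rowA
    rw [if_neg (by omega)]
  · exact rowB_ge _ (by omega)
  · rw [f1, f2]
    rfl

lemma st_6_1 {n p1 p2 p3 p4 p5 p6 : ℕ} (hn : 15 ≤ n)
    (h : PS.Valid n (⟨p1, p2, p3, p4, p5, p6, 6⟩ : PS))
    (e1 : p1 = 2) :
    promote n (PS.fil n (⟨p1, p2, p3, p4, p5, p6, 6⟩ : PS)) = PS.fil n (⟨p2 - 1, p3 - 1, p4 - 1, p5 - 1, p6 - 1, n, 5⟩ : PS) ∧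
      PS.Valid n (⟨p2 - 1, p3 - 1, p4 - 1, p5 - 1, p6 - 1, n, 5⟩ : PS) := by
  obtain ⟨h1, h2, h3, h4, h5, h6, h7, h8, h9, g1, g2, g3, g4, g5, g6⟩ := h
  replace h1 : 1 ≤ p1 := h1
  replace h2 : p1 < p2 := h2
  replace h3 : p2 < p3 := h3
  replace h4 : p3 < p4 := h4
  replace h5 : p4 < p5 := h5
  replace h6 : p5 < p6 := h6
  replace h7 : p6 ≤ n := h7
  replace g1 : 2 ≤ p1 := g1
  replace g2 : 4 ≤ p2 := g2
  replace g3 : 6 ≤ p3 := g3
  replace g4 : 8 ≤ p4 := g4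
  replace g5 : 10 ≤ p5 := g5
  replace g6 : 0 ≤ p6 := g6
  have hS : Srt n (⟨p1, p2, p3, p4, p5, p6, 6⟩ : PS) := ⟨h1, h2, h3, h4, h5, h6, h7⟩
  have c1 : cnt (⟨p1, p2, p3, p4, p5, p6, 6⟩ : PS) p1 = 0 := cnt_p1 hS
  have c2 : cnt (⟨p1, p2, p3, p4, p5, p6, 6⟩ : PS) p2 = 1 := cnt_p2 hS
  have c3 : cnt (⟨p1, p2, p3, p4, p5, p6, 6⟩ : PS) p3 = 2 := cnt_p3 hS
  have c4 : cnt (⟨p1, p2, p3, p4, p5, p6, 6⟩ : PS) p4 = 3 := cnt_p4 hS
  have c5 : cnt (⟨p1, p2, p3, p4, p5, p6, 6⟩ : PS) p5 = 4 := cnt_p5 hS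
  have c6 : cnt (⟨p1, p2, p3, p4, p5, p6, 6⟩ : PS) p6 = 5 := cnt_p6 hS
  have hS' : Srt n (⟨p2 - 1, p3 - 1, p4 - 1, p5 - 1, p6 - 1, n, 5⟩ : PS) :=
    ⟨by show 1 ≤ p2 - 1; omega,
      by show p2 - 1 < p3 - 1; omega,
      by show p3 - 1 < p4 - 1; omega,
      by show p4 - 1 < p5 - 1; omega,
      by show p5 - 1 < p6 - 1; omega,
      by show p6 - 1 < n; omega,
      by show n ≤ n; omega⟩
  refine ⟨?_, ⟨by show 1 ≤ p2 - 1; omega,
      by show p2 - 1 < p3 - 1; omega,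
      by show p3 - 1 < p4 - 1; omega,
      by show p4 - 1 < p5 - 1; omega,
      by show p5 - 1 < p6 - 1; omega,
      by show p6 - 1 < n; omega,
      by show n ≤ n; omega,
      by show 2 ≤ 5; omega,
      by show 5 ≤ 6; omega,
      by show 2 ≤ p2 - 1; omega,
      by show 4 ≤ p3 - 1; omega,
      by show 6 ≤ p4 - 1; omega,
      by show 8 ≤ p5 - 1; omega,
      by show 0 ≤ p6 - 1; omega,
      by show 11 ≤ n; omega⟩⟩
  rw [fil_eq, fil_eq]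
  have hnb : ¬ RQ n (⟨p1, p2, p3, p4, p5, p6, 6⟩ : PS) p1 := by
    rintro ⟨_, a1, a2, a3, a4, a5, a6⟩
    exact a1 rfl
  have hcnt : ∀ w, 1 ≤ w → w ≤ n →
      cnt (⟨p2 - 1, p3 - 1, p4 - 1, p5 - 1, p6 - 1, n, 5⟩ : PS) (w - 1) + (if p1 < w then 1 else 0) = cnt (⟨p1, p2, p3, p4, p5, p6, 6⟩ : PS) w := by
    intro w hw hwn
    unfold cnt
    dsimp only
    rw [ite_pred (p := p2) (by omega) hw, ite_pred (p := p3) (by omega) hw, ite_pred (p := p4) (by omega) hw, ite_pred (p := p5) (by omega) hw, ite_pred (p := p6) (by omega) hw,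
      if_neg (show ¬ n < w - 1 by omega)]
    ring
  have hRQ : ∀ v, 1 ≤ v → v < n → RQ n (⟨p1, p2, p3, p4, p5, p6, 6⟩ : PS) (v + 1) ∨ v + 1 = p1 →
      RQ n (⟨p2 - 1, p3 - 1, p4 - 1, p5 - 1, p6 - 1, n, 5⟩ : PS) v := by
    rintro v hv hvn (⟨_, a1, a2, a3, a4, a5, a6⟩ | hq)
    · replace a1 : v + 1 ≠ p1 := a1
      replace a2 : v + 1 ≠ p2 := a2
      replace a3 : v + 1 ≠ p3 := a3
      replace a4 : v + 1 ≠ p4 := a4
      replace a5 : v + 1 ≠ p5 := a5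
      replace a6 : v + 1 ≠ p6 := a6
      exact ⟨⟨hv, by omega⟩, by show v ≠ p2 - 1; omega,
        by show v ≠ p3 - 1; omega,
        by show v ≠ p4 - 1; omega,
        by show v ≠ p5 - 1; omega,
        by show v ≠ p6 - 1; omega,
        by show v ≠ n; omega⟩
    · exact ⟨⟨hv, by omega⟩, by show v ≠ p2 - 1; omega,
        by show v ≠ p3 - 1; omega,
        by show v ≠ p4 - 1; omega,
        by show v ≠ p5 - 1; omega,
        by show v ≠ p6 - 1; omega,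
        by show v ≠ n; omega⟩
  have f1 : (fun i => (if i < 0 then rowA n (⟨p1, p2, p3, p4, p5, p6, 6⟩ : PS) (i + 1) else
      if i = 0 then PS.rowB (⟨p1, p2, p3, p4, p5, p6, 6⟩ : PS) 0 else rowA n (⟨p1, p2, p3, p4, p5, p6, 6⟩ : PS) i) - 1) = rowA n (⟨p2 - 1, p3 - 1, p4 - 1, p5 - 1, p6 - 1, n, 5⟩ : PS) := by
    funext i
    exact row0_stop hS hS' (b := p1) (c := 0) (by omega) (by rw [c1]; omega) hnb hcnt hRQ i
  have f2 : (fun i => if i = 4 then n else (if 0 ≤ i ∧ i < 4 then PS.rowB (⟨p1, p2, p3, p4, p5, p6, 6⟩ : PS) (i + 1) else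
      PS.rowB (⟨p1, p2, p3, p4, p5, p6, 6⟩ : PS) i) - 1) = PS.rowB (⟨p2 - 1, p3 - 1, p4 - 1, p5 - 1, p6 - 1, n, 5⟩ : PS) := by
    funext i
    match i with
    | 0 => rfl
    | 1 => rfl
    | 2 => rfl
    | 3 => rfl
    | 4 => rfl
    | i + 5 =>
      rw [if_neg (by omega), if_neg (by omega)]
      rfl
  refine (promote_stop (by omega) 0 (by omega) ?_ ?_ ?_ ?_ rfl ?_).trans ?_
  · intro i hi
    exact absurd hi (by omega)
  · show p1 ≠ 0
    omega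
  · exact rowA_gt hS (p := p1) (by omega) (by omega) (by omega) hnb (by rw [c1]; omega)
  · intro i hi
    have hc : i = 0 ∨ i = 1 ∨ i = 2 ∨ i = 3 := by omega
    rcases hc with rfl | rfl | rfl | rfl
    · show p2 ≠ 0
      omega
    · show p3 ≠ 0
      omega
    · show p4 ≠ 0
      omega
    · show p5 ≠ 0
      omega
  · intro _
    show p2 < p6
    omega
  · rw [f1, f2]
    rfl

lemma st_6_2 {n p1 p2 p3 p4 p5 p6 : ℕ} (hn : 15 ≤ n)
    (h : PS.Valid n (⟨p1, p2, p3, p4, p5, p6, 6⟩ : PS))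
    (e1 : ¬ p1 = 2) (e2 : p2 = 4) :
    promote n (PS.fil n (⟨p1, p2, p3, p4, p5, p6, 6⟩ : PS)) = PS.fil n (⟨p1 - 1, p3 - 1, p4 - 1, p5 - 1, p6 - 1, n, 5⟩ : PS) ∧
      PS.Valid n (⟨p1 - 1, p3 - 1, p4 - 1, p5 - 1, p6 - 1, n, 5⟩ : PS) := by
  obtain ⟨h1, h2, h3, h4, h5, h6, h7, h8, h9, g1, g2, g3, g4, g5, g6⟩ := h
  replace h1 : 1 ≤ p1 := h1
  replace h2 : p1 < p2 := h2
  replace h3 : p2 < p3 := h3
  replace h4 : p3 < p4 := h4
  replace h5 : p4 < p5 := h5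
  replace h6 : p5 < p6 := h6
  replace h7 : p6 ≤ n := h7
  replace g1 : 2 ≤ p1 := g1
  replace g2 : 4 ≤ p2 := g2
  replace g3 : 6 ≤ p3 := g3
  replace g4 : 8 ≤ p4 := g4
  replace g5 : 10 ≤ p5 := g5
  replace g6 : 0 ≤ p6 := g6
  have hS : Srt n (⟨p1, p2, p3, p4, p5, p6, 6⟩ : PS) := ⟨h1, h2, h3, h4, h5, h6, h7⟩
  have c1 : cnt (⟨p1, p2, p3, p4, p5, p6, 6⟩ : PS) p1 = 0 := cnt_p1 hS
  have c2 : cnt (⟨p1, p2, p3, p4, p5, p6, 6⟩ : PS) p2 = 1 := cnt_p2 hS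
  have c3 : cnt (⟨p1, p2, p3, p4, p5, p6, 6⟩ : PS) p3 = 2 := cnt_p3 hS
  have c4 : cnt (⟨p1, p2, p3, p4, p5, p6, 6⟩ : PS) p4 = 3 := cnt_p4 hS
  have c5 : cnt (⟨p1, p2, p3, p4, p5, p6, 6⟩ : PS) p5 = 4 := cnt_p5 hS
  have c6 : cnt (⟨p1, p2, p3, p4, p5, p6, 6⟩ : PS) p6 = 5 := cnt_p6 hS
  have hS' : Srt n (⟨p1 - 1, p3 - 1, p4 - 1, p5 - 1, p6 - 1, n, 5⟩ : PS) :=
    ⟨by show 1 ≤ p1 - 1; omega,
      by show p1 - 1 < p3 - 1; omega,
      by show p3 - 1 < p4 - 1; omega,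
      by show p4 - 1 < p5 - 1; omega,
      by show p5 - 1 < p6 - 1; omega,
      by show p6 - 1 < n; omega,
      by show n ≤ n; omega⟩
  refine ⟨?_, ⟨by show 1 ≤ p1 - 1; omega,
      by show p1 - 1 < p3 - 1; omega,
      by show p3 - 1 < p4 - 1; omega,
      by show p4 - 1 < p5 - 1; omega,
      by show p5 - 1 < p6 - 1; omega,
      by show p6 - 1 < n; omega,
      by show n ≤ n; omega,
      by show 2 ≤ 5; omega,
      by show 5 ≤ 6; omega,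
      by show 2 ≤ p1 - 1; omega,
      by show 4 ≤ p3 - 1; omega,
      by show 6 ≤ p4 - 1; omega,
      by show 8 ≤ p5 - 1; omega,
      by show 0 ≤ p6 - 1; omega,
      by show 11 ≤ n; omega⟩⟩
  rw [fil_eq, fil_eq]
  have hnb : ¬ RQ n (⟨p1, p2, p3, p4, p5, p6, 6⟩ : PS) p2 := by
    rintro ⟨_, a1, a2, a3, a4, a5, a6⟩
    exact a2 rfl
  have hcnt : ∀ w, 1 ≤ w → w ≤ n →
      cnt (⟨p1 - 1, p3 - 1, p4 - 1, p5 - 1, p6 - 1, n, 5⟩ : PS) (w - 1) + (if p2 < w then 1 else 0) = cnt (⟨p1, p2, p3, p4, p5, p6, 6⟩ : PS) w := by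
    intro w hw hwn
    unfold cnt
    dsimp only
    rw [ite_pred (p := p1) (by omega) hw, ite_pred (p := p3) (by omega) hw, ite_pred (p := p4) (by omega) hw, ite_pred (p := p5) (by omega) hw, ite_pred (p := p6) (by omega) hw,
      if_neg (show ¬ n < w - 1 by omega)]
    ring
  have hRQ : ∀ v, 1 ≤ v → v < n → RQ n (⟨p1, p2, p3, p4, p5, p6, 6⟩ : PS) (v + 1) ∨ v + 1 = p2 →
      RQ n (⟨p1 - 1, p3 - 1, p4 - 1, p5 - 1, p6 - 1, n, 5⟩ : PS) v := by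
    rintro v hv hvn (⟨_, a1, a2, a3, a4, a5, a6⟩ | hq)
    · replace a1 : v + 1 ≠ p1 := a1
      replace a2 : v + 1 ≠ p2 := a2
      replace a3 : v + 1 ≠ p3 := a3
      replace a4 : v + 1 ≠ p4 := a4
      replace a5 : v + 1 ≠ p5 := a5
      replace a6 : v + 1 ≠ p6 := a6
      exact ⟨⟨hv, by omega⟩, by show v ≠ p1 - 1; omega,
        by show v ≠ p3 - 1; omega,
        by show v ≠ p4 - 1; omega,
        by show v ≠ p5 - 1; omega,
        by show v ≠ p6 - 1; omega,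
        by show v ≠ n; omega⟩
    · exact ⟨⟨hv, by omega⟩, by show v ≠ p1 - 1; omega,
        by show v ≠ p3 - 1; omega,
        by show v ≠ p4 - 1; omega,
        by show v ≠ p5 - 1; omega,
        by show v ≠ p6 - 1; omega,
        by show v ≠ n; omega⟩
  have f1 : (fun i => (if i < 1 then rowA n (⟨p1, p2, p3, p4, p5, p6, 6⟩ : PS) (i + 1) else
      if i = 1 then PS.rowB (⟨p1, p2, p3, p4, p5, p6, 6⟩ : PS) 1 else rowA n (⟨p1, p2, p3, p4, p5, p6, 6⟩ : PS) i) - 1) = rowA n (⟨p1 - 1, p3 - 1, p4 - 1, p5 - 1, p6 - 1, n, 5⟩ : PS) := by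
    funext i
    exact row0_stop hS hS' (b := p2) (c := 1) (by omega) (by rw [c2]; omega) hnb hcnt hRQ i
  have f2 : (fun i => if i = 4 then n else (if 1 ≤ i ∧ i < 4 then PS.rowB (⟨p1, p2, p3, p4, p5, p6, 6⟩ : PS) (i + 1) else
      PS.rowB (⟨p1, p2, p3, p4, p5, p6, 6⟩ : PS) i) - 1) = PS.rowB (⟨p1 - 1, p3 - 1, p4 - 1, p5 - 1, p6 - 1, n, 5⟩ : PS) := by
    funext i
    match i with
    | 0 => rfl
    | 1 => rfl
    | 2 => rfl
    | 3 => rfl
    | 4 => rfl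
    | i + 5 =>
      rw [if_neg (by omega), if_neg (by omega)]
      rfl
  refine (promote_stop (by omega) 1 (by omega) ?_ ?_ ?_ ?_ rfl ?_).trans ?_
  · intro i hi
    obtain rfl : i = 0 := by omega
    exact ⟨rowA_ne_zero hS (by omega), rowA_lt hS (p := p1) (by omega) (by omega) (by omega)
        (by rw [c1]; omega)⟩
  · show p2 ≠ 0
    omega
  · exact rowA_gt hS (p := p2) (by omega) (by omega) (by omega) hnb (by rw [c2]; omega)
  · intro i hi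
    have hc : i = 0 ∨ i = 1 ∨ i = 2 ∨ i = 3 := by omega
    rcases hc with rfl | rfl | rfl | rfl
    · show p2 ≠ 0
      omega
    · show p3 ≠ 0
      omega
    · show p4 ≠ 0
      omega
    · show p5 ≠ 0
      omega
  · intro hc
    exact absurd hc (by omega)
  · rw [f1, f2]
    rfl

lemma st_6_3 {n p1 p2 p3 p4 p5 p6 : ℕ} (hn : 15 ≤ n)
    (h : PS.Valid n (⟨p1, p2, p3, p4, p5, p6, 6⟩ : PS))
    (e1 : ¬ p1 = 2) (e2 : ¬ p2 = 4) (e3 : p3 = 6) :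
    promote n (PS.fil n (⟨p1, p2, p3, p4, p5, p6, 6⟩ : PS)) = PS.fil n (⟨p1 - 1, p2 - 1, p4 - 1, p5 - 1, p6 - 1, n, 5⟩ : PS) ∧
      PS.Valid n (⟨p1 - 1, p2 - 1, p4 - 1, p5 - 1, p6 - 1, n, 5⟩ : PS) := by
  obtain ⟨h1, h2, h3, h4, h5, h6, h7, h8, h9, g1, g2, g3, g4, g5, g6⟩ := h
  replace h1 : 1 ≤ p1 := h1
  replace h2 : p1 < p2 := h2
  replace h3 : p2 < p3 := h3
  replace h4 : p3 < p4 := h4
  replace h5 : p4 < p5 := h5
  replace h6 : p5 < p6 := h6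
  replace h7 : p6 ≤ n := h7
  replace g1 : 2 ≤ p1 := g1
  replace g2 : 4 ≤ p2 := g2
  replace g3 : 6 ≤ p3 := g3
  replace g4 : 8 ≤ p4 := g4
  replace g5 : 10 ≤ p5 := g5
  replace g6 : 0 ≤ p6 := g6
  have hS : Srt n (⟨p1, p2, p3, p4, p5, p6, 6⟩ : PS) := ⟨h1, h2, h3, h4, h5, h6, h7⟩
  have c1 : cnt (⟨p1, p2, p3, p4, p5, p6, 6⟩ : PS) p1 = 0 := cnt_p1 hS
  have c2 : cnt (⟨p1, p2, p3, p4, p5, p6, 6⟩ : PS) p2 = 1 := cnt_p2 hS
  have c3 : cnt (⟨p1, p2, p3, p4, p5, p6, 6⟩ : PS) p3 = 2 := cnt_p3 hS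
  have c4 : cnt (⟨p1, p2, p3, p4, p5, p6, 6⟩ : PS) p4 = 3 := cnt_p4 hS
  have c5 : cnt (⟨p1, p2, p3, p4, p5, p6, 6⟩ : PS) p5 = 4 := cnt_p5 hS
  have c6 : cnt (⟨p1, p2, p3, p4, p5, p6, 6⟩ : PS) p6 = 5 := cnt_p6 hS
  have hS' : Srt n (⟨p1 - 1, p2 - 1, p4 - 1, p5 - 1, p6 - 1, n, 5⟩ : PS) :=
    ⟨by show 1 ≤ p1 - 1; omega,
      by show p1 - 1 < p2 - 1; omega,
      by show p2 - 1 < p4 - 1; omega,
      by show p4 - 1 < p5 - 1; omega,
      by show p5 - 1 < p6 - 1; omega,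
      by show p6 - 1 < n; omega,
      by show n ≤ n; omega⟩
  refine ⟨?_, ⟨by show 1 ≤ p1 - 1; omega,
      by show p1 - 1 < p2 - 1; omega,
      by show p2 - 1 < p4 - 1; omega,
      by show p4 - 1 < p5 - 1; omega,
      by show p5 - 1 < p6 - 1; omega,
      by show p6 - 1 < n; omega,
      by show n ≤ n; omega,
      by show 2 ≤ 5; omega,
      by show 5 ≤ 6; omega,
      by show 2 ≤ p1 - 1; omega,
      by show 4 ≤ p2 - 1; omega,
      by show 6 ≤ p4 - 1; omega,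
      by show 8 ≤ p5 - 1; omega,
      by show 0 ≤ p6 - 1; omega,
      by show 11 ≤ n; omega⟩⟩
  rw [fil_eq, fil_eq]
  have hnb : ¬ RQ n (⟨p1, p2, p3, p4, p5, p6, 6⟩ : PS) p3 := by
    rintro ⟨_, a1, a2, a3, a4, a5, a6⟩
    exact a3 rfl
  have hcnt : ∀ w, 1 ≤ w → w ≤ n →
      cnt (⟨p1 - 1, p2 - 1, p4 - 1, p5 - 1, p6 - 1, n, 5⟩ : PS) (w - 1) + (if p3 < w then 1 else 0) = cnt (⟨p1, p2, p3, p4, p5, p6, 6⟩ : PS) w := by
    intro w hw hwn
    unfold cnt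
    dsimp only
    rw [ite_pred (p := p1) (by omega) hw, ite_pred (p := p2) (by omega) hw, ite_pred (p := p4) (by omega) hw, ite_pred (p := p5) (by omega) hw, ite_pred (p := p6) (by omega) hw,
      if_neg (show ¬ n < w - 1 by omega)]
    ring
  have hRQ : ∀ v, 1 ≤ v → v < n → RQ n (⟨p1, p2, p3, p4, p5, p6, 6⟩ : PS) (v + 1) ∨ v + 1 = p3 →
      RQ n (⟨p1 - 1, p2 - 1, p4 - 1, p5 - 1, p6 - 1, n, 5⟩ : PS) v := by
    rintro v hv hvn (⟨_, a1, a2, a3, a4, a5, a6⟩ | hq)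
    · replace a1 : v + 1 ≠ p1 := a1
      replace a2 : v + 1 ≠ p2 := a2
      replace a3 : v + 1 ≠ p3 := a3
      replace a4 : v + 1 ≠ p4 := a4
      replace a5 : v + 1 ≠ p5 := a5
      replace a6 : v + 1 ≠ p6 := a6
      exact ⟨⟨hv, by omega⟩, by show v ≠ p1 - 1; omega,
        by show v ≠ p2 - 1; omega,
        by show v ≠ p4 - 1; omega,
        by show v ≠ p5 - 1; omega,
        by show v ≠ p6 - 1; omega,
        by show v ≠ n; omega⟩
    · exact ⟨⟨hv, by omega⟩, by show v ≠ p1 - 1; omega,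
        by show v ≠ p2 - 1; omega,
        by show v ≠ p4 - 1; omega,
        by show v ≠ p5 - 1; omega,
        by show v ≠ p6 - 1; omega,
        by show v ≠ n; omega⟩
  have f1 : (fun i => (if i < 2 then rowA n (⟨p1, p2, p3, p4, p5, p6, 6⟩ : PS) (i + 1) else
      if i = 2 then PS.rowB (⟨p1, p2, p3, p4, p5, p6, 6⟩ : PS) 2 else rowA n (⟨p1, p2, p3, p4, p5, p6, 6⟩ : PS) i) - 1) = rowA n (⟨p1 - 1, p2 - 1, p4 - 1, p5 - 1, p6 - 1, n, 5⟩ : PS) := by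
    funext i
    exact row0_stop hS hS' (b := p3) (c := 2) (by omega) (by rw [c3]; omega) hnb hcnt hRQ i
  have f2 : (fun i => if i = 4 then n else (if 2 ≤ i ∧ i < 4 then PS.rowB (⟨p1, p2, p3, p4, p5, p6, 6⟩ : PS) (i + 1) else
      PS.rowB (⟨p1, p2, p3, p4, p5, p6, 6⟩ : PS) i) - 1) = PS.rowB (⟨p1 - 1, p2 - 1, p4 - 1, p5 - 1, p6 - 1, n, 5⟩ : PS) := by
    funext i
    match i with
    | 0 => rfl
    | 1 => rfl
    | 2 => rfl
    | 3 => rfl
    | 4 => rfl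
    | i + 5 =>
      rw [if_neg (by omega), if_neg (by omega)]
      rfl
  refine (promote_stop (by omega) 2 (by omega) ?_ ?_ ?_ ?_ rfl ?_).trans ?_
  · intro i hi
    have hc : i = 0 ∨ i = 1 := by omega
    rcases hc with rfl | rfl
    · exact ⟨rowA_ne_zero hS (by omega), rowA_lt hS (p := p1) (by omega) (by omega) (by omega)
        (by rw [c1]; omega)⟩
    · exact ⟨rowA_ne_zero hS (by omega), rowA_lt hS (p := p2) (by omega) (by omega) (by omega)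
        (by rw [c2]; omega)⟩
  · show p3 ≠ 0
    omega
  · exact rowA_gt hS (p := p3) (by omega) (by omega) (by omega) hnb (by rw [c3]; omega)
  · intro i hi
    have hc : i = 0 ∨ i = 1 ∨ i = 2 ∨ i = 3 := by omega
    rcases hc with rfl | rfl | rfl | rfl
    · show p2 ≠ 0
      omega
    · show p3 ≠ 0
      omega
    · show p4 ≠ 0
      omega
    · show p5 ≠ 0
      omega
  · intro hc
    exact absurd hc (by omega)
  · rw [f1, f2]
    rfl

lemma st_6_4 {n p1 p2 p3 p4 p5 p6 : ℕ} (hn : 15 ≤ n)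
    (h : PS.Valid n (⟨p1, p2, p3, p4, p5, p6, 6⟩ : PS))
    (e1 : ¬ p1 = 2) (e2 : ¬ p2 = 4) (e3 : ¬ p3 = 6)
    (e4 : p4 = 8) :
    promote n (PS.fil n (⟨p1, p2, p3, p4, p5, p6, 6⟩ : PS)) = PS.fil n (⟨p1 - 1, p2 - 1, p3 - 1, p5 - 1, p6 - 1, n, 5⟩ : PS) ∧
      PS.Valid n (⟨p1 - 1, p2 - 1, p3 - 1, p5 - 1, p6 - 1, n, 5⟩ : PS) := by
  obtain ⟨h1, h2, h3, h4, h5, h6, h7, h8, h9, g1, g2, g3, g4, g5, g6⟩ := h
  replace h1 : 1 ≤ p1 := h1
  replace h2 : p1 < p2 := h2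
  replace h3 : p2 < p3 := h3
  replace h4 : p3 < p4 := h4
  replace h5 : p4 < p5 := h5
  replace h6 : p5 < p6 := h6
  replace h7 : p6 ≤ n := h7
  replace g1 : 2 ≤ p1 := g1
  replace g2 : 4 ≤ p2 := g2
  replace g3 : 6 ≤ p3 := g3
  replace g4 : 8 ≤ p4 := g4
  replace g5 : 10 ≤ p5 := g5
  replace g6 : 0 ≤ p6 := g6
  have hS : Srt n (⟨p1, p2, p3, p4, p5, p6, 6⟩ : PS) := ⟨h1, h2, h3, h4, h5, h6, h7⟩
  have c1 : cnt (⟨p1, p2, p3, p4, p5, p6, 6⟩ : PS) p1 = 0 := cnt_p1 hS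
  have c2 : cnt (⟨p1, p2, p3, p4, p5, p6, 6⟩ : PS) p2 = 1 := cnt_p2 hS
  have c3 : cnt (⟨p1, p2, p3, p4, p5, p6, 6⟩ : PS) p3 = 2 := cnt_p3 hS
  have c4 : cnt (⟨p1, p2, p3, p4, p5, p6, 6⟩ : PS) p4 = 3 := cnt_p4 hS
  have c5 : cnt (⟨p1, p2, p3, p4, p5, p6, 6⟩ : PS) p5 = 4 := cnt_p5 hS
  have c6 : cnt (⟨p1, p2, p3, p4, p5, p6, 6⟩ : PS) p6 = 5 := cnt_p6 hS
  have hS' : Srt n (⟨p1 - 1, p2 - 1, p3 - 1, p5 - 1, p6 - 1, n, 5⟩ : PS) :=
    ⟨by show 1 ≤ p1 - 1; omega,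
      by show p1 - 1 < p2 - 1; omega,
      by show p2 - 1 < p3 - 1; omega,
      by show p3 - 1 < p5 - 1; omega,
      by show p5 - 1 < p6 - 1; omega,
      by show p6 - 1 < n; omega,
      by show n ≤ n; omega⟩
  refine ⟨?_, ⟨by show 1 ≤ p1 - 1; omega,
      by show p1 - 1 < p2 - 1; omega,
      by show p2 - 1 < p3 - 1; omega,
      by show p3 - 1 < p5 - 1; omega,
      by show p5 - 1 < p6 - 1; omega,
      by show p6 - 1 < n; omega,
      by show n ≤ n; omega,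
      by show 2 ≤ 5; omega,
      by show 5 ≤ 6; omega,
      by show 2 ≤ p1 - 1; omega,
      by show 4 ≤ p2 - 1; omega,
      by show 6 ≤ p3 - 1; omega,
      by show 8 ≤ p5 - 1; omega,
      by show 0 ≤ p6 - 1; omega,
      by show 11 ≤ n; omega⟩⟩
  rw [fil_eq, fil_eq]
  have hnb : ¬ RQ n (⟨p1, p2, p3, p4, p5, p6, 6⟩ : PS) p4 := by
    rintro ⟨_, a1, a2, a3, a4, a5, a6⟩
    exact a4 rfl
  have hcnt : ∀ w, 1 ≤ w → w ≤ n →
      cnt (⟨p1 - 1, p2 - 1, p3 - 1, p5 - 1, p6 - 1, n, 5⟩ : PS) (w - 1) + (if p4 < w then 1 else 0) = cnt (⟨p1, p2, p3, p4, p5, p6, 6⟩ : PS) w := by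
    intro w hw hwn
    unfold cnt
    dsimp only
    rw [ite_pred (p := p1) (by omega) hw, ite_pred (p := p2) (by omega) hw, ite_pred (p := p3) (by omega) hw, ite_pred (p := p5) (by omega) hw, ite_pred (p := p6) (by omega) hw,
      if_neg (show ¬ n < w - 1 by omega)]
    ring
  have hRQ : ∀ v, 1 ≤ v → v < n → RQ n (⟨p1, p2, p3, p4, p5, p6, 6⟩ : PS) (v + 1) ∨ v + 1 = p4 →
      RQ n (⟨p1 - 1, p2 - 1, p3 - 1, p5 - 1, p6 - 1, n, 5⟩ : PS) v := by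
    rintro v hv hvn (⟨_, a1, a2, a3, a4, a5, a6⟩ | hq)
    · replace a1 : v + 1 ≠ p1 := a1
      replace a2 : v + 1 ≠ p2 := a2
      replace a3 : v + 1 ≠ p3 := a3
      replace a4 : v + 1 ≠ p4 := a4
      replace a5 : v + 1 ≠ p5 := a5
      replace a6 : v + 1 ≠ p6 := a6
      exact ⟨⟨hv, by omega⟩, by show v ≠ p1 - 1; omega,
        by show v ≠ p2 - 1; omega,
        by show v ≠ p3 - 1; omega,
        by show v ≠ p5 - 1; omega,
        by show v ≠ p6 - 1; omega,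
        by show v ≠ n; omega⟩
    · exact ⟨⟨hv, by omega⟩, by show v ≠ p1 - 1; omega,
        by show v ≠ p2 - 1; omega,
        by show v ≠ p3 - 1; omega,
        by show v ≠ p5 - 1; omega,
        by show v ≠ p6 - 1; omega,
        by show v ≠ n; omega⟩
  have f1 : (fun i => (if i < 3 then rowA n (⟨p1, p2, p3, p4, p5, p6, 6⟩ : PS) (i + 1) else
      if i = 3 then PS.rowB (⟨p1, p2, p3, p4, p5, p6, 6⟩ : PS) 3 else rowA n (⟨p1, p2, p3, p4, p5, p6, 6⟩ : PS) i) - 1) = rowA n (⟨p1 - 1, p2 - 1, p3 - 1, p5 - 1, p6 - 1, n, 5⟩ : PS) := by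
    funext i
    exact row0_stop hS hS' (b := p4) (c := 3) (by omega) (by rw [c4]; omega) hnb hcnt hRQ i
  have f2 : (fun i => if i = 4 then n else (if 3 ≤ i ∧ i < 4 then PS.rowB (⟨p1, p2, p3, p4, p5, p6, 6⟩ : PS) (i + 1) else
      PS.rowB (⟨p1, p2, p3, p4, p5, p6, 6⟩ : PS) i) - 1) = PS.rowB (⟨p1 - 1, p2 - 1, p3 - 1, p5 - 1, p6 - 1, n, 5⟩ : PS) := by
    funext i
    match i with
    | 0 => rfl
    | 1 => rfl
    | 2 => rfl
    | 3 => rfl
    | 4 => rfl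
    | i + 5 =>
      rw [if_neg (by omega), if_neg (by omega)]
      rfl
  refine (promote_stop (by omega) 3 (by omega) ?_ ?_ ?_ ?_ rfl ?_).trans ?_
  · intro i hi
    have hc : i = 0 ∨ i = 1 ∨ i = 2 := by omega
    rcases hc with rfl | rfl | rfl
    · exact ⟨rowA_ne_zero hS (by omega), rowA_lt hS (p := p1) (by omega) (by omega) (by omega)
        (by rw [c1]; omega)⟩
    · exact ⟨rowA_ne_zero hS (by omega), rowA_lt hS (p := p2) (by omega) (by omega) (by omega)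
        (by rw [c2]; omega)⟩
    · exact ⟨rowA_ne_zero hS (by omega), rowA_lt hS (p := p3) (by omega) (by omega) (by omega)
        (by rw [c3]; omega)⟩
  · show p4 ≠ 0
    omega
  · exact rowA_gt hS (p := p4) (by omega) (by omega) (by omega) hnb (by rw [c4]; omega)
  · intro i hi
    have hc : i = 0 ∨ i = 1 ∨ i = 2 ∨ i = 3 := by omega
    rcases hc with rfl | rfl | rfl | rfl
    · show p2 ≠ 0
      omega
    · show p3 ≠ 0
      omega
    · show p4 ≠ 0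
      omega
    · show p5 ≠ 0
      omega
  · intro hc
    exact absurd hc (by omega)
  · rw [f1, f2]
    rfl

lemma st_6_5 {n p1 p2 p3 p4 p5 p6 : ℕ} (hn : 15 ≤ n)
    (h : PS.Valid n (⟨p1, p2, p3, p4, p5, p6, 6⟩ : PS))
    (e1 : ¬ p1 = 2) (e2 : ¬ p2 = 4) (e3 : ¬ p3 = 6)
    (e4 : ¬ p4 = 8) (e5 : p5 = 10) :
    promote n (PS.fil n (⟨p1, p2, p3, p4, p5, p6, 6⟩ : PS)) = PS.fil n (⟨p1 - 1, p2 - 1, p3 - 1, p4 - 1, p6 - 1, n, 5⟩ : PS) ∧
      PS.Valid n (⟨p1 - 1, p2 - 1, p3 - 1, p4 - 1, p6 - 1, n, 5⟩ : PS) := by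
  obtain ⟨h1, h2, h3, h4, h5, h6, h7, h8, h9, g1, g2, g3, g4, g5, g6⟩ := h
  replace h1 : 1 ≤ p1 := h1
  replace h2 : p1 < p2 := h2
  replace h3 : p2 < p3 := h3
  replace h4 : p3 < p4 := h4
  replace h5 : p4 < p5 := h5
  replace h6 : p5 < p6 := h6
  replace h7 : p6 ≤ n := h7
  replace g1 : 2 ≤ p1 := g1
  replace g2 : 4 ≤ p2 := g2
  replace g3 : 6 ≤ p3 := g3
  replace g4 : 8 ≤ p4 := g4
  replace g5 : 10 ≤ p5 := g5
  replace g6 : 0 ≤ p6 := g6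
  have hS : Srt n (⟨p1, p2, p3, p4, p5, p6, 6⟩ : PS) := ⟨h1, h2, h3, h4, h5, h6, h7⟩
  have c1 : cnt (⟨p1, p2, p3, p4, p5, p6, 6⟩ : PS) p1 = 0 := cnt_p1 hS
  have c2 : cnt (⟨p1, p2, p3, p4, p5, p6, 6⟩ : PS) p2 = 1 := cnt_p2 hS
  have c3 : cnt (⟨p1, p2, p3, p4, p5, p6, 6⟩ : PS) p3 = 2 := cnt_p3 hS
  have c4 : cnt (⟨p1, p2, p3, p4, p5, p6, 6⟩ : PS) p4 = 3 := cnt_p4 hS
  have c5 : cnt (⟨p1, p2, p3, p4, p5, p6, 6⟩ : PS) p5 = 4 := cnt_p5 hS
  have c6 : cnt (⟨p1, p2, p3, p4, p5, p6, 6⟩ : PS) p6 = 5 := cnt_p6 hS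
  have hS' : Srt n (⟨p1 - 1, p2 - 1, p3 - 1, p4 - 1, p6 - 1, n, 5⟩ : PS) :=
    ⟨by show 1 ≤ p1 - 1; omega,
      by show p1 - 1 < p2 - 1; omega,
      by show p2 - 1 < p3 - 1; omega,
      by show p3 - 1 < p4 - 1; omega,
      by show p4 - 1 < p6 - 1; omega,
      by show p6 - 1 < n; omega,
      by show n ≤ n; omega⟩
  refine ⟨?_, ⟨by show 1 ≤ p1 - 1; omega,
      by show p1 - 1 < p2 - 1; omega,
      by show p2 - 1 < p3 - 1; omega,
      by show p3 - 1 < p4 - 1; omega,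
      by show p4 - 1 < p6 - 1; omega,
      by show p6 - 1 < n; omega,
      by show n ≤ n; omega,
      by show 2 ≤ 5; omega,
      by show 5 ≤ 6; omega,
      by show 2 ≤ p1 - 1; omega,
      by show 4 ≤ p2 - 1; omega,
      by show 6 ≤ p3 - 1; omega,
      by show 8 ≤ p4 - 1; omega,
      by show 0 ≤ p6 - 1; omega,
      by show 11 ≤ n; omega⟩⟩
  rw [fil_eq, fil_eq]
  have hnb : ¬ RQ n (⟨p1, p2, p3, p4, p5, p6, 6⟩ : PS) p5 := by
    rintro ⟨_, a1, a2, a3, a4, a5, a6⟩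
    exact a5 rfl
  have hcnt : ∀ w, 1 ≤ w → w ≤ n →
      cnt (⟨p1 - 1, p2 - 1, p3 - 1, p4 - 1, p6 - 1, n, 5⟩ : PS) (w - 1) + (if p5 < w then 1 else 0) = cnt (⟨p1, p2, p3, p4, p5, p6, 6⟩ : PS) w := by
    intro w hw hwn
    unfold cnt
    dsimp only
    rw [ite_pred (p := p1) (by omega) hw, ite_pred (p := p2) (by omega) hw, ite_pred (p := p3) (by omega) hw, ite_pred (p := p4) (by omega) hw, ite_pred (p := p6) (by omega) hw,
      if_neg (show ¬ n < w - 1 by omega)]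
    ring
  have hRQ : ∀ v, 1 ≤ v → v < n → RQ n (⟨p1, p2, p3, p4, p5, p6, 6⟩ : PS) (v + 1) ∨ v + 1 = p5 →
      RQ n (⟨p1 - 1, p2 - 1, p3 - 1, p4 - 1, p6 - 1, n, 5⟩ : PS) v := by
    rintro v hv hvn (⟨_, a1, a2, a3, a4, a5, a6⟩ | hq)
    · replace a1 : v + 1 ≠ p1 := a1
      replace a2 : v + 1 ≠ p2 := a2
      replace a3 : v + 1 ≠ p3 := a3
      replace a4 : v + 1 ≠ p4 := a4
      replace a5 : v + 1 ≠ p5 := a5
      replace a6 : v + 1 ≠ p6 := a6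
      exact ⟨⟨hv, by omega⟩, by show v ≠ p1 - 1; omega,
        by show v ≠ p2 - 1; omega,
        by show v ≠ p3 - 1; omega,
        by show v ≠ p4 - 1; omega,
        by show v ≠ p6 - 1; omega,
        by show v ≠ n; omega⟩
    · exact ⟨⟨hv, by omega⟩, by show v ≠ p1 - 1; omega,
        by show v ≠ p2 - 1; omega,
        by show v ≠ p3 - 1; omega,
        by show v ≠ p4 - 1; omega,
        by show v ≠ p6 - 1; omega,
        by show v ≠ n; omega⟩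
  have f1 : (fun i => (if i < 4 then rowA n (⟨p1, p2, p3, p4, p5, p6, 6⟩ : PS) (i + 1) else
      if i = 4 then PS.rowB (⟨p1, p2, p3, p4, p5, p6, 6⟩ : PS) 4 else rowA n (⟨p1, p2, p3, p4, p5, p6, 6⟩ : PS) i) - 1) = rowA n (⟨p1 - 1, p2 - 1, p3 - 1, p4 - 1, p6 - 1, n, 5⟩ : PS) := by
    funext i
    exact row0_stop hS hS' (b := p5) (c := 4) (by omega) (by rw [c5]; omega) hnb hcnt hRQ i
  have f2 : (fun i => if i = 4 then n else (if 4 ≤ i ∧ i < 4 then PS.rowB (⟨p1, p2, p3, p4, p5, p6, 6⟩ : PS) (i + 1) else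
      PS.rowB (⟨p1, p2, p3, p4, p5, p6, 6⟩ : PS) i) - 1) = PS.rowB (⟨p1 - 1, p2 - 1, p3 - 1, p4 - 1, p6 - 1, n, 5⟩ : PS) := by
    funext i
    match i with
    | 0 => rfl
    | 1 => rfl
    | 2 => rfl
    | 3 => rfl
    | 4 => rfl
    | i + 5 =>
      rw [if_neg (by omega), if_neg (by omega)]
      rfl
  refine (promote_stop (by omega) 4 (by omega) ?_ ?_ ?_ ?_ rfl ?_).trans ?_
  · intro i hi
    have hc : i = 0 ∨ i = 1 ∨ i = 2 ∨ i = 3 := by omega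
    rcases hc with rfl | rfl | rfl | rfl
    · exact ⟨rowA_ne_zero hS (by omega), rowA_lt hS (p := p1) (by omega) (by omega) (by omega)
        (by rw [c1]; omega)⟩
    · exact ⟨rowA_ne_zero hS (by omega), rowA_lt hS (p := p2) (by omega) (by omega) (by omega)
        (by rw [c2]; omega)⟩
    · exact ⟨rowA_ne_zero hS (by omega), rowA_lt hS (p := p3) (by omega) (by omega) (by omega)
        (by rw [c3]; omega)⟩
    · exact ⟨rowA_ne_zero hS (by omega), rowA_lt hS (p := p4) (by omega) (by omega) (by omega)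
        (by rw [c4]; omega)⟩
  · show p5 ≠ 0
    omega
  · exact rowA_gt hS (p := p5) (by omega) (by omega) (by omega) hnb (by rw [c5]; omega)
  · intro i hi
    have hc : i = 0 ∨ i = 1 ∨ i = 2 ∨ i = 3 := by omega
    rcases hc with rfl | rfl | rfl | rfl
    · show p2 ≠ 0
      omega
    · show p3 ≠ 0
      omega
    · show p4 ≠ 0
      omega
    · show p5 ≠ 0
      omega
  · intro hc
    exact absurd hc (by omega)
  · rw [f1, f2]
    rfl

lemma st_6_7 {n p1 p2 p3 p4 p5 p6 : ℕ} (hn : 15 ≤ n)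
    (h : PS.Valid n (⟨p1, p2, p3, p4, p5, p6, 6⟩ : PS))
    (e1 : ¬ p1 = 2) (e2 : ¬ p2 = 4) (e3 : ¬ p3 = 6)
    (e4 : ¬ p4 = 8) (e5 : ¬ p5 = 10) :
    promote n (PS.fil n (⟨p1, p2, p3, p4, p5, p6, 6⟩ : PS)) = PS.fil n (⟨p1 - 1, p2 - 1, p3 - 1, p4 - 1, p5 - 1, p6 - 1, 6⟩ : PS) ∧
      PS.Valid n (⟨p1 - 1, p2 - 1, p3 - 1, p4 - 1, p5 - 1, p6 - 1, 6⟩ : PS) := by
  obtain ⟨h1, h2, h3, h4, h5, h6, h7, h8, h9, g1, g2, g3, g4, g5, g6⟩ := h
  replace h1 : 1 ≤ p1 := h1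
  replace h2 : p1 < p2 := h2
  replace h3 : p2 < p3 := h3
  replace h4 : p3 < p4 := h4
  replace h5 : p4 < p5 := h5
  replace h6 : p5 < p6 := h6
  replace h7 : p6 ≤ n := h7
  replace g1 : 2 ≤ p1 := g1
  replace g2 : 4 ≤ p2 := g2
  replace g3 : 6 ≤ p3 := g3
  replace g4 : 8 ≤ p4 := g4
  replace g5 : 10 ≤ p5 := g5
  replace g6 : 0 ≤ p6 := g6
  have hS : Srt n (⟨p1, p2, p3, p4, p5, p6, 6⟩ : PS) := ⟨h1, h2, h3, h4, h5, h6, h7⟩
  have c1 : cnt (⟨p1, p2, p3, p4, p5, p6, 6⟩ : PS) p1 = 0 := cnt_p1 hS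
  have c2 : cnt (⟨p1, p2, p3, p4, p5, p6, 6⟩ : PS) p2 = 1 := cnt_p2 hS
  have c3 : cnt (⟨p1, p2, p3, p4, p5, p6, 6⟩ : PS) p3 = 2 := cnt_p3 hS
  have c4 : cnt (⟨p1, p2, p3, p4, p5, p6, 6⟩ : PS) p4 = 3 := cnt_p4 hS
  have c5 : cnt (⟨p1, p2, p3, p4, p5, p6, 6⟩ : PS) p5 = 4 := cnt_p5 hS
  have c6 : cnt (⟨p1, p2, p3, p4, p5, p6, 6⟩ : PS) p6 = 5 := cnt_p6 hS
  have hS' : Srt n (⟨p1 - 1, p2 - 1, p3 - 1, p4 - 1, p5 - 1, p6 - 1, 6⟩ : PS) :=
    ⟨by show 1 ≤ p1 - 1; omega,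
      by show p1 - 1 < p2 - 1; omega,
      by show p2 - 1 < p3 - 1; omega,
      by show p3 - 1 < p4 - 1; omega,
      by show p4 - 1 < p5 - 1; omega,
      by show p5 - 1 < p6 - 1; omega,
      by show p6 - 1 ≤ n; omega⟩
  refine ⟨?_, ⟨by show 1 ≤ p1 - 1; omega,
      by show p1 - 1 < p2 - 1; omega,
      by show p2 - 1 < p3 - 1; omega,
      by show p3 - 1 < p4 - 1; omega,
      by show p4 - 1 < p5 - 1; omega,
      by show p5 - 1 < p6 - 1; omega,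
      by show p6 - 1 ≤ n; omega,
      by show 2 ≤ 6; omega,
      by show 6 ≤ 6; omega,
      by show 2 ≤ p1 - 1; omega,
      by show 4 ≤ p2 - 1; omega,
      by show 6 ≤ p3 - 1; omega,
      by show 8 ≤ p4 - 1; omega,
      by show 10 ≤ p5 - 1; omega,
      by show 0 ≤ p6 - 1; omega⟩⟩
  rw [fil_eq, fil_eq]
  have hcnt : ∀ w, 1 ≤ w → cnt (⟨p1 - 1, p2 - 1, p3 - 1, p4 - 1, p5 - 1, p6 - 1, 6⟩ : PS) (w - 1) = cnt (⟨p1, p2, p3, p4, p5, p6, 6⟩ : PS) w := by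
    intro w hw
    unfold cnt
    dsimp only
    rw [ite_pred (p := p1) (by omega) hw, ite_pred (p := p2) (by omega) hw, ite_pred (p := p3) (by omega) hw, ite_pred (p := p4) (by omega) hw, ite_pred (p := p5) (by omega) hw, ite_pred (p := p6) (by omega) hw]
  have hRQ : ∀ v, 1 ≤ v → v < n → RQ n (⟨p1, p2, p3, p4, p5, p6, 6⟩ : PS) (v + 1) → RQ n (⟨p1 - 1, p2 - 1, p3 - 1, p4 - 1, p5 - 1, p6 - 1, 6⟩ : PS) v := by
    rintro v hv hvn ⟨_, a1, a2, a3, a4, a5, a6⟩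
    replace a1 : v + 1 ≠ p1 := a1
    replace a2 : v + 1 ≠ p2 := a2
    replace a3 : v + 1 ≠ p3 := a3
    replace a4 : v + 1 ≠ p4 := a4
    replace a5 : v + 1 ≠ p5 := a5
    replace a6 : v + 1 ≠ p6 := a6
    exact ⟨⟨hv, by omega⟩, by show v ≠ p1 - 1; omega,
      by show v ≠ p2 - 1; omega,
      by show v ≠ p3 - 1; omega,
      by show v ≠ p4 - 1; omega,
      by show v ≠ p5 - 1; omega,
      by show v ≠ p6 - 1; omega⟩
  have hRQn : RQ n (⟨p1 - 1, p2 - 1, p3 - 1, p4 - 1, p5 - 1, p6 - 1, 6⟩ : PS) n :=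
    ⟨⟨by omega, le_rfl⟩, by show n ≠ p1 - 1; omega,
      by show n ≠ p2 - 1; omega,
      by show n ≠ p3 - 1; omega,
      by show n ≠ p4 - 1; omega,
      by show n ≠ p5 - 1; omega,
      by show n ≠ p6 - 1; omega⟩
  have f1 : (fun i => if i = n - 6 - 1 then n else (if i < n - 6 - 1 then
      rowA n (⟨p1, p2, p3, p4, p5, p6, 6⟩ : PS) (i + 1) else rowA n (⟨p1, p2, p3, p4, p5, p6, 6⟩ : PS) i) - 1) = rowA n (⟨p1 - 1, p2 - 1, p3 - 1, p4 - 1, p5 - 1, p6 - 1, 6⟩ : PS) := by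
    funext i
    exact row0_end (by omega) hS hS' hcnt hRQ hRQn i
  have f2 : (fun i => PS.rowB (⟨p1, p2, p3, p4, p5, p6, 6⟩ : PS) i - 1) = PS.rowB (⟨p1 - 1, p2 - 1, p3 - 1, p4 - 1, p5 - 1, p6 - 1, 6⟩ : PS) := by
    funext i
    match i with
    | 0 => rfl
    | 1 => rfl
    | 2 => rfl
    | 3 => rfl
    | 4 => rfl
    | i + 5 => rfl
  refine (promote_end (n - 6) (by omega) (by omega) ?_ ?_ ?_).trans ?_
  · intro i hi
    match i with
    | 0 => exact ⟨rowA_ne_zero hS (by omega), Or.inr (rowA_lt hS (p := p1) (by omega)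
        (by omega) (by omega) (by rw [c1]; omega))⟩
    | 1 => exact ⟨rowA_ne_zero hS (by omega), Or.inr (rowA_lt hS (p := p2) (by omega)
        (by omega) (by omega) (by rw [c2]; omega))⟩
    | 2 => exact ⟨rowA_ne_zero hS (by omega), Or.inr (rowA_lt hS (p := p3) (by omega)
        (by omega) (by omega) (by rw [c3]; omega))⟩
    | 3 => exact ⟨rowA_ne_zero hS (by omega), Or.inr (rowA_lt hS (p := p4) (by omega)
        (by omega) (by omega) (by rw [c4]; omega))⟩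
    | 4 => exact ⟨rowA_ne_zero hS (by omega), Or.inr (rowA_lt hS (p := p5) (by omega)
        (by omega) (by omega) (by rw [c5]; omega))⟩
    | i + 5 => exact ⟨rowA_ne_zero hS (by omega), Or.inl rfl⟩
  · unfold rowA
    rw [if_neg (by omega)]
  · exact rowB_ge _ (by omega)
  · rw [f1, f2]
    rfl

theorem step_all {n : ℕ} {s : PS} (hn : 15 ≤ n) (h : s.Valid n) :
    promote n (s.fil n) = (s.step n).fil n ∧ (s.step n).Valid n := by
  obtain ⟨p1, p2, p3, p4, p5, p6, m⟩ := s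
  have hm1 : 2 ≤ m := h.2.2.2.2.2.2.2.1
  have hm2 : m ≤ 6 := h.2.2.2.2.2.2.2.2.1
  have hm : m = 2 ∨ m = 3 ∨ m = 4 ∨ m = 5 ∨ m = 6 := by omega
  have q1 : 1 ≤ p1 := h.1
  have q2 : p1 < p2 := h.2.1
  have q3 : p2 < p3 := h.2.2.1
  have q4 : p3 < p4 := h.2.2.2.1
  have q5 : p4 < p5 := h.2.2.2.2.1
  have q6 : p5 < p6 := h.2.2.2.2.2.1
  rcases hm with rfl | rfl | rfl | rfl | rfl
  · have e2 : ¬ p2 = 0 := by omega
    by_cases e1 : p1 = 2
    · have hst : PS.step n (⟨p1, p2, p3, p4, p5, p6, 2⟩ : PS) = (⟨p2 - 1, p3 - 1, p4 - 1, p5 - 1, p6 - 1, n, 6⟩ : PS) :=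
        if_pos e1
      rw [hst]
      exact st_2_1 hn h e1
    by_cases e3 : p3 = 5
    · have hst : PS.step n (⟨p1, p2, p3, p4, p5, p6, 2⟩ : PS) = (⟨p1 - 1, p2 - 1, p4 - 1, p5 - 1, p6 - 1, n, 2⟩ : PS) :=
        (if_neg e1).trans ((if_neg e2).trans (if_pos e3))
      rw [hst]
      exact st_2_3 hn h e1 e3
    by_cases e4 : p4 = 7
    · have hst : PS.step n (⟨p1, p2, p3, p4, p5, p6, 2⟩ : PS) = (⟨p1 - 1, p2 - 1, p3 - 1, p5 - 1, p6 - 1, n, 2⟩ : PS) :=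
        (if_neg e1).trans ((if_neg e2).trans ((if_neg e3).trans (if_pos e4)))
      rw [hst]
      exact st_2_4 hn h e1 e3 e4
    by_cases e5 : p5 = 9
    · have hst : PS.step n (⟨p1, p2, p3, p4, p5, p6, 2⟩ : PS) = (⟨p1 - 1, p2 - 1, p3 - 1, p4 - 1, p6 - 1, n, 2⟩ : PS) :=
        (if_neg e1).trans ((if_neg e2).trans ((if_neg e3).trans ((if_neg e4).trans (if_pos e5))))
      rw [hst]
      exact st_2_5 hn h e1 e3 e4 e5
    by_cases e6 : p6 = 11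
    · have hst : PS.step n (⟨p1, p2, p3, p4, p5, p6, 2⟩ : PS) = (⟨p1 - 1, p2 - 1, p3 - 1, p4 - 1, p5 - 1, n, 2⟩ : PS) :=
        (if_neg e1).trans ((if_neg e2).trans ((if_neg e3).trans ((if_neg e4).trans ((if_neg e5).trans (if_pos e6)))))
      rw [hst]
      exact st_2_6 hn h e1 e3 e4 e5 e6
    have hst : PS.step n (⟨p1, p2, p3, p4, p5, p6, 2⟩ : PS) = (⟨p1 - 1, p2 - 1, p3 - 1, p4 - 1, p5 - 1, p6 - 1, 2⟩ : PS) :=
      (if_neg e1).trans ((if_neg e2).trans ((if_neg e3).trans ((if_neg e4).trans ((if_neg e5).trans (if_neg e6)))))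
    rw [hst]
    exact st_2_7 hn h e1 e3 e4 e5 e6
  · have e3 : ¬ p3 = 0 := by omega
    by_cases e1 : p1 = 2
    · have hst : PS.step n (⟨p1, p2, p3, p4, p5, p6, 3⟩ : PS) = (⟨p2 - 1, p3 - 1, p4 - 1, p5 - 1, p6 - 1, n, 2⟩ : PS) :=
        if_pos e1
      rw [hst]
      exact st_3_1 hn h e1
    by_cases e2 : p2 = 4
    · have hst : PS.step n (⟨p1, p2, p3, p4, p5, p6, 3⟩ : PS) = (⟨p1 - 1, p3 - 1, p4 - 1, p5 - 1, p6 - 1, n, 2⟩ : PS) :=
        (if_neg e1).trans (if_pos e2)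
      rw [hst]
      exact st_3_2 hn h e1 e2
    by_cases e4 : p4 = 7
    · have hst : PS.step n (⟨p1, p2, p3, p4, p5, p6, 3⟩ : PS) = (⟨p1 - 1, p2 - 1, p3 - 1, p5 - 1, p6 - 1, n, 3⟩ : PS) :=
        (if_neg e1).trans ((if_neg e2).trans ((if_neg e3).trans (if_pos e4)))
      rw [hst]
      exact st_3_4 hn h e1 e2 e4
    by_cases e5 : p5 = 9
    · have hst : PS.step n (⟨p1, p2, p3, p4, p5, p6, 3⟩ : PS) = (⟨p1 - 1, p2 - 1, p3 - 1, p4 - 1, p6 - 1, n, 3⟩ : PS) :=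
        (if_neg e1).trans ((if_neg e2).trans ((if_neg e3).trans ((if_neg e4).trans (if_pos e5))))
      rw [hst]
      exact st_3_5 hn h e1 e2 e4 e5
    by_cases e6 : p6 = 11
    · have hst : PS.step n (⟨p1, p2, p3, p4, p5, p6, 3⟩ : PS) = (⟨p1 - 1, p2 - 1, p3 - 1, p4 - 1, p5 - 1, n, 3⟩ : PS) :=
        (if_neg e1).trans ((if_neg e2).trans ((if_neg e3).trans ((if_neg e4).trans ((if_neg e5).trans (if_pos e6)))))
      rw [hst]
      exact st_3_6 hn h e1 e2 e4 e5 e6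
    have hst : PS.step n (⟨p1, p2, p3, p4, p5, p6, 3⟩ : PS) = (⟨p1 - 1, p2 - 1, p3 - 1, p4 - 1, p5 - 1, p6 - 1, 3⟩ : PS) :=
      (if_neg e1).trans ((if_neg e2).trans ((if_neg e3).trans ((if_neg e4).trans ((if_neg e5).trans (if_neg e6)))))
    rw [hst]
    exact st_3_7 hn h e1 e2 e4 e5 e6
  · have e4 : ¬ p4 = 0 := by omega
    by_cases e1 : p1 = 2
    · have hst : PS.step n (⟨p1, p2, p3, p4, p5, p6, 4⟩ : PS) = (⟨p2 - 1, p3 - 1, p4 - 1, p5 - 1, p6 - 1, n, 3⟩ : PS) :=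
        if_pos e1
      rw [hst]
      exact st_4_1 hn h e1
    by_cases e2 : p2 = 4
    · have hst : PS.step n (⟨p1, p2, p3, p4, p5, p6, 4⟩ : PS) = (⟨p1 - 1, p3 - 1, p4 - 1, p5 - 1, p6 - 1, n, 3⟩ : PS) :=
        (if_neg e1).trans (if_pos e2)
      rw [hst]
      exact st_4_2 hn h e1 e2
    by_cases e3 : p3 = 6
    · have hst : PS.step n (⟨p1, p2, p3, p4, p5, p6, 4⟩ : PS) = (⟨p1 - 1, p2 - 1, p4 - 1, p5 - 1, p6 - 1, n, 3⟩ : PS) :=
        (if_neg e1).trans ((if_neg e2).trans (if_pos e3))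
      rw [hst]
      exact st_4_3 hn h e1 e2 e3
    by_cases e5 : p5 = 9
    · have hst : PS.step n (⟨p1, p2, p3, p4, p5, p6, 4⟩ : PS) = (⟨p1 - 1, p2 - 1, p3 - 1, p4 - 1, p6 - 1, n, 4⟩ : PS) :=
        (if_neg e1).trans ((if_neg e2).trans ((if_neg e3).trans ((if_neg e4).trans (if_pos e5))))
      rw [hst]
      exact st_4_5 hn h e1 e2 e3 e5
    by_cases e6 : p6 = 11
    · have hst : PS.step n (⟨p1, p2, p3, p4, p5, p6, 4⟩ : PS) = (⟨p1 - 1, p2 - 1, p3 - 1, p4 - 1, p5 - 1, n, 4⟩ : PS) :=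
        (if_neg e1).trans ((if_neg e2).trans ((if_neg e3).trans ((if_neg e4).trans ((if_neg e5).trans (if_pos e6)))))
      rw [hst]
      exact st_4_6 hn h e1 e2 e3 e5 e6
    have hst : PS.step n (⟨p1, p2, p3, p4, p5, p6, 4⟩ : PS) = (⟨p1 - 1, p2 - 1, p3 - 1, p4 - 1, p5 - 1, p6 - 1, 4⟩ : PS) :=
      (if_neg e1).trans ((if_neg e2).trans ((if_neg e3).trans ((if_neg e4).trans ((if_neg e5).trans (if_neg e6)))))
    rw [hst]
    exact st_4_7 hn h e1 e2 e3 e5 e6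
  · have e5 : ¬ p5 = 0 := by omega
    by_cases e1 : p1 = 2
    · have hst : PS.step n (⟨p1, p2, p3, p4, p5, p6, 5⟩ : PS) = (⟨p2 - 1, p3 - 1, p4 - 1, p5 - 1, p6 - 1, n, 4⟩ : PS) :=
        if_pos e1
      rw [hst]
      exact st_5_1 hn h e1
    by_cases e2 : p2 = 4
    · have hst : PS.step n (⟨p1, p2, p3, p4, p5, p6, 5⟩ : PS) = (⟨p1 - 1, p3 - 1, p4 - 1, p5 - 1, p6 - 1, n, 4⟩ : PS) :=
        (if_neg e1).trans (if_pos e2)
      rw [hst]
      exact st_5_2 hn h e1 e2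
    by_cases e3 : p3 = 6
    · have hst : PS.step n (⟨p1, p2, p3, p4, p5, p6, 5⟩ : PS) = (⟨p1 - 1, p2 - 1, p4 - 1, p5 - 1, p6 - 1, n, 4⟩ : PS) :=
        (if_neg e1).trans ((if_neg e2).trans (if_pos e3))
      rw [hst]
      exact st_5_3 hn h e1 e2 e3
    by_cases e4 : p4 = 8
    · have hst : PS.step n (⟨p1, p2, p3, p4, p5, p6, 5⟩ : PS) = (⟨p1 - 1, p2 - 1, p3 - 1, p5 - 1, p6 - 1, n, 4⟩ : PS) :=
        (if_neg e1).trans ((if_neg e2).trans ((if_neg e3).trans (if_pos e4)))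
      rw [hst]
      exact st_5_4 hn h e1 e2 e3 e4
    by_cases e6 : p6 = 11
    · have hst : PS.step n (⟨p1, p2, p3, p4, p5, p6, 5⟩ : PS) = (⟨p1 - 1, p2 - 1, p3 - 1, p4 - 1, p5 - 1, n, 5⟩ : PS) :=
        (if_neg e1).trans ((if_neg e2).trans ((if_neg e3).trans ((if_neg e4).trans ((if_neg e5).trans (if_pos e6)))))
      rw [hst]
      exact st_5_6 hn h e1 e2 e3 e4 e6
    have hst : PS.step n (⟨p1, p2, p3, p4, p5, p6, 5⟩ : PS) = (⟨p1 - 1, p2 - 1, p3 - 1, p4 - 1, p5 - 1, p6 - 1, 5⟩ : PS) :=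
      (if_neg e1).trans ((if_neg e2).trans ((if_neg e3).trans ((if_neg e4).trans ((if_neg e5).trans (if_neg e6)))))
    rw [hst]
    exact st_5_7 hn h e1 e2 e3 e4 e6
  · have e6 : ¬ p6 = 0 := by omega
    by_cases e1 : p1 = 2
    · have hst : PS.step n (⟨p1, p2, p3, p4, p5, p6, 6⟩ : PS) = (⟨p2 - 1, p3 - 1, p4 - 1, p5 - 1, p6 - 1, n, 5⟩ : PS) :=
        if_pos e1
      rw [hst]
      exact st_6_1 hn h e1
    by_cases e2 : p2 = 4
    · have hst : PS.step n (⟨p1, p2, p3, p4, p5, p6, 6⟩ : PS) = (⟨p1 - 1, p3 - 1, p4 - 1, p5 - 1, p6 - 1, n, 5⟩ : PS) :=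
        (if_neg e1).trans (if_pos e2)
      rw [hst]
      exact st_6_2 hn h e1 e2
    by_cases e3 : p3 = 6
    · have hst : PS.step n (⟨p1, p2, p3, p4, p5, p6, 6⟩ : PS) = (⟨p1 - 1, p2 - 1, p4 - 1, p5 - 1, p6 - 1, n, 5⟩ : PS) :=
        (if_neg e1).trans ((if_neg e2).trans (if_pos e3))
      rw [hst]
      exact st_6_3 hn h e1 e2 e3
    by_cases e4 : p4 = 8
    · have hst : PS.step n (⟨p1, p2, p3, p4, p5, p6, 6⟩ : PS) = (⟨p1 - 1, p2 - 1, p3 - 1, p5 - 1, p6 - 1, n, 5⟩ : PS) :=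
        (if_neg e1).trans ((if_neg e2).trans ((if_neg e3).trans (if_pos e4)))
      rw [hst]
      exact st_6_4 hn h e1 e2 e3 e4
    by_cases e5 : p5 = 10
    · have hst : PS.step n (⟨p1, p2, p3, p4, p5, p6, 6⟩ : PS) = (⟨p1 - 1, p2 - 1, p3 - 1, p4 - 1, p6 - 1, n, 5⟩ : PS) :=
        (if_neg e1).trans ((if_neg e2).trans ((if_neg e3).trans ((if_neg e4).trans (if_pos e5))))
      rw [hst]
      exact st_6_5 hn h e1 e2 e3 e4 e5
    have hst : PS.step n (⟨p1, p2, p3, p4, p5, p6, 6⟩ : PS) = (⟨p1 - 1, p2 - 1, p3 - 1, p4 - 1, p5 - 1, p6 - 1, 6⟩ : PS) :=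
      (if_neg e1).trans ((if_neg e2).trans ((if_neg e3).trans ((if_neg e4).trans ((if_neg e5).trans (if_neg e6)))))
    rw [hst]
    exact st_6_7 hn h e1 e2 e3 e4 e5

theorem PS.Valid.step {n : ℕ} {s : PS} (hn : 15 ≤ n) (h : s.Valid n) : (s.step n).Valid n :=
  (step_all hn h).2

theorem promote_fil {n : ℕ} {s : PS} (hn : 15 ≤ n) (h : s.Valid n) :
    promote n (s.fil n) = (s.step n).fil n :=
  (step_all hn h).1

end H33.Prom
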