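import Pool.Agent.H33.Prom.Legs

/-!
# The chain of legs and transitions
-/

namespace H33.Prom

def stA (k u : ℕ) : GS := ⟨4 * k + 8 * u + 21, 30, 16 * u - 42, 16, 7, 1, 3⟩
def stM (k u : ℕ) : GS := ⟨4 * k + 17, 24 * u - 20, 20, 6, 9, 1, 3⟩

def fwdC (N u : ℚ) : ℚ :=
  150 * N ^ 2 * u - 75 * N ^ 2 - 1776 * N * u + 915 * N + 132 / 5 * u - 12
def mirC (N u : ℚ) : ℚ :=
  177 * N ^ 2 * u - 75 * N ^ 2 - 10851 / 5 * N * u + 915 * N + 36 * u - 12
def lvlC (N u : ℚ) : ℚ :=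
  327 * N ^ 2 * u - 150 * N ^ 2 - 19731 / 5 * N * u + 1830 * N + 312 / 5 * u - 24
def endC (N u : ℚ) : ℚ :=
  309 * N ^ 2 * u - 288 * N ^ 2 - 18597 / 5 * N * u + 17004 / 5 * N + 256 / 5 * u - 212 / 5

/-- forward part of a level: `u = 5 (s+1)` becomes `2 (s+1)`, `s = t+1`. -/
theorem fwd {n : ℕ} (k t : ℕ) (hn : n = 4 * k + 24 * (5 * (t + 2)) + 34) :
    SegQ n (stA k (5 * (t + 2))) (fwdC (n - 1) (5 * (t + 2)))
      (stA (k + 18 * (t + 2)) (2 * (t + 2))) := by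
  have h15 : 15 ≤ n := by omega
  have hN : (n : ℚ) = 4 * k + 24 * (5 * (t + 2)) + 34 := by rw [hn]; push_cast; ring
  have l3 := (legL3 h15 (4 * t + 5) (k + 10 * t + 23) 4 1)
  have t3 := (qT3A h15 (k + 18 * t + 33) (12 * t + 15))
  have l4 := (legL4 h15 (3 * t + 3) 3 3 (k + 18 * t + 36))
  have t4 := (qT4 h15 (12 * t + 14) (k + 18 * t + 36))
  have l2 := (legL2 h15 (2 * t + 2) (k + 18 * t + 39) 3 2)
  have t2 := (qT2 h15 (k + 22 * t + 43) (8 * t + 2))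
  refine ((l3.cast3 (H := stA k (5 * (t + 2))) ?_ rfl rfl).trans
    ((t3.cast3 ?_ rfl rfl).trans ((l4.cast3 ?_ rfl rfl).trans ((t4.cast3 ?_ rfl rfl).trans
    ((l2.cast3 ?_ rfl rfl).trans (t2.cast3 ?_ rfl rfl)))))).cast3 rfl ?_ ?_
  · apply GS.mk_eq <;> omega
  · apply GS.mk_eq <;> omega
  · apply GS.mk_eq <;> omega
  · apply GS.mk_eq <;> omega
  · apply GS.mk_eq <;> omega
  · apply GS.mk_eq <;> omega
  · push_cast
    rw [hN]
    unfold cL3 cT3A cL4 cT4 cL2 cT2 fwdC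
    ring
  · apply GS.mk_eq <;> omega

/-- mirror part of a level -/
theorem mir {n : ℕ} (k t : ℕ) (hn : n = 4 * k + 24 * (5 * (t + 2)) + 34) :
    SegQ n (stM (k + 18 * (t + 2)) (2 * (t + 2))) (mirC (n - 1) (5 * (t + 2)))
      (stM k (5 * (t + 2))) := by
  have h15 : 15 ≤ n := by omega
  have hN : (n : ℚ) = 4 * k + 24 * (5 * (t + 2)) + 34 := by rw [hn]; push_cast; ring
  have t8 := (qT8 h15 (k + 18 * t + 36) (12 * t + 15))
  have l9 := (legL9 h15 (3 * t + 4) 0 3 (k + 18 * t + 36))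
  have t9 := (qT9 h15 (12 * t + 16) (k + 18 * t + 33))
  have l10 := (legL10 h15 (4 * t + 5) (k + 10 * t + 23) 3 1)
  have t10 := (qT10 h15 (k + 10 * t + 18) (20 * t + 28))
  have l8 := (legL8 h15 (5 * t + 8) (k + 2) 3 1)
  refine ((t8.cast3 (H := stM (k + 18 * (t + 2)) (2 * (t + 2))) ?_ rfl rfl).trans
    ((l9.cast3 ?_ rfl rfl).trans ((t9.cast3 ?_ rfl rfl).trans ((l10.cast3 ?_ rfl rfl).trans
    ((t10.cast3 ?_ rfl rfl).trans (l8.cast3 ?_ rfl rfl)))))).cast3 rfl ?_ ?_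
  · apply GS.mk_eq <;> omega
  · apply GS.mk_eq <;> omega
  · apply GS.mk_eq <;> omega
  · apply GS.mk_eq <;> omega
  · apply GS.mk_eq <;> omega
  · apply GS.mk_eq <;> omega
  · push_cast
    rw [hN]
    unfold cL9 cT8 cL10 cT9 cL8 cT10 mirC
    ring
  · apply GS.mk_eq <;> omega

/-- the turning point, `u = 5 r + 7` -/
theorem turn {n : ℕ} (k r : ℕ) (hn : n = 4 * k + 24 * (5 * r + 7) + 34) :
    SegQ n (stA k (5 * r + 7)) (endC (n - 1) (5 * r + 7)) (stM k (5 * r + 7)) := by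
  have h15 : 15 ≤ n := by omega
  have hN : (n : ℚ) = 4 * k + 24 * (5 * r + 7) + 34 := by rw [hn]; push_cast; ring
  have l3 := (legL3 h15 (4 * r + 2) (k + 10 * r + 17) 4 4)
  have t3 := (qT3B h15 (k + 18 * r + 21) (12 * r + 6))
  have e1 := (legE1 h15 (12 * r + 6) 0 3 (k + 18 * r + 26))
  have te := (qTE h15 (12 * r + 9) (k + 18 * r + 23))
  have l7 := (legL7 h15 (4 * r + 3) (k + 10 * r + 17) 3 1)
  have t7 := (qT7 h15 (k + 10 * r + 12) (20 * r + 18))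
  have l8 := (legL8 h15 (5 * r + 5) (k + 2) 3 1)
  refine ((l3.cast3 (H := stA k (5 * r + 7)) ?_ rfl rfl).trans
    ((t3.cast3 ?_ rfl rfl).trans ((e1.cast3 ?_ rfl rfl).trans ((te.cast3 ?_ rfl rfl).trans
    ((l7.cast3 ?_ rfl rfl).trans ((t7.cast3 ?_ rfl rfl).trans (l8.cast3 ?_ rfl rfl))))))).cast3
    rfl ?_ ?_
  · apply GS.mk_eq <;> omega
  · apply GS.mk_eq <;> omega
  · apply GS.mk_eq <;> omega
  · apply GS.mk_eq <;> omega
  · apply GS.mk_eq <;> omega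
  · apply GS.mk_eq <;> omega
  · apply GS.mk_eq <;> omega
  · push_cast
    rw [hN]
    unfold cL3 cT3B cE1 cTE cL7 cT7 cL8 endC
    ring
  · apply GS.mk_eq <;> omega

/-- cost of the whole excursion from `stA k u` to `stM k u`, `u = 5^i v` -/
def rtC (i : ℕ) (N u : ℚ) : ℚ :=
  i * (-150 * N ^ 2 + 1830 * N - 24) +
  u * (327 * N ^ 2 - 19731 / 5 * N + 312 / 5) * (5 / 3) * (1 - (2 / 5) ^ i) +
  (-288 * N ^ 2 + 17004 / 5 * N - 212 / 5) +
  (2 / 5) ^ i * u * (309 * N ^ 2 - 18597 / 5 * N + 256 / 5)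

theorem excursion (i : ℕ) : ∀ (n k v : ℕ), 7 ≤ v → (2 ^ i * v) % 5 = 2 →
    n = 4 * k + 24 * (5 ^ i * v) + 34 →
    SegQ n (stA k (5 ^ i * v)) (rtC i (n - 1) (5 ^ i * v)) (stM k (5 ^ i * v)) := by
  induction i with
  | zero =>
    intro n k v hv hm hn
    rw [pow_zero, one_mul] at hm hn ⊢
    obtain ⟨r, rfl⟩ : ∃ r, v = 5 * r + 7 := ⟨(v - 7) / 5, by omega⟩
    refine (turn k r hn).cast3 rfl ?_ rfl
    unfold rtC endC
    push_cast
    ring
  | succ i ih =>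
    intro n k v hv hm hn
    have hpos : 0 < 5 ^ i := Nat.pow_pos (by norm_num)
    obtain ⟨t, ht⟩ : ∃ t, 5 ^ i * v = t + 2 := ⟨5 ^ i * v - 2, by
      have : v ≤ 5 ^ i * v := Nat.le_mul_of_pos_left v hpos
      omega⟩
    have e1 : 5 ^ (i + 1) * v = 5 * (t + 2) := by rw [pow_succ, ← ht]; ring
    have e2 : 5 ^ i * (2 * v) = 2 * (t + 2) := by rw [← ht]; ring
    have h2 := ih n (k + 18 * (t + 2)) (2 * v) (by omega)
      (by
        have e : 2 ^ i * (2 * v) = 2 ^ (i + 1) * v := by rw [pow_succ]; ring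
        rw [e]; exact hm) (by rw [e2, hn, e1]; ring)
    rw [e2] at h2
    rw [e1] at hn ⊢
    have h1 := fwd k t hn
    have h3 := mir k t hn
    refine (h1.trans (h2.trans h3)).cast3 rfl ?_ rfl
    have e3 : ((5 ^ i * (2 * v) : ℕ) : ℚ) = 2 * (t + 2) := by rw [e2]; push_cast; ring
    have e4 : ((5 ^ (i + 1) * v : ℕ) : ℚ) = 5 * (t + 2) := by rw [e1]; push_cast; ring
    push_cast at e3 e4 ⊢
    rw [e3, e4]
    unfold rtC fwdC mirC
    push_cast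
    rw [pow_succ]
    ring

/-- gaps of the start state -/
def G0 (n : ℕ) : GS := ⟨3, 1, 5, 2, 2, n - 14, 4⟩

def staC (N : ℚ) : ℚ := 45 / 8 * N ^ 3 + 123 / 8 * N ^ 2 - 10819 / 12 * N + 265 / 4

/-- from the start state to `stA 0 u`, `u = 2 p + 5` -/
theorem start {n : ℕ} (p : ℕ) (hn : n = 24 * (2 * p + 5) + 34) :
    SegQ n (G0 n) (staC (n - 1)) (stA 0 (2 * p + 5)) := by
  have h15 : 15 ≤ n := by omega
  have hN : (n : ℚ) = 24 * (2 * p + 5) + 34 := by rw [hn]; push_cast; ring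
  have t0 := (qT0 h15 (12 * p + 20))
  have l1 := (legL1 h15 (3 * p + 5) 0 3)
  have t1 := (qT1 h15 (12 * p + 20))
  have l2 := (legL2 h15 (2 * p + 3) 3 3 2)
  have t2 := (qT2 h15 (4 * p + 9) (8 * p + 6))
  refine ((t0.cast3 (H := G0 n) ?_ rfl rfl).trans
    ((l1.cast3 ?_ rfl rfl).trans ((t1.cast3 ?_ rfl rfl).trans ((l2.cast3 ?_ rfl rfl).trans
    (t2.cast3 ?_ rfl rfl))))).cast3 rfl ?_ ?_
  · apply GS.mk_eq <;> omega
  · apply GS.mk_eq <;> omega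
  · apply GS.mk_eq <;> omega
  · apply GS.mk_eq <;> omega
  · apply GS.mk_eq <;> omega
  · push_cast
    rw [hN]
    unfold cT0 cL1 cT1 cL2 cT2 staC
    ring
  · apply GS.mk_eq <;> omega

/-- gaps one event before the start state -/
def G9 (n : ℕ) : GS := ⟨n - 14, 3, 1, 5, 2, 2, 5⟩

def finC (N : ℚ) : ℚ := 15 / 4 * N ^ 3 - 123 / 8 * N ^ 2 - 1517 / 8 * N - 391 / 4

/-- from `stM 0 u` to the last event, `u = 2 p + 5` -/
theorem finish {n : ℕ} (p : ℕ) (hn : n = 24 * (2 * p + 5) + 34) :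
    SegQ n (stM 0 (2 * p + 5)) (finC (n - 1) - (n - 1)) (G9 n) := by
  have h15 : 15 ≤ n := by omega
  have hN : (n : ℚ) = 24 * (2 * p + 5) + 34 := by rw [hn]; push_cast; ring
  have t11 := (qT11 h15 (12 * p + 21))
  have l12 := (legL12 h15 (3 * p + 5) 2 3)
  have t12 := (qT12 h15 (12 * p + 23))
  have b := checkEv_sound chkT12b (n := n)
    (w := fun t => if t = 1 then 4 * (12 * p + 23) else 0) h15 (by simp)
  have b' := b.toQ (c := 96 * (n - 1) - 49) (fun _ => by push_cast; ring)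
  refine ((t11.cast3 (H := stM 0 (2 * p + 5)) ?_ rfl rfl).trans
    ((l12.cast3 ?_ rfl rfl).trans ((t12.cast3 ?_ rfl rfl).trans
    (b'.cast3 ?_ rfl rfl)))).cast3 rfl ?_ ?_
  · apply GS.mk_eq <;> omega
  · apply GS.mk_eq <;> omega
  · apply GS.mk_eq <;> omega
  · simp only [SS.real]
    apply GS.mk_eq <;> simp
  · push_cast
    rw [hN]
    unfold cT11 cL12 cT12 finC
    ring
  · simp only [SS.real]
    apply GS.mk_eq <;> simp
    omega

end H33.Prom
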