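import Mathlib

/-!
# Promotion on standard Young tableaux, stable sequences `T[n]`, quasipolynomials

Definitions for problem MP_e79925_co.

* `PTab` : a tableau: a filling of a Young diagram by distinct positive integers, increasing along
  rows and down columns.  Cells are pairs `(row, column)`, both counted from `0`.
* A filling of a Young diagram is also encoded as a function `ℕ × ℕ → ℕ` which is `0` exactly
  outside the diagram.
* `PTab.stable T n` : the filling `T[n]`.
* `promote n S` : one promotion step on a filling with `n` boxes.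
* `orbitLength n S` : the least `k ≥ 1` with `P^k(S) = S`.
-/

namespace H33.Prom

/-- A tableau: a filling of a Young diagram by distinct positive integers, (strictly) increasing
along rows and down columns. `entry (i, j)` is the entry in row `i` and column `j` (both counted
from `0`); by convention it is `0` outside the diagram. -/
structure PTab where
  /-- the Young diagram -/
  shape : YoungDiagram
  /-- the entries -/
  entry : ℕ × ℕ → ℕ
  mem_iff : ∀ c, c ∈ shape ↔ entry c ≠ 0
  inj : ∀ c ∈ shape, ∀ c' ∈ shape, entry c = entry c' → c = c'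
  row_lt : ∀ i j, (i, j + 1) ∈ shape → entry (i, j) < entry (i, j + 1)
  col_lt : ∀ i j, (i + 1, j) ∈ shape → entry (i, j) < entry (i + 1, j)

/-- `T[n]`: a new top row of length `n - |T|` is placed above `T`; its entries are the elements of
`{1, …, n}` that are not entries of `T`, in increasing order (`Nat.nth p j` is the `j`-th smallest,
counted from `0`, natural number satisfying `p`). -/
noncomputable def PTab.stable (T : PTab) (n : ℕ) : ℕ × ℕ → ℕ
  | (0, j) => if j < n - T.shape.card then
      Nat.nth (fun k => (1 ≤ k ∧ k ≤ n) ∧ ∀ c ∈ T.shape, T.entry c ≠ k) j else 0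
  | (i + 1, j) => T.entry (i, j)

/-- `S` is a standard Young tableau with `n` boxes (of some partition shape of `n`). -/
def IsSYT (n : ℕ) (S : ℕ × ℕ → ℕ) : Prop :=
  ∃ μ : YoungDiagram, μ.card = n ∧ (∀ c, c ∈ μ ↔ S c ≠ 0) ∧ (∀ c, S c ≤ n) ∧
    (∀ c ∈ μ, ∀ c' ∈ μ, S c = S c' → c = c') ∧
    (∀ i j, (i, j + 1) ∈ μ → S (i, j) < S (i, j + 1)) ∧
    (∀ i j, (i + 1, j) ∈ μ → S (i, j) < S (i + 1, j))

/-- One slide into the empty box `c`: the smaller of the entries immediately to its right and
immediately below it (or the only one present) moves into the empty box.  If the empty box has no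
box to its right or below, nothing happens. -/
def slide (x : (ℕ × ℕ → ℕ) × (ℕ × ℕ)) : (ℕ × ℕ → ℕ) × (ℕ × ℕ) :=
  let S := x.1
  let c := x.2
  let r := S (c.1, c.2 + 1)
  let b := S (c.1 + 1, c.2)
  if r = 0 ∧ b = 0 then (S, c)
  else if b = 0 ∨ (r ≠ 0 ∧ r < b) then (Function.update S c r, (c.1, c.2 + 1))
  else (Function.update S c b, (c.1 + 1, c.2))

/-- Promotion of a standard Young tableau with `n` boxes: the entry `1` (which is in the corner
box `(0, 0)`) is deleted, slides are performed as long as possible (`n` slides always suffice),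
then `1` is subtracted from every remaining entry and `n` is put in the empty box. -/
def promote (n : ℕ) (S : ℕ × ℕ → ℕ) : ℕ × ℕ → ℕ :=
  let R := slide^[n] (S, (0, 0))
  fun c => if c = R.2 then n else R.1 c - 1

/-- The orbit length: the least `k ≥ 1` with `P^k(S) = S`. -/
noncomputable def orbitLength (n : ℕ) (S : ℕ × ℕ → ℕ) : ℕ :=
  sInf {k | 1 ≤ k ∧ (promote n)^[k] S = S}

/-- A quasipolynomial: a function on the integers for which there are `m ≥ 1` and polynomials
`p_0, …, p_{m-1}` with `q(n) = p_{n mod m}(n)`. -/
def IsQuasiPolynomial (q : ℤ → ℝ) : Prop :=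
  ∃ m : ℕ, 1 ≤ m ∧ ∃ p : ℤ → Polynomial ℝ, ∀ n : ℤ, q n = (p (n % m)).eval (n : ℝ)

end H33.Prom
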