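import Pool.Agent.H33.Prom.Chain
import Pool.Agent.H33.Prom.Alg

/-!
# The orbit length, and the final theorem
-/

namespace H33.Prom

open Polynomial

theorem evt_s0 {n : ℕ} (hn : 15 ≤ n) : Evt n s0 (G0 n) := by
  refine ⟨s0_valid hn, ?_, ?_, ?_⟩
  · refine ⟨?_, ?_, ?_, ?_, ?_, ?_⟩ <;> simp [s0, G0]
  · simp only [G0]; omega
  · left; simp [s0, lowB]

theorem eq_s0 {n : ℕ} (s : PS) (h : Evt n s (G0 n)) : s = s0 := by
  obtain ⟨hv, hi, -, ht⟩ := h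
  obtain ⟨i1, i2, i3, i4, i5, i6⟩ := hi
  obtain ⟨a1, a2, a3, a4, a5, a6, a7, a8, a9, b1, b2, b3, b4, b5, b6⟩ := hv
  simp only [G0] at i1 i2 i3 i4 i5 i6
  unfold PS.Tight at ht
  rw [i6] at ht b1 b2 b3 b4 b5 b6
  have l1 : lowB 4 1 = 2 := by decide
  have l2 : lowB 4 2 = 4 := by decide
  have l3 : lowB 4 3 = 6 := by decide
  have l4 : lowB 4 4 = 0 := by decide
  have l5 : lowB 4 5 = 9 := by decide
  have l6 : lowB 4 6 = 11 := by decide
  rw [l1, l2, l3, l4, l5, l6] at ht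
  rw [l1] at b1
  rw [l2] at b2
  rw [l3] at b3
  rw [l5] at b5
  rw [l6] at b6
  ext <;> simp only [s0] <;> omega

def totC (i : ℕ) (N u : ℚ) : ℚ := staC N + rtC i N u + finC N

theorem period {n : ℕ} (i v p : ℕ) (hv : 7 ≤ v) (hm : (2 ^ i * v) % 5 = 2)
    (hp : 5 ^ i * v = 2 * p + 5) (hn : n = 24 * (2 * p + 5) + 34) :
    ∃ T : ℕ, 1 ≤ T ∧ (PS.step n)^[T] s0 = s0 ∧ (∀ j, 0 < j → j < T → (PS.step n)^[j] s0 ≠ s0) ∧
      (6 * T : ℚ) = totC i (n - 1) (2 * p + 5) := by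
  have h15 : 15 ≤ n := by omega
  have h1 := start p hn
  have h2 := excursion i n 0 v hv hm (by rw [hp, hn]; ring)
  rw [hp] at h2
  have h3 := finish p hn
  obtain ⟨T, s', e1, e2, e3, e4⟩ := (h1.trans (h2.trans h3)) s0 (evt_s0 h15)
  have w0 : (fun t => if t = 1 then n - 62 else 0) 0 = 0 := by simp
  have hG9 : (⟨1, 48, 0, 3, 0, 1, 0, 5, 0, 2, 0, 2, 5⟩ : SS).real
      (fun t => if t = 1 then n - 62 else 0) = G9 n := by
    simp only [SS.real, G9]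
    apply GS.mk_eq <;> simp
    omega
  have hG0 : (⟨0, 3, 0, 1, 0, 5, 0, 2, 0, 2, 1, 48, 4⟩ : SS).real
      (fun t => if t = 1 then n - 62 else 0) = G0 n := by
    simp only [SS.real, G0]
    apply GS.mk_eq <;> simp
    omega
  rw [← hG9] at e1
  obtain ⟨T', s'', hT', f1, f2, f3, f4⟩ := checkLast_sound chkT12c (n := n)
    (w := fun t => if t = 1 then n - 62 else 0) h15 w0 e1
  rw [hG0] at f1
  have hs : s'' = s0 := eq_s0 s'' f1
  subst hs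
  refine ⟨T + T', by omega, ?_, ?_, ?_⟩
  · rw [Nat.add_comm, Function.iterate_add_apply, e2, f2]
  · intro j hj hj'
    by_cases hjT : j ≤ T
    · exact e3 j hj hjT
    · obtain ⟨i, rfl⟩ : ∃ i, j = i + T := ⟨j - T, by omega⟩
      rw [Function.iterate_add_apply, e2]
      exact f3 i (by omega) (by omega)
  · have hn1 : 1 ≤ n := by omega
    have f5 : ((6 * T' + 0 + s0.tot : ℕ) : ℚ) = ((n - 1 + s'.tot : ℕ) : ℚ) := by rw [f4]
    push_cast [hn1] at f5 e4 ⊢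
    have e5 : ((5 ^ i * v : ℕ) : ℚ) = 2 * p + 5 := by rw [hp]; push_cast; ring
    push_cast at e5
    rw [e5] at e4
    unfold totC
    linarith

/-- The polynomial `f_i` -/
noncomputable def fpol (i : ℕ) : ℚ[X] :=
  C (385 / 72 - 59 / 36 * (2 / 5 : ℚ) ^ i) * X ^ 3 +
  C (-4223 / 18 - 25 * i + 3548 / 45 * (2 / 5 : ℚ) ^ i) * X ^ 2 +
  C (844583 / 360 + 355 * i - 145441 / 180 * (2 / 5 : ℚ) ^ i) * X +
  C (-43059 / 20 - 334 * i + 7429 / 10 * (2 / 5 : ℚ) ^ i)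

theorem rho_bounds (i : ℕ) : (0 : ℚ) < (2 / 5) ^ i ∧ ((2 : ℚ) / 5) ^ i ≤ 1 :=
  ⟨by positivity, pow_le_one₀ (by norm_num) (by norm_num)⟩

theorem fpol_deg (i : ℕ) : (fpol i).natDegree = 3 := by
  unfold fpol
  apply natDegree_cubic
  have := rho_bounds i
  intro h
  linarith [this.2]

theorem fpol_eval (i n : ℕ) (u : ℚ) (hu : 24 * u + 34 = n) :
    6 * (fpol i).eval (n : ℚ) = totC i (n - 1) u := by
  have hu' : u = (n - 34) / 24 := by linarith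
  subst hu'
  unfold fpol totC staC rtC finC
  simp only [eval_add, eval_mul, eval_C, eval_pow, eval_X]
  ring

theorem cub_coeff3 (a b c d : ℚ) :
    (C a * X ^ 3 + C b * X ^ 2 + C c * X + C d).coeff 3 = a := by
  simp [coeff_X, coeff_C]

theorem cub_coeff2 (a b c d : ℚ) :
    (C a * X ^ 3 + C b * X ^ 2 + C c * X + C d).coeff 2 = b := by
  simp [coeff_X, coeff_C]

theorem fpol_coeff3 (i : ℕ) : (fpol i).coeff 3 = 385 / 72 - 59 / 36 * (2 / 5 : ℚ) ^ i :=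
  cub_coeff3 _ _ _ _

theorem fpol_coeff2 (i : ℕ) :
    (fpol i).coeff 2 = -4223 / 18 - 25 * i + 3548 / 45 * (2 / 5 : ℚ) ^ i :=
  cub_coeff2 _ _ _ _

theorem fpol_unb (B : ℚ) : ∃ i, B < |(fpol i).coeff 2 / (fpol i).coeff 3| := by
  obtain ⟨i, hi⟩ := exists_nat_gt (|B|)
  refine ⟨i, ?_⟩
  rw [fpol_coeff2, fpol_coeff3]
  obtain ⟨h1, h2⟩ := rho_bounds i
  set r : ℚ := (2 / 5) ^ i
  have h3 : (0 : ℚ) < 385 / 72 - 59 / 36 * r := by linarith
  have h4 : -4223 / 18 - 25 * (i : ℚ) + 3548 / 45 * r < 0 := by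
    have : (0 : ℚ) ≤ i := Nat.cast_nonneg i
    linarith
  rw [abs_div, abs_of_neg h4, abs_of_pos h3, lt_div_iff₀ h3]
  have h5 : B ≤ |B| := le_abs_self B
  have h6 : (0 : ℚ) ≤ i := Nat.cast_nonneg i
  have h7 : B * (385 / 72 - 59 / 36 * r) ≤ i * (385 / 72 - 59 / 36 * r) :=
    mul_le_mul_of_nonneg_right (by linarith) h3.le
  have h8 : (i : ℚ) * (385 / 72 - 59 / 36 * r) ≤ i * (385 / 72) := by
    apply mul_le_mul_of_nonneg_left _ h6
    linarith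
  linarith

/-- start of the progression for `i` -/
def aa (i : ℕ) : ℕ := 24 * (5 ^ i * (2 * 3 ^ i + 5)) + 34
/-- difference of the progression for `i` -/
def dd (i : ℕ) : ℕ := 240 * 5 ^ i

theorem orbit_formula (i k : ℕ) :
    0 < orbitLength (aa i + dd i * k) (T0.stable (aa i + dd i * k)) ∧
    ((orbitLength (aa i + dd i * k) (T0.stable (aa i + dd i * k)) : ℕ) : ℚ) =
      (fpol i).eval ((aa i + dd i * k : ℕ) : ℚ) := by
  have hodd : (5 ^ i * (2 * 3 ^ i + 5 + 10 * k)) % 2 = 1 := by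
    rw [Nat.mul_mod, Nat.pow_mod]
    have : (2 * 3 ^ i + 5 + 10 * k) % 2 = 1 := by omega
    rw [this]
    norm_num
  have hpos : 0 < 5 ^ i := Nat.pow_pos (by norm_num)
  have h3 : 0 < 3 ^ i := Nat.pow_pos (by norm_num)
  have hge : 2 * 3 ^ i + 5 + 10 * k ≤ 5 ^ i * (2 * 3 ^ i + 5 + 10 * k) :=
    Nat.le_mul_of_pos_left _ hpos
  obtain ⟨p, hp⟩ : ∃ p, 5 ^ i * (2 * 3 ^ i + 5 + 10 * k) = 2 * p + 5 :=
    ⟨(5 ^ i * (2 * 3 ^ i + 5 + 10 * k) - 5) / 2, by omega⟩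
  have hm : (2 ^ i * (2 * 3 ^ i + 5 + 10 * k)) % 5 = 2 := by
    have e : 2 ^ i * (2 * 3 ^ i + 5 + 10 * k) = 2 * 6 ^ i + 5 * (2 ^ i * (1 + 2 * k)) := by
      have : (6 : ℕ) ^ i = 2 ^ i * 3 ^ i := by rw [← Nat.mul_pow]
      rw [this]; ring
    rw [e, Nat.add_mul_mod_self_left, Nat.mul_mod, Nat.pow_mod]
    norm_num
  have hn : aa i + dd i * k = 24 * (2 * p + 5) + 34 := by
    rw [← hp]; unfold aa dd; ring
  obtain ⟨T, h1, h2, h4, h5⟩ := period (n := aa i + dd i * k) i _ p (by omega) hm hp hn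
  have h6 : orbitLength (aa i + dd i * k) (T0.stable (aa i + dd i * k)) = T :=
    orbitLength_T0 (by omega) h1 h2 h4
  rw [h6]
  have h7 := fpol_eval i (aa i + dd i * k) (2 * p + 5) (by rw [hn]; push_cast; ring)
  exact ⟨h1, by linarith⟩

theorem main (q : ℤ → ℝ) (hq : IsQuasiPolynomial q)
    (hq' : ∃ N1 : ℤ, ∀ n ≥ N1, ∃ z : ℤ, z ≠ 0 ∧ q n = z) (N0 : ℕ) :
    ∃ n : ℕ, N0 ≤ n ∧ IsSYT n (T0.stable n) ∧ 0 < orbitLength n (T0.stable n) ∧
      ∀ z : ℤ, q n = z → ¬ ((orbitLength n (T0.stable n) : ℤ) ∣ z) := by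
  obtain ⟨i, k, h1, h2⟩ := alg_main aa dd (fun i => by unfold dd; positivity) fpol fpol_deg
    fpol_unb (fun n => orbitLength n (T0.stable n)) (fun i k => (orbit_formula i k).2) q hq hq' N0
  refine ⟨aa i + dd i * k, h1, isSYT_T0 ?_, (orbit_formula i k).1, h2⟩
  unfold aa
  omega

end H33.Prom
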