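import Pool.Agent.H33.Prom.Segs

/-! # Legs with `R` periods, transitions, with rational costs (generated) -/

namespace H33.Prom

/-- As `Seg`, with one rational cost `c = E (n-1) - q`. -/
def SegQ (n : ℕ) (G : GS) (c : ℚ) (G' : GS) : Prop :=
  ∀ s, Evt n s G → ∃ T s', Evt n s' G' ∧ (PS.step n)^[T] s = s' ∧
    (∀ j, 0 < j → j ≤ T → (PS.step n)^[j] s ≠ s0) ∧
    (6 * T + s'.tot : ℚ) = c + s.tot

theorem SegQ.refl (n : ℕ) (G : GS) : SegQ n G 0 G := by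
  intro s hs
  refine ⟨0, s, hs, rfl, ?_, by simp⟩
  intro j h1 h2; omega

theorem SegQ.trans {n : ℕ} {G G' G'' : GS} {c c' : ℚ} (h : SegQ n G c G')
    (h' : SegQ n G' c' G'') : SegQ n G (c + c') G'' := by
  intro s hs
  obtain ⟨T, s1, h1, h2, h3, h4⟩ := h s hs
  obtain ⟨T', s2, h1', h2', h3', h4'⟩ := h' s1 h1
  refine ⟨T + T', s2, h1', ?_, ?_, ?_⟩
  · rw [Nat.add_comm, Function.iterate_add_apply, h2, h2']
  · intro j hj hj'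
    by_cases hjT : j ≤ T
    · exact h3 j hj hjT
    · obtain ⟨i, rfl⟩ : ∃ i, j = i + T := ⟨j - T, by omega⟩
      rw [Function.iterate_add_apply, h2]
      exact h3' i (by omega) (by omega)
  · push_cast; linarith

theorem SegQ.cast3 {n : ℕ} {G G' H H' : GS} {c d : ℚ} (h : SegQ n G c G')
    (h1 : G = H) (hc : c = d) (h2 : G' = H') : SegQ n H d H' := by
  subst h1; subst h2; subst hc; exact h

theorem Seg.toQ {n : ℕ} {G G' : GS} {E q : ℕ} (h : Seg n G E q G') {c : ℚ}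
    (hc : (G.g1 + G.g2 + G.g3 + G.g4 + G.g5 + G.g6 + 1 : ℚ) = n → c = E * (n - 1) - q) :
    SegQ n G c G' := by
  intro s hs
  obtain ⟨T, s', h1, h2, h3, h4⟩ := h s hs
  refine ⟨T, s', h1, h2, h3, ?_⟩
  have hsum := hs.2.2.1
  have hn : 1 ≤ n := by omega
  have e : ((G.g1 + G.g2 + G.g3 + G.g4 + G.g5 + G.g6 + 1 : ℕ) : ℚ) = n := by rw [hsum]
  push_cast at e
  rw [hc e]
  have h5 : ((6 * T + q + s'.tot : ℕ) : ℚ) = ((E * (n - 1) + s.tot : ℕ) : ℚ) := by rw [h4]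
  push_cast [hn] at h5
  linarith

theorem GS.mk_eq {a b c d e f g a' b' c' d' e' f' g' : ℕ} (h1 : a = a') (h2 : b = b')
    (h3 : c = c') (h4 : d = d') (h5 : e = e') (h6 : f = f') (h7 : g = g') :
    (⟨a, b, c, d, e, f, g⟩ : GS) = ⟨a', b', c', d', e', f', g'⟩ := by
  subst h1 h2 h3 h4 h5 h6 h7; rfl

/-- cost of one period -/
def cL1 (N : ℚ) : ℚ := (2 * N + (-120)) * (30 * N - 8) + 2830 * N - 932

theorem qL1 {n : ℕ} (hn : 15 ≤ n) (x y : ℕ) :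
    SegQ n ⟨4 * x + 25, 4, 4 * y + 16, 23, 8, 1, 2⟩ (cL1 (n - 1)) ⟨4 * x + 9, 4, 4 * y + 32, 23, 8, 1, 2⟩ := by
  refine (segL1 hn x y).toQ fun h => ?_
  simp only at h
  push_cast at h ⊢
  have hN : (n : ℚ) = 4 * x + 4 * y + 78 := by linarith
  rw [hN]; unfold cL1; ring

theorem legL1 {n : ℕ} (hn : 15 ≤ n) (R : ℕ) : ∀ x y : ℕ,
    SegQ n ⟨4 * (x + 4 * R) + 9, 4, 4 * y + 16, 23, 8, 1, 2⟩ (R * cL1 (n - 1))
      ⟨4 * x + 9, 4, 4 * (y + 4 * R) + 16, 23, 8, 1, 2⟩ := by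
  induction R with
  | zero =>
    intro x y
    refine (SegQ.refl n _).cast3 rfl ?_ ?_
    · simp
    · apply GS.mk_eq <;> omega
  | succ R ih =>
    intro x y
    refine ((qL1 hn (x + 4 * R) y).trans ((ih x (y + 4)).cast3 ?_ rfl rfl)).cast3 ?_ ?_ ?_
    · apply GS.mk_eq <;> omega
    · apply GS.mk_eq <;> omega
    · push_cast; ring
    · apply GS.mk_eq <;> omega

/-- cost of one period -/
def cL2 (N : ℚ) : ℚ := ((3 / 2) * N + (-171 / 2)) * (30 * N - 8) + 2100 * N - 716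

theorem qL2 {n : ℕ} (hn : 15 ≤ n) (x y z : ℕ) :
    SegQ n ⟨4 * x + 9, 4, 4 * y + 14, 4 * z + 38, 7, 1, 3⟩ (cL2 (n - 1)) ⟨4 * x + 17, 4, 4 * y + 30, 4 * z + 14, 7, 1, 3⟩ := by
  refine (segL2 hn x y z).toQ fun h => ?_
  simp only at h
  push_cast at h ⊢
  have hN : (n : ℚ) = 4 * x + 4 * y + 4 * z + 74 := by linarith
  rw [hN]; unfold cL2; ring

theorem legL2 {n : ℕ} (hn : 15 ≤ n) (R : ℕ) : ∀ x y z : ℕ,
    SegQ n ⟨4 * x + 9, 4, 4 * y + 14, 4 * (z + 6 * R) + 14, 7, 1, 3⟩ (R * cL2 (n - 1))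
      ⟨4 * (x + 2 * R) + 9, 4, 4 * (y + 4 * R) + 14, 4 * z + 14, 7, 1, 3⟩ := by
  induction R with
  | zero =>
    intro x y z
    refine (SegQ.refl n _).cast3 rfl ?_ ?_
    · simp
    · apply GS.mk_eq <;> omega
  | succ R ih =>
    intro x y z
    refine ((qL2 hn x y (z + 6 * R)).trans ((ih (x + 2) (y + 4) z).cast3 ?_ rfl rfl)).cast3 ?_ ?_ ?_
    · apply GS.mk_eq <;> omega
    · apply GS.mk_eq <;> omega
    · push_cast; ring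
    · apply GS.mk_eq <;> omega

/-- cost of one period -/
def cL3 (N : ℚ) : ℚ := (4 * N + (-226)) * (30 * N - 8) + 5420 * N - 1780

theorem qL3 {n : ℕ} (hn : 15 ≤ n) (x y z : ℕ) :
    SegQ n ⟨4 * x + 9, 4 * y + 14, 4 * z + 34, 16, 7, 1, 3⟩ (cL3 (n - 1)) ⟨4 * x + 17, 4 * y + 26, 4 * z + 14, 16, 7, 1, 3⟩ := by
  refine (segL3 hn x y z).toQ fun h => ?_
  simp only at h
  push_cast at h ⊢
  have hN : (n : ℚ) = 4 * x + 4 * y + 4 * z + 82 := by linarith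
  rw [hN]; unfold cL3; ring

theorem legL3 {n : ℕ} (hn : 15 ≤ n) (R : ℕ) : ∀ x y z : ℕ,
    SegQ n ⟨4 * x + 9, 4 * y + 14, 4 * (z + 5 * R) + 14, 16, 7, 1, 3⟩ (R * cL3 (n - 1))
      ⟨4 * (x + 2 * R) + 9, 4 * (y + 3 * R) + 14, 4 * z + 14, 16, 7, 1, 3⟩ := by
  induction R with
  | zero =>
    intro x y z
    refine (SegQ.refl n _).cast3 rfl ?_ ?_
    · simp
    · apply GS.mk_eq <;> omega
  | succ R ih =>
    intro x y z
    refine ((qL3 hn x y (z + 5 * R)).trans ((ih (x + 2) (y + 3) z).cast3 ?_ rfl rfl)).cast3 ?_ ?_ ?_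
    · apply GS.mk_eq <;> omega
    · apply GS.mk_eq <;> omega
    · push_cast; ring
    · apply GS.mk_eq <;> omega

/-- cost of one period -/
def cE1 (N : ℚ) : ℚ := (1 * N + (-58)) * (30 * N - 8) + 1370 * N - 460

theorem qE1 {n : ℕ} (hn : 15 ≤ n) (x y z : ℕ) :
    SegQ n ⟨4 * x + 13, 6, 4 * y + 16, 4 * z + 21, 8, 1, 3⟩ (cE1 (n - 1)) ⟨4 * x + 9, 6, 4 * y + 20, 4 * z + 21, 8, 1, 3⟩ := by
  refine (segE1 hn x y z).toQ fun h => ?_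
  simp only at h
  push_cast at h ⊢
  have hN : (n : ℚ) = 4 * x + 4 * y + 4 * z + 66 := by linarith
  rw [hN]; unfold cE1; ring

theorem legE1 {n : ℕ} (hn : 15 ≤ n) (R : ℕ) : ∀ x y z : ℕ,
    SegQ n ⟨4 * (x + 1 * R) + 9, 6, 4 * y + 16, 4 * z + 21, 8, 1, 3⟩ (R * cE1 (n - 1))
      ⟨4 * x + 9, 6, 4 * (y + 1 * R) + 16, 4 * z + 21, 8, 1, 3⟩ := by
  induction R with
  | zero =>
    intro x y z
    refine (SegQ.refl n _).cast3 rfl ?_ ?_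
    · simp
    · apply GS.mk_eq <;> omega
  | succ R ih =>
    intro x y z
    refine ((qE1 hn (x + 1 * R) y z).trans ((ih x (y + 1) z).cast3 ?_ rfl rfl)).cast3 ?_ ?_ ?_
    · apply GS.mk_eq <;> omega
    · apply GS.mk_eq <;> omega
    · push_cast; ring
    · apply GS.mk_eq <;> omega

/-- cost of one period -/
def cL7 (N : ℚ) : ℚ := (4 * N + (-228)) * (30 * N - 8) + 5420 * N - 1780

theorem qL7 {n : ℕ} (hn : 15 ≤ n) (x y z : ℕ) :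
    SegQ n ⟨4 * x + 17, 4, 4 * y + 14, 4 * z + 32, 9, 1, 3⟩ (cL7 (n - 1)) ⟨4 * x + 9, 4, 4 * y + 34, 4 * z + 20, 9, 1, 3⟩ := by
  refine (segL7 hn x y z).toQ fun h => ?_
  simp only at h
  push_cast at h ⊢
  have hN : (n : ℚ) = 4 * x + 4 * y + 4 * z + 78 := by linarith
  rw [hN]; unfold cL7; ring

theorem legL7 {n : ℕ} (hn : 15 ≤ n) (R : ℕ) : ∀ x y z : ℕ,
    SegQ n ⟨4 * (x + 2 * R) + 9, 4, 4 * y + 14, 4 * (z + 3 * R) + 20, 9, 1, 3⟩ (R * cL7 (n - 1))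
      ⟨4 * x + 9, 4, 4 * (y + 5 * R) + 14, 4 * z + 20, 9, 1, 3⟩ := by
  induction R with
  | zero =>
    intro x y z
    refine (SegQ.refl n _).cast3 rfl ?_ ?_
    · simp
    · apply GS.mk_eq <;> omega
  | succ R ih =>
    intro x y z
    refine ((qL7 hn (x + 2 * R) y (z + 3 * R)).trans ((ih x (y + 5) z).cast3 ?_ rfl rfl)).cast3 ?_ ?_ ?_
    · apply GS.mk_eq <;> omega
    · apply GS.mk_eq <;> omega
    · push_cast; ring
    · apply GS.mk_eq <;> omega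

/-- cost of one period -/
def cL8 (N : ℚ) : ℚ := ((3 / 2) * N + (-175 / 2)) * (30 * N - 8) + 2100 * N - 716

theorem qL8 {n : ℕ} (hn : 15 ≤ n) (x y z : ℕ) :
    SegQ n ⟨4 * x + 17, 4 * y + 16, 4 * z + 32, 6, 9, 1, 3⟩ (cL8 (n - 1)) ⟨4 * x + 9, 4 * y + 40, 4 * z + 16, 6, 9, 1, 3⟩ := by
  refine (segL8 hn x y z).toQ fun h => ?_
  simp only at h
  push_cast at h ⊢
  have hN : (n : ℚ) = 4 * x + 4 * y + 4 * z + 82 := by linarith
  rw [hN]; unfold cL8; ring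

theorem legL8 {n : ℕ} (hn : 15 ≤ n) (R : ℕ) : ∀ x y z : ℕ,
    SegQ n ⟨4 * (x + 2 * R) + 9, 4 * y + 16, 4 * (z + 4 * R) + 16, 6, 9, 1, 3⟩ (R * cL8 (n - 1))
      ⟨4 * x + 9, 4 * (y + 6 * R) + 16, 4 * z + 16, 6, 9, 1, 3⟩ := by
  induction R with
  | zero =>
    intro x y z
    refine (SegQ.refl n _).cast3 rfl ?_ ?_
    · simp
    · apply GS.mk_eq <;> omega
  | succ R ih =>
    intro x y z
    refine ((qL8 hn (x + 2 * R) y (z + 4 * R)).trans ((ih x (y + 6) z).cast3 ?_ rfl rfl)).cast3 ?_ ?_ ?_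
    · apply GS.mk_eq <;> omega
    · apply GS.mk_eq <;> omega
    · push_cast; ring
    · apply GS.mk_eq <;> omega

/-- cost of one period -/
def cL12 (N : ℚ) : ℚ := (2 * N + (-120)) * (30 * N - 8) + 2830 * N - 932

theorem qL12 {n : ℕ} (hn : 15 ≤ n) (x y : ℕ) :
    SegQ n ⟨4 * x + 25, 6, 4 * y + 14, 17, 6, 1, 3⟩ (cL12 (n - 1)) ⟨4 * x + 9, 6, 4 * y + 30, 17, 6, 1, 3⟩ := by
  refine (segL12 hn x y).toQ fun h => ?_
  simp only at h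
  push_cast at h ⊢
  have hN : (n : ℚ) = 4 * x + 4 * y + 70 := by linarith
  rw [hN]; unfold cL12; ring

theorem legL12 {n : ℕ} (hn : 15 ≤ n) (R : ℕ) : ∀ x y : ℕ,
    SegQ n ⟨4 * (x + 4 * R) + 9, 6, 4 * y + 14, 17, 6, 1, 3⟩ (R * cL12 (n - 1))
      ⟨4 * x + 9, 6, 4 * (y + 4 * R) + 14, 17, 6, 1, 3⟩ := by
  induction R with
  | zero =>
    intro x y
    refine (SegQ.refl n _).cast3 rfl ?_ ?_
    · simp
    · apply GS.mk_eq <;> omega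
  | succ R ih =>
    intro x y
    refine ((qL12 hn (x + 4 * R) y).trans ((ih x (y + 4)).cast3 ?_ rfl rfl)).cast3 ?_ ?_ ?_
    · apply GS.mk_eq <;> omega
    · apply GS.mk_eq <;> omega
    · push_cast; ring
    · apply GS.mk_eq <;> omega

/-- cost of one period -/
def cL4 (N : ℚ) : ℚ := (2 * N + (-114)) * (30 * N - 8) + 2650 * N - 884

theorem qL4 {n : ℕ} (hn : 15 ≤ n) (x y z : ℕ) :
    SegQ n ⟨4 * x + 25, 4, 4 * y + 14, 4 * z + 23, 6, 1, 2⟩ (cL4 (n - 1)) ⟨4 * x + 9, 4, 4 * y + 30, 4 * z + 23, 6, 1, 2⟩ := by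
  refine (segL4 hn x y z).toQ fun h => ?_
  simp only at h
  push_cast at h ⊢
  have hN : (n : ℚ) = 4 * x + 4 * y + 4 * z + 74 := by linarith
  rw [hN]; unfold cL4; ring

theorem legL4 {n : ℕ} (hn : 15 ≤ n) (R : ℕ) : ∀ x y z : ℕ,
    SegQ n ⟨4 * (x + 4 * R) + 9, 4, 4 * y + 14, 4 * z + 23, 6, 1, 2⟩ (R * cL4 (n - 1))
      ⟨4 * x + 9, 4, 4 * (y + 4 * R) + 14, 4 * z + 23, 6, 1, 2⟩ := by
  induction R with
  | zero =>
    intro x y z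
    refine (SegQ.refl n _).cast3 rfl ?_ ?_
    · simp
    · apply GS.mk_eq <;> omega
  | succ R ih =>
    intro x y z
    refine ((qL4 hn (x + 4 * R) y z).trans ((ih x (y + 4) z).cast3 ?_ rfl rfl)).cast3 ?_ ?_ ?_
    · apply GS.mk_eq <;> omega
    · apply GS.mk_eq <;> omega
    · push_cast; ring
    · apply GS.mk_eq <;> omega

/-- cost of one period -/
def cL9 (N : ℚ) : ℚ := (2 * N + (-114)) * (30 * N - 8) + 2650 * N - 884

theorem qL9 {n : ℕ} (hn : 15 ≤ n) (x y z : ℕ) :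
    SegQ n ⟨4 * x + 25, 6, 4 * y + 14, 4 * z + 17, 6, 1, 3⟩ (cL9 (n - 1)) ⟨4 * x + 9, 6, 4 * y + 30, 4 * z + 17, 6, 1, 3⟩ := by
  refine (segL9 hn x y z).toQ fun h => ?_
  simp only at h
  push_cast at h ⊢
  have hN : (n : ℚ) = 4 * x + 4 * y + 4 * z + 70 := by linarith
  rw [hN]; unfold cL9; ring

theorem legL9 {n : ℕ} (hn : 15 ≤ n) (R : ℕ) : ∀ x y z : ℕ,
    SegQ n ⟨4 * (x + 4 * R) + 9, 6, 4 * y + 14, 4 * z + 17, 6, 1, 3⟩ (R * cL9 (n - 1))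
      ⟨4 * x + 9, 6, 4 * (y + 4 * R) + 14, 4 * z + 17, 6, 1, 3⟩ := by
  induction R with
  | zero =>
    intro x y z
    refine (SegQ.refl n _).cast3 rfl ?_ ?_
    · simp
    · apply GS.mk_eq <;> omega
  | succ R ih =>
    intro x y z
    refine ((qL9 hn (x + 4 * R) y z).trans ((ih x (y + 4) z).cast3 ?_ rfl rfl)).cast3 ?_ ?_ ?_
    · apply GS.mk_eq <;> omega
    · apply GS.mk_eq <;> omega
    · push_cast; ring
    · apply GS.mk_eq <;> omega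

/-- cost of one period -/
def cL10 (N : ℚ) : ℚ := (4 * N + (-228)) * (30 * N - 8) + 5420 * N - 1780

theorem qL10 {n : ℕ} (hn : 15 ≤ n) (x y z : ℕ) :
    SegQ n ⟨4 * x + 21, 6, 4 * y + 16, 4 * z + 32, 9, 1, 3⟩ (cL10 (n - 1)) ⟨4 * x + 13, 6, 4 * y + 36, 4 * z + 20, 9, 1, 3⟩ := by
  refine (segL10 hn x y z).toQ fun h => ?_
  simp only at h
  push_cast at h ⊢
  have hN : (n : ℚ) = 4 * x + 4 * y + 4 * z + 86 := by linarith
  rw [hN]; unfold cL10; ring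

theorem legL10 {n : ℕ} (hn : 15 ≤ n) (R : ℕ) : ∀ x y z : ℕ,
    SegQ n ⟨4 * (x + 2 * R) + 13, 6, 4 * y + 16, 4 * (z + 3 * R) + 20, 9, 1, 3⟩ (R * cL10 (n - 1))
      ⟨4 * x + 13, 6, 4 * (y + 5 * R) + 16, 4 * z + 20, 9, 1, 3⟩ := by
  induction R with
  | zero =>
    intro x y z
    refine (SegQ.refl n _).cast3 rfl ?_ ?_
    · simp
    · apply GS.mk_eq <;> omega
  | succ R ih =>
    intro x y z
    refine ((qL10 hn (x + 2 * R) y (z + 3 * R)).trans ((ih x (y + 5) z).cast3 ?_ rfl rfl)).cast3 ?_ ?_ ?_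
    · apply GS.mk_eq <;> omega
    · apply GS.mk_eq <;> omega
    · push_cast; ring
    · apply GS.mk_eq <;> omega

/-- cost of the transition -/
def cT0 (N x : ℚ) : ℚ := (119 + 22 * x) * (30 * N - 8) + 6289 * N - 2154

theorem qT0 {n : ℕ} (hn : 15 ≤ n) (x : ℕ) :
    SegQ n ⟨3, 1, 5, 2, 2, 4 * x + 60, 4⟩ (cT0 (n - 1) x) ⟨4 * x + 9, 4, 28, 23, 8, 1, 2⟩ := by
  refine (segT0 hn x).toQ fun _ => ?_
  push_cast
  unfold cT0; ring

/-- cost of the transition -/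
def cT1 (N x : ℚ) : ℚ := (50 + 13 * x) * (30 * N - 8) + 4639 * N - 1558

theorem qT1 {n : ℕ} (hn : 15 ≤ n) (x : ℕ) :
    SegQ n ⟨9, 4, 4 * x + 28, 23, 8, 1, 2⟩ (cT1 (n - 1) x) ⟨21, 4, 26, 4 * x + 14, 7, 1, 3⟩ := by
  refine (segT1 hn x).toQ fun _ => ?_
  push_cast
  unfold cT1; ring

/-- cost of the transition -/
def cT2 (N x y : ℚ) : ℚ := (305 + 33 * x + 33 * y) * (30 * N - 8) + 11070 * N - 3658

theorem qT2 {n : ℕ} (hn : 15 ≤ n) (x y : ℕ) :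
    SegQ n ⟨4 * x + 9, 4, 4 * y + 50, 22, 7, 1, 3⟩ (cT2 (n - 1) x y) ⟨4 * x + 25, 30, 4 * y + 14, 16, 7, 1, 3⟩ := by
  refine (segT2 hn x y).toQ fun _ => ?_
  push_cast
  unfold cT2; ring

/-- cost of the transition -/
def cT3B (N x y : ℚ) : ℚ := (529 + 54 * x + 55 * y) * (30 * N - 8) + 17385 * N - 5854

theorem qT3B {n : ℕ} (hn : 15 ≤ n) (x y : ℕ) :
    SegQ n ⟨4 * x + 9, 4 * y + 30, 30, 16, 7, 1, 3⟩ (cT3B (n - 1) x y) ⟨4 * y + 9, 6, 28, 4 * x + 41, 8, 1, 3⟩ := by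
  refine (segT3B hn x y).toQ fun _ => ?_
  push_cast
  unfold cT3B; ring

/-- cost of the transition -/
def cTE (N x y : ℚ) : ℚ := (179 + 33 * x + 34 * y) * (30 * N - 8) + 9905 * N - 3392

theorem qTE {n : ℕ} (hn : 15 ≤ n) (x y : ℕ) :
    SegQ n ⟨9, 6, 4 * x + 16, 4 * y + 33, 8, 1, 3⟩ (cTE (n - 1) x y) ⟨4 * y + 9, 4, 26, 4 * x + 24, 9, 1, 3⟩ := by
  refine (segTE hn x y).toQ fun _ => ?_
  push_cast
  unfold cTE; ring

/-- cost of the transition -/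
def cT7 (N x y : ℚ) : ℚ := (184 + 28 * x + 28 * y) * (30 * N - 8) + 9020 * N - 3002

theorem qT7 {n : ℕ} (hn : 15 ≤ n) (x y : ℕ) :
    SegQ n ⟨4 * x + 29, 4, 4 * y + 14, 24, 9, 1, 3⟩ (cT7 (n - 1) x y) ⟨4 * x + 9, 28, 4 * y + 28, 6, 9, 1, 3⟩ := by
  refine (segT7 hn x y).toQ fun _ => ?_
  push_cast
  unfold cT7; ring

/-- cost of the transition -/
def cT11 (N x : ℚ) : ℚ := (40 + 16 * x) * (30 * N - 8) + 5505 * N - 1836

theorem qT11 {n : ℕ} (hn : 15 ≤ n) (x : ℕ) :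
    SegQ n ⟨17, 4 * x + 16, 20, 6, 9, 1, 3⟩ (cT11 (n - 1) x) ⟨4 * x + 13, 6, 26, 17, 6, 1, 3⟩ := by
  refine (segT11 hn x).toQ fun _ => ?_
  push_cast
  unfold cT11; ring

/-- cost of the transition -/
def cT12 (N x : ℚ) : ℚ := (110 + 25 * x) * (30 * N - 8) + 5920 * N - 2143

theorem qT12 {n : ℕ} (hn : 15 ≤ n) (x : ℕ) :
    SegQ n ⟨17, 6, 4 * x + 14, 17, 6, 1, 3⟩ (cT12 (n - 1) x) ⟨4 * x + 37, 12, 2, 2, 7, 1, 3⟩ := by
  refine (segT12 hn x).toQ fun _ => ?_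
  push_cast
  unfold cT12; ring

/-- cost of the transition -/
def cT3A (N x y : ℚ) : ℚ := (139 + 21 * x + 22 * y) * (30 * N - 8) + 7041 * N - 2336

theorem qT3A {n : ℕ} (hn : 15 ≤ n) (x y : ℕ) :
    SegQ n ⟨4 * x + 9, 4 * y + 30, 18, 16, 7, 1, 3⟩ (cT3A (n - 1) x y) ⟨4 * y + 9, 4, 26, 4 * x + 35, 6, 1, 2⟩ := by
  refine (segT3A hn x y).toQ fun _ => ?_
  push_cast
  unfold cT3A; ring

/-- cost of the transition -/
def cT4 (N x y : ℚ) : ℚ := (83 + 19 * x + 20 * y) * (30 * N - 8) + 6349 * N - 2150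

theorem qT4 {n : ℕ} (hn : 15 ≤ n) (x y : ℕ) :
    SegQ n ⟨21, 4, 4 * x + 18, 4 * y + 23, 6, 1, 2⟩ (cT4 (n - 1) x y) ⟨4 * y + 21, 4, 26, 4 * x + 14, 7, 1, 3⟩ := by
  refine (segT4 hn x y).toQ fun _ => ?_
  push_cast
  unfold cT4; ring

/-- cost of the transition -/
def cT8 (N x y : ℚ) : ℚ := (53 + 15 * x + 16 * y) * (30 * N - 8) + 5115 * N - 1732

theorem qT8 {n : ℕ} (hn : 15 ≤ n) (x y : ℕ) :
    SegQ n ⟨4 * x + 17, 4 * y + 16, 20, 6, 9, 1, 3⟩ (cT8 (n - 1) x y) ⟨4 * y + 13, 6, 26, 4 * x + 17, 6, 1, 3⟩ := by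
  refine (segT8 hn x y).toQ fun _ => ?_
  push_cast
  unfold cT8; ring

/-- cost of the transition -/
def cT9 (N x y : ℚ) : ℚ := (106 + 21 * x + 22 * y) * (30 * N - 8) + 7235 * N - 2382

theorem qT9 {n : ℕ} (hn : 15 ≤ n) (x y : ℕ) :
    SegQ n ⟨9, 6, 4 * x + 26, 4 * y + 29, 6, 1, 3⟩ (cT9 (n - 1) x y) ⟨4 * y + 13, 6, 28, 4 * x + 20, 9, 1, 3⟩ := by
  refine (segT9 hn x y).toQ fun _ => ?_
  push_cast
  unfold cT9; ring

/-- cost of the transition -/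
def cT10 (N x y : ℚ) : ℚ := (245 + 29 * x + 29 * y) * (30 * N - 8) + 9430 * N - 3138

theorem qT10 {n : ℕ} (hn : 15 ≤ n) (x y : ℕ) :
    SegQ n ⟨4 * x + 33, 6, 4 * y + 16, 24, 9, 1, 3⟩ (cT10 (n - 1) x y) ⟨4 * x + 9, 28, 4 * y + 36, 6, 9, 1, 3⟩ := by
  refine (segT10 hn x y).toQ fun _ => ?_
  push_cast
  unfold cT10; ring

end H33.Prom
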