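import Pool.Agent.H33.Prom.Defs

/-!
# The particle model for standard tableaux of shape `(n-6, 5, 1)`

`PS` records the six entries `p1 < … < p6` outside the first row, and the index `m` of the entry
which is in the third row (`2 ≤ m ≤ 6`); the other five are the entries of the second row.
-/

namespace H33.Prom

/-- State of the particle model. -/
@[ext] structure PS where
  p1 : ℕ
  p2 : ℕ
  p3 : ℕ
  p4 : ℕ
  p5 : ℕ
  p6 : ℕ
  m : ℕ
  deriving DecidableEq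

/-- Lower bound for the `i`-th entry (`0` for the entry of the third row). -/
def lowB (m i : ℕ) : ℕ := if i < m then 2 * i else if i = m then 0 else 2 * i - 1

/-- The states that come from standard tableaux with `n` boxes. -/
def PS.Valid (n : ℕ) (s : PS) : Prop :=
  1 ≤ s.p1 ∧ s.p1 < s.p2 ∧ s.p2 < s.p3 ∧ s.p3 < s.p4 ∧ s.p4 < s.p5 ∧ s.p5 < s.p6 ∧ s.p6 ≤ n ∧
  2 ≤ s.m ∧ s.m ≤ 6 ∧
  lowB s.m 1 ≤ s.p1 ∧ lowB s.m 2 ≤ s.p2 ∧ lowB s.m 3 ≤ s.p3 ∧ lowB s.m 4 ≤ s.p4 ∧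
  lowB s.m 5 ≤ s.p5 ∧ lowB s.m 6 ≤ s.p6

/-- One promotion step in the particle model: the first entry which is equal to its lower bound
moves to the first row; all entries are decreased by one; `n` becomes an entry. -/
def PS.step (n : ℕ) (s : PS) : PS :=
  if s.p1 = lowB s.m 1 then
    ⟨s.p2 - 1, s.p3 - 1, s.p4 - 1, s.p5 - 1, s.p6 - 1, n, if s.m = 2 then 6 else s.m - 1⟩
  else if s.p2 = lowB s.m 2 then
    ⟨s.p1 - 1, s.p3 - 1, s.p4 - 1, s.p5 - 1, s.p6 - 1, n, if 2 < s.m then s.m - 1 else s.m⟩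
  else if s.p3 = lowB s.m 3 then
    ⟨s.p1 - 1, s.p2 - 1, s.p4 - 1, s.p5 - 1, s.p6 - 1, n, if 3 < s.m then s.m - 1 else s.m⟩
  else if s.p4 = lowB s.m 4 then
    ⟨s.p1 - 1, s.p2 - 1, s.p3 - 1, s.p5 - 1, s.p6 - 1, n, if 4 < s.m then s.m - 1 else s.m⟩
  else if s.p5 = lowB s.m 5 then
    ⟨s.p1 - 1, s.p2 - 1, s.p3 - 1, s.p4 - 1, s.p6 - 1, n, if 5 < s.m then s.m - 1 else s.m⟩
  else if s.p6 = lowB s.m 6 then
    ⟨s.p1 - 1, s.p2 - 1, s.p3 - 1, s.p4 - 1, s.p5 - 1, n, if 6 < s.m then s.m - 1 else s.m⟩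
  else ⟨s.p1 - 1, s.p2 - 1, s.p3 - 1, s.p4 - 1, s.p5 - 1, s.p6 - 1, s.m⟩

/-- Second row of the tableau (columns counted from `0`). -/
def PS.rowB (s : PS) : ℕ → ℕ
  | 0 => s.p1
  | 1 => if 2 < s.m then s.p2 else s.p3
  | 2 => if 3 < s.m then s.p3 else s.p4
  | 3 => if 4 < s.m then s.p4 else s.p5
  | 4 => if 5 < s.m then s.p5 else s.p6
  | _ => 0

/-- The entry of the third row. -/
def PS.mk3 (s : PS) : ℕ :=
  if s.m = 2 then s.p2 else if s.m = 3 then s.p3 else if s.m = 4 then s.p4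
  else if s.m = 5 then s.p5 else s.p6

/-- The filling of shape `(n-6, 5, 1)` described by the state. -/
noncomputable def PS.fil (n : ℕ) (s : PS) : ℕ × ℕ → ℕ
  | (0, j) => if j < n - 6 then
      Nat.nth (fun k => (1 ≤ k ∧ k ≤ n) ∧ k ≠ s.p1 ∧ k ≠ s.p2 ∧ k ≠ s.p3 ∧ k ≠ s.p4 ∧
        k ≠ s.p5 ∧ k ≠ s.p6) j else 0
  | (1, j) => s.rowB j
  | (2, 0) => s.mk3
  | (_, _) => 0

end H33.Prom
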