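import Pool.Agent.H33.Prom.Bridge

/-!
# JOB PRO-ORBIT: the tableau `T0` with rows `2 5 6 13 15 / 11`, and its orbit length
-/

namespace H33.Prom

/-- The tableau with rows `2, 5, 6, 13, 15` and `11`. -/
def T0 : PTab where
  shape := ⟨{(0, 0), (0, 1), (0, 2), (0, 3), (0, 4), (1, 0)}, by
    rintro ⟨a, b⟩ ⟨c, d⟩ h hc
    simp only [Prod.le_def] at h
    obtain ⟨h1, h2⟩ := h
    simp only [Finset.coe_insert, Finset.coe_singleton, Set.mem_insert_iff, Prod.mk.injEq,
      Set.mem_singleton_iff] at hc ⊢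
    omega⟩
  entry := fun c => if c = (0, 0) then 2 else if c = (0, 1) then 5 else if c = (0, 2) then 6
    else if c = (0, 3) then 13 else if c = (0, 4) then 15 else if c = (1, 0) then 11 else 0
  mem_iff := by
    intro c
    rw [← YoungDiagram.mem_cells]
    simp only [Finset.mem_insert, Finset.mem_singleton]
    split_ifs <;> simp_all
  inj := by
    intro c hc c' hc' h
    rw [← YoungDiagram.mem_cells] at hc hc'
    simp only [Finset.mem_insert, Finset.mem_singleton] at hc hc'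
    rcases hc with rfl | rfl | rfl | rfl | rfl | rfl <;>
      rcases hc' with rfl | rfl | rfl | rfl | rfl | rfl <;> simp_all
  row_lt := by
    intro i j h
    rw [← YoungDiagram.mem_cells] at h
    simp only [Finset.mem_insert, Finset.mem_singleton, Prod.mk.injEq] at h
    have h' : i = 0 ∧ j < 4 := by omega
    obtain ⟨rfl, hj⟩ := h'
    clear h
    interval_cases j <;> simp
  col_lt := by
    intro i j h
    rw [← YoungDiagram.mem_cells] at h
    simp only [Finset.mem_insert, Finset.mem_singleton, Prod.mk.injEq] at h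
    have h' : i = 0 ∧ j = 0 := by omega
    obtain ⟨rfl, rfl⟩ := h'
    simp

/-- The corresponding particle state. -/
def s0 : PS := ⟨2, 5, 6, 11, 13, 15, 4⟩

theorem s0_valid {n : ℕ} (hn : 15 ≤ n) : s0.Valid n := by
  simp only [PS.Valid, s0, lowB]
  norm_num
  exact hn

theorem T0_card : T0.shape.card = 6 := rfl

theorem stable_T0 {n : ℕ} (hn : 15 ≤ n) : T0.stable n = s0.fil n := by
  funext ⟨i, j⟩
  rcases i with _ | i
  · simp only [PTab.stable, PS.fil, T0_card]
    congr 2
    funext k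
    have : (∀ c ∈ T0.shape, T0.entry c ≠ k) ↔
        (k ≠ s0.p1 ∧ k ≠ s0.p2 ∧ k ≠ s0.p3 ∧ k ≠ s0.p4 ∧ k ≠ s0.p5 ∧ k ≠ s0.p6) := by
      simp only [← YoungDiagram.mem_cells, T0, s0, Finset.mem_insert, Finset.mem_singleton,
        forall_eq_or_imp, forall_eq]
      simp
      omega
    rw [this]
  · rcases i with _ | i
    · simp only [PTab.stable, PS.fil, T0, s0, Prod.mk.injEq]
      rcases j with _ | _ | _ | _ | _ | j <;> simp [PS.rowB]
    · rcases i with _ | i
      · rcases j with _ | j <;> simp [PTab.stable, PS.fil, T0, s0, PS.mk3]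
      · simp [PTab.stable, PS.fil, T0]

/-- The predicate of the first row. -/
def p0 (n k : ℕ) : Prop := (1 ≤ k ∧ k ≤ n) ∧ k ≠ 2 ∧ k ≠ 5 ∧ k ≠ 6 ∧ k ≠ 11 ∧ k ≠ 13 ∧ k ≠ 15

instance (n : ℕ) : DecidablePred (p0 n) := fun k => by unfold p0; infer_instance

theorem p0_finite (n : ℕ) : (Set.ofPred (p0 n)).Finite :=
  (Set.finite_Icc 1 n).subset (fun _ hk => hk.1)

theorem p0_card {n : ℕ} (hn : 15 ≤ n) : (p0_finite n).toFinset.card = n - 6 := by
  have h : (p0_finite n).toFinset = Finset.Icc 1 n \ {2, 5, 6, 11, 13, 15} := by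
    ext k
    rw [Set.Finite.mem_toFinset]
    have h1 : k ∈ Set.ofPred (p0 n) ↔ p0 n k := Iff.rfl
    rw [h1]
    simp only [p0, Finset.mem_sdiff, Finset.mem_Icc,
      Finset.mem_insert, Finset.mem_singleton]
    omega
  rw [h, Finset.card_sdiff_of_subset]
  · rw [Nat.card_Icc]
    have : ({2, 5, 6, 11, 13, 15} : Finset ℕ).card = 6 := rfl
    omega
  · intro k hk
    simp only [Finset.mem_insert, Finset.mem_singleton] at hk
    rw [Finset.mem_Icc]
    omega

theorem p0_count {n b : ℕ} (hn : 15 ≤ n) (hb : b ≤ 15) : Nat.count (p0 n) b = Nat.count (p0 15) b := by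
  rw [Nat.count_eq_card_filter_range, Nat.count_eq_card_filter_range]
  congr 1
  apply Finset.filter_congr
  intro k hk
  rw [Finset.mem_range] at hk
  unfold p0
  omega

theorem s0_fil_zero {n j : ℕ} : s0.fil n (0, j) = if j < n - 6 then Nat.nth (p0 n) j else 0 := rfl

theorem p0_nth_mem {n j : ℕ} (hn : 15 ≤ n) (hj : j < n - 6) :
    (1 ≤ Nat.nth (p0 n) j ∧ Nat.nth (p0 n) j ≤ n) ∧ Nat.nth (p0 n) j ≠ 2 ∧
      Nat.nth (p0 n) j ≠ 5 ∧ Nat.nth (p0 n) j ≠ 6 ∧ Nat.nth (p0 n) j ≠ 11 ∧
      Nat.nth (p0 n) j ≠ 13 ∧ Nat.nth (p0 n) j ≠ 15 :=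
  Nat.nth_mem_of_lt_card (p0_finite n) (by rw [p0_card hn]; exact hj)

theorem p0_nth_lt {n j j' : ℕ} (hn : 15 ≤ n) (hj : j < j') (hj' : j' < n - 6) :
    Nat.nth (p0 n) j < Nat.nth (p0 n) j' :=
  Nat.nth_lt_nth_of_lt_card (p0_finite n) hj (by rw [p0_card hn]; exact hj')

theorem s0_fil_one (n j : ℕ) : s0.fil n (1, j) = if j = 0 then 2 else if j = 1 then 5 else
    if j = 2 then 6 else if j = 3 then 13 else if j = 4 then 15 else 0 := by
  rcases j with _ | _ | _ | _ | _ | j <;> simp [PS.fil, PS.rowB, s0]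

theorem s0_fil_two (n j : ℕ) : s0.fil n (2, j) = if j = 0 then 11 else 0 := by
  rcases j with _ | j <;> simp [PS.fil, PS.mk3, s0]

theorem s0_fil_three (n i j : ℕ) : s0.fil n (i + 3, j) = 0 := rfl

theorem isSYT_T0 {n : ℕ} (hn : 15 ≤ n) : IsSYT n (T0.stable n) := by
  classical
  rw [stable_T0 hn]
  let row0 : Finset (ℕ × ℕ) := (Finset.range (n - 6)).image (fun j => (0, j))
  let C : Finset (ℕ × ℕ) := row0 ∪ {(1, 0), (1, 1), (1, 2), (1, 3), (1, 4), (2, 0)}
  have hC : ∀ i j, (i, j) ∈ C ↔ (i = 0 ∧ j < n - 6) ∨ (i = 1 ∧ j < 5) ∨ (i = 2 ∧ j = 0) := by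
    intro i j
    simp only [C, row0, Finset.mem_union, Finset.mem_image, Finset.mem_range, Prod.mk.injEq,
      Finset.mem_insert, Finset.mem_singleton]
    constructor
    · rintro (⟨a, ha, rfl, rfl⟩ | h)
      · left; exact ⟨rfl, ha⟩
      · omega
    · rintro (⟨rfl, h⟩ | h)
      · left; exact ⟨j, h, rfl, rfl⟩
      · omega
  let μ : YoungDiagram := ⟨C, by
    rintro ⟨a, b⟩ ⟨c, d⟩ h hc
    simp only [Prod.le_def] at h
    obtain ⟨h1, h2⟩ := h
    rw [Finset.mem_coe, hC] at hc ⊢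
    omega⟩
  have hμ : ∀ i j, (i, j) ∈ μ ↔ (i = 0 ∧ j < n - 6) ∨ (i = 1 ∧ j < 5) ∨ (i = 2 ∧ j = 0) := by
    intro i j
    rw [← YoungDiagram.mem_cells]
    exact hC i j
  have hval : ∀ i j, (i, j) ∈ μ → s0.fil n (i, j) ≠ 0 ∧ s0.fil n (i, j) ≤ n := by
    intro i j h
    rw [hμ] at h
    rcases h with ⟨rfl, h⟩ | ⟨rfl, h⟩ | ⟨rfl, rfl⟩
    · rw [s0_fil_zero, if_pos h]
      have := p0_nth_mem hn h
      omega
    · rw [s0_fil_one]
      split_ifs <;> omega
    · rw [s0_fil_two]
      simp only [if_true]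
      omega
  have hzero : ∀ i j, (i, j) ∉ μ → s0.fil n (i, j) = 0 := by
    intro i j h
    rw [hμ] at h
    rcases i with _ | _ | _ | i
    · rw [s0_fil_zero, if_neg (by omega)]
    · rw [s0_fil_one]
      split_ifs <;> omega
    · rw [s0_fil_two, if_neg (by omega)]
    · rfl
  refine ⟨μ, ?_, ?_, ?_, ?_, ?_, ?_⟩
  · show C.card = n
    rw [Finset.card_union_of_disjoint]
    · rw [Finset.card_image_of_injective _ (fun a b h => by simpa using h), Finset.card_range]
      have : ({(1, 0), (1, 1), (1, 2), (1, 3), (1, 4), (2, 0)} : Finset (ℕ × ℕ)).card = 6 := rfl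
      omega
    · rw [Finset.disjoint_left]
      rintro ⟨i, j⟩ h1 h2
      simp only [row0, Finset.mem_image, Finset.mem_range, Prod.mk.injEq,
        Finset.mem_insert, Finset.mem_singleton] at h1 h2
      omega
  · rintro ⟨i, j⟩
    constructor
    · intro h
      exact (hval i j h).1
    · intro h
      by_contra h'
      exact h (hzero i j h')
  · rintro ⟨i, j⟩
    by_cases h : (i, j) ∈ μ
    · exact (hval i j h).2
    · rw [hzero i j h]
      exact Nat.zero_le _
  · rintro ⟨i, j⟩ h ⟨i', j'⟩ h' e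
    rw [hμ] at h h'
    have key : ∀ a b, a < n - 6 → b < n - 6 → Nat.nth (p0 n) a = Nat.nth (p0 n) b → a = b := by
      intro a b ha hb hab
      by_contra hne
      rcases Nat.lt_or_gt_of_ne hne with h3 | h3
      · have := p0_nth_lt hn h3 hb
        omega
      · have := p0_nth_lt hn h3 ha
        omega
    rcases h with ⟨rfl, h⟩ | ⟨rfl, h⟩ | ⟨rfl, rfl⟩ <;>
      rcases h' with ⟨rfl, h'⟩ | ⟨rfl, h'⟩ | ⟨rfl, rfl⟩
    · rw [s0_fil_zero, s0_fil_zero, if_pos h, if_pos h'] at e
      rw [key j j' h h' e]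
    · rw [s0_fil_zero, s0_fil_one, if_pos h] at e
      have := p0_nth_mem hn h
      exfalso
      split_ifs at e <;> omega
    · rw [s0_fil_zero, s0_fil_two, if_pos h, if_pos rfl] at e
      have := p0_nth_mem hn h
      omega
    · rw [s0_fil_zero, s0_fil_one, if_pos h'] at e
      have := p0_nth_mem hn h'
      exfalso
      split_ifs at e <;> omega
    · rw [s0_fil_one, s0_fil_one] at e
      have : j = j' := by split_ifs at e <;> omega
      rw [this]
    · rw [s0_fil_one, s0_fil_two] at e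
      exfalso
      split_ifs at e <;> omega
    · rw [s0_fil_zero, s0_fil_two, if_pos h', if_pos rfl] at e
      have := p0_nth_mem hn h'
      omega
    · rw [s0_fil_one, s0_fil_two] at e
      exfalso
      split_ifs at e <;> omega
    · rfl
  · intro i j h
    rw [hμ] at h
    rcases h with ⟨rfl, h⟩ | ⟨rfl, h⟩ | ⟨rfl, h⟩
    · rw [s0_fil_zero, s0_fil_zero, if_pos h, if_pos (by omega)]
      exact p0_nth_lt hn (Nat.lt_succ_self j) h
    · rw [s0_fil_one, s0_fil_one]
      have h4 : j < 4 := by omega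
      clear h
      interval_cases j <;> simp
    · omega
  · intro i j h
    rw [hμ] at h
    rcases h with ⟨h0, h⟩ | ⟨h0, h⟩ | ⟨h0, rfl⟩
    · omega
    · obtain rfl : i = 0 := by omega
      rw [s0_fil_zero, if_pos (by omega), s0_fil_one]
      have aux : ∀ b, b ≤ 15 → j < Nat.count (p0 15) b → Nat.nth (p0 n) j < b := by
        intro b hb hjb
        apply Nat.nth_lt_of_lt_count
        rw [p0_count hn hb]
        exact hjb
      interval_cases j
      · exact aux 2 (by norm_num) (by decide)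
      · exact aux 5 (by norm_num) (by decide)
      · exact aux 6 (by norm_num) (by decide)
      · exact aux 13 (by norm_num) (by decide)
      · exact aux 15 (by norm_num) (by decide)
    · obtain rfl : i = 1 := by omega
      rw [s0_fil_one, s0_fil_two]
      norm_num

theorem fil_inj {n : ℕ} {s s' : PS} (h : s.Valid n) (h' : s'.Valid n)
    (e : s.fil n = s'.fil n) : s = s' := by
  obtain ⟨a1, a2, a3, a4, a5, a6, am⟩ := s
  obtain ⟨b1, b2, b3, b4, b5, b6, bm⟩ := s'
  have e0 := congrFun e (1, 0)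
  have e1 := congrFun e (1, 1)
  have e2 := congrFun e (1, 2)
  have e3 := congrFun e (1, 3)
  have e4 := congrFun e (1, 4)
  have e5 := congrFun e (2, 0)
  simp only [PS.fil, PS.rowB, PS.mk3] at e0 e1 e2 e3 e4 e5
  simp only [PS.Valid] at h h'
  obtain ⟨-, h2, h3, h4, h5, h6, -, hm1, hm2, -⟩ := h
  obtain ⟨-, h2', h3', h4', h5', h6', -, hm1', hm2', -⟩ := h'
  simp only [PS.mk.injEq]
  interval_cases am <;> interval_cases bm <;> simp at e0 e1 e2 e3 e4 e5 <;> omega

/-- Uses `promote_fil`, `PS.Valid.step`, `fil_inj`. -/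
theorem orbitLength_T0 {n k : ℕ} (hn : 15 ≤ n) (hk : 1 ≤ k)
    (h : (PS.step n)^[k] s0 = s0)
    (h' : ∀ j, 0 < j → j < k → (PS.step n)^[j] s0 ≠ s0) :
    orbitLength n (T0.stable n) = k := by
  have key : ∀ j, ((PS.step n)^[j] s0).Valid n ∧
      (promote n)^[j] (s0.fil n) = ((PS.step n)^[j] s0).fil n := by
    intro j
    induction j with
    | zero => exact ⟨s0_valid hn, rfl⟩
    | succ j ih =>
      rw [Function.iterate_succ_apply', Function.iterate_succ_apply', ih.2]
      exact ⟨ih.1.step hn, promote_fil hn ih.1⟩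
  rw [orbitLength, stable_T0 hn]
  apply IsLeast.csInf_eq
  refine ⟨⟨hk, ?_⟩, ?_⟩
  · rw [(key k).2, h]
  · rintro j ⟨hj1, hj2⟩
    by_contra hlt
    rw [(key j).2] at hj2
    exact h' j (by omega) (by omega) (fil_inj (key j).1 (s0_valid hn) hj2)

end H33.Prom
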