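import Pool.Agent.H33.Prom.Sound3

/-! # Certificates: periods of the legs and transitions (generated) -/

namespace H33.Prom

theorem Seg.cast3 {n : ℕ} {G G' H H' : GS} {E q E' q' : ℕ} (h : Seg n G E q G')
    (h1 : G = H) (hE : E = E') (hq : q = q') (h2 : G' = H') : Seg n H E' q' H' := by
  subst h1; subst h2; subst hE; subst hq; exact h

/-- block list -/
def blkL1 : List (ℕ × ℕ) :=
  [(262, 8), (142, 6), (244, 8), (142, 6), (232, 6), (100, 8), (208, 6), (124, 6), (196, 6), (124, 6),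
  (196, 8), (118, 6), (226, 6), (130, 8), (256, 6), (130, 8)]

theorem chkL1 : checkSeg ⟨1, 25, 0, 4, 2, 16, 0, 23, 0, 8, 0, 1, 2⟩ blkL1
    ⟨1, 9, 0, 4, 2, 32, 0, 23, 0, 8, 0, 1, 2⟩ ⟨932, 34, 8, 8, 0⟩ = true := by decide +kernel

theorem segL1 {n : ℕ} (hn : 15 ≤ n) (x y : ℕ) :
    Seg n ⟨4 * x + 25, 4, 4 * y + 16, 23, 8, 1, 2⟩ (2830 + 30 * (34 + 8 * x + 8 * y)) (932 + 8 * (34 + 8 * x + 8 * y))
      ⟨4 * x + 9, 4, 4 * y + 32, 23, 8, 1, 2⟩ := by
  have h := checkSeg_sound chkL1 (n := n) (v := (fun t => if t = 1 then x else if t = 2 then y else if t = 3 then 0 else 0)) hn (by simp)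
  refine h.cast3 ?_ ?_ ?_ ?_
  · simp [SS.real]
  · have : sumK blkL1 = 2830 := by decide +kernel
    simp only [Acc.val, this]; simp; try ring
  · simp only [Acc.val]; simp; try ring
  · simp [SS.real]

/-- block list -/
def blkL2 : List (ℕ × ℕ) :=
  [(125, 8), (101, 6), (124, 7), (125, 6), (89, 6), (112, 9), (113, 6), (89, 6), (142, 7), (125, 8),
  (101, 6), (148, 9), (107, 8), (107, 8), (130, 9), (137, 6), (89, 8), (136, 7)]

theorem chkL2 : checkSeg ⟨1, 9, 0, 4, 2, 14, 3, 38, 0, 7, 0, 1, 3⟩ blkL2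
    ⟨1, 17, 0, 4, 2, 30, 3, 14, 0, 7, 0, 1, 3⟩ ⟨716, 24, 6, 6, 6⟩ = true := by decide +kernel

theorem segL2 {n : ℕ} (hn : 15 ≤ n) (x y z : ℕ) :
    Seg n ⟨4 * x + 9, 4, 4 * y + 14, 4 * z + 38, 7, 1, 3⟩ (2100 + 30 * (24 + 6 * x + 6 * y + 6 * z)) (716 + 8 * (24 + 6 * x + 6 * y + 6 * z))
      ⟨4 * x + 17, 4, 4 * y + 30, 4 * z + 14, 7, 1, 3⟩ := by
  have h := checkSeg_sound chkL2 (n := n) (v := (fun t => if t = 1 then x else if t = 2 then y else if t = 3 then z else 0)) hn (by simp)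
  refine h.cast3 ?_ ?_ ?_ ?_
  · simp [SS.real]
  · have : sumK blkL2 = 2100 := by decide +kernel
    simp only [Acc.val, this]; simp; try ring
  · simp only [Acc.val]; simp; try ring
  · simp [SS.real]

/-- block list -/
def blkL3 : List (ℕ × ℕ) :=
  [(184, 6), (89, 6), (83, 9), (172, 6), (83, 6), (119, 7), (136, 6), (119, 6), (89, 9), (124, 8),
  (101, 6), (89, 9), (142, 6), (89, 6), (89, 9), (142, 6), (89, 6), (89, 7), (106, 6), (89, 6),
  (83, 7), (112, 6), (83, 6), (119, 9), (124, 6), (89, 8), (101, 9), (124, 6), (83, 8), (107, 9),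
  (142, 8), (101, 8), (107, 9), (142, 8), (101, 8), (107, 7), (106, 8), (131, 6), (89, 7), (136, 8),
  (101, 6), (119, 9), (166, 8), (107, 8), (101, 9), (196, 6), (89, 8), (131, 7)]

theorem chkL3 : checkSeg ⟨1, 9, 2, 14, 3, 34, 0, 16, 0, 7, 0, 1, 3⟩ blkL3
    ⟨1, 17, 2, 26, 3, 14, 0, 16, 0, 7, 0, 1, 3⟩ ⟨1780, 98, 16, 16, 16⟩ = true := by decide +kernel

theorem segL3 {n : ℕ} (hn : 15 ≤ n) (x y z : ℕ) :
    Seg n ⟨4 * x + 9, 4 * y + 14, 4 * z + 34, 16, 7, 1, 3⟩ (5420 + 30 * (98 + 16 * x + 16 * y + 16 * z)) (1780 + 8 * (98 + 16 * x + 16 * y + 16 * z))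
      ⟨4 * x + 17, 4 * y + 26, 4 * z + 14, 16, 7, 1, 3⟩ := by
  have h := checkSeg_sound chkL3 (n := n) (v := (fun t => if t = 1 then x else if t = 2 then y else if t = 3 then z else 0)) hn (by simp)
  refine h.cast3 ?_ ?_ ?_ ?_
  · simp [SS.real]
  · have : sumK blkL3 = 5420 := by decide +kernel
    simp only [Acc.val, this]; simp; try ring
  · simp only [Acc.val]; simp; try ring
  · simp [SS.real]

/-- block list -/
def blkE1 : List (ℕ × ℕ) :=
  [(101, 9), (113, 8), (136, 8), (101, 9), (113, 6), (100, 8), (131, 7), (125, 8), (118, 6), (83, 9),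
  (113, 8), (136, 8)]

theorem chkE1 : checkSeg ⟨1, 13, 0, 6, 2, 16, 3, 21, 0, 8, 0, 1, 3⟩ blkE1
    ⟨1, 9, 0, 6, 2, 20, 3, 21, 0, 8, 0, 1, 3⟩ ⟨460, 7, 4, 4, 4⟩ = true := by decide +kernel

theorem segE1 {n : ℕ} (hn : 15 ≤ n) (x y z : ℕ) :
    Seg n ⟨4 * x + 13, 6, 4 * y + 16, 4 * z + 21, 8, 1, 3⟩ (1370 + 30 * (7 + 4 * x + 4 * y + 4 * z)) (460 + 8 * (7 + 4 * x + 4 * y + 4 * z))
      ⟨4 * x + 9, 6, 4 * y + 20, 4 * z + 21, 8, 1, 3⟩ := by
  have h := checkSeg_sound chkE1 (n := n) (v := (fun t => if t = 1 then x else if t = 2 then y else if t = 3 then z else 0)) hn (by simp)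
  refine h.cast3 ?_ ?_ ?_ ?_
  · simp [SS.real]
  · have : sumK blkE1 = 1370 := by decide +kernel
    simp only [Acc.val, this]; simp; try ring
  · simp only [Acc.val]; simp; try ring
  · simp [SS.real]

/-- block list -/
def blkL7 : List (ℕ × ℕ) :=
  [(113, 8), (101, 6), (100, 9), (107, 8), (107, 6), (100, 9), (137, 6), (89, 6), (100, 7), (95, 6),
  (89, 6), (100, 7), (95, 6), (83, 6), (124, 9), (113, 6), (83, 6), (124, 9), (113, 6), (83, 8),
  (118, 9), (107, 6), (119, 6), (130, 7), (125, 6), (89, 6), (142, 9), (113, 6), (89, 6), (172, 7),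
  (125, 8), (101, 6), (178, 9), (107, 8), (107, 8), (160, 9), (137, 6), (89, 8), (142, 7), (95, 6),
  (119, 8), (118, 7), (95, 8), (101, 8), (136, 9), (113, 8), (101, 8), (136, 9)]

theorem chkL7 : checkSeg ⟨1, 17, 0, 4, 2, 14, 3, 32, 0, 9, 0, 1, 3⟩ blkL7
    ⟨1, 9, 0, 4, 2, 34, 3, 20, 0, 9, 0, 1, 3⟩ ⟨1780, 80, 16, 16, 16⟩ = true := by decide +kernel

theorem segL7 {n : ℕ} (hn : 15 ≤ n) (x y z : ℕ) :
    Seg n ⟨4 * x + 17, 4, 4 * y + 14, 4 * z + 32, 9, 1, 3⟩ (5420 + 30 * (80 + 16 * x + 16 * y + 16 * z)) (1780 + 8 * (80 + 16 * x + 16 * y + 16 * z))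
      ⟨4 * x + 9, 4, 4 * y + 34, 4 * z + 20, 9, 1, 3⟩ := by
  have h := checkSeg_sound chkL7 (n := n) (v := (fun t => if t = 1 then x else if t = 2 then y else if t = 3 then z else 0)) hn (by simp)
  refine h.cast3 ?_ ?_ ?_ ?_
  · simp [SS.real]
  · have : sumK blkL7 = 5420 := by decide +kernel
    simp only [Acc.val, this]; simp; try ring
  · simp only [Acc.val]; simp; try ring
  · simp [SS.real]

/-- block list -/
def blkL8 : List (ℕ × ℕ) :=
  [(136, 8), (107, 8), (101, 9), (166, 6), (89, 8), (131, 7), (154, 6), (89, 6), (83, 9), (142, 6),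
  (83, 6), (119, 7), (130, 6), (89, 8), (131, 7), (130, 8), (101, 6), (119, 9)]

theorem chkL8 : checkSeg ⟨1, 17, 2, 16, 3, 32, 0, 6, 0, 9, 0, 1, 3⟩ blkL8
    ⟨1, 9, 2, 40, 3, 16, 0, 6, 0, 9, 0, 1, 3⟩ ⟨716, 34, 6, 6, 6⟩ = true := by decide +kernel

theorem segL8 {n : ℕ} (hn : 15 ≤ n) (x y z : ℕ) :
    Seg n ⟨4 * x + 17, 4 * y + 16, 4 * z + 32, 6, 9, 1, 3⟩ (2100 + 30 * (34 + 6 * x + 6 * y + 6 * z)) (716 + 8 * (34 + 6 * x + 6 * y + 6 * z))
      ⟨4 * x + 9, 4 * y + 40, 4 * z + 16, 6, 9, 1, 3⟩ := by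
  have h := checkSeg_sound chkL8 (n := n) (v := (fun t => if t = 1 then x else if t = 2 then y else if t = 3 then z else 0)) hn (by simp)
  refine h.cast3 ?_ ?_ ?_ ?_
  · simp [SS.real]
  · have : sumK blkL8 = 2100 := by decide +kernel
    simp only [Acc.val, this]; simp; try ring
  · simp only [Acc.val]; simp; try ring
  · simp [SS.real]

/-- block list -/
def blkL12 : List (ℕ × ℕ) :=
  [(196, 6), (124, 6), (196, 8), (118, 6), (226, 6), (130, 8), (256, 6), (130, 8), (262, 8), (142, 6),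
  (244, 8), (142, 6), (232, 6), (100, 8), (208, 6), (124, 6)]

theorem chkL12 : checkSeg ⟨1, 25, 0, 6, 2, 14, 0, 17, 0, 6, 0, 1, 3⟩ blkL12
    ⟨1, 9, 0, 6, 2, 30, 0, 17, 0, 6, 0, 1, 3⟩ ⟨932, 18, 8, 8, 0⟩ = true := by decide +kernel

theorem segL12 {n : ℕ} (hn : 15 ≤ n) (x y : ℕ) :
    Seg n ⟨4 * x + 25, 6, 4 * y + 14, 17, 6, 1, 3⟩ (2830 + 30 * (18 + 8 * x + 8 * y)) (932 + 8 * (18 + 8 * x + 8 * y))
      ⟨4 * x + 9, 6, 4 * y + 30, 17, 6, 1, 3⟩ := by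
  have h := checkSeg_sound chkL12 (n := n) (v := (fun t => if t = 1 then x else if t = 2 then y else if t = 3 then 0 else 0)) hn (by simp)
  refine h.cast3 ?_ ?_ ?_ ?_
  · simp [SS.real]
  · have : sumK blkL12 = 2830 := by decide +kernel
    simp only [Acc.val, this]; simp; try ring
  · simp only [Acc.val]; simp; try ring
  · simp [SS.real]

/-- block list -/
def blkL4 : List (ℕ × ℕ) :=
  [(119, 9), (113, 6), (100, 8), (101, 9), (107, 6), (124, 6), (89, 9), (107, 6), (124, 6), (89, 9),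
  (107, 8), (118, 6), (89, 9), (137, 6), (130, 8), (101, 7), (95, 6), (130, 8), (107, 7), (95, 8),
  (142, 6), (89, 7), (95, 8), (142, 6)]

theorem chkL4 : checkSeg ⟨1, 25, 0, 4, 2, 14, 3, 23, 0, 6, 0, 1, 2⟩ blkL4
    ⟨1, 9, 0, 4, 2, 30, 3, 23, 0, 6, 0, 1, 2⟩ ⟨884, 32, 8, 8, 8⟩ = true := by decide +kernel

theorem segL4 {n : ℕ} (hn : 15 ≤ n) (x y z : ℕ) :
    Seg n ⟨4 * x + 25, 4, 4 * y + 14, 4 * z + 23, 6, 1, 2⟩ (2650 + 30 * (32 + 8 * x + 8 * y + 8 * z)) (884 + 8 * (32 + 8 * x + 8 * y + 8 * z))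
      ⟨4 * x + 9, 4, 4 * y + 30, 4 * z + 23, 6, 1, 2⟩ := by
  have h := checkSeg_sound chkL4 (n := n) (v := (fun t => if t = 1 then x else if t = 2 then y else if t = 3 then z else 0)) hn (by simp)
  refine h.cast3 ?_ ?_ ?_ ?_
  · simp [SS.real]
  · have : sumK blkL4 = 2650 := by decide +kernel
    simp only [Acc.val, this]; simp; try ring
  · simp only [Acc.val]; simp; try ring
  · simp [SS.real]

/-- block list -/
def blkL9 : List (ℕ × ℕ) :=
  [(89, 9), (107, 6), (124, 6), (89, 9), (107, 8), (118, 6), (89, 9), (137, 6), (130, 8), (101, 7),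
  (95, 6), (130, 8), (107, 7), (95, 8), (142, 6), (89, 7), (95, 8), (142, 6), (119, 9), (113, 6),
  (100, 8), (101, 9), (107, 6), (124, 6)]

theorem chkL9 : checkSeg ⟨1, 25, 0, 6, 2, 14, 3, 17, 0, 6, 0, 1, 3⟩ blkL9
    ⟨1, 9, 0, 6, 2, 30, 3, 17, 0, 6, 0, 1, 3⟩ ⟨884, 24, 8, 8, 8⟩ = true := by decide +kernel

theorem segL9 {n : ℕ} (hn : 15 ≤ n) (x y z : ℕ) :
    Seg n ⟨4 * x + 25, 6, 4 * y + 14, 4 * z + 17, 6, 1, 3⟩ (2650 + 30 * (24 + 8 * x + 8 * y + 8 * z)) (884 + 8 * (24 + 8 * x + 8 * y + 8 * z))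
      ⟨4 * x + 9, 6, 4 * y + 30, 4 * z + 17, 6, 1, 3⟩ := by
  have h := checkSeg_sound chkL9 (n := n) (v := (fun t => if t = 1 then x else if t = 2 then y else if t = 3 then z else 0)) hn (by simp)
  refine h.cast3 ?_ ?_ ?_ ?_
  · simp [SS.real]
  · have : sumK blkL9 = 2650 := by decide +kernel
    simp only [Acc.val, this]; simp; try ring
  · simp only [Acc.val]; simp; try ring
  · simp [SS.real]

/-- block list -/
def blkL10 : List (ℕ × ℕ) :=
  [(113, 8), (101, 8), (136, 9), (113, 8), (101, 6), (100, 9), (107, 8), (107, 6), (100, 9), (137, 6),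
  (89, 6), (100, 7), (95, 6), (89, 6), (100, 7), (95, 6), (83, 6), (124, 9), (113, 6), (83, 6),
  (124, 9), (113, 6), (83, 8), (118, 9), (107, 6), (119, 6), (130, 7), (125, 6), (89, 6), (142, 9),
  (113, 6), (89, 6), (172, 7), (125, 8), (101, 6), (178, 9), (107, 8), (107, 8), (160, 9), (137, 6),
  (89, 8), (142, 7), (95, 6), (119, 8), (118, 7), (95, 8), (101, 8), (136, 9)]

theorem chkL10 : checkSeg ⟨1, 21, 0, 6, 2, 16, 3, 32, 0, 9, 0, 1, 3⟩ blkL10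
    ⟨1, 13, 0, 6, 2, 36, 3, 20, 0, 9, 0, 1, 3⟩ ⟨1780, 112, 16, 16, 16⟩ = true := by decide +kernel

theorem segL10 {n : ℕ} (hn : 15 ≤ n) (x y z : ℕ) :
    Seg n ⟨4 * x + 21, 6, 4 * y + 16, 4 * z + 32, 9, 1, 3⟩ (5420 + 30 * (112 + 16 * x + 16 * y + 16 * z)) (1780 + 8 * (112 + 16 * x + 16 * y + 16 * z))
      ⟨4 * x + 13, 6, 4 * y + 36, 4 * z + 20, 9, 1, 3⟩ := by
  have h := checkSeg_sound chkL10 (n := n) (v := (fun t => if t = 1 then x else if t = 2 then y else if t = 3 then z else 0)) hn (by simp)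
  refine h.cast3 ?_ ?_ ?_ ?_
  · simp [SS.real]
  · have : sumK blkL10 = 5420 := by decide +kernel
    simp only [Acc.val, this]; simp; try ring
  · simp only [Acc.val]; simp; try ring
  · simp [SS.real]

/-- block list -/
def blkT0 : List (ℕ × ℕ) :=
  [(91, 6), (164, 6), (176, 8), (206, 8), (254, 6), (248, 6), (248, 6), (242, 6), (242, 8), (242, 6),
  (260, 6), (284, 6), (296, 8), (326, 8), (374, 6), (356, 6), (362, 8), (362, 6), (380, 6), (196, 8),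
  (118, 6), (416, 8), (446, 8)]

theorem chkT0 : checkSeg ⟨0, 3, 0, 1, 0, 5, 0, 2, 0, 2, 1, 60, 4⟩ blkT0
    ⟨1, 9, 0, 4, 0, 28, 0, 23, 0, 8, 0, 1, 2⟩ ⟨2154, 119, 22, 0, 0⟩ = true := by decide +kernel

theorem segT0 {n : ℕ} (hn : 15 ≤ n) (x : ℕ) :
    Seg n ⟨3, 1, 5, 2, 2, 4 * x + 60, 4⟩ (6289 + 30 * (119 + 22 * x)) (2154 + 8 * (119 + 22 * x))
      ⟨4 * x + 9, 4, 28, 23, 8, 1, 2⟩ := by
  have h := checkSeg_sound chkT0 (n := n) (v := (fun t => if t = 1 then x else if t = 2 then 0 else if t = 3 then 0 else 0)) hn (by simp)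
  refine h.cast3 ?_ ?_ ?_ ?_
  · simp [SS.real]
  · have : sumK blkT0 = 6289 := by decide +kernel
    simp only [Acc.val, this]; simp; try ring
  · simp only [Acc.val]; simp; try ring
  · simp [SS.real]

/-- block list -/
def blkT1 : List (ℕ × ℕ) :=
  [(262, 8), (356, 8), (344, 6), (308, 6), (290, 6), (260, 8), (284, 6), (290, 8), (350, 6), (374, 6),
  (386, 8), (416, 8), (464, 6), (255, 7)]

theorem chkT1 : checkSeg ⟨0, 9, 0, 4, 1, 28, 0, 23, 0, 8, 0, 1, 2⟩ blkT1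
    ⟨0, 21, 0, 4, 0, 26, 1, 14, 0, 7, 0, 1, 3⟩ ⟨1558, 50, 13, 0, 0⟩ = true := by decide +kernel

theorem segT1 {n : ℕ} (hn : 15 ≤ n) (x : ℕ) :
    Seg n ⟨9, 4, 4 * x + 28, 23, 8, 1, 2⟩ (4639 + 30 * (50 + 13 * x)) (1558 + 8 * (50 + 13 * x))
      ⟨21, 4, 26, 4 * x + 14, 7, 1, 3⟩ := by
  have h := checkSeg_sound chkT1 (n := n) (v := (fun t => if t = 1 then x else if t = 2 then 0 else if t = 3 then 0 else 0)) hn (by simp)
  refine h.cast3 ?_ ?_ ?_ ?_
  · simp [SS.real]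
  · have : sumK blkT1 = 4639 := by decide +kernel
    simp only [Acc.val, this]; simp; try ring
  · simp only [Acc.val]; simp; try ring
  · simp [SS.real]

/-- block list -/
def blkT2 : List (ℕ × ℕ) :=
  [(226, 6), (124, 7), (184, 6), (112, 9), (172, 6), (142, 7), (136, 6), (148, 9), (124, 8), (130, 9),
  (142, 6), (118, 9), (142, 6), (118, 7), (106, 6), (112, 7), (112, 6), (142, 9), (124, 6), (160, 9),
  (124, 6), (160, 9), (142, 8), (178, 9), (142, 8), (178, 7), (106, 8), (160, 7), (136, 8), (160, 9),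
  (166, 8), (178, 9), (196, 6), (190, 7), (184, 6), (202, 9), (172, 6), (232, 7), (136, 6), (238, 9),
  (124, 8), (220, 9), (142, 6), (208, 9), (142, 6), (208, 7), (106, 6), (202, 7), (112, 6), (232, 9),
  (124, 6), (250, 9), (124, 6), (250, 9), (142, 8), (268, 9), (142, 8), (268, 7), (106, 8), (250, 7),
  (136, 8), (250, 9), (166, 8), (268, 9), (196, 6), (280, 7)]

theorem chkT2 : checkSeg ⟨1, 9, 0, 4, 2, 50, 0, 22, 0, 7, 0, 1, 3⟩ blkT2
    ⟨1, 25, 0, 30, 2, 14, 0, 16, 0, 7, 0, 1, 3⟩ ⟨3658, 305, 33, 33, 0⟩ = true := by decide +kernel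

theorem segT2 {n : ℕ} (hn : 15 ≤ n) (x y : ℕ) :
    Seg n ⟨4 * x + 9, 4, 4 * y + 50, 22, 7, 1, 3⟩ (11070 + 30 * (305 + 33 * x + 33 * y)) (3658 + 8 * (305 + 33 * x + 33 * y))
      ⟨4 * x + 25, 30, 4 * y + 14, 16, 7, 1, 3⟩ := by
  have h := checkSeg_sound chkT2 (n := n) (v := (fun t => if t = 1 then x else if t = 2 then y else if t = 3 then 0 else 0)) hn (by simp)
  refine h.cast3 ?_ ?_ ?_ ?_
  · simp [SS.real]
  · have : sumK blkT2 = 11070 := by decide +kernel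
    simp only [Acc.val, this]; simp; try ring
  · simp only [Acc.val]; simp; try ring
  · simp [SS.real]

/-- block list -/
def blkT3B : List (ℕ × ℕ) :=
  [(184, 6), (89, 6), (83, 9), (172, 6), (83, 6), (119, 7), (136, 6), (119, 6), (89, 9), (124, 8),
  (101, 6), (89, 9), (142, 6), (89, 6), (89, 9), (142, 6), (89, 6), (89, 7), (106, 6), (89, 6),
  (83, 7), (112, 6), (83, 6), (119, 9), (124, 6), (89, 8), (101, 9), (124, 6), (83, 8), (107, 9),
  (273, 8), (107, 9), (243, 8), (107, 7), (237, 6), (89, 7), (237, 6), (119, 9), (273, 8), (101, 9),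
  (255, 8), (131, 7), (243, 6), (83, 9), (225, 6), (119, 7), (225, 6), (89, 9), (225, 6), (89, 9),
  (201, 6), (89, 9), (171, 6), (89, 7), (135, 6), (83, 7), (135, 6), (119, 9), (153, 8), (101, 9),
  (147, 8), (107, 9), (147, 8), (101, 9), (153, 8), (131, 7), (135, 6), (89, 9), (135, 6), (89, 9),
  (147, 8), (101, 9), (159, 8), (101, 9), (183, 8), (131, 7), (153, 6), (83, 9), (159, 8), (101, 9),
  (189, 8), (101, 9), (213, 8), (131, 7), (183, 6), (83, 9), (189, 8), (101, 9), (219, 8), (101, 9),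
  (243, 8), (131, 7), (213, 6), (83, 9), (219, 8), (101, 9), (249, 8), (101, 9), (273, 8), (131, 7),
  (243, 6), (83, 9), (249, 8), (101, 9), (279, 8), (101, 9), (113, 6), (100, 8), (131, 7), (273, 6),
  (83, 9), (279, 8), (101, 9), (309, 8), (101, 9), (113, 6), (100, 8), (131, 7), (303, 6), (83, 9),
  (309, 8)]

theorem chkT3B : checkSeg ⟨1, 9, 2, 30, 0, 30, 0, 16, 0, 7, 0, 1, 3⟩ blkT3B
    ⟨2, 9, 0, 6, 0, 28, 1, 41, 0, 8, 0, 1, 3⟩ ⟨5854, 529, 54, 55, 0⟩ = true := by decide +kernel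

theorem segT3B {n : ℕ} (hn : 15 ≤ n) (x y : ℕ) :
    Seg n ⟨4 * x + 9, 4 * y + 30, 30, 16, 7, 1, 3⟩ (17385 + 30 * (529 + 54 * x + 55 * y)) (5854 + 8 * (529 + 54 * x + 55 * y))
      ⟨4 * y + 9, 6, 28, 4 * x + 41, 8, 1, 3⟩ := by
  have h := checkSeg_sound chkT3B (n := n) (v := (fun t => if t = 1 then x else if t = 2 then y else if t = 3 then 0 else 0)) hn (by simp)
  refine h.cast3 ?_ ?_ ?_ ?_
  · simp [SS.real]
  · have : sumK blkT3B = 17385 := by decide +kernel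
    simp only [Acc.val, this]; simp; try ring
  · simp only [Acc.val]; simp; try ring
  · simp [SS.real]

/-- block list -/
def blkTE : List (ℕ × ℕ) :=
  [(101, 9), (113, 8), (207, 9), (113, 6), (201, 7), (125, 8), (231, 9), (113, 8), (207, 9), (113, 8),
  (177, 9), (113, 6), (171, 7), (125, 8), (201, 9), (113, 8), (177, 9), (113, 8), (147, 9), (113, 6),
  (141, 7), (125, 8), (171, 9), (113, 8), (147, 9), (113, 8), (141, 9), (113, 6), (111, 9), (107, 6),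
  (129, 7), (125, 8), (141, 9), (113, 8), (141, 9), (113, 8), (141, 9), (107, 8), (147, 9), (137, 6),
  (129, 7), (95, 6), (129, 7), (95, 6), (147, 9), (113, 6), (177, 9), (113, 6), (201, 9), (107, 6),
  (219, 7), (125, 6), (201, 9), (113, 6), (231, 7), (125, 8), (249, 9), (107, 8), (267, 9), (137, 6),
  (231, 7), (95, 6), (237, 7), (95, 8), (237, 9), (113, 8), (267, 9)]

theorem chkTE : checkSeg ⟨0, 9, 0, 6, 1, 16, 2, 33, 0, 8, 0, 1, 3⟩ blkTE
    ⟨2, 9, 0, 4, 0, 26, 1, 24, 0, 9, 0, 1, 3⟩ ⟨3392, 179, 33, 34, 0⟩ = true := by decide +kernel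

theorem segTE {n : ℕ} (hn : 15 ≤ n) (x y : ℕ) :
    Seg n ⟨9, 6, 4 * x + 16, 4 * y + 33, 8, 1, 3⟩ (9905 + 30 * (179 + 33 * x + 34 * y)) (3392 + 8 * (179 + 33 * x + 34 * y))
      ⟨4 * y + 9, 4, 26, 4 * x + 24, 9, 1, 3⟩ := by
  have h := checkSeg_sound chkTE (n := n) (v := (fun t => if t = 1 then x else if t = 2 then y else if t = 3 then 0 else 0)) hn (by simp)
  refine h.cast3 ?_ ?_ ?_ ?_
  · simp [SS.real]
  · have : sumK blkTE = 9905 := by decide +kernel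
    simp only [Acc.val, this]; simp; try ring
  · simp only [Acc.val]; simp; try ring
  · simp [SS.real]

/-- block list -/
def blkT7 : List (ℕ × ℕ) :=
  [(274, 6), (100, 9), (274, 6), (100, 9), (256, 6), (100, 7), (214, 6), (100, 7), (208, 6), (124, 9),
  (226, 6), (124, 9), (226, 8), (118, 9), (256, 6), (130, 7), (244, 6), (142, 9), (232, 6), (172, 7),
  (196, 6), (178, 9), (184, 8), (160, 9), (166, 8), (142, 7), (154, 8), (118, 7), (166, 8), (136, 9),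
  (184, 8), (136, 9), (184, 6), (100, 9), (184, 6), (100, 9), (166, 6), (100, 7), (124, 6), (100, 7),
  (118, 6), (124, 9), (136, 6), (124, 9), (136, 8), (118, 9), (166, 6), (130, 7), (154, 6), (142, 9),
  (142, 6), (172, 7), (130, 6), (220, 7), (130, 8), (280, 9)]

theorem chkT7 : checkSeg ⟨1, 29, 0, 4, 2, 14, 0, 24, 0, 9, 0, 1, 3⟩ blkT7
    ⟨1, 9, 0, 28, 2, 28, 0, 6, 0, 9, 0, 1, 3⟩ ⟨3002, 184, 28, 28, 0⟩ = true := by decide +kernel

theorem segT7 {n : ℕ} (hn : 15 ≤ n) (x y : ℕ) :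
    Seg n ⟨4 * x + 29, 4, 4 * y + 14, 24, 9, 1, 3⟩ (9020 + 30 * (184 + 28 * x + 28 * y)) (3002 + 8 * (184 + 28 * x + 28 * y))
      ⟨4 * x + 9, 28, 4 * y + 28, 6, 9, 1, 3⟩ := by
  have h := checkSeg_sound chkT7 (n := n) (v := (fun t => if t = 1 then x else if t = 2 then y else if t = 3 then 0 else 0)) hn (by simp)
  refine h.cast3 ?_ ?_ ?_ ?_
  · simp [SS.real]
  · have : sumK blkT7 = 9020 := by decide +kernel
    simp only [Acc.val, this]; simp; try ring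
  · simp only [Acc.val]; simp; try ring
  · simp [SS.real]

/-- block list -/
def blkT11 : List (ℕ × ℕ) :=
  [(273, 8), (416, 8), (404, 6), (368, 6), (338, 8), (302, 6), (272, 8), (272, 6), (290, 6), (314, 6),
  (326, 8), (356, 8), (404, 6), (386, 6), (392, 8), (392, 6)]

theorem chkT11 : checkSeg ⟨0, 17, 1, 16, 0, 20, 0, 6, 0, 9, 0, 1, 3⟩ blkT11
    ⟨1, 13, 0, 6, 0, 26, 0, 17, 0, 6, 0, 1, 3⟩ ⟨1836, 40, 16, 0, 0⟩ = true := by decide +kernel

theorem segT11 {n : ℕ} (hn : 15 ≤ n) (x : ℕ) :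
    Seg n ⟨17, 4 * x + 16, 20, 6, 9, 1, 3⟩ (5505 + 30 * (40 + 16 * x)) (1836 + 8 * (40 + 16 * x))
      ⟨4 * x + 13, 6, 26, 17, 6, 1, 3⟩ := by
  have h := checkSeg_sound chkT11 (n := n) (v := (fun t => if t = 1 then x else if t = 2 then 0 else if t = 3 then 0 else 0)) hn (by simp)
  refine h.cast3 ?_ ?_ ?_ ?_
  · simp [SS.real]
  · have : sumK blkT11 = 5505 := by decide +kernel
    simp only [Acc.val, this]; simp; try ring
  · simp only [Acc.val]; simp; try ring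
  · simp [SS.real]

/-- block list -/
def blkT12 : List (ℕ × ℕ) :=
  [(196, 6), (350, 8), (374, 6), (356, 6), (362, 8), (326, 8), (314, 6), (278, 6), (260, 6), (230, 8),
  (254, 6), (248, 6), (248, 6), (242, 6), (242, 8), (206, 8), (194, 6), (158, 6), (182, 7), (146, 9),
  (164, 7), (134, 9), (146, 7), (146, 9), (164, 7)]

theorem chkT12 : checkSeg ⟨0, 17, 0, 6, 1, 14, 0, 17, 0, 6, 0, 1, 3⟩ blkT12
    ⟨1, 37, 0, 12, 0, 2, 0, 2, 0, 7, 0, 1, 3⟩ ⟨2143, 110, 25, 0, 0⟩ = true := by decide +kernel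

theorem segT12 {n : ℕ} (hn : 15 ≤ n) (x : ℕ) :
    Seg n ⟨17, 6, 4 * x + 14, 17, 6, 1, 3⟩ (5920 + 30 * (110 + 25 * x)) (2143 + 8 * (110 + 25 * x))
      ⟨4 * x + 37, 12, 2, 2, 7, 1, 3⟩ := by
  have h := checkSeg_sound chkT12 (n := n) (v := (fun t => if t = 1 then x else if t = 2 then 0 else if t = 3 then 0 else 0)) hn (by simp)
  refine h.cast3 ?_ ?_ ?_ ?_
  · simp [SS.real]
  · have : sumK blkT12 = 5920 := by decide +kernel
    simp only [Acc.val, this]; simp; try ring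
  · simp only [Acc.val]; simp; try ring
  · simp [SS.real]

theorem chkT12b : checkEv 96 ⟨1, 37, 0, 12, 0, 2, 0, 2, 0, 7, 0, 1, 3⟩ ⟨1, 48, 0, 3, 0, 1, 0, 5, 0, 2, 0, 2, 5⟩ 49 = true := by decide +kernel

theorem chkT12c : checkLast ⟨1, 48, 0, 3, 0, 1, 0, 5, 0, 2, 0, 2, 5⟩ ⟨0, 3, 0, 1, 0, 5, 0, 2, 0, 2, 1, 48, 4⟩ 0 = true := by decide +kernel

/-- block list -/
def blkT3A : List (ℕ × ℕ) :=
  [(303, 6), (83, 9), (285, 6), (119, 7), (285, 6), (89, 9), (285, 6), (89, 9), (261, 6), (89, 9),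
  (231, 6), (89, 7), (195, 6), (83, 7), (195, 6), (119, 9), (213, 8), (101, 9), (207, 8), (107, 9),
  (183, 8), (107, 9), (153, 8), (107, 7), (147, 6), (89, 7), (147, 6), (119, 9), (183, 8), (101, 9),
  (201, 6), (89, 9), (231, 6), (89, 9), (255, 6), (89, 9), (267, 8), (101, 7), (225, 8), (107, 7),
  (267, 6), (89, 7), (267, 6)]

theorem chkT3A : checkSeg ⟨1, 9, 2, 30, 0, 18, 0, 16, 0, 7, 0, 1, 3⟩ blkT3A
    ⟨2, 9, 0, 4, 0, 26, 1, 35, 0, 6, 0, 1, 2⟩ ⟨2336, 139, 21, 22, 0⟩ = true := by decide +kernel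

theorem segT3A {n : ℕ} (hn : 15 ≤ n) (x y : ℕ) :
    Seg n ⟨4 * x + 9, 4 * y + 30, 18, 16, 7, 1, 3⟩ (7041 + 30 * (139 + 21 * x + 22 * y)) (2336 + 8 * (139 + 21 * x + 22 * y))
      ⟨4 * y + 9, 4, 26, 4 * x + 35, 6, 1, 2⟩ := by
  have h := checkSeg_sound chkT3A (n := n) (v := (fun t => if t = 1 then x else if t = 2 then y else if t = 3 then 0 else 0)) hn (by simp)
  refine h.cast3 ?_ ?_ ?_ ?_
  · simp [SS.real]
  · have : sumK blkT3A = 7041 := by decide +kernel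
    simp only [Acc.val, this]; simp; try ring
  · simp only [Acc.val]; simp; try ring
  · simp [SS.real]

/-- block list -/
def blkT4 : List (ℕ × ℕ) :=
  [(119, 9), (113, 6), (100, 8), (101, 9), (107, 6), (124, 6), (89, 9), (107, 6), (273, 9), (107, 8),
  (267, 9), (137, 6), (231, 7), (95, 6), (237, 7), (95, 8), (201, 7), (95, 8), (231, 9), (113, 6),
  (201, 9), (107, 6), (183, 9), (107, 6), (153, 9), (107, 8), (147, 9), (137, 6), (135, 7), (125, 8),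
  (195, 7), (125, 6), (201, 9), (113, 6), (231, 7), (125, 8), (249, 9), (107, 8), (267, 9), (137, 6),
  (255, 7)]

theorem chkT4 : checkSeg ⟨0, 21, 0, 4, 1, 18, 2, 23, 0, 6, 0, 1, 2⟩ blkT4
    ⟨2, 21, 0, 4, 0, 26, 1, 14, 0, 7, 0, 1, 3⟩ ⟨2150, 83, 19, 20, 0⟩ = true := by decide +kernel

theorem segT4 {n : ℕ} (hn : 15 ≤ n) (x y : ℕ) :
    Seg n ⟨21, 4, 4 * x + 18, 4 * y + 23, 6, 1, 2⟩ (6349 + 30 * (83 + 19 * x + 20 * y)) (2150 + 8 * (83 + 19 * x + 20 * y))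
      ⟨4 * y + 21, 4, 26, 4 * x + 14, 7, 1, 3⟩ := by
  have h := checkSeg_sound chkT4 (n := n) (v := (fun t => if t = 1 then x else if t = 2 then y else if t = 3 then 0 else 0)) hn (by simp)
  refine h.cast3 ?_ ?_ ?_ ?_
  · simp [SS.real]
  · have : sumK blkT4 = 6349 := by decide +kernel
    simp only [Acc.val, this]; simp; try ring
  · simp only [Acc.val]; simp; try ring
  · simp [SS.real]

/-- block list -/
def blkT8 : List (ℕ × ℕ) :=
  [(273, 8), (101, 9), (255, 8), (131, 7), (243, 6), (83, 9), (225, 6), (119, 7), (189, 8), (131, 7),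
  (141, 6), (119, 9), (153, 8), (101, 9), (171, 6), (89, 9), (201, 6), (89, 9), (225, 6), (89, 9),
  (237, 8), (101, 7), (195, 8), (107, 7), (237, 6), (89, 7), (237, 6), (119, 9), (273, 8), (101, 9),
  (291, 6)]

theorem chkT8 : checkSeg ⟨1, 17, 2, 16, 0, 20, 0, 6, 0, 9, 0, 1, 3⟩ blkT8
    ⟨2, 13, 0, 6, 0, 26, 1, 17, 0, 6, 0, 1, 3⟩ ⟨1732, 53, 15, 16, 0⟩ = true := by decide +kernel

theorem segT8 {n : ℕ} (hn : 15 ≤ n) (x y : ℕ) :
    Seg n ⟨4 * x + 17, 4 * y + 16, 20, 6, 9, 1, 3⟩ (5115 + 30 * (53 + 15 * x + 16 * y)) (1732 + 8 * (53 + 15 * x + 16 * y))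
      ⟨4 * y + 13, 6, 26, 4 * x + 17, 6, 1, 3⟩ := by
  have h := checkSeg_sound chkT8 (n := n) (v := (fun t => if t = 1 then x else if t = 2 then y else if t = 3 then 0 else 0)) hn (by simp)
  refine h.cast3 ?_ ?_ ?_ ?_
  · simp [SS.real]
  · have : sumK blkT8 = 5115 := by decide +kernel
    simp only [Acc.val, this]; simp; try ring
  · simp only [Acc.val]; simp; try ring
  · simp [SS.real]

/-- block list -/
def blkT9 : List (ℕ × ℕ) :=
  [(89, 9), (107, 6), (183, 9), (107, 8), (177, 9), (137, 6), (141, 7), (95, 6), (147, 7), (95, 8),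
  (147, 9), (113, 8), (177, 9), (113, 8), (201, 9), (107, 8), (207, 9), (137, 6), (189, 7), (95, 6),
  (189, 7), (95, 6), (207, 9), (113, 6), (237, 9), (113, 6), (261, 9), (107, 6), (279, 7), (125, 6),
  (261, 9), (113, 6), (291, 7), (125, 8), (309, 9), (107, 8), (327, 9), (137, 6), (291, 7), (95, 6),
  (297, 7), (95, 8), (297, 9)]

theorem chkT9 : checkSeg ⟨0, 9, 0, 6, 1, 26, 2, 29, 0, 6, 0, 1, 3⟩ blkT9
    ⟨2, 13, 0, 6, 0, 28, 1, 20, 0, 9, 0, 1, 3⟩ ⟨2382, 106, 21, 22, 0⟩ = true := by decide +kernel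

theorem segT9 {n : ℕ} (hn : 15 ≤ n) (x y : ℕ) :
    Seg n ⟨9, 6, 4 * x + 26, 4 * y + 29, 6, 1, 3⟩ (7235 + 30 * (106 + 21 * x + 22 * y)) (2382 + 8 * (106 + 21 * x + 22 * y))
      ⟨4 * y + 13, 6, 28, 4 * x + 20, 9, 1, 3⟩ := by
  have h := checkSeg_sound chkT9 (n := n) (v := (fun t => if t = 1 then x else if t = 2 then y else if t = 3 then 0 else 0)) hn (by simp)
  refine h.cast3 ?_ ?_ ?_ ?_
  · simp [SS.real]
  · have : sumK blkT9 = 7235 := by decide +kernel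
    simp only [Acc.val, this]; simp; try ring
  · simp only [Acc.val]; simp; try ring
  · simp [SS.real]

/-- block list -/
def blkT10 : List (ℕ × ℕ) :=
  [(274, 8), (136, 9), (274, 6), (100, 9), (274, 6), (100, 9), (256, 6), (100, 7), (214, 6), (100, 7),
  (208, 6), (124, 9), (226, 6), (124, 9), (226, 8), (118, 9), (256, 6), (130, 7), (244, 6), (142, 9),
  (232, 6), (172, 7), (196, 6), (178, 9), (184, 8), (160, 9), (166, 8), (142, 7), (154, 8), (118, 7),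
  (166, 8), (136, 9), (184, 8), (136, 9), (184, 6), (100, 9), (184, 6), (100, 9), (166, 6), (100, 7),
  (124, 6), (100, 7), (118, 6), (124, 9), (136, 6), (124, 9), (136, 8), (118, 9), (166, 6), (130, 7),
  (154, 6), (142, 9), (142, 6), (172, 7), (130, 6), (220, 7), (130, 8), (280, 9)]

theorem chkT10 : checkSeg ⟨1, 33, 0, 6, 2, 16, 0, 24, 0, 9, 0, 1, 3⟩ blkT10
    ⟨1, 9, 0, 28, 2, 36, 0, 6, 0, 9, 0, 1, 3⟩ ⟨3138, 245, 29, 29, 0⟩ = true := by decide +kernel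

theorem segT10 {n : ℕ} (hn : 15 ≤ n) (x y : ℕ) :
    Seg n ⟨4 * x + 33, 6, 4 * y + 16, 24, 9, 1, 3⟩ (9430 + 30 * (245 + 29 * x + 29 * y)) (3138 + 8 * (245 + 29 * x + 29 * y))
      ⟨4 * x + 9, 28, 4 * y + 36, 6, 9, 1, 3⟩ := by
  have h := checkSeg_sound chkT10 (n := n) (v := (fun t => if t = 1 then x else if t = 2 then y else if t = 3 then 0 else 0)) hn (by simp)
  refine h.cast3 ?_ ?_ ?_ ?_
  · simp [SS.real]
  · have : sumK blkT10 = 9430 := by decide +kernel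
    simp only [Acc.val, this]; simp; try ring
  · simp only [Acc.val]; simp; try ring
  · simp [SS.real]

end H33.Prom
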