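import Pool.Agent.H33.Prom.Sym
import Pool.Agent.H33.Prom.Orbit

/-!
# Soundness of the symbolic simulator
-/

namespace H33.Prom

/-- state of the gaps -/
@[ext] structure GS where
  g1 : ℕ
  g2 : ℕ
  g3 : ℕ
  g4 : ℕ
  g5 : ℕ
  g6 : ℕ
  m : ℕ

/-- `s` has the gaps `G` -/
def PS.Is (s : PS) (G : GS) : Prop :=
  s.p2 = s.p1 + G.g1 ∧ s.p3 = s.p2 + G.g2 ∧ s.p4 = s.p3 + G.g3 ∧ s.p5 = s.p4 + G.g4 ∧
  s.p6 = s.p5 + G.g5 ∧ s.m = G.m

/-- some entry equals its lower bound -/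
def PS.Tight (s : PS) : Prop :=
  s.p1 = lowB s.m 1 ∨ s.p2 = lowB s.m 2 ∨ s.p3 = lowB s.m 3 ∨ s.p4 = lowB s.m 4 ∨
  s.p5 = lowB s.m 5 ∨ s.p6 = lowB s.m 6

def Evt (n : ℕ) (s : PS) (G : GS) : Prop :=
  s.Valid n ∧ s.Is G ∧ G.g1 + G.g2 + G.g3 + G.g4 + G.g5 + G.g6 + 1 = n ∧ s.Tight

def PS.tot (s : PS) : ℕ := s.p1 + s.p2 + s.p3 + s.p4 + s.p5 + s.p6

/-- From the event state with gaps `G` the dynamics leads, without meeting `s0` (after time `0`),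
to the event state with gaps `G'`, after `E` events with total weight `q`. -/
def Seg (n : ℕ) (G : GS) (E q : ℕ) (G' : GS) : Prop :=
  ∀ s, Evt n s G → ∃ T s', Evt n s' G' ∧ (PS.step n)^[T] s = s' ∧
    (∀ j, 0 < j → j ≤ T → (PS.step n)^[j] s ≠ s0) ∧
    6 * T + q + s'.tot = E * (n - 1) + s.tot

theorem Seg.refl (n : ℕ) (G : GS) : Seg n G 0 0 G := by
  intro s hs
  refine ⟨0, s, hs, rfl, ?_, by omega⟩
  intro j h1 h2; omega

theorem Seg.trans {n : ℕ} {G G' G'' : GS} {E q E' q' : ℕ} (h : Seg n G E q G')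
    (h' : Seg n G' E' q' G'') : Seg n G (E + E') (q + q') G'' := by
  intro s hs
  obtain ⟨T, s1, h1, h2, h3, h4⟩ := h s hs
  obtain ⟨T', s2, h1', h2', h3', h4'⟩ := h' s1 h1
  refine ⟨T + T', s2, h1', ?_, ?_, ?_⟩
  · rw [Nat.add_comm, Function.iterate_add_apply, h2, h2']
  · intro j hj hj'
    by_cases hjT : j ≤ T
    · exact h3 j hj hjT
    · obtain ⟨i, rfl⟩ : ∃ i, j = i + T := ⟨j - T, by omega⟩
      rw [Function.iterate_add_apply, h2]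
      exact h3' i (by omega) (by omega)
  · rw [Nat.add_mul]; omega

theorem Seg.cast {n : ℕ} {G G' : GS} {E q E' q' : ℕ} (h : Seg n G E q G')
    (hE : E = E') (hq : q = q') : Seg n G E' q' G' := by
  subst hE; subst hq; exact h

/-! ### shifts -/

def PS.sh (s : PS) (h : ℕ) : PS :=
  ⟨s.p1 - h, s.p2 - h, s.p3 - h, s.p4 - h, s.p5 - h, s.p6 - h, s.m⟩

def PS.Slack (s : PS) (h : ℕ) : Prop :=
  lowB s.m 1 + h ≤ s.p1 ∧ lowB s.m 2 + h ≤ s.p2 ∧ lowB s.m 3 + h ≤ s.p3 ∧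
  lowB s.m 4 + h ≤ s.p4 ∧ lowB s.m 5 + h ≤ s.p5 ∧ lowB s.m 6 + h ≤ s.p6

theorem lowB_one {m : ℕ} (hm : 2 ≤ m) : lowB m 1 = 2 := by
  unfold lowB; rw [if_pos (by omega)]

theorem step_sh {n : ℕ} {s : PS} {h : ℕ} (hs : s.Slack (h + 1)) :
    (s.sh h).step n = s.sh (h + 1) := by
  obtain ⟨h1, h2, h3, h4, h5, h6⟩ := hs
  unfold PS.step PS.sh
  simp only
  rw [if_neg (by omega), if_neg (by omega), if_neg (by omega), if_neg (by omega),
    if_neg (by omega), if_neg (by omega)]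
  simp only [PS.mk.injEq, and_true]
  omega

theorem iter_sh {n : ℕ} {s : PS} : ∀ h : ℕ, s.Slack h → (PS.step n)^[h] s = s.sh h := by
  intro h
  induction h with
  | zero => intro _; simp [PS.sh]
  | succ h ih =>
    intro hs
    have hs' : s.Slack h := by
      obtain ⟨h1, h2, h3, h4, h5, h6⟩ := hs
      exact ⟨by omega, by omega, by omega, by omega, by omega, by omega⟩
    rw [Function.iterate_succ_apply', ih hs', step_sh hs]

/-- the maximal slack -/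
theorem exists_slack {n : ℕ} {s : PS} (hv : s.Valid n) : ∃ h, s.Slack h ∧ (s.sh h).Tight := by
  unfold PS.Valid at hv
  obtain ⟨a1, a2, a3, a4, a5, a6, a7, a8, a9, b1, b2, b3, b4, b5, b6⟩ := hv
  have key : ∃ h, lowB s.m 1 + h ≤ s.p1 ∧ lowB s.m 2 + h ≤ s.p2 ∧ lowB s.m 3 + h ≤ s.p3 ∧
      lowB s.m 4 + h ≤ s.p4 ∧ lowB s.m 5 + h ≤ s.p5 ∧ lowB s.m 6 + h ≤ s.p6 ∧
      (s.p1 = lowB s.m 1 + h ∨ s.p2 = lowB s.m 2 + h ∨ s.p3 = lowB s.m 3 + h ∨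
       s.p4 = lowB s.m 4 + h ∨ s.p5 = lowB s.m 5 + h ∨ s.p6 = lowB s.m 6 + h) := by
    refine ⟨min (s.p1 - lowB s.m 1) (min (s.p2 - lowB s.m 2) (min (s.p3 - lowB s.m 3)
      (min (s.p4 - lowB s.m 4) (min (s.p5 - lowB s.m 5) (s.p6 - lowB s.m 6))))), ?_⟩
    omega
  obtain ⟨h, k1, k2, k3, k4, k5, k6, k7⟩ := key
  refine ⟨h, ⟨k1, k2, k3, k4, k5, k6⟩, ?_⟩
  unfold PS.Tight PS.sh
  simp only
  omega

theorem sh_valid {n : ℕ} {s : PS} {h : ℕ} (hv : s.Valid n) (hs : s.Slack h) : (s.sh h).Valid n := by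
  obtain ⟨a1, a2, a3, a4, a5, a6, a7, a8, a9, b1, b2, b3, b4, b5, b6⟩ := hv
  obtain ⟨h1, h2, h3, h4, h5, h6⟩ := hs
  have e1 := lowB_one a8
  refine ⟨?_, ?_, ?_, ?_, ?_, ?_, ?_, ?_, ?_, ?_, ?_, ?_, ?_, ?_, ?_⟩ <;> simp only [PS.sh] <;> omega

/-- After an event the state shifts to the next event state. -/
theorem after_event {n : ℕ} (hn : 15 ≤ n) {s : PS} {G' : GS} (hv : s.Valid n)
    (hi : (s.step n).Is G') (hG : G'.g1 + G'.g2 + G'.g3 + G'.g4 + G'.g5 + G'.g6 + 1 = n)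
    {dq : ℕ} (ht : 6 + dq + (s.step n).tot = (n - 1) + s.tot) :
    ∃ T s', 0 < T ∧ Evt n s' G' ∧ (PS.step n)^[T] s = s' ∧
      (∀ j, 0 < j → j < T → (PS.step n)^[j] s ≠ s0) ∧
      6 * T + dq + s'.tot = (n - 1) + s.tot := by
  have hv1 := PS.Valid.step hn hv
  obtain ⟨h, hs, htight⟩ := exists_slack hv1
  refine ⟨h + 1, (s.step n).sh h, by omega, ⟨sh_valid hv1 hs, ?_, hG, htight⟩, ?_, ?_, ?_⟩
  · obtain ⟨i1, i2, i3, i4, i5, i6⟩ := hi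
    obtain ⟨h1, h2, h3, h4, h5, h6⟩ := hs
    obtain ⟨a1, a2, a3, a4, a5, a6, a7, a8, a9, -⟩ := hv1
    refine ⟨?_, ?_, ?_, ?_, ?_, ?_⟩ <;> simp only [PS.sh] <;> omega
  · rw [Function.iterate_succ_apply, iter_sh h hs]
  · intro j hj hj'
    obtain ⟨i, rfl⟩ : ∃ i, j = i + 1 := ⟨j - 1, by omega⟩
    have hs' : (s.step n).Slack i := by
      obtain ⟨h1, h2, h3, h4, h5, h6⟩ := hs
      exact ⟨by omega, by omega, by omega, by omega, by omega, by omega⟩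
    rw [Function.iterate_succ_apply, iter_sh i hs']
    intro e
    have e1 : ((s.step n).sh i).p1 = s0.p1 := by rw [e]
    simp only [PS.sh, s0] at e1
    have := hs.1
    rw [lowB_one hv1.2.2.2.2.2.2.2.1] at this
    omega
  · obtain ⟨h1, h2, h3, h4, h5, h6⟩ := hs
    unfold PS.tot at ht ⊢
    simp only [PS.sh]
    omega

end H33.Prom
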