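import Pool.Agent.H33.Prom.Sound

namespace H33.Prom

def SS.real (S : SS) (w : ℕ → ℕ) : GS :=
  ⟨w S.t1 + S.c1, w S.t2 + S.c2, w S.t3 + S.c3, w S.t4 + S.c4, w S.t5 + S.c5, w S.t6 + S.c6, S.m⟩

theorem lb_eq (m i : ℕ) : lb m i = lowB m i := by
  unfold lb lowB
  rcases lt_trichotomy i m with h | h | h
  · have h1 : Nat.ble m i = false := by
      rw [Bool.eq_false_iff]; intro h'; rw [Nat.ble_eq] at h'; omega
    rw [h1, if_pos h]; rfl
  · subst h
    have h1 : Nat.ble i i = true := Nat.ble_eq.mpr le_rfl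
    have h2 : Nat.beq i i = true := Nat.beq_eq.mpr rfl
    rw [h1, h2, if_neg (lt_irrefl _), if_pos rfl]; rfl
  · have h1 : Nat.ble m i = true := Nat.ble_eq.mpr h.le
    have h2 : Nat.beq m i = false := by
      rw [Bool.eq_false_iff]; intro h'; rw [Nat.beq_eq] at h'; omega
    rw [h1, h2, if_neg (by omega), if_neg (by omega)]; rfl

theorem mx_eq (a b : ℕ) : mx a b = max a b := by
  unfold mx
  by_cases h : a ≤ b
  · rw [Nat.ble_eq.mpr h, max_eq_right h]; rfl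
  · have : Nat.ble a b = false := by
      rw [Bool.eq_false_iff]; intro h'; rw [Nat.ble_eq] at h'; omega
    rw [this, max_eq_left (by omega)]; rfl

theorem dec_eq (i m : ℕ) : dec i m = if i < m then m - 1 else m := by
  unfold dec
  by_cases h : m ≤ i
  · rw [Nat.ble_eq.mpr h, if_neg (by omega)]; rfl
  · have : Nat.ble m i = false := by
      rw [Bool.eq_false_iff]; intro h'; rw [Nat.ble_eq] at h'; omega
    rw [this, if_pos (by omega)]; rfl

theorem cond_beq {α : Type} (a b : ℕ) (x y : α) :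
    cond (Nat.beq a b) x y = if a = b then x else y := by
  by_cases h : a = b
  · rw [if_pos h, Nat.beq_eq.mpr h]; rfl
  · have : Nat.beq a b = false := by
      rw [Bool.eq_false_iff]; intro h'; rw [Nat.beq_eq] at h'; exact h h'
    rw [if_neg h, this]; rfl

theorem cond_ble {α : Type} (a b : ℕ) (x y : α) :
    cond (Nat.ble a b) x y = if a ≤ b then x else y := by
  by_cases h : a ≤ b
  · rw [if_pos h, Nat.ble_eq.mpr h]; rfl
  · have : Nat.ble a b = false := by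
      rw [Bool.eq_false_iff]; intro h'; rw [Nat.ble_eq] at h'; exact h h'
    rw [if_neg h, this]; rfl

/-- the maximum of the `d`'s -/
def SS.Pm (S : SS) : ℕ :=
  max (max (max (max (max 2 (lowB S.m 2 - S.c1)) (lowB S.m 3 - (S.c1 + S.c2)))
    (lowB S.m 4 - (S.c1 + S.c2 + S.c3))) (lowB S.m 5 - (S.c1 + S.c2 + S.c3 + S.c4)))
    (lowB S.m 6 - (S.c1 + S.c2 + S.c3 + S.c4 + S.c5))

def SS.e1 (S : SS) : SS :=
  ⟨S.t2, S.c2, S.t3, S.c3, S.t4, S.c4, S.t5, S.c5, S.t6, S.c6, S.t1, S.c1,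
    if S.m = 2 then 6 else S.m - 1⟩
def SS.e2 (S : SS) : SS :=
  ⟨S.t2, S.c1 + S.c2, S.t3, S.c3, S.t4, S.c4, S.t5, S.c5, S.t6, S.c6 - (S.Pm - 2), 0, S.Pm - 2,
    if 2 < S.m then S.m - 1 else S.m⟩
def SS.e3 (S : SS) : SS :=
  ⟨S.t1, S.c1, S.t3, S.c2 + S.c3, S.t4, S.c4, S.t5, S.c5, S.t6, S.c6 - (S.Pm - 2), 0, S.Pm - 2,
    if 3 < S.m then S.m - 1 else S.m⟩
def SS.e4 (S : SS) : SS :=
  ⟨S.t1, S.c1, S.t2, S.c2, S.t4, S.c3 + S.c4, S.t5, S.c5, S.t6, S.c6 - (S.Pm - 2), 0, S.Pm - 2,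
    if 4 < S.m then S.m - 1 else S.m⟩
def SS.e5 (S : SS) : SS :=
  ⟨S.t1, S.c1, S.t2, S.c2, S.t3, S.c3, S.t5, S.c4 + S.c5, S.t6, S.c6 - (S.Pm - 2), 0, S.Pm - 2,
    if 5 < S.m then S.m - 1 else S.m⟩
def SS.e6 (S : SS) : SS :=
  ⟨S.t1, S.c1, S.t2, S.c2, S.t3, S.c3, S.t4, S.c4, S.t6, S.c5 + S.c6 - (S.Pm - 2), 0, S.Pm - 2,
    if 6 < S.m then S.m - 1 else S.m⟩

theorem evK_eq {α : Type} (S : SS) (k : SS → ℕ → Option α) :
    evK S k = if S.Pm = 2 then k S.e1 0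
      else if S.c6 ≤ S.Pm - 2 then none
      else if S.Pm = lowB S.m 2 - S.c1 then
        (if S.t1 = 0 then k S.e2 (lowB S.m 2 - 2) else none)
      else if S.Pm = lowB S.m 3 - (S.c1 + S.c2) then
        (if S.t1 + S.t2 = 0 then k S.e3 (lowB S.m 3 - 2) else none)
      else if S.Pm = lowB S.m 4 - (S.c1 + S.c2 + S.c3) then
        (if S.t1 + S.t2 + S.t3 = 0 then k S.e4 (lowB S.m 4 - 2) else none)
      else if S.Pm = lowB S.m 5 - (S.c1 + S.c2 + S.c3 + S.c4) then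
        (if S.t1 + S.t2 + S.t3 + S.t4 = 0 then k S.e5 (lowB S.m 5 - 2) else none)
      else (if S.t1 + S.t2 + S.t3 + S.t4 + S.t5 = 0 then k S.e6 (lowB S.m 6 - 2) else none) := by
  cases S
  unfold evK
  simp only [force_eq, cond_beq, cond_ble, lb_eq, mx_eq, dec_eq]
  rfl

theorem ev_case {n : ℕ} (hn : 15 ≤ n) {w : ℕ → ℕ} (hw : w 0 = 0) {S S' : SS} {dq : ℕ}
    {s : PS} (hs : Evt n s (S.real w))
    (h : evK S (fun S' dq => some (S', dq)) = some (S', dq)) :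
    ∃ T s', 0 < T ∧ Evt n s' (S'.real w) ∧ (PS.step n)^[T] s = s' ∧
      (∀ j, 0 < j → j < T → (PS.step n)^[j] s ≠ s0) ∧
      6 * T + dq + s'.tot = (n - 1) + s.tot := by
  obtain ⟨hv, hi, hsum, ht⟩ := hs
  have hv' := hv
  obtain ⟨a1, a2, a3, a4, a5, a6, a7, a8, a9, b1, b2, b3, b4, b5, b6⟩ := hv'
  have hi' := hi
  obtain ⟨i1, i2, i3, i4, i5, i6⟩ := hi'
  have L1 : lowB s.m 1 = 2 := lowB_one a8
  unfold PS.Tight at ht
  simp only [SS.real] at i1 i2 i3 i4 i5 i6 hsum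
  rw [i6] at ht b1 b2 b3 b4 b5 b6 L1 a8
  have hP : S.Pm = max (max (max (max (max 2 (lowB S.m 2 - S.c1)) (lowB S.m 3 - (S.c1 + S.c2)))
    (lowB S.m 4 - (S.c1 + S.c2 + S.c3))) (lowB S.m 5 - (S.c1 + S.c2 + S.c3 + S.c4)))
    (lowB S.m 6 - (S.c1 + S.c2 + S.c3 + S.c4 + S.c5)) := rfl
  rw [evK_eq] at h
  have p1 : 2 ≤ S.Pm := by omega
  have p2 : lowB S.m 2 ≤ S.Pm + S.c1 := by omega
  have p3 : lowB S.m 3 ≤ S.Pm + (S.c1 + S.c2) := by omega
  have p4 : lowB S.m 4 ≤ S.Pm + (S.c1 + S.c2 + S.c3) := by omega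
  have p5 : lowB S.m 5 ≤ S.Pm + (S.c1 + S.c2 + S.c3 + S.c4) := by omega
  have p6 : lowB S.m 6 ≤ S.Pm + (S.c1 + S.c2 + S.c3 + S.c4 + S.c5) := by omega
  have pd : S.Pm = 2 ∨ S.Pm + S.c1 = lowB S.m 2 ∨ S.Pm + (S.c1 + S.c2) = lowB S.m 3 ∨
      S.Pm + (S.c1 + S.c2 + S.c3) = lowB S.m 4 ∨
      S.Pm + (S.c1 + S.c2 + S.c3 + S.c4) = lowB S.m 5 ∨
      S.Pm + (S.c1 + S.c2 + S.c3 + S.c4 + S.c5) = lowB S.m 6 := by omega
  clear hP
  have q1 : s.p1 ≤ S.Pm := by omega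
  split_ifs at h with k1 k2 k3 k4 k5 k6 k7 k8 k9 k10 k11
  · -- event 1
    simp only [Option.some.injEq, Prod.mk.injEq] at h
    obtain ⟨rfl, rfl⟩ := h
    have hp : s.p1 = 2 := by omega
    have hst : s.step n = ⟨s.p2 - 1, s.p3 - 1, s.p4 - 1, s.p5 - 1, s.p6 - 1, n,
        if S.m = 2 then 6 else S.m - 1⟩ := by
      unfold PS.step
      rw [i6, if_pos (by omega)]
    refine after_event hn hv ?_ ?_ ?_
    · rw [hst]
      refine ⟨?_, ?_, ?_, ?_, ?_, rfl⟩ <;> simp only [SS.real, SS.e1] <;> omega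
    · simp only [SS.real, SS.e1]; omega
    · rw [hst]; simp only [PS.tot]; omega
  · -- event 2
    simp only [Option.some.injEq, Prod.mk.injEq] at h
    obtain ⟨rfl, rfl⟩ := h
    rw [k4, hw] at i1 hsum
    have hp : s.p1 = S.Pm := by omega
    have hst : s.step n = ⟨s.p1 - 1, s.p3 - 1, s.p4 - 1, s.p5 - 1, s.p6 - 1, n,
        if 2 < S.m then S.m - 1 else S.m⟩ := by
      unfold PS.step
      rw [i6, if_neg (by omega), if_pos (by omega)]
    refine after_event hn hv ?_ ?_ ?_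
    · rw [hst]
      refine ⟨?_, ?_, ?_, ?_, ?_, rfl⟩ <;> simp only [SS.real, SS.e2] <;> omega
    · simp only [SS.real, SS.e2, hw]; omega
    · rw [hst]; simp only [PS.tot]; omega
  · -- event 3
    simp only [Option.some.injEq, Prod.mk.injEq] at h
    obtain ⟨rfl, rfl⟩ := h
    have z1 : S.t1 = 0 := by omega
    have z2 : S.t2 = 0 := by omega
    rw [z1, hw] at i1
    rw [z2, hw] at i2
    rw [z1, z2, hw] at hsum
    have hp : s.p1 = S.Pm := by omega
    have hst : s.step n = ⟨s.p1 - 1, s.p2 - 1, s.p4 - 1, s.p5 - 1, s.p6 - 1, n,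
        if 3 < S.m then S.m - 1 else S.m⟩ := by
      unfold PS.step
      rw [i6, if_neg (by omega), if_neg (by omega), if_pos (by omega)]
    refine after_event hn hv ?_ ?_ ?_
    · rw [hst]
      refine ⟨?_, ?_, ?_, ?_, ?_, rfl⟩ <;> simp only [SS.real, SS.e3, z1, z2, hw] <;> omega
    · simp only [SS.real, SS.e3, z1, z2, hw]; omega
    · rw [hst]; simp only [PS.tot]; omega
  · -- event 4
    simp only [Option.some.injEq, Prod.mk.injEq] at h
    obtain ⟨rfl, rfl⟩ := h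
    have z1 : S.t1 = 0 := by omega
    have z2 : S.t2 = 0 := by omega
    have z3 : S.t3 = 0 := by omega
    rw [z1, hw] at i1
    rw [z2, hw] at i2
    rw [z3, hw] at i3
    rw [z1, z2, z3, hw] at hsum
    have hp : s.p1 = S.Pm := by omega
    have hst : s.step n = ⟨s.p1 - 1, s.p2 - 1, s.p3 - 1, s.p5 - 1, s.p6 - 1, n,
        if 4 < S.m then S.m - 1 else S.m⟩ := by
      unfold PS.step
      rw [i6, if_neg (by omega), if_neg (by omega), if_neg (by omega), if_pos (by omega)]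
    refine after_event hn hv ?_ ?_ ?_
    · rw [hst]
      refine ⟨?_, ?_, ?_, ?_, ?_, rfl⟩ <;> simp only [SS.real, SS.e4, z1, z2, z3, hw] <;> omega
    · simp only [SS.real, SS.e4, z1, z2, z3, hw]; omega
    · rw [hst]; simp only [PS.tot]; omega
  · -- event 5
    simp only [Option.some.injEq, Prod.mk.injEq] at h
    obtain ⟨rfl, rfl⟩ := h
    have z1 : S.t1 = 0 := by omega
    have z2 : S.t2 = 0 := by omega
    have z3 : S.t3 = 0 := by omega
    have z4 : S.t4 = 0 := by omega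
    rw [z1, hw] at i1
    rw [z2, hw] at i2
    rw [z3, hw] at i3
    rw [z4, hw] at i4
    rw [z1, z2, z3, z4, hw] at hsum
    have hp : s.p1 = S.Pm := by omega
    have hst : s.step n = ⟨s.p1 - 1, s.p2 - 1, s.p3 - 1, s.p4 - 1, s.p6 - 1, n,
        if 5 < S.m then S.m - 1 else S.m⟩ := by
      unfold PS.step
      rw [i6, if_neg (by omega), if_neg (by omega), if_neg (by omega), if_neg (by omega), if_pos (by omega)]
    refine after_event hn hv ?_ ?_ ?_
    · rw [hst]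
      refine ⟨?_, ?_, ?_, ?_, ?_, rfl⟩ <;> simp only [SS.real, SS.e5, z1, z2, z3, z4, hw] <;> omega
    · simp only [SS.real, SS.e5, z1, z2, z3, z4, hw]; omega
    · rw [hst]; simp only [PS.tot]; omega
  · -- event 6
    simp only [Option.some.injEq, Prod.mk.injEq] at h
    obtain ⟨rfl, rfl⟩ := h
    have z1 : S.t1 = 0 := by omega
    have z2 : S.t2 = 0 := by omega
    have z3 : S.t3 = 0 := by omega
    have z4 : S.t4 = 0 := by omega
    have z5 : S.t5 = 0 := by omega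
    rw [z1, hw] at i1
    rw [z2, hw] at i2
    rw [z3, hw] at i3
    rw [z4, hw] at i4
    rw [z5, hw] at i5
    rw [z1, z2, z3, z4, z5, hw] at hsum
    have hp : s.p1 = S.Pm := by omega
    have hst : s.step n = ⟨s.p1 - 1, s.p2 - 1, s.p3 - 1, s.p4 - 1, s.p5 - 1, n,
        if 6 < S.m then S.m - 1 else S.m⟩ := by
      unfold PS.step
      rw [i6, if_neg (by omega), if_neg (by omega), if_neg (by omega), if_neg (by omega), if_neg (by omega), if_pos (by omega)]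
    refine after_event hn hv ?_ ?_ ?_
    · rw [hst]
      refine ⟨?_, ?_, ?_, ?_, ?_, rfl⟩ <;> simp only [SS.real, SS.e6, z1, z2, z3, z4, z5, hw] <;> omega
    · simp only [SS.real, SS.e6, z1, z2, z3, z4, z5, hw]; omega
    · rw [hst]; simp only [PS.tot]; omega

end H33.Prom
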