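import Pool.Agent.H33.Prom.Sound2

namespace H33.Prom

theorem evK_bind {α : Type} (S : SS) (k : SS → ℕ → Option α) :
    evK S k = (evK S (fun S' dq => some (S', dq))).bind (fun p => k p.1 p.2) := by
  rw [evK_eq, evK_eq]
  split_ifs <;> rfl

theorem ssEq_eq {S T : SS} (h : ssEq S T = true) : S = T := by
  cases S; cases T
  simp only [ssEq, Bool.and_eq_true, Nat.beq_eq] at h
  obtain ⟨⟨⟨⟨⟨⟨⟨⟨⟨⟨⟨⟨h1, h2⟩, h3⟩, h4⟩, h5⟩, h6⟩, h7⟩, h8⟩, h9⟩, h10⟩, h11⟩, h12⟩, h13⟩ := h
  subst h1 h2 h3 h4 h5 h6 h7 h8 h9 h10 h11 h12 h13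
  rfl

theorem ne1_ne {w : ℕ → ℕ} (hw : w 0 = 0) {t c x : ℕ} (h : ne1 t c x = true) : w t + c ≠ x := by
  unfold ne1 at h
  rw [cond_beq, cond_beq] at h
  split_ifs at h with h1 h2
  · subst h1; rw [hw]; omega
  · rw [Nat.blt_eq] at h; omega

theorem notStart_ne {w : ℕ → ℕ} (hw : w 0 = 0) {S : SS} (h : notStart S = true) {s : PS}
    (hs : s.Is (S.real w)) : s ≠ s0 := by
  rintro rfl
  obtain ⟨i1, i2, i3, i4, i5, i6⟩ := hs
  simp only [SS.real, s0] at i1 i2 i3 i4 i5 i6
  cases S
  simp only [notStart] at h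
  simp only at i1 i2 i3 i4 i5 i6
  rw [cond_beq, if_pos i6.symm] at h
  simp only [Bool.cond_true_left, Bool.or_eq_true] at h
  rcases h with h | h | h | h | h
  · exact ne1_ne hw h (by omega)
  · exact ne1_ne hw h (by omega)
  · exact ne1_ne hw h (by omega)
  · exact ne1_ne hw h (by omega)
  · exact ne1_ne hw h (by omega)

theorem seg_one {n : ℕ} (hn : 15 ≤ n) {w : ℕ → ℕ} (hw : w 0 = 0) {S S' : SS} {dq : ℕ}
    (h : evK S (fun S' dq => some (S', dq)) = some (S', dq)) (hns : notStart S' = true) :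
    Seg n (S.real w) 1 dq (S'.real w) := by
  intro s hs
  obtain ⟨T, s', hT, h1, h2, h3, h4⟩ := ev_case hn hw hs h
  refine ⟨T, s', h1, h2, ?_, by omega⟩
  intro j hj hj'
  rcases Nat.lt_or_ge j T with h5 | h5
  · exact h3 j hj h5
  · have : j = T := by omega
    subst this
    rw [h2]
    exact notStart_ne hw hns h1.2.1

theorem runEv_zero {α : Type} (S : SS) (q : ℕ) (f : SS → ℕ → Option α) :
    runEv 0 S q f = f S q := rfl

theorem runEv_succ {α : Type} (k : ℕ) (S : SS) (q : ℕ) (f : SS → ℕ → Option α) :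
    runEv (k + 1) S q f = evK S fun S' dq =>
      cond (notStart S') (force (q + dq) fun q' => runEv k S' q' f) none := rfl

theorem runEv_sound {α : Type} (k : ℕ) : ∀ (S : SS) (q : ℕ) (f : SS → ℕ → Option α) (r : α),
    runEv k S q f = some r → ∃ S' dq, f S' (q + dq) = some r ∧
      ∀ (n : ℕ) (w : ℕ → ℕ), 15 ≤ n → w 0 = 0 → Seg n (S.real w) k dq (S'.real w) := by
  induction k with
  | zero =>
    intro S q f r h
    rw [runEv_zero] at h
    exact ⟨S, 0, h, fun n w _ _ => Seg.refl n _⟩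
  | succ k ih =>
    intro S q f r h
    rw [runEv_succ, evK_bind] at h
    cases he : evK S (fun S' dq => some (S', dq)) with
    | none => rw [he] at h; simp at h
    | some p =>
      obtain ⟨S1, dq1⟩ := p
      rw [he] at h
      simp only [Option.bind_some] at h
      cases hns : notStart S1 with
      | false => rw [hns] at h; simp at h
      | true =>
        rw [hns, force_eq] at h
        simp only [cond_true] at h
        obtain ⟨S', dq, h1, h2⟩ := ih S1 (q + dq1) f r h
        refine ⟨S', dq1 + dq, by rw [← Nat.add_assoc]; exact h1, ?_⟩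
        intro n w hn hw
        have := (seg_one hn hw he hns).trans (h2 n w hn hw)
        exact this.cast (Nat.add_comm 1 k) rfl

theorem leap_unit {S : SS} {c0 : ℕ} (h : leapOk S c0 = true) {n : ℕ} {w : ℕ → ℕ} (hn : 15 ≤ n)
    (hw : w 0 = 0) (b J : ℕ) (hb : S.c1 ≤ b) :
    Seg n ⟨b, w S.t2 + S.c2, w S.t3 + S.c3, w S.t4 + S.c4, c0 + 4 * (J + 1), w S.t6 + S.c6, S.m⟩
      30 8
      ⟨b + 4, w S.t2 + S.c2, w S.t3 + S.c3, w S.t4 + S.c4, c0 + 4 * J, w S.t6 + S.c6, S.m⟩ := by
  obtain ⟨t1, c1, t2, c2, t3, c3, t4, c4, t5, c5, t6, c6, m⟩ := S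
  simp only [leapOk, Bool.and_eq_true, Nat.ble_eq] at h
  obtain ⟨⟨⟨⟨h2, h3⟩, h4⟩, h6⟩, h⟩ := h
  simp only at hb ⊢
  cases hr : runEv 30 ⟨5, c1, t2, c2, t3, c3, t4, c4, 4, c0 + 4, t6, c6, m⟩ 0
      (fun S' q => some (ssEq S' ⟨5, c1 + 4, t2, c2, t3, c3, t4, c4, 4, c0, t6, c6, m⟩ &&
        Nat.beq q 8)) with
  | none => rw [hr] at h; simp at h
  | some b' =>
    rw [hr] at h
    simp only at h
    subst h
    obtain ⟨S', dq, k1, k2⟩ := runEv_sound 30 _ _ _ _ hr
    simp only [Option.some.injEq, Bool.and_eq_true, Nat.beq_eq] at k1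
    obtain ⟨k1, k3⟩ := k1
    have k4 := ssEq_eq k1
    subst k4
    have k5 : dq = 8 := by omega
    subst k5
    have := k2 n (fun t => if t = 4 then 4 * J else if t = 5 then b - c1 else w t) hn
      (by simp only [OfNat.zero_ne_ofNat, if_false]; exact hw)
    simp only [SS.real] at this
    rw [if_neg (show t2 ≠ 4 by omega), if_neg (show t2 ≠ 5 by omega),
      if_neg (show t3 ≠ 4 by omega), if_neg (show t3 ≠ 5 by omega),
      if_neg (show t4 ≠ 4 by omega), if_neg (show t4 ≠ 5 by omega),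
      if_neg (show t6 ≠ 4 by omega), if_neg (show t6 ≠ 5 by omega),
      if_neg (show (5 : ℕ) ≠ 4 by omega)] at this
    simp only [if_true] at this
    have e1 : b - c1 + c1 = b := by omega
    have e2 : b - c1 + (c1 + 4) = b + 4 := by omega
    have e3 : 4 * J + (c0 + 4) = c0 + 4 * (J + 1) := by omega
    have e4 : 4 * J + c0 = c0 + 4 * J := by omega
    rw [e1, e2, e3, e4] at this
    exact this

theorem leap_sound {S : SS} {c0 : ℕ} (h : leapOk S c0 = true) {n : ℕ} {w : ℕ → ℕ} (hn : 15 ≤ n)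
    (hw : w 0 = 0) (J : ℕ) : ∀ b, S.c1 ≤ b →
    Seg n ⟨b, w S.t2 + S.c2, w S.t3 + S.c3, w S.t4 + S.c4, c0 + 4 * J, w S.t6 + S.c6, S.m⟩
      (30 * J) (8 * J)
      ⟨b + 4 * J, w S.t2 + S.c2, w S.t3 + S.c3, w S.t4 + S.c4, c0, w S.t6 + S.c6, S.m⟩ := by
  induction J with
  | zero => intro b _; exact Seg.refl n _
  | succ J ih =>
    intro b hb
    have h1 := leap_unit h hn hw b J hb
    have h2 := ih (b + 4) (by omega)
    have h3 := (h1.trans h2).cast (E' := 30 * (J + 1)) (q' := 8 * (J + 1)) (by omega) (by omega)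
    have e : b + 4 + 4 * J = b + 4 * (J + 1) := by omega
    rw [e] at h3
    exact h3

def Acc.val (a : Acc) (v : ℕ → ℕ) : ℕ := a.j0 + a.j1 * v 1 + a.j2 * v 2 + a.j3 * v 3

def sumK : List (ℕ × ℕ) → ℕ
  | [] => 0
  | b :: l => b.1 + sumK l

theorem runBlocks_nil {α : Type} (S : SS) (a : Acc) (f : SS → Acc → Option α) :
    runBlocks [] S a f = f S a := rfl

theorem runBlocks_cons {α : Type} (b : ℕ × ℕ) (l : List (ℕ × ℕ)) (S : SS) (a : Acc)
    (f : SS → Acc → Option α) :
    runBlocks (b :: l) S a f = runEv b.1 S a.q fun S' q =>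
      cond (leapOk S' b.2)
        (match S' with
        | ⟨t1, c1, t2, c2, t3, c3, t4, c4, t5, c5, t6, c6, m⟩ =>
          cond (Nat.beq (t1 * t5) 0 && Nat.ble t5 3 && Nat.ble b.2 c5 &&
              Nat.beq ((c5 - b.2) % 4) 0)
            (force (c1 + (c5 - b.2)) fun x => force (a.j0 + (c5 - b.2) / 4) fun j0 =>
              runBlocks l ⟨t1 + t5, x, t2, c2, t3, c3, t4, c4, 0, b.2, t6, c6, m⟩
              ⟨q, j0, a.j1 + cond (Nat.beq t5 1) 1 0, a.j2 + cond (Nat.beq t5 2) 1 0,
                a.j3 + cond (Nat.beq t5 3) 1 0⟩ f)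
            none)
        none := rfl

theorem runBlocks_sound {α : Type} (l : List (ℕ × ℕ)) :
    ∀ (S : SS) (a : Acc) (f : SS → Acc → Option α) (r : α),
    runBlocks l S a f = some r → ∃ S' a', f S' a' = some r ∧
      ∀ (n : ℕ) (v : ℕ → ℕ), 15 ≤ n → v 0 = 0 → ∃ q' J', a'.q = a.q + q' ∧
        a'.val v = a.val v + J' ∧
        Seg n (S.real (fun t => 4 * v t)) (sumK l + 30 * J') (q' + 8 * J')
          (S'.real (fun t => 4 * v t)) := by
  induction l with
  | nil =>
    intro S a f r h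
    rw [runBlocks_nil] at h
    exact ⟨S, a, h, fun n v _ _ => ⟨0, 0, rfl, rfl, Seg.refl n _⟩⟩
  | cons b l ih =>
    intro S a f r h
    rw [runBlocks_cons] at h
    obtain ⟨S1, dq, h1, h2⟩ := runEv_sound _ _ _ _ _ h
    cases hl : leapOk S1 b.2 with
    | false => rw [hl] at h1; simp at h1
    | true =>
      rw [hl] at h1
      simp only [cond_true] at h1
      have hleap := fun n w (hn : 15 ≤ n) (hw : w 0 = 0) J =>
        leap_sound hl (n := n) (w := w) hn hw J
      obtain ⟨t1, c1, t2, c2, t3, c3, t4, c4, t5, c5, t6, c6, m⟩ := S1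
      simp only at h1 hleap
      cases hc : (Nat.beq (t1 * t5) 0 && Nat.ble t5 3 && Nat.ble b.2 c5 &&
              Nat.beq ((c5 - b.2) % 4) 0) with
      | false => rw [hc] at h1; simp at h1
      | true =>
        rw [hc, force_eq, force_eq] at h1
        simp only [cond_true] at h1
        simp only [Bool.and_eq_true, Nat.beq_eq, Nat.ble_eq] at hc
        obtain ⟨⟨⟨k1, k2⟩, k3⟩, k4⟩ := hc
        obtain ⟨S', a', h3, h4⟩ := ih _ _ _ _ h1
        refine ⟨S', a', h3, ?_⟩
        intro n v hn hv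
        obtain ⟨q', J', g1, g2, g3⟩ := h4 n v hn hv
        refine ⟨dq + q', (v t5 + (c5 - b.2) / 4) + J', ?_, ?_, ?_⟩
        · simp only at g1; omega
        · rw [g2]
          simp only [Acc.val, cond_beq]
          have : t5 = 0 ∨ t5 = 1 ∨ t5 = 2 ∨ t5 = 3 := by omega
          rcases this with rfl | rfl | rfl | rfl
          · rw [hv]; simp; omega
          · simp; ring
          · simp; ring
          · simp; ring
        · have hw : (fun t => 4 * v t) 0 = 0 := by simp only; rw [hv]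
          have s1 := h2 n (fun t => 4 * v t) hn hw
          have s2 := hleap n (fun t => 4 * v t) hn hw (v t5 + (c5 - b.2) / 4)
            (4 * v t1 + c1) (by omega)
          simp only [SS.real] at s1 s2 g3 ⊢
          have e1 : b.2 + 4 * (v t5 + (c5 - b.2) / 4) = 4 * v t5 + c5 := by omega
          have e2 : 4 * v t1 + c1 + 4 * (v t5 + (c5 - b.2) / 4) =
              4 * v (t1 + t5) + (c1 + (c5 - b.2)) := by
            rcases Nat.mul_eq_zero.mp k1 with h | h
            · subst h; simp only [hv, Nat.zero_add, Nat.mul_zero]; omega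
            · subst h; simp only [hv, Nat.add_zero, Nat.mul_zero]; omega
          rw [e1, e2] at s2
          have e3 : (4 * v 0 + b.2) = b.2 := by rw [hv]; omega
          rw [e3] at g3
          have := (s1.trans s2).trans g3
          refine this.cast ?_ ?_
          · simp only [sumK]; ring
          · ring

theorem checkSeg_sound {S S' : SS} {l : List (ℕ × ℕ)} {a : Acc} (h : checkSeg S l S' a = true)
    {n : ℕ} {v : ℕ → ℕ} (hn : 15 ≤ n) (hv : v 0 = 0) :
    Seg n (S.real (fun t => 4 * v t)) (sumK l + 30 * a.val v) (a.q + 8 * a.val v)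
      (S'.real (fun t => 4 * v t)) := by
  unfold checkSeg at h
  cases hr : runBlocks l S ⟨0, 0, 0, 0, 0⟩ (fun T b => some (ssEq T S' && decide (b = a))) with
  | none => rw [hr] at h; simp at h
  | some b =>
    rw [hr] at h
    simp only at h
    subst h
    obtain ⟨T, a', h1, h2⟩ := runBlocks_sound _ _ _ _ _ hr
    simp only [Option.some.injEq, Bool.and_eq_true, decide_eq_true_eq] at h1
    obtain ⟨h3, rfl⟩ := h1
    have h4 := ssEq_eq h3
    subst h4
    obtain ⟨q', J', g1, g2, g3⟩ := h2 n v hn hv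
    have e1 : q' = a'.q := by simp only at g1; omega
    have e2 : J' = a'.val v := by
      rw [g2]; simp [Acc.val]
    rw [e1, e2] at g3
    exact g3

theorem checkEv_sound {S S' : SS} {k q : ℕ} (h : checkEv k S S' q = true)
    {n : ℕ} {w : ℕ → ℕ} (hn : 15 ≤ n) (hw : w 0 = 0) :
    Seg n (S.real w) k q (S'.real w) := by
  unfold checkEv at h
  cases hr : runEv k S 0 (fun T q' => some (ssEq T S' && Nat.beq q' q)) with
  | none => rw [hr] at h; simp at h
  | some b =>
    rw [hr] at h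
    simp only at h
    subst h
    obtain ⟨T, dq, h1, h2⟩ := runEv_sound _ _ _ _ _ hr
    simp only [Option.some.injEq, Bool.and_eq_true, Nat.beq_eq] at h1
    obtain ⟨h3, h4⟩ := h1
    have h5 := ssEq_eq h3
    subst h5
    have e1 : dq = q := by omega
    subst e1
    exact h2 n w hn hw

theorem checkLast_sound {S S' : SS} {q : ℕ} (h : checkLast S S' q = true)
    {n : ℕ} {w : ℕ → ℕ} (hn : 15 ≤ n) (hw : w 0 = 0) {s : PS} (hs : Evt n s (S.real w)) :
    ∃ T s', 0 < T ∧ Evt n s' (S'.real w) ∧ (PS.step n)^[T] s = s' ∧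
      (∀ j, 0 < j → j < T → (PS.step n)^[j] s ≠ s0) ∧
      6 * T + q + s'.tot = (n - 1) + s.tot := by
  unfold checkLast at h
  rw [evK_bind] at h
  cases hr : evK S (fun S' dq => some (S', dq)) with
  | none => rw [hr] at h; simp at h
  | some p =>
    obtain ⟨T, dq⟩ := p
    rw [hr] at h
    simp only [Option.bind_some, Bool.and_eq_true, Nat.beq_eq] at h
    obtain ⟨h1, rfl⟩ := h
    have h2 := ssEq_eq h1
    subst h2
    exact ev_case hn hw hs hr

end H33.Prom
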