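import Pool.Agent.H33.Prom.Model

/-!
# Symbolic simulator

A gap is a pair `(t, c)`: its value under `w : ℕ → ℕ` (with `w 0 = 0`) is `w t + c`.
-/

namespace H33.Prom

/-- forces the evaluation of `x` in the kernel -/
def force {α : Type} (x : ℕ) (k : ℕ → α) : α :=
  Nat.rec (k 0) (fun y _ => k (y + 1)) x

theorem force_eq {α : Type} (x : ℕ) (k : ℕ → α) : force x k = k x := by
  cases x <;> rfl

def lb (m i : ℕ) : ℕ := cond (Nat.ble m i) (cond (Nat.beq m i) 0 (2 * i - 1)) (2 * i)

def mx (a b : ℕ) : ℕ := cond (Nat.ble a b) b a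

structure SS where
  t1 : ℕ
  c1 : ℕ
  t2 : ℕ
  c2 : ℕ
  t3 : ℕ
  c3 : ℕ
  t4 : ℕ
  c4 : ℕ
  t5 : ℕ
  c5 : ℕ
  t6 : ℕ
  c6 : ℕ
  m : ℕ
  deriving DecidableEq

def dec (i m : ℕ) : ℕ := cond (Nat.ble m i) m (m - 1)

/-- the test that the state is not the start state `(3,1,5,2,2,*), m = 4` -/
def ne1 (t c x : ℕ) : Bool := cond (Nat.beq t 0) (cond (Nat.beq c x) false true) (Nat.blt x c)

def notStart (S : SS) : Bool :=
  match S with
  | ⟨t1, c1, t2, c2, t3, c3, t4, c4, t5, c5, _, _, m⟩ =>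
    cond (Nat.beq m 4)
      (cond (ne1 t1 c1 3) true (cond (ne1 t2 c2 1) true (cond (ne1 t3 c3 5) true
        (cond (ne1 t4 c4 2) true (ne1 t5 c5 2))))) true

/-- One event. `k` is the continuation, applied to the new state and to `e - 2`. -/
def evK {α : Type} (S : SS) (k : SS → ℕ → Option α) : Option α :=
  match S with
  | ⟨t1, c1, t2, c2, t3, c3, t4, c4, t5, c5, t6, c6, m⟩ =>
    let d2 := lb m 2 - c1
    let d3 := lb m 3 - (c1 + c2)
    let d4 := lb m 4 - (c1 + c2 + c3)
    let d5 := lb m 5 - (c1 + c2 + c3 + c4)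
    let d6 := lb m 6 - (c1 + c2 + c3 + c4 + c5)
    force (mx (mx (mx (mx (mx 2 d2) d3) d4) d5) d6) fun P =>
    cond (Nat.beq P 2)
      (k ⟨t2, c2, t3, c3, t4, c4, t5, c5, t6, c6, t1, c1, cond (Nat.beq m 2) 6 (m - 1)⟩ 0)
      (cond (Nat.ble c6 (P - 2)) none
      (cond (Nat.beq P d2)
        (cond (Nat.beq t1 0)
          (force (c1 + c2) fun x => force (c6 - (P - 2)) fun y => force (P - 2) fun z =>
            force (dec 2 m) fun m' =>
            k ⟨t2, x, t3, c3, t4, c4, t5, c5, t6, y, 0, z, m'⟩ (lb m 2 - 2)) none)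
      (cond (Nat.beq P d3)
        (cond (Nat.beq (t1 + t2) 0)
          (force (c2 + c3) fun x => force (c6 - (P - 2)) fun y => force (P - 2) fun z =>
            force (dec 3 m) fun m' =>
            k ⟨t1, c1, t3, x, t4, c4, t5, c5, t6, y, 0, z, m'⟩ (lb m 3 - 2)) none)
      (cond (Nat.beq P d4)
        (cond (Nat.beq (t1 + t2 + t3) 0)
          (force (c3 + c4) fun x => force (c6 - (P - 2)) fun y => force (P - 2) fun z =>
            force (dec 4 m) fun m' =>
            k ⟨t1, c1, t2, c2, t4, x, t5, c5, t6, y, 0, z, m'⟩ (lb m 4 - 2)) none)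
      (cond (Nat.beq P d5)
        (cond (Nat.beq (t1 + t2 + t3 + t4) 0)
          (force (c4 + c5) fun x => force (c6 - (P - 2)) fun y => force (P - 2) fun z =>
            force (dec 5 m) fun m' =>
            k ⟨t1, c1, t2, c2, t3, c3, t5, x, t6, y, 0, z, m'⟩ (lb m 5 - 2)) none)
        (cond (Nat.beq (t1 + t2 + t3 + t4 + t5) 0)
          (force (c5 + c6 - (P - 2)) fun y => force (P - 2) fun z =>
            force (dec 6 m) fun m' =>
            k ⟨t1, c1, t2, c2, t3, c3, t4, c4, t6, y, 0, z, m'⟩ (lb m 6 - 2)) none))))))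

/-- `k` events, with the test `notStart` after each of them; `q` accumulates. -/
def runEv {α : Type} (k : ℕ) : SS → ℕ → (SS → ℕ → Option α) → Option α :=
  Nat.rec (fun S q f => f S q)
    (fun _ ih S q f => evK S fun S' dq =>
      cond (notStart S') (force (q + dq) fun q' => ih S' q' f) none) k

def ssEq (S T : SS) : Bool :=
  match S, T with
  | ⟨t1, c1, t2, c2, t3, c3, t4, c4, t5, c5, t6, c6, m⟩,
    ⟨t1', c1', t2', c2', t3', c3', t4', c4', t5', c5', t6', c6', m'⟩ =>
    Nat.beq t1 t1' && Nat.beq c1 c1' && Nat.beq t2 t2' && Nat.beq c2 c2' && Nat.beq t3 t3' &&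
    Nat.beq c3 c3' && Nat.beq t4 t4' && Nat.beq c4 c4' && Nat.beq t5 t5' && Nat.beq c5 c5' &&
    Nat.beq t6 t6' && Nat.beq c6 c6' && Nat.beq m m'

/-- leap check: with `g5 = A + c0 + 4` and `g1 = B + c1`, thirty events with total `e - 2` equal to
`8` lead to `g5 = A + c0`, `g1 = B + c1 + 4`. -/
def leapOk (S : SS) (c0 : ℕ) : Bool :=
  match S with
  | ⟨_, c1, t2, c2, t3, c3, t4, c4, _, _, t6, c6, m⟩ =>
    Nat.ble t2 3 && Nat.ble t3 3 && Nat.ble t4 3 && Nat.ble t6 3 &&
    match runEv 30 ⟨5, c1, t2, c2, t3, c3, t4, c4, 4, c0 + 4, t6, c6, m⟩ 0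
      (fun S' q => some (ssEq S' ⟨5, c1 + 4, t2, c2, t3, c3, t4, c4, 4, c0, t6, c6, m⟩ &&
        Nat.beq q 8)) with
    | some b => b
    | none => false

structure Acc where
  q : ℕ
  j0 : ℕ
  j1 : ℕ
  j2 : ℕ
  j3 : ℕ
  deriving DecidableEq

/-- run a list of blocks `(k, c0)`: `k` events and a leap with landing constant `c0`. -/
def runBlocks {α : Type} (l : List (ℕ × ℕ)) :
    SS → Acc → (SS → Acc → Option α) → Option α :=
  List.rec (fun S a f => f S a)
    (fun b _ ih S a f => runEv b.1 S a.q fun S' q =>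
      cond (leapOk S' b.2)
        (match S' with
        | ⟨t1, c1, t2, c2, t3, c3, t4, c4, t5, c5, t6, c6, m⟩ =>
          cond (Nat.beq (t1 * t5) 0 && Nat.ble t5 3 && Nat.ble b.2 c5 &&
              Nat.beq ((c5 - b.2) % 4) 0)
            (force (c1 + (c5 - b.2)) fun x => force (a.j0 + (c5 - b.2) / 4) fun j0 =>
              ih ⟨t1 + t5, x, t2, c2, t3, c3, t4, c4, 0, b.2, t6, c6, m⟩
              ⟨q, j0, a.j1 + cond (Nat.beq t5 1) 1 0, a.j2 + cond (Nat.beq t5 2) 1 0,
                a.j3 + cond (Nat.beq t5 3) 1 0⟩ f)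
            none)
        none) l

def checkSeg (S : SS) (l : List (ℕ × ℕ)) (S' : SS) (a : Acc) : Bool :=
  match runBlocks l S ⟨0, 0, 0, 0, 0⟩ (fun T b => some (ssEq T S' && decide (b = a))) with
  | some b => b
  | none => false

/-- `k` events (with the test `notStart`) lead from `S` to `S'`, with total weight `q`. -/
def checkEv (k : ℕ) (S S' : SS) (q : ℕ) : Bool :=
  match runEv k S 0 (fun T q' => some (ssEq T S' && Nat.beq q' q)) with
  | some b => b
  | none => false

/-- one event (without the test) leads from `S` to `S'`, with weight `q`. -/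
def checkLast (S S' : SS) (q : ℕ) : Bool :=
  match evK S (fun T q' => some (ssEq T S' && Nat.beq q' q)) with
  | some b => b
  | none => false

end H33.Prom
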